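import Mathlib

/-!
# LEAF DA: the lattice lemma

PROOF.  If `A` has at most one element: `D ≤ h²` (`hlev`, `1 ≤ H`), so `#A · D ≤ h²`.  Otherwise choose `P ≠ P'` in `A` with the smallest `l = max |P.1 - P'.1| |P.2 - P'.2| ≥ 1`, `b = P - P'`; `l ≤ 2 h`.  Say `|b.1| = l` (the other case is the same with the coordinates exchanged).
Fix `P₀ ∈ A`.  `y(Q) = (b.1 (Q.2 - P₀.2) - b.2 (Q.1 - P₀.1)) / D` is an integer for `Q ∈ A` with `|y(Q)| ≤ 4 l h / D`: at most `8 l h / D + 1` values (real division).  If `y(Q) = y(Q')`, `Q ≠ Q'`, then `b.1 (Q.2 - Q'.2) = b.2 (Q.1 - Q'.1)`, so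
`|Q.2 - Q'.2| ≤ |Q.1 - Q'.1|` (`|b.2| ≤ l = |b.1|`), so `|Q.1 - Q'.1| ≥ l` by the choice of `l`: the first coordinates of the points with a given `y` are integers in `[-h, h]` with mutual distances `≥ l`: at most `2 h / l + 1` points.
So `#A ≤ (8 l h / D + 1) (2 h / l + 1) = 16 h² / D + 8 l h / D + 2 h / l + 1 ≤ 32 h² / D + 2 h / l + 1` (`l ≤ 2 h`).  By `hmin` for `P, P'`: `D ≤ 3 H l²`, so with `3 H D ≤ h²`: `D² ≤ 3 H D l² ≤ h² l²`, `D ≤ h l`, `2 h / l ≤ 2 h² / D`; and `1 ≤ h² / D`.  Total `≤ 35 h² / D`.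
-/

set_option autoImplicit false

namespace HT

private theorem DA_core (A : Finset (ℤ × ℤ)) (h D l : ℕ) (hD : 1 ≤ D) (hl : 1 ≤ l)
    (hA : ∀ P ∈ A, |P.1| ≤ (h : ℤ) ∧ |P.2| ≤ (h : ℤ)) (b : ℤ × ℤ)
    (hb1 : |b.1| = (l : ℤ)) (hb2 : |b.2| ≤ (l : ℤ))
    (hdb : ∀ Q ∈ A, ∀ Q' ∈ A, (D : ℤ) ∣ b.1 * (Q.2 - Q'.2) - b.2 * (Q.1 - Q'.1))
    (hsep : ∀ Q ∈ A, ∀ Q' ∈ A, Q ≠ Q' → (l : ℤ) ≤ max |Q.1 - Q'.1| |Q.2 - Q'.2|) :
    A.card ≤ (2 * h / l + 1) * (2 * (4 * l * h / D) + 1) := by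
  classical
  rcases A.eq_empty_or_nonempty with rfl | ⟨P₀, hP₀⟩
  · simp
  have hDz : (0 : ℤ) < D := by exact_mod_cast hD
  have hlz : (0 : ℤ) < l := by exact_mod_cast hl
  have hdist : ∀ Q ∈ A, ∀ Q' ∈ A, |Q.1 - Q'.1| ≤ 2 * h ∧ |Q.2 - Q'.2| ≤ 2 * h := by
    intro Q hQ Q' hQ'
    obtain ⟨h1, h2⟩ := hA Q hQ
    obtain ⟨h3, h4⟩ := hA Q' hQ'
    rw [abs_le] at h1 h2 h3 h4
    refine ⟨?_, ?_⟩ <;> rw [abs_le] <;> constructor <;> linarith [h1.1, h1.2, h2.1, h2.2, h3.1, h3.2, h4.1, h4.2]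
  let y : ℤ × ℤ → ℤ := fun Q => (b.1 * (Q.2 - P₀.2) - b.2 * (Q.1 - P₀.1)) / D
  have hy : ∀ Q ∈ A, y Q * D = b.1 * (Q.2 - P₀.2) - b.2 * (Q.1 - P₀.1) := fun Q hQ =>
    Int.ediv_mul_cancel (hdb Q hQ P₀ hP₀)
  have hyb : ∀ Q ∈ A, |y Q| ≤ ((4 * l * h / D : ℕ) : ℤ) := by
    intro Q hQ
    obtain ⟨h1, h2⟩ := hdist Q hQ P₀ hP₀
    have h3 : |y Q| * D ≤ 4 * l * h := by
      have h4 : |y Q| * D = |y Q * D| := by rw [abs_mul, Nat.abs_cast]
      rw [h4, hy Q hQ]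
      calc |b.1 * (Q.2 - P₀.2) - b.2 * (Q.1 - P₀.1)|
          ≤ |b.1 * (Q.2 - P₀.2)| + |b.2 * (Q.1 - P₀.1)| := abs_sub _ _
        _ = |b.1| * |Q.2 - P₀.2| + |b.2| * |Q.1 - P₀.1| := by rw [abs_mul, abs_mul]
        _ ≤ l * (2 * h) + l * (2 * h) := by
            refine add_le_add ?_ ?_
            · rw [hb1]
              exact mul_le_mul_of_nonneg_left h2 hlz.le
            · exact mul_le_mul hb2 h1 (abs_nonneg _) hlz.le
        _ = 4 * l * h := by ring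
    have h5 : |y Q| ≤ (4 * l * h : ℤ) / D := (Int.le_ediv_iff_mul_le hDz).2 h3
    push_cast
    exact h5
  have himg : (A.image y).card ≤ 2 * (4 * l * h / D) + 1 := by
    have h1 : A.image y ⊆ Finset.Icc (-((4 * l * h / D : ℕ) : ℤ)) ((4 * l * h / D : ℕ) : ℤ) := by
      intro v hv
      obtain ⟨Q, hQ, rfl⟩ := Finset.mem_image.1 hv
      rw [Finset.mem_Icc]
      exact abs_le.1 (hyb Q hQ)
    refine (Finset.card_le_card h1).trans ?_
    rw [Int.card_Icc]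
    omega
  have hfib : ∀ v ∈ A.image y, (A.filter fun Q => y Q = v).card ≤ 2 * h / l + 1 := by
    intro v _
    have hinj : Set.InjOn (fun Q : ℤ × ℤ => (Q.1 + h) / l) (A.filter fun Q => y Q = v : Finset (ℤ × ℤ)) := by
      intro Q hQ Q' hQ' hQQ
      rw [Finset.mem_coe, Finset.mem_filter] at hQ hQ'
      by_contra hne
      have h1 := hsep Q hQ.1 Q' hQ'.1 hne
      have h2 : b.1 * (Q.2 - Q'.2) = b.2 * (Q.1 - Q'.1) := by
        have h3 := hy Q hQ.1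
        have h4 := hy Q' hQ'.1
        rw [hQ.2] at h3
        rw [hQ'.2] at h4
        linear_combination h4 - h3
      have h5 : |Q.2 - Q'.2| ≤ |Q.1 - Q'.1| := by
        have h6 : (l : ℤ) * |Q.2 - Q'.2| = |b.2| * |Q.1 - Q'.1| := by
          rw [← hb1, ← abs_mul, h2, abs_mul]
        have h7 : (l : ℤ) * |Q.2 - Q'.2| ≤ l * |Q.1 - Q'.1| := by
          rw [h6]
          exact mul_le_mul_of_nonneg_right hb2 (abs_nonneg _)
        exact le_of_mul_le_mul_left h7 hlz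
      rw [max_eq_left h5] at h1
      have h8 : (Q.1 + h) / l = (Q'.1 + h) / l := hQQ
      have h9 := Int.emod_add_mul_ediv (Q.1 + h) l
      have h10 := Int.emod_add_mul_ediv (Q'.1 + h) l
      have h11 := Int.emod_nonneg (Q.1 + h) hlz.ne'
      have h12 := Int.emod_nonneg (Q'.1 + h) hlz.ne'
      have h13 := Int.emod_lt_of_pos (Q.1 + h) hlz
      have h14 := Int.emod_lt_of_pos (Q'.1 + h) hlz
      rw [h8] at h9
      have h15 : |Q.1 - Q'.1| < l := by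
        rw [abs_lt]
        constructor <;> linarith
      linarith
    have hsub : (A.filter fun Q => y Q = v).image (fun Q : ℤ × ℤ => (Q.1 + h) / l) ⊆
        Finset.Icc (0 : ℤ) ((2 * h / l : ℕ) : ℤ) := by
      intro w hw
      obtain ⟨Q, hQ, rfl⟩ := Finset.mem_image.1 hw
      rw [Finset.mem_filter] at hQ
      have h1 := abs_le.1 (hA Q hQ.1).1
      rw [Finset.mem_Icc]
      refine ⟨Int.ediv_nonneg (by linarith [h1.1]) hlz.le, ?_⟩
      push_cast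
      exact Int.ediv_le_ediv hlz (by linarith [h1.2])
    rw [← Finset.card_image_of_injOn hinj]
    refine (Finset.card_le_card hsub).trans ?_
    rw [Int.card_Icc]
    generalize 2 * h / l = m
    omega
  calc A.card ≤ (2 * h / l + 1) * (A.image y).card := Finset.card_le_mul_card_image A _ hfib
    _ ≤ _ := Nat.mul_le_mul_left _ himg

private theorem DA_real (c h D l : ℕ) (hD : 1 ≤ D) (hl : 1 ≤ l) (hl2 : l ≤ 2 * h)
    (hDh : D ≤ h ^ 2) (hDl : D ≤ h * l)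
    (hc : c ≤ (2 * h / l + 1) * (2 * (4 * l * h / D) + 1)) : (c : ℝ) * D ≤ 35 * (h : ℝ) ^ 2 := by
  have hD' : (0 : ℝ) < D := by exact_mod_cast hD
  have hl' : (0 : ℝ) < l := by exact_mod_cast hl
  have hh' : (0 : ℝ) ≤ h := Nat.cast_nonneg h
  have h1 : ((2 * h / l : ℕ) : ℝ) ≤ 2 * h / l := by
    have := @Nat.cast_div_le ℝ _ _ _ (2 * h) l
    push_cast at this
    exact this
  have h2 : ((4 * l * h / D : ℕ) : ℝ) ≤ 4 * l * h / D := by
    have := @Nat.cast_div_le ℝ _ _ _ (4 * l * h) D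
    push_cast at this
    exact this
  have h3 : (c : ℝ) ≤ (2 * h / l + 1) * (2 * (4 * l * h / D) + 1) := by
    have h4 : (c : ℝ) ≤ (((2 * h / l : ℕ) : ℝ) + 1) * (2 * ((4 * l * h / D : ℕ) : ℝ) + 1) := by
      exact_mod_cast hc
    refine h4.trans ?_
    refine mul_le_mul ?_ ?_ ?_ ?_
    · linarith
    · linarith
    · positivity
    · positivity
  have h5 : (c : ℝ) * D ≤ (2 * h / l + 1) * (8 * l * h + D) := by
    calc (c : ℝ) * D ≤ (2 * h / l + 1) * (2 * (4 * l * h / D) + 1) * D :=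
          mul_le_mul_of_nonneg_right h3 hD'.le
      _ = (2 * h / l + 1) * (8 * l * h + D) := by
          field_simp
          ring
  refine h5.trans ?_
  have e1 : (2 * (h : ℝ) / l + 1) * (8 * l * h + D) = 16 * h ^ 2 + 8 * (l * h) + 2 * (h * (D / l)) + D := by
    field_simp
    ring
  have e2 : (l : ℝ) * h ≤ 2 * h ^ 2 := by
    have : (l : ℝ) ≤ 2 * h := by exact_mod_cast hl2
    nlinarith
  have e3 : (D : ℝ) / l ≤ h := by
    rw [div_le_iff₀ hl']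
    exact_mod_cast hDl
  have e4 : (h : ℝ) * (D / l) ≤ h ^ 2 := by
    nlinarith
  have e5 : (D : ℝ) ≤ h ^ 2 := by exact_mod_cast hDh
  rw [e1]
  linarith

theorem lat_count (A : Finset (ℤ × ℤ)) (h D H : ℕ) (hH : 1 ≤ H) (hD : 1 ≤ D)
    (hA : ∀ P ∈ A, |P.1| ≤ (h : ℤ) ∧ |P.2| ≤ (h : ℤ))
    (hdet : ∀ P ∈ A, ∀ P' ∈ A, ∀ Q ∈ A, ∀ Q' ∈ A,
      (D : ℤ) ∣ (P.1 - P'.1) * (Q.2 - Q'.2) - (P.2 - P'.2) * (Q.1 - Q'.1))
    (hmin : ∀ P ∈ A, ∀ P' ∈ A, P ≠ P' → (D : ℤ) ≤ 3 * H * (max |P.1 - P'.1| |P.2 - P'.2|) ^ 2)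
    (hlev : 3 * H * D ≤ h ^ 2) : (A.card : ℝ) * D ≤ 35 * (h : ℝ) ^ 2 := by
  classical
  have hDh : D ≤ h ^ 2 := by
    refine le_trans ?_ hlev
    nlinarith
  by_cases hcard : A.card ≤ 1
  · have h1 : (A.card : ℝ) ≤ 1 := by exact_mod_cast hcard
    have h2 : (D : ℝ) ≤ (h : ℝ) ^ 2 := by exact_mod_cast hDh
    have h3 : (0 : ℝ) ≤ D := Nat.cast_nonneg D
    nlinarith [sq_nonneg (h : ℝ)]
  push Not at hcard
  obtain ⟨P₁, hP₁, P₂, hP₂, hne⟩ := Finset.one_lt_card.1 hcard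
  let T : Finset ((ℤ × ℤ) × (ℤ × ℤ)) := (A ×ˢ A).filter fun u => u.1 ≠ u.2
  have hT : T.Nonempty := ⟨(P₁, P₂), by simp [T, hP₁, hP₂, hne]⟩
  obtain ⟨u, hu, hmn⟩ := Finset.exists_min_image T
    (fun u => max |u.1.1 - u.2.1| |u.1.2 - u.2.2|) hT
  obtain ⟨P, P'⟩ := u
  have hu' : (P ∈ A ∧ P' ∈ A) ∧ P ≠ P' := by
    simpa [T] using hu
  obtain ⟨⟨hP, hP'⟩, hPP⟩ := hu'
  have hsep0 : ∀ Q ∈ A, ∀ Q' ∈ A, Q ≠ Q' →
      max |P.1 - P'.1| |P.2 - P'.2| ≤ max |Q.1 - Q'.1| |Q.2 - Q'.2| := by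
    intro Q hQ Q' hQ' hQQ
    exact hmn (Q, Q') (by simp [T, hQ, hQ', hQQ])
  obtain ⟨l, hl⟩ : ∃ l : ℕ, (l : ℤ) = max |P.1 - P'.1| |P.2 - P'.2| :=
    ⟨(max |P.1 - P'.1| |P.2 - P'.2|).toNat, Int.toNat_of_nonneg (le_max_of_le_left (abs_nonneg _))⟩
  have hl1 : 1 ≤ l := by
    rcases Nat.eq_zero_or_pos l with h0 | h0
    · exfalso
      apply hPP
      rw [h0] at hl
      have h1 : |P.1 - P'.1| ≤ 0 := by
        have := le_max_left |P.1 - P'.1| |P.2 - P'.2|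
        rw [← hl] at this
        exact_mod_cast this
      have h2 : |P.2 - P'.2| ≤ 0 := by
        have := le_max_right |P.1 - P'.1| |P.2 - P'.2|
        rw [← hl] at this
        exact_mod_cast this
      have h3 := abs_nonpos_iff.1 h1
      have h4 := abs_nonpos_iff.1 h2
      exact Prod.ext (sub_eq_zero.1 h3) (sub_eq_zero.1 h4)
    · exact h0
  have hl2 : l ≤ 2 * h := by
    have h1 := abs_le.1 (hA P hP).1
    have h2 := abs_le.1 (hA P hP).2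
    have h3 := abs_le.1 (hA P' hP').1
    have h4 := abs_le.1 (hA P' hP').2
    have h5 : max |P.1 - P'.1| |P.2 - P'.2| ≤ 2 * (h : ℤ) := by
      refine max_le ?_ ?_ <;> rw [abs_le] <;> constructor <;>
        linarith [h1.1, h1.2, h2.1, h2.2, h3.1, h3.2, h4.1, h4.2]
    rw [← hl] at h5
    exact_mod_cast h5
  have hDl : D ≤ h * l := by
    have h1 := hmin P hP P' hP' hPP
    rw [← hl] at h1
    have h2 : D ≤ 3 * H * l ^ 2 := by exact_mod_cast h1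
    have h3 : D ^ 2 ≤ (h * l) ^ 2 := by
      calc D ^ 2 = D * D := by ring
        _ ≤ (3 * H * l ^ 2) * D := Nat.mul_le_mul_right _ h2
        _ = (3 * H * D) * l ^ 2 := by ring
        _ ≤ h ^ 2 * l ^ 2 := Nat.mul_le_mul_right _ hlev
        _ = (h * l) ^ 2 := by ring
    exact (Nat.pow_le_pow_iff_left (by norm_num)).1 h3
  refine DA_real A.card h D l hD hl1 hl2 hDh hDl ?_
  rcases le_total |P.2 - P'.2| |P.1 - P'.1| with hcase | hcase
  · have hb : (l : ℤ) = |P.1 - P'.1| := by rw [hl, max_eq_left hcase]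
    refine DA_core A h D l hD hl1 hA (P.1 - P'.1, P.2 - P'.2) hb.symm (by rw [hb]; exact hcase) ?_ ?_
    · intro Q hQ Q' hQ'
      exact hdet P hP P' hP' Q hQ Q' hQ'
    · intro Q hQ Q' hQ' hQQ
      rw [hl]
      exact hsep0 Q hQ Q' hQ' hQQ
  · have hb : (l : ℤ) = |P.2 - P'.2| := by rw [hl, max_eq_right hcase]
    have hcs : (A.image Prod.swap).card = A.card :=
      Finset.card_image_of_injective _ Prod.swap_injective
    rw [← hcs]
    refine DA_core (A.image Prod.swap) h D l hD hl1 ?_ (P.2 - P'.2, P.1 - P'.1) hb.symm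
      (by rw [hb]; exact hcase) ?_ ?_
    · intro R hR
      obtain ⟨Q, hQ, rfl⟩ := Finset.mem_image.1 hR
      exact ⟨(hA Q hQ).2, (hA Q hQ).1⟩
    · intro R hR R' hR'
      obtain ⟨Q, hQ, rfl⟩ := Finset.mem_image.1 hR
      obtain ⟨Q', hQ', rfl⟩ := Finset.mem_image.1 hR'
      have h1 := hdet P hP P' hP' Q hQ Q' hQ'
      have h2 : (P.2 - P'.2) * (Q.1 - Q'.1) - (P.1 - P'.1) * (Q.2 - Q'.2) =
          -((P.1 - P'.1) * (Q.2 - Q'.2) - (P.2 - P'.2) * (Q.1 - Q'.1)) := by ring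
      show (D : ℤ) ∣ (P.2 - P'.2) * (Q.1 - Q'.1) - (P.1 - P'.1) * (Q.2 - Q'.2)
      rw [h2]
      exact (dvd_neg).2 h1
    · intro R hR R' hR' hRR
      obtain ⟨Q, hQ, rfl⟩ := Finset.mem_image.1 hR
      obtain ⟨Q', hQ', rfl⟩ := Finset.mem_image.1 hR'
      have h1 : Q ≠ Q' := fun h => hRR (by rw [h])
      have h2 := hsep0 Q hQ Q' hQ' h1
      show (l : ℤ) ≤ max |Q.2 - Q'.2| |Q.1 - Q'.1|
      rw [hl, max_comm |Q.2 - Q'.2|]
      exact h2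

end HT
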