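import Pool.Agent.Lib.MP_10e784_agHT.DDefs
import Pool.Agent.Lib.MP_10e784_agH.PB
import Pool.Agent.Lib.MP_10e784_agH.PC

/-!
# LEAF DB: the resultant on a shifted family

`pol (sh b B) = pol b * (u X + v)` for `3 ≤ m` (degree `≤ 3 ≤ m`, `pol_coeff`): `pol_sh`.
PROOF of `rf_sh` (`K` a field).  `a 2 ≠ 0`: `pol a` has degree 2; `rq a b ≠ 0`: `pol a`, `pol b` are coprime (the resultant in degrees `2, 2` is `± rq a b`; or: a common root `x` in an extension gives `rq a b = 0` directly: `rq` is a combination of `qe a x 1` and `qe b x 1` and `qe a`, `qe b` ..;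
or directly: `b` is invertible modulo `a` because the determinant of the multiplication by `b` on `K[X]/(a)` is `rq a b / a 2 ^ 2`).  So there are `u₀, v₀, t` with `pol f = pol b * (C u₀ * X + C v₀) + pol a * t`, `t` of degree `≤ m - 2` (the left side and `pol b * (..)` have degree `≤ m` as `3 ≤ m`).
Explicitly one can also write the remainder of `pol f` modulo `pol a` as `C r * X + C s` and solve the linear system `b (u₀ X + v₀) = r X + s` modulo `a` (2 equations, determinant `rq a b / a 2 ^ 2`).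
Then `pol (f + sh b B) = pol b * (C (u₀ + u) * X + C (v₀ + v)) + pol a * t` and (`resultant_add_mul_right` as in `HY.rf_add`) `rf a (f + sh b B)` is the resultant in degrees `2, m` of `pol a` and `pol b * (C u' X + C v')`, which is (multiplicativity / `resultant_add_right_deg`, `resultant_mul_right`)
`± a 2 ^ (m - 3) * rq a b * (resultant of pol a and u' X + v' in degrees 2, 1)`, the last resultant is `± (a 2 * v' ^ 2 - a 1 * v' * u' + a 0 * u' ^ 2) = ± qe a (-v') u'`.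
-/

set_option autoImplicit false

namespace HT

open Finset Polynomial MWS HY

private theorem DB_ext {R : Type*} [CommRing R] {k : ℕ} (P : R[X]) (h : P.natDegree < k) :
    pol (fun i : Fin k => P.coeff i) = P := by
  ext i
  rw [pol_coeff]
  split_ifs with hi
  · rfl
  · exact (coeff_eq_zero_of_natDegree_lt (by omega)).symm

private theorem DB_add {R : Type*} [CommRing R] {k : ℕ} (f g : Fin k → R) : pol (f + g) = pol f + pol g := by
  unfold pol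
  rw [← Finset.sum_add_distrib]
  exact Finset.sum_congr rfl fun i _ => by rw [Pi.add_apply, map_add]

private theorem DB_pol3 {R : Type*} [CommRing R] (v : Fin 3 → R) :
    pol v = C (v 0) + C (v 1) * X + C (v 2) * X ^ 2 := by
  unfold pol
  rw [Fin.sum_univ_three]
  show monomial 0 (v 0) + monomial 1 (v 1) + monomial 2 (v 2) = _
  rw [← C_mul_X_pow_eq_monomial, ← C_mul_X_pow_eq_monomial, ← C_mul_X_pow_eq_monomial, pow_zero, mul_one, pow_one]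

private theorem DB_lin {R : Type*} [CommRing R] (u v : R) : (C u * X + C v : R[X]).natDegree ≤ 1 :=
  natDegree_linear_le

private theorem DB_res1 {K : Type} [Field K] (A : K[X]) (hA : A.natDegree ≤ 2) (u v : K) :
    resultant A (C u * X + C v) 2 1 = A.coeff 0 * u ^ 2 - A.coeff 1 * v * u + A.coeff 2 * v ^ 2 := by
  have hAe : ∀ x : K, A.eval x = A.coeff 0 + A.coeff 1 * x + A.coeff 2 * x ^ 2 := fun x => by
    rw [eval_eq_sum_range' (n := 3) (by omega), Finset.sum_range_succ, Finset.sum_range_succ, Finset.sum_range_succ,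
      Finset.sum_range_zero, pow_zero, pow_one]
    ring
  by_cases hu : u = 0
  · subst hu
    rw [C_0, zero_mul, zero_add, resultant_C_right]
    ring
  · have h1 : (C u * X + C v : K[X]) = C u * (X + C (v * u⁻¹)) := by
      rw [mul_add, ← C_mul, mul_comm v, mul_inv_cancel_left₀ hu]
    rw [h1, resultant_C_mul_right, resultant_X_add_C_right _ _ _ hA, hAe]
    field_simp
    ring

theorem pol_sh {R : Type*} [CommRing R] {m : ℕ} (hm : 3 ≤ m) (b : Fin 3 → R) (B : R × R) :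
    pol (sh (m := m) b B) = pol b * (C B.1 * X + C B.2) := by
  refine DB_ext (pol b * (C B.1 * X + C B.2)) ?_
  have h1 : (pol b).natDegree ≤ 2 := pol_deg b
  have h2 := DB_lin B.1 B.2
  have h3 := natDegree_mul_le (p := pol b) (q := C B.1 * X + C B.2)
  omega

theorem rf_sh {K : Type} [Field K] {m : ℕ} (hm : 3 ≤ m) (a b : Fin 3 → K) (f : Fin (m + 1) → K) (ha : a 2 ≠ 0)
    (hr : rq a b ≠ 0) : ∃ κ u₀ v₀ : K, κ ≠ 0 ∧
      ∀ B : K × K, rf a (f + sh b B) = κ * qe a (-(B.2 + v₀)) (B.1 + u₀) := by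
  obtain ⟨A, hA⟩ : ∃ A : K[X], A = pol a := ⟨_, rfl⟩
  have hAd : A.natDegree ≤ 2 := hA ▸ pol_deg a
  have hA3 : A = C (a 0) + C (a 1) * X + C (a 2) * X ^ 2 := hA.trans (DB_pol3 a)
  have hc0 : A.coeff 0 = a 0 := by rw [hA, pol_coeff]; rfl
  have hc1 : A.coeff 1 = a 1 := by rw [hA, pol_coeff]; rfl
  have hc2 : A.coeff 2 = a 2 := by rw [hA, pol_coeff]; rfl
  have hAn : A.natDegree = 2 := le_antisymm hAd (le_natDegree_of_ne_zero (by rw [hc2]; exact ha))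
  have hmon : (C (a 2)⁻¹ * A).Monic := by
    rw [Monic, leadingCoeff, natDegree_C_mul (inv_ne_zero ha), coeff_C_mul, hAn, hc2, inv_mul_cancel₀ ha]
  have hmd : (C (a 2)⁻¹ * A).natDegree = 2 := by rw [natDegree_C_mul (inv_ne_zero ha), hAn]
  -- the remainder of `f`
  obtain ⟨r, hr'⟩ : ∃ r : K[X], r = pol f %ₘ (C (a 2)⁻¹ * A) := ⟨_, rfl⟩
  obtain ⟨t, ht⟩ : ∃ t : K[X], t = pol f /ₘ (C (a 2)⁻¹ * A) := ⟨_, rfl⟩
  have hft : pol f = r + A * (C (a 2)⁻¹ * t) := by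
    rw [hr', ht, ← mul_assoc, mul_comm A, modByMonic_add_div]
  have htd : t.natDegree + 2 ≤ m := by
    rw [ht, natDegree_divByMonic _ hmon, hmd]
    have := pol_deg f
    omega
  have hrd : r.natDegree ≤ 1 := by
    have h1 : r.natDegree < 2 := by
      have h3 := natDegree_modByMonic_lt (pol f) hmon (fun h => by
        have h2 := hmd
        rw [h, natDegree_one] at h2
        omega)
      rw [hmd] at h3
      rw [hr']
      exact h3
    omega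
  obtain ⟨r1, r0, hrl⟩ : ∃ r1 r0 : K, r = C r1 * X + C r0 := ⟨r.coeff 1, r.coeff 0, eq_X_add_C_of_natDegree_le_one hrd⟩
  obtain ⟨β1, hβ1⟩ : ∃ β1 : K, β1 = b 1 - b 2 * a 1 * (a 2)⁻¹ := ⟨_, rfl⟩
  obtain ⟨β0, hβ0⟩ : ∃ β0 : K, β0 = b 0 - b 2 * a 0 * (a 2)⁻¹ := ⟨_, rfl⟩
  obtain ⟨Δ, hΔ⟩ : ∃ Δ : K, Δ = β0 ^ 2 - β0 * β1 * a 1 * (a 2)⁻¹ + β1 ^ 2 * a 0 * (a 2)⁻¹ := ⟨_, rfl⟩
  have hΔr : Δ * a 2 ^ 2 = rq a b := by
    rw [hΔ, hβ1, hβ0, rq]
    field_simp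
    ring
  have hΔ0 : Δ ≠ 0 := by
    rintro h
    rw [h, zero_mul] at hΔr
    exact hr hΔr.symm
  refine ⟨a 2 ^ (m - 1) * Δ, (β0 * r1 - β1 * r0) * Δ⁻¹,
    ((β0 - β1 * a 1 * (a 2)⁻¹) * r0 + β1 * a 0 * (a 2)⁻¹ * r1) * Δ⁻¹, mul_ne_zero (pow_ne_zero _ ha) hΔ0, ?_⟩
  rintro ⟨u, v⟩
  obtain ⟨u0, hu0⟩ : ∃ u0 : K, u0 = (β0 * r1 - β1 * r0) * Δ⁻¹ := ⟨_, rfl⟩
  obtain ⟨v0, hv0⟩ : ∃ v0 : K, v0 = ((β0 - β1 * a 1 * (a 2)⁻¹) * r0 + β1 * a 0 * (a 2)⁻¹ * r1) * Δ⁻¹ := ⟨_, rfl⟩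
  rw [← hu0, ← hv0]
  have hr1 : r1 = β1 * v0 + β0 * u0 - β1 * u0 * a 1 * (a 2)⁻¹ := by
    have h1 : Δ * r1 = Δ * (β1 * v0 + β0 * u0 - β1 * u0 * a 1 * (a 2)⁻¹) := by
      rw [hu0, hv0]
      have h2 : Δ * Δ⁻¹ = 1 := mul_inv_cancel₀ hΔ0
      linear_combination (r1) * hΔ - (β1 * ((β0 - β1 * a 1 * (a 2)⁻¹) * r0 + β1 * a 0 * (a 2)⁻¹ * r1) +
        β0 * (β0 * r1 - β1 * r0) - β1 * (β0 * r1 - β1 * r0) * a 1 * (a 2)⁻¹) * h2
    exact mul_left_cancel₀ hΔ0 h1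
  have hr0 : r0 = β0 * v0 - β1 * u0 * a 0 * (a 2)⁻¹ := by
    have h1 : Δ * r0 = Δ * (β0 * v0 - β1 * u0 * a 0 * (a 2)⁻¹) := by
      rw [hu0, hv0]
      have h2 : Δ * Δ⁻¹ = 1 := mul_inv_cancel₀ hΔ0
      linear_combination (r0) * hΔ - (β0 * ((β0 - β1 * a 1 * (a 2)⁻¹) * r0 + β1 * a 0 * (a 2)⁻¹ * r1) -
        β1 * (β0 * r1 - β1 * r0) * a 0 * (a 2)⁻¹) * h2
    exact mul_left_cancel₀ hΔ0 h1
  obtain ⟨R1, hR1⟩ : ∃ R1 : K, R1 = r1 + (β1 * v + β0 * u - β1 * u * a 1 * (a 2)⁻¹) := ⟨_, rfl⟩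
  obtain ⟨R0, hR0⟩ : ∃ R0 : K, R0 = r0 + (β0 * v - β1 * u * a 0 * (a 2)⁻¹) := ⟨_, rfl⟩
  have hp : pol (f + sh b (u, v)) = (C R1 * X + C R0) +
      A * (C (a 2)⁻¹ * t + (C (b 2 * (a 2)⁻¹ * u) * X + C (b 2 * (a 2)⁻¹ * v + β1 * u * (a 2)⁻¹))) := by
    have h2 : (C (a 2) * C (a 2)⁻¹ : K[X]) = 1 := by rw [← C_mul, mul_inv_cancel₀ ha, C_1]
    rw [DB_add, hft, hrl, pol_sh hm, DB_pol3 b, hR1, hR0, hβ1, hβ0, hA3]
    simp only [C_add, C_sub, C_mul]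
    linear_combination (-(C (b 2) * C u * X ^ 3 + (C (b 2) * C v + (C (b 1) - C (b 2) * C (a 1) * C (a 2)⁻¹) * C u) * X ^ 2)) * h2
  have hdeg : (C (a 2)⁻¹ * t + (C (b 2 * (a 2)⁻¹ * u) * X + C (b 2 * (a 2)⁻¹ * v + β1 * u * (a 2)⁻¹))).natDegree + 2 ≤ m := by
    have h1 : (C (a 2)⁻¹ * t).natDegree ≤ m - 2 := (natDegree_C_mul_le _ _).trans (by omega)
    have h2 := DB_lin (b 2 * (a 2)⁻¹ * u) (b 2 * (a 2)⁻¹ * v + β1 * u * (a 2)⁻¹)
    have h3 := natDegree_add_le_of_degree_le h1 (h2.trans (by omega : 1 ≤ m - 2))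
    omega
  have hres : rf a (f + sh b (u, v)) = a 2 ^ (m - 1) * (a 0 * R1 ^ 2 - a 1 * R0 * R1 + a 2 * R0 ^ 2) := by
    unfold rf
    rw [← hA, hp, resultant_add_mul_right _ _ _ _ _ hdeg hAd]
    have h1 := resultant_add_right_deg A (C R1 * X + C R0) 2 1 (m - 1) (DB_lin R1 R0)
    rw [show 1 + (m - 1) = m by omega] at h1
    rw [h1, DB_res1 A hAd, hc0, hc1, hc2]
  rw [hres]
  have hR1' : R1 = β1 * (v + v0) + β0 * (u + u0) - β1 * (u + u0) * a 1 * (a 2)⁻¹ := by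
    rw [hR1]
    linear_combination hr1
  have hR0' : R0 = β0 * (v + v0) - β1 * (u + u0) * a 0 * (a 2)⁻¹ := by
    rw [hR0]
    linear_combination hr0
  rw [mul_assoc (a 2 ^ (m - 1)) Δ]
  refine congrArg (fun z => a 2 ^ (m - 1) * z) ?_
  show a 0 * R1 ^ 2 - a 1 * R0 * R1 + a 2 * R0 ^ 2 = Δ * qe a (-(v + v0)) (u + u0)
  rw [hR1', hR0', hΔ, qe]
  field_simp
  ring

end HT
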