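import Pool.Agent.Lib.MP_10e784_agHT.DB

/-!
# LEAF DC: the two types of solutions

PROOF.  By `rf_sh` the zeros are the `B` with `qe a (-(B.2 + v₀)) (B.1 + u₀) = 0`.  If `r : ZMod p` is a zero of `a 0 + a 1 r + a 2 r²`, let `r' = - a 1 / a 2 - r` be the other one; `qe a (-v) u = a 2 (v + u r) (v + u r')`.
`C 0 = {B | B.2 + v₀ + (B.1 + u₀) r = 0}`, `C 1` the same with `r'`: the difference `(u, v)` of two elements satisfies `v = - u r`, so `qe a (-v) u = 0`, and two differences are proportional to `(1, - r)`: the determinant is `0`.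
If there is no such `r`: `qe a (-v) u = 0` gives `u = 0` (otherwise `r = -v/u`) and then `a 2 v² = 0`, `v = 0`: `C 0 = C 1 = {(-u₀, -v₀)}`.
-/

set_option autoImplicit false

namespace HT

open Finset Polynomial MWS HY

theorem types {p : ℕ} [Fact p.Prime] {m : ℕ} (hm : 3 ≤ m) (a b : Fin 3 → ZMod p) (f : Fin (m + 1) → ZMod p)
    (ha : a 2 ≠ 0) (hr : rq a b ≠ 0) : ∃ C : Fin 2 → Set (ZMod p × ZMod p),
      (∀ B, rf a (f + sh b B) = 0 → ∃ i, B ∈ C i) ∧
      ∀ i, ∀ P ∈ C i, ∀ P' ∈ C i, qe a (-(P.2 - P'.2)) (P.1 - P'.1) = 0 ∧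
        ∀ Q ∈ C i, ∀ Q' ∈ C i, (P.1 - P'.1) * (Q.2 - Q'.2) - (P.2 - P'.2) * (Q.1 - Q'.1) = 0 := by
  obtain ⟨κ, u₀, v₀, hκ, hrf⟩ := rf_sh hm a b f ha hr
  have hz : ∀ B : ZMod p × ZMod p, rf a (f + sh b B) = 0 → qe a (-(B.2 + v₀)) (B.1 + u₀) = 0 := by
    intro B hB
    rw [hrf B] at hB
    exact (mul_eq_zero.mp hB).resolve_left hκ
  have hfac : ∀ r : ZMod p, a 0 + a 1 * r + a 2 * r ^ 2 = 0 → ∀ u v : ZMod p,
      qe a (-v) u = a 2 * (v + u * r) * (v + u * (-(a 1 / a 2) - r)) := by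
    intro r hr0 u v
    have h0 : a 0 = -(a 1 * r + a 2 * r ^ 2) := by linear_combination hr0
    unfold qe
    rw [h0]
    field_simp
    ring
  by_cases hex : ∃ r : ZMod p, a 0 + a 1 * r + a 2 * r ^ 2 = 0
  · obtain ⟨r, hr0⟩ := hex
    refine ⟨![{B | B.2 + v₀ + (B.1 + u₀) * r = 0},
      {B | B.2 + v₀ + (B.1 + u₀) * (-(a 1 / a 2) - r) = 0}], ?_, ?_⟩
    · intro B hB
      have h1 := hz B hB
      rw [hfac r hr0] at h1
      rcases mul_eq_zero.mp h1 with h2 | h2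
      · exact ⟨0, (mul_eq_zero.mp h2).resolve_left ha⟩
      · exact ⟨1, h2⟩
    · have key : ∀ ρ : ZMod p, (ρ = r ∨ ρ = -(a 1 / a 2) - r) →
          ∀ P ∈ {B : ZMod p × ZMod p | B.2 + v₀ + (B.1 + u₀) * ρ = 0},
          ∀ P' ∈ {B : ZMod p × ZMod p | B.2 + v₀ + (B.1 + u₀) * ρ = 0},
          qe a (-(P.2 - P'.2)) (P.1 - P'.1) = 0 ∧
          ∀ Q ∈ {B : ZMod p × ZMod p | B.2 + v₀ + (B.1 + u₀) * ρ = 0},
          ∀ Q' ∈ {B : ZMod p × ZMod p | B.2 + v₀ + (B.1 + u₀) * ρ = 0},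
            (P.1 - P'.1) * (Q.2 - Q'.2) - (P.2 - P'.2) * (Q.1 - Q'.1) = 0 := by
        intro ρ hρ P hP P' hP'
        rw [Set.mem_ofPred_eq] at hP hP'
        have e1 : (P.2 - P'.2) + (P.1 - P'.1) * ρ = 0 := by linear_combination hP - hP'
        refine ⟨?_, fun Q hQ Q' hQ' => ?_⟩
        · rw [hfac r hr0]
          rcases hρ with h | h
          · rw [← h, e1, mul_zero, zero_mul]
          · rw [← h, e1, mul_zero]
        · rw [Set.mem_ofPred_eq] at hQ hQ'
          have e2 : (Q.2 - Q'.2) + (Q.1 - Q'.1) * ρ = 0 := by linear_combination hQ - hQ'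
          linear_combination (P.1 - P'.1) * e2 - (Q.1 - Q'.1) * e1
      intro i
      fin_cases i
      · exact key r (Or.inl rfl)
      · exact key _ (Or.inr rfl)
  · have huniq : ∀ u v : ZMod p, qe a (-v) u = 0 → u = 0 ∧ v = 0 := by
      intro u v h
      unfold qe at h
      have hu : u = 0 := by
        by_contra hu
        refine hex ⟨-v / u, ?_⟩
        have : (a 0 + a 1 * (-v / u) + a 2 * (-v / u) ^ 2) * u ^ 2 = 0 := by
          field_simp
          linear_combination h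
        exact (mul_eq_zero.mp this).resolve_right (pow_ne_zero 2 hu)
      subst hu
      refine ⟨rfl, ?_⟩
      have : a 2 * v ^ 2 = 0 := by linear_combination h
      exact pow_eq_zero_iff (two_ne_zero) |>.mp ((mul_eq_zero.mp this).resolve_left ha)
    refine ⟨fun _ => {(-u₀, -v₀)}, ?_, ?_⟩
    · intro B hB
      obtain ⟨h1, h2⟩ := huniq _ _ (hz B hB)
      refine ⟨0, ?_⟩
      rw [Set.mem_singleton_iff]
      exact Prod.ext (eq_neg_of_add_eq_zero_left h1) (eq_neg_of_add_eq_zero_left h2)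
    · intro i P hP P' hP'
      rw [Set.mem_singleton_iff] at hP hP'
      subst hP
      subst hP'
      refine ⟨?_, fun Q _ Q' _ => ?_⟩
      · unfold qe
        simp
      · simp

end HT
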