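import Pool.Agent.Lib.MP_10e784_agHT.DB

/-!
# LEAF DD: the mean of the weight modulo `p`

PROOF of `mean1`.  At least `(p - 1)/2` of the `t` have `c t + e` a nonzero square (`t ↦ c t + e` is a bijection; `quadraticChar` sums to 0, or `ZMod` squares), so the sum is `≤ p - (p - 1)/10 ≤ (10/11) p` for `p ≥ 11`.
PROOF of `mean2`.  `dq a` is not a square, so `a 2 ≠ 0` and `qe a x z = 0` only for `x = z = 0`.  By `rf_sh` and the bijection `B ↦ (x, z) = (-(B.2 + v₀), B.1 + u₀)` the sum is the sum over `(x, z)` of the weight of `c κ qe a x z`, `c κ ≠ 0`.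
The number of `(x, z) ≠ 0` with `c κ qe a x z` a square is `(p² - 1)/2`: for each point `(x : z)` of the projective line `qe a (t x) (t z) = t² qe a x z`, and exactly half of the `p + 1` points have `c κ qe a x z` a square:
`∑_{x} χ(a 2 x² + a 1 x + a 0) = - χ(a 2)` (the discriminant is not 0; e.g. completing the square and `∑_x χ(x² - d) = - 1`), plus the point `(1 : 0)` with `χ(a 2)`.  (Or: `4 a 2 qe a x z = (2 a 2 x + a 1 z)² - dq a z²` is a norm from the field with `p²` elements; the norm is a surjective homomorphism of the unit groups.)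
Sum `≤ p² - (p² - 1)/10 ≤ (10/11) p²`.
-/

set_option autoImplicit false

namespace HT

open Finset Polynomial MWS HY

open Classical in
private theorem DD_w {p : ℕ} [Fact p.Prime] (s : ZMod p) :
    (if s ≠ 0 ∧ IsSquare s then (4 / 5 : ℝ) else 1) =
      1 - 1 / 10 * (((quadraticChar (ZMod p) s : ℤ) : ℝ) ^ 2 + ((quadraticChar (ZMod p) s : ℤ) : ℝ)) := by
  by_cases h0 : s = 0
  · rw [if_neg (fun h => h.1 h0), h0, quadraticChar_zero]
    norm_num
  by_cases h1 : IsSquare s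
  · rw [if_pos ⟨h0, h1⟩, (quadraticChar_one_iff_isSquare h0).2 h1]
    norm_num
  · rw [if_neg (fun h => h1 h.2), (quadraticChar_neg_one_iff_not_isSquare).2 h1]
    norm_num

private theorem DD_char {p : ℕ} [Fact p.Prime] (hp : 29 ≤ p) : ringChar (ZMod p) ≠ 2 := by
  rw [ZMod.ringChar_zmod_n]
  omega

private theorem DD_sq {p : ℕ} [Fact p.Prime] (s : ZMod p) :
    ((quadraticChar (ZMod p) s : ℤ) : ℝ) ^ 2 = if s = 0 then 0 else 1 := by
  by_cases h0 : s = 0
  · rw [if_pos h0, h0, quadraticChar_zero]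
    norm_num
  · rw [if_neg h0, ← Int.cast_pow, quadraticChar_sq_one h0]
    norm_num

private theorem DD_sum {p : ℕ} [Fact p.Prime] (hp : 29 ≤ p) {d : ZMod p} (hd : ¬ IsSquare d) :
    ∑ P : ZMod p × ZMod p, quadraticChar (ZMod p) (P.1 ^ 2 - d * P.2 ^ 2) = 0 := by
  obtain ⟨n, hn⟩ := FiniteField.exists_nonsquare (DD_char hp)
  have hn0 : n ≠ 0 := by
    rintro rfl
    exact hn ⟨0, by ring⟩
  have hd0 : d ≠ 0 := by
    rintro rfl
    exact hd ⟨0, by ring⟩
  obtain ⟨s, t, hst⟩ : ∃ s t : ZMod p, s ^ 2 - d * t ^ 2 = n := by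
    have h1 : (X ^ 2 - C n : (ZMod p)[X]).degree = 2 := degree_X_pow_sub_C (by norm_num) n
    have h2 : (C (-d) * X ^ 2 : (ZMod p)[X]).degree = 2 := degree_C_mul_X_pow 2 (neg_ne_zero.2 hd0)
    have h3 : Fintype.card (ZMod p) % 2 = 1 := by
      rw [ZMod.card]
      rcases (Fact.out : p.Prime).eq_two_or_odd with h | h
      · omega
      · exact h
    obtain ⟨a, b, hab⟩ := FiniteField.exists_root_sum_quadratic h1 h2 h3
    refine ⟨a, b, ?_⟩
    simp only [eval_sub, eval_pow, eval_X, eval_C, eval_mul] at hab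
    linear_combination hab
  have hinj : Function.Injective
      (fun P : ZMod p × ZMod p => (s * P.1 + d * t * P.2, t * P.1 + s * P.2)) := by
    rintro ⟨x, z⟩ ⟨x', z'⟩ h
    rw [Prod.mk.injEq] at h
    obtain ⟨h1, h2⟩ := h
    have h3 : n * (x - x') = 0 := by
      rw [← hst]
      linear_combination s * h1 - d * t * h2
    have h4 : n * (z - z') = 0 := by
      rw [← hst]
      linear_combination s * h2 - t * h1
    rw [sub_eq_zero.1 ((mul_eq_zero.1 h3).resolve_left hn0),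
      sub_eq_zero.1 ((mul_eq_zero.1 h4).resolve_left hn0)]
  have h1 := Function.Bijective.sum_comp (Finite.injective_iff_bijective.1 hinj)
    (fun P : ZMod p × ZMod p => quadraticChar (ZMod p) (P.1 ^ 2 - d * P.2 ^ 2))
  have h2 : ∀ P : ZMod p × ZMod p, quadraticChar (ZMod p)
      ((s * P.1 + d * t * P.2) ^ 2 - d * (t * P.1 + s * P.2) ^ 2) =
      -quadraticChar (ZMod p) (P.1 ^ 2 - d * P.2 ^ 2) := fun P => by
    have h3 : (s * P.1 + d * t * P.2) ^ 2 - d * (t * P.1 + s * P.2) ^ 2 =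
        n * (P.1 ^ 2 - d * P.2 ^ 2) := by
      rw [← hst]
      ring
    rw [h3, map_mul, (quadraticChar_neg_one_iff_not_isSquare).2 hn, neg_one_mul]
  simp only [h2] at h1
  rw [Finset.sum_neg_distrib] at h1
  omega

private theorem DD_zero {p : ℕ} [Fact p.Prime] {d : ZMod p} (hd : ¬ IsSquare d)
    (P : ZMod p × ZMod p) : P.1 ^ 2 - d * P.2 ^ 2 = 0 ↔ P = 0 := by
  constructor
  · intro h
    by_cases h2 : P.2 = 0
    · rw [h2] at h
      have h1 : P.1 = 0 := by
        have : P.1 ^ 2 = 0 := by linear_combination h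
        exact pow_eq_zero_iff (by norm_num) |>.1 this
      exact Prod.ext h1 h2
    · exfalso
      apply hd
      refine ⟨P.1 / P.2, ?_⟩
      field_simp
      linear_combination -h
  · rintro rfl
    simp

open Classical in
private theorem DD_norm {p : ℕ} [Fact p.Prime] (hp : 29 ≤ p) {d e : ZMod p} (hd : ¬ IsSquare d)
    (he : e ≠ 0) :
    ∑ P : ZMod p × ZMod p, (if e * (P.1 ^ 2 - d * P.2 ^ 2) ≠ 0 ∧
      IsSquare (e * (P.1 ^ 2 - d * P.2 ^ 2)) then (4 / 5 : ℝ) else 1) =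
      (p : ℝ) ^ 2 - 1 / 10 * ((p : ℝ) ^ 2 - 1) := by
  have h1 : ∀ P : ZMod p × ZMod p,
      ((quadraticChar (ZMod p) (e * (P.1 ^ 2 - d * P.2 ^ 2)) : ℤ) : ℝ) ^ 2 =
        1 - if P = 0 then 1 else 0 := fun P => by
    rw [DD_sq]
    by_cases h : P = 0
    · rw [if_pos h, if_pos (by rw [(DD_zero hd P).2 h, mul_zero]), sub_self]
    · rw [if_neg h, if_neg (mul_ne_zero he fun h2 => h ((DD_zero hd P).1 h2)), sub_zero]
  have h2 : ∑ P : ZMod p × ZMod p,
      ((quadraticChar (ZMod p) (e * (P.1 ^ 2 - d * P.2 ^ 2)) : ℤ) : ℝ) = 0 := by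
    rw [← Int.cast_sum]
    simp only [map_mul]
    rw [← Finset.mul_sum, DD_sum hp hd, mul_zero, Int.cast_zero]
  simp only [DD_w, h1]
  rw [Finset.sum_sub_distrib, ← Finset.mul_sum, Finset.sum_add_distrib, h2,
    Finset.sum_sub_distrib, Finset.sum_ite_eq' Finset.univ (0 : ZMod p × ZMod p),
    if_pos (Finset.mem_univ _)]
  simp only [Finset.sum_const, Finset.card_univ, Fintype.card_prod, ZMod.card, nsmul_eq_mul,
    Nat.cast_mul]
  ring

open Classical in
theorem mean1 {p : ℕ} [Fact p.Prime] (hp : 29 ≤ p) (c e : ZMod p) (hc : c ≠ 0) :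
    ∑ t : ZMod p, (if c * t + e ≠ 0 ∧ IsSquare (c * t + e) then (4 / 5 : ℝ) else 1) ≤ 10 / 11 * p := by
  have hbij : Function.Bijective (fun t : ZMod p => c * t + e) := by
    refine Finite.injective_iff_bijective.1 fun x y h => ?_
    have h1 : c * (x - y) = 0 := by
      linear_combination h
    exact sub_eq_zero.1 ((mul_eq_zero.1 h1).resolve_left hc)
  have h0 := Function.Bijective.sum_comp hbij
    (fun s : ZMod p => if s ≠ 0 ∧ IsSquare s then (4 / 5 : ℝ) else 1)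
  rw [h0]
  simp only [DD_w, DD_sq]
  have h1 : ∑ s : ZMod p, ((quadraticChar (ZMod p) s : ℤ) : ℝ) = 0 := by
    rw [← Int.cast_sum, quadraticChar_sum_zero (DD_char hp), Int.cast_zero]
  have h2 : ∑ s : ZMod p, (if s = 0 then (0 : ℝ) else 1) = p - 1 := by
    have h3 : ∀ s : ZMod p, (if s = 0 then (0 : ℝ) else 1) = 1 - if s = 0 then 1 else 0 :=
      fun s => by
        by_cases h : s = 0
        · rw [if_pos h, if_pos h, sub_self]
        · rw [if_neg h, if_neg h, sub_zero]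
    simp only [h3]
    rw [Finset.sum_sub_distrib, Finset.sum_ite_eq' Finset.univ (0 : ZMod p),
      if_pos (Finset.mem_univ _)]
    simp [ZMod.card]
  rw [Finset.sum_sub_distrib, ← Finset.mul_sum, Finset.sum_add_distrib, h1, h2]
  simp only [Finset.sum_const, Finset.card_univ, ZMod.card, nsmul_eq_mul]
  have h4 : (29 : ℝ) ≤ p := by exact_mod_cast hp
  linarith

open Classical in
theorem mean2 {p : ℕ} [Fact p.Prime] (hp : 29 ≤ p) {m : ℕ} (hm : 3 ≤ m) (a b : Fin 3 → ZMod p) (f : Fin (m + 1) → ZMod p)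
    (hs : ¬ IsSquare (dq a)) (hr : rq a b ≠ 0) (c : ZMod p) (hc : c ≠ 0) :
    ∑ B : ZMod p × ZMod p, (if c * rf a (f + sh b B) ≠ 0 ∧ IsSquare (c * rf a (f + sh b B)) then (4 / 5 : ℝ) else 1) ≤
      10 / 11 * (p : ℝ) ^ 2 := by
  have h2 : (2 : ZMod p) ≠ 0 := by
    intro h
    have h3 : ((2 : ℕ) : ZMod p) = 0 := by exact_mod_cast h
    rw [ZMod.natCast_eq_zero_iff] at h3
    exact absurd (Nat.le_of_dvd (by norm_num) h3) (by omega)
  have ha2 : a 2 ≠ 0 := by
    intro h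
    apply hs
    refine ⟨a 1, ?_⟩
    rw [dq, h]
    ring
  obtain ⟨κ, u₀, v₀, hκ, hrf⟩ := rf_sh hm a b f ha2 hr
  have h4 : (4 : ZMod p) * a 2 ≠ 0 := by
    have : (4 : ZMod p) = 2 * 2 := by norm_num
    rw [this]
    exact mul_ne_zero (mul_ne_zero h2 h2) ha2
  have he : c * κ * (4 * a 2)⁻¹ ≠ 0 := mul_ne_zero (mul_ne_zero hc hκ) (inv_ne_zero h4)
  have hqe : ∀ B : ZMod p × ZMod p, c * rf a (f + sh b B) = c * κ * (4 * a 2)⁻¹ *
      ((2 * a 2 * -(B.2 + v₀) + a 1 * (B.1 + u₀)) ^ 2 - dq a * (B.1 + u₀) ^ 2) := fun B => by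
    rw [hrf]
    have h5 : (2 * a 2 * -(B.2 + v₀) + a 1 * (B.1 + u₀)) ^ 2 - dq a * (B.1 + u₀) ^ 2 =
        4 * a 2 * qe a (-(B.2 + v₀)) (B.1 + u₀) := by
      rw [dq, qe]
      ring
    rw [h5, mul_assoc (c * κ), inv_mul_cancel_left₀ h4, mul_assoc]
  have hbij : Function.Bijective (fun B : ZMod p × ZMod p =>
      (2 * a 2 * -(B.2 + v₀) + a 1 * (B.1 + u₀), B.1 + u₀)) := by
    refine Finite.injective_iff_bijective.1 ?_
    rintro ⟨x, z⟩ ⟨x', z'⟩ h
    rw [Prod.mk.injEq] at h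
    obtain ⟨h5, h6⟩ := h
    have h7 : x = x' := add_right_cancel h6
    have h8 : 2 * a 2 * (z - z') = 0 := by
      linear_combination -h5 + a 1 * h6
    rw [h7, sub_eq_zero.1 ((mul_eq_zero.1 h8).resolve_left (mul_ne_zero h2 ha2))]
  have h0 := Function.Bijective.sum_comp hbij
    (fun P : ZMod p × ZMod p => if c * κ * (4 * a 2)⁻¹ * (P.1 ^ 2 - dq a * P.2 ^ 2) ≠ 0 ∧
      IsSquare (c * κ * (4 * a 2)⁻¹ * (P.1 ^ 2 - dq a * P.2 ^ 2)) then (4 / 5 : ℝ) else 1)
  rw [DD_norm hp hs he] at h0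
  simp only [hqe]
  refine h0.le.trans ?_
  have h9 : (29 : ℝ) ≤ p := by exact_mod_cast hp
  nlinarith

end HT
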