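import Pool.Agent.Lib.MP_10e784_agHT.Defs

/-!
# Block D (divisors of the resultants): definitions
-/

set_option autoImplicit false

namespace HT

open Finset Polynomial MWS HY

/-- the product of the prime factors of `D` which do not divide `N` -/
def cop (N D : ℕ) : ℕ := ∏ p ∈ D.primeFactors.filter (fun p => ¬ p ∣ N), p

/-- `x` is a nonzero square modulo `p` -/
def nsq (p : ℕ) (x : ℤ) : Prop := ((x : ℤ) : ZMod p) ≠ 0 ∧ IsSquare ((x : ℤ) : ZMod p)

/-- the number of prime factors -/
def om (x : ℤ) : ℕ := x.natAbs.primeFactors.card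

/-- `N_j = (coefficient of x² of a) · rq a b`, a natural number -/
def NN (a b : Fin 3 → ℤ) : ℕ := (a 2 * rq a b).natAbs

open Classical in
/-- the event of the page, 6: `R` has a squarefree divisor `D` whose part prime to `N` is larger than `B` and such that `c D` is a
nonzero square modulo less than `T` of the primes of `T'` -/
def Ev (T' : Finset ℕ) (T w B N : ℕ) (c R : ℤ) : Prop :=
  R ≠ 0 ∧ om R ≤ w ∧ ∃ D : ℕ, Squarefree D ∧ (D : ℤ) ∣ R ∧ B < cop N D ∧ (T'.filter fun p => nsq p (c * D)).card < T

end HT
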