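import Pool.Agent.Lib.MP_10e784_agHT.DB

/-!
# LEAF DI: bounds, reduction, invariance

PROOF.  `rf_bd`: `rf a f` is the determinant of the Sylvester matrix (`Polynomial.resultant`, `sylvester`), of size `m + 2`; `m` of the columns (or rows) have entries among the `a i` and `0`, two have entries among the `f i` and `0`: Leibniz: at most `(m + 2)! A ^ m G ²`.  (Or: `rf a f` is a polynomial with integral coefficients, homogeneous of degree `m`
in `a` and `2` in `f`.)
`sh_bd`: a coefficient of `pol b * (u X + v)` is `b_i v + b_(i-1) u`.  `rf_cast`, `sh_cast`: `resultant_map_map`, as `HY.mulF_map`, `BO.rs_map` / `RR_map` in `agHO/OK.lean`.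
`rf_sh_inv`: `pol (f + sh b B) = pol f + pol b * (..)` (`pol_sh`), the second factor has degree `1 ≤ m - 2`: `resultant_add_mul_right` as in `HY.rf_add` (PC).  `rq_comm`: ring.
-/

set_option autoImplicit false

namespace HT

open Finset Polynomial MWS HY

private theorem DI_coeff {k : ℕ} (f : Fin k → ℤ) (A : ℕ) (hf : ∀ i, |f i| ≤ (A : ℤ)) (j : ℕ) :
    |(pol f).coeff j| ≤ (A : ℤ) := by
  rw [pol_coeff]
  split_ifs with h
  · exact hf _
  · rw [abs_zero]
    exact Int.natCast_nonneg A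

private theorem DI_add {R : Type*} [CommRing R] {k : ℕ} (f g : Fin k → R) : pol (f + g) = pol f + pol g := by
  unfold pol
  rw [← Finset.sum_add_distrib]
  exact Finset.sum_congr rfl fun i _ => by rw [Pi.add_apply, map_add]

private theorem DI_map {R S : Type*} [CommRing R] [CommRing S] (φ : R →+* S) {k : ℕ} (f : Fin k → R) :
    (pol f).map φ = pol fun i => φ (f i) := by
  unfold pol
  rw [Polynomial.map_sum]
  exact Finset.sum_congr rfl fun i _ => by rw [map_monomial]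

theorem rf_bd (m : ℕ) : ∃ C : ℕ, 1 ≤ C ∧ ∀ (A G : ℕ) (a : Fin 3 → ℤ) (f : Fin (m + 1) → ℤ), (∀ i, |a i| ≤ (A : ℤ)) →
    (∀ i, |f i| ≤ (G : ℤ)) → |rf a f| ≤ (C : ℤ) * A ^ m * G ^ 2 := by
  refine ⟨(2 + m).factorial, Nat.succ_le_of_lt (Nat.factorial_pos _), fun A G a f ha hf => ?_⟩
  have hcol : ∀ i j : Fin (2 + m), |(pol a).sylvester (pol f) 2 m i j| ≤
      (Fin.addCases (fun _ : Fin 2 => (G : ℤ)) (fun _ : Fin m => (A : ℤ)) j : ℤ) := by
    intro i j
    rw [sylvester, Matrix.of_apply]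
    refine Fin.addCases (fun j₁ => ?_) (fun j₁ => ?_) j
    · rw [Fin.addCases_left, Fin.addCases_left]
      split_ifs
      · exact DI_coeff f G hf _
      · rw [abs_zero]
        exact Int.natCast_nonneg G
    · rw [Fin.addCases_right, Fin.addCases_right]
      split_ifs
      · exact DI_coeff a A ha _
      · rw [abs_zero]
        exact Int.natCast_nonneg A
  rw [rf, resultant, Matrix.det_apply']
  refine (Finset.abs_sum_le_sum_abs _ _).trans ?_
  have hterm : ∀ σ ∈ (Finset.univ : Finset (Equiv.Perm (Fin (2 + m)))),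
      |((Equiv.Perm.sign σ : ℤ) : ℤ) * ∏ i, (pol a).sylvester (pol f) 2 m (σ i) i| ≤ (G : ℤ) ^ 2 * A ^ m := by
    intro σ _
    have h1 : |((Equiv.Perm.sign σ : ℤ) : ℤ)| = 1 := by
      rcases Int.units_eq_one_or (Equiv.Perm.sign σ) with h | h <;> rw [h] <;> norm_num
    rw [abs_mul, h1, one_mul, Finset.abs_prod]
    refine (Finset.prod_le_prod (fun i _ => abs_nonneg _) fun i _ => hcol (σ i) i).trans (le_of_eq ?_)
    rw [Fin.prod_univ_add]
    simp only [Fin.addCases_left, Fin.addCases_right, Finset.prod_const, Finset.card_univ, Fintype.card_fin]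
  refine (Finset.sum_le_card_nsmul _ _ _ hterm).trans (le_of_eq ?_)
  rw [Finset.card_univ, Fintype.card_perm, Fintype.card_fin, nsmul_eq_mul]
  ring

theorem sh_bd {m : ℕ} (b : Fin 3 → ℤ) (B : ℤ × ℤ) {H h : ℕ} (hb : ∀ i, |b i| ≤ (H : ℤ)) (h1 : |B.1| ≤ (h : ℤ))
    (h2 : |B.2| ≤ (h : ℤ)) (i : Fin (m + 1)) : |sh b B i| ≤ 2 * (H * h : ℤ) := by
  have h3 : sh (m := m) b B i = B.1 * (pol b * X).coeff i + B.2 * (pol b).coeff i := by
    rw [sh]
    have e : pol b * (C B.1 * X + C B.2) = C B.1 * (pol b * X) + C B.2 * pol b := by ring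
    rw [e, coeff_add, coeff_C_mul, coeff_C_mul]
  have h4' : ∀ k : ℕ, |(pol b * X).coeff k| ≤ (H : ℤ) := by
    rintro (_ | k)
    · rw [mul_coeff_zero, coeff_X_zero, mul_zero, abs_zero]
      exact Int.natCast_nonneg H
    · rw [coeff_mul_X]
      exact DI_coeff b H hb _
  have h4 : |(pol b * X).coeff i| ≤ (H : ℤ) := h4' i
  have h5 : |(pol b).coeff i| ≤ (H : ℤ) := DI_coeff b H hb _
  rw [h3]
  refine (abs_add_le _ _).trans ?_
  rw [abs_mul, abs_mul]
  have h6 : |B.1| * |(pol b * X).coeff i| ≤ (h : ℤ) * H := mul_le_mul h1 h4 (abs_nonneg _) (Int.natCast_nonneg h)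
  have h7 : |B.2| * |(pol b).coeff i| ≤ (h : ℤ) * H := mul_le_mul h2 h5 (abs_nonneg _) (Int.natCast_nonneg h)
  linarith

theorem rf_cast (p : ℕ) {m : ℕ} (a : Fin 3 → ℤ) (f : Fin (m + 1) → ℤ) :
    ((rf a f : ℤ) : ZMod p) = rf (fun i => ((a i : ℤ) : ZMod p)) (fun i => ((f i : ℤ) : ZMod p)) := by
  have h := resultant_map_map (f := pol a) (g := pol f) (m := 2) (n := m) (Int.castRingHom (ZMod p))
  rw [DI_map, DI_map] at h
  exact h.symm

theorem sh_cast (p : ℕ) {m : ℕ} (b : Fin 3 → ℤ) (B : ℤ × ℤ) :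
    (fun i => ((sh (m := m) b B i : ℤ) : ZMod p)) = sh (fun i => ((b i : ℤ) : ZMod p)) (((B.1 : ℤ) : ZMod p), ((B.2 : ℤ) : ZMod p)) := by
  funext i
  have h : (pol b * (C B.1 * X + C B.2)).map (Int.castRingHom (ZMod p)) =
      pol (fun i => ((b i : ℤ) : ZMod p)) * (C ((B.1 : ℤ) : ZMod p) * X + C ((B.2 : ℤ) : ZMod p)) := by
    rw [Polynomial.map_mul, Polynomial.map_add, Polynomial.map_mul, map_C, map_C, map_X, DI_map]
    rfl
  rw [sh, sh, ← h, coeff_map]
  rfl

theorem rf_sh_inv {R : Type*} [CommRing R] {m : ℕ} (hm : 3 ≤ m) (b : Fin 3 → R) (f : Fin (m + 1) → R) (B : R × R) :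
    rf b (f + sh b B) = rf b f := by
  rw [rf, rf, DI_add, pol_sh hm]
  refine resultant_add_mul_right _ _ _ _ _ ?_ (pol_deg b)
  have h1 : (C B.1 * X + C B.2).natDegree ≤ 1 := natDegree_linear_le
  omega

theorem rq_comm {R : Type*} [CommRing R] (a b : Fin 3 → R) : rq a b = rq b a := by
  unfold rq
  ring

end HT
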