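import Pool.Agent.Lib.MP_10e784_agHT.DA
import Pool.Agent.Lib.MP_10e784_agHT.DC
import Pool.Agent.Lib.MP_10e784_agHT.DI

/-!
# LEAF DE: the number of the shifts with `s ∣ rf`

PROOF.  For each prime `p ∣ s` let `C_p` be the two sets of `types` for the reductions modulo `p` (`a 2` and `rq a b` are not divisible by `p`; `rf_map` / reduction of `rf`, `sh` modulo `p`: `resultant_map_map`).  A point `P` of the set chooses for every `p ∈ s.primeFactors` a type `τ p : Fin 2` with `P mod p ∈ C_p (τ p)`: the set is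
the union over the `2 ^ (number of prime factors)` functions `τ` (`Fintype.piFinset` or `Finset.pi` over `s.primeFactors`) of the sets `A_τ`.  For two points `P, P'` of `A_τ`: `M` divides both coordinates of the difference `(u, v)`, every `p ∣ s` divides `qe a (-v) u` and all the determinants of two differences.
`M² ∣ det` and `M² ∣ qe a (-v) u`, `s` squarefree and prime to `M`: `s M² ∣ det`, `s M² ∣ qe a (-v) u`.  `qe a (-v) u ≠ 0` for `(u, v) ≠ 0` since `dq a` is not a square (`4 a 2 qe a x z = (2 a 2 x + a 1 z)² - dq a z²`, `a 2 ≠ 0` because `dq a` is not a square), and `|qe a (-v) u| ≤ 3 H max² `.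
So `lat_count` with `D = s M²` gives `#A_τ · s M² ≤ 35 h²`; sum over `τ`.
-/

set_option autoImplicit false

namespace HT

open Finset Polynomial MWS HY

private theorem DE_types {m : ℕ} (hm : 3 ≤ m) (a b : Fin 3 → ℤ) (f : Fin (m + 1) → ℤ) {s : ℕ}
    (hN : Nat.Coprime s (NN a b)) (p : ℕ) (hp : p ∈ s.primeFactors) :
    ∃ T : Fin 2 → ℤ × ℤ → Prop, (∀ B, (s : ℤ) ∣ rf a (f + sh b B) → ∃ i, T i B) ∧
      ∀ i P P', T i P → T i P' → (p : ℤ) ∣ qe a (-(P.2 - P'.2)) (P.1 - P'.1) ∧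
        ∀ Q Q', T i Q → T i Q' →
          (p : ℤ) ∣ (P.1 - P'.1) * (Q.2 - Q'.2) - (P.2 - P'.2) * (Q.1 - Q'.1) := by
  have hpp : p.Prime := Nat.prime_of_mem_primeFactors hp
  have hps : p ∣ s := Nat.dvd_of_mem_primeFactors hp
  have : Fact p.Prime := ⟨hpp⟩
  have hnd : ¬ (p : ℤ) ∣ a 2 * rq a b := by
    intro h
    have h1 : p ∣ NN a b := Int.natCast_dvd.1 h
    exact hpp.one_lt.ne' (Nat.dvd_one.1 (hN ▸ Nat.dvd_gcd hps h1))
  have ha : (((a 2 : ℤ) : ZMod p)) ≠ 0 := by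
    intro h
    exact hnd (((ZMod.intCast_zmod_eq_zero_iff_dvd _ _).1 h).mul_right _)
  have hr : rq (fun i => ((a i : ℤ) : ZMod p)) (fun i => ((b i : ℤ) : ZMod p)) ≠ 0 := by
    have h1 : rq (fun i => ((a i : ℤ) : ZMod p)) (fun i => ((b i : ℤ) : ZMod p)) =
        ((rq a b : ℤ) : ZMod p) := by
      unfold rq
      push_cast
      ring
    rw [h1]
    intro h
    exact hnd (((ZMod.intCast_zmod_eq_zero_iff_dvd _ _).1 h).mul_left _)
  obtain ⟨C, hC1, hC2⟩ := types hm (fun i => ((a i : ℤ) : ZMod p)) (fun i => ((b i : ℤ) : ZMod p))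
    (fun i => ((f i : ℤ) : ZMod p)) ha hr
  refine ⟨fun i B => (((B.1 : ℤ) : ZMod p), ((B.2 : ℤ) : ZMod p)) ∈ C i, ?_, ?_⟩
  · intro B hB
    apply hC1
    have h1 : ((rf a (f + sh b B) : ℤ) : ZMod p) = 0 := by
      rw [ZMod.intCast_zmod_eq_zero_iff_dvd]
      exact (Int.natCast_dvd_natCast.2 hps).trans hB
    rw [rf_cast] at h1
    have h2 : (fun i : Fin (m + 1) => (((f + sh b B : Fin (m + 1) → ℤ) i : ℤ) : ZMod p)) =
        (fun i => ((f i : ℤ) : ZMod p)) + fun i => ((sh (m := m) b B i : ℤ) : ZMod p) := by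
      funext i
      rw [Pi.add_apply, Pi.add_apply, Int.cast_add]
    rw [h2, sh_cast] at h1
    exact h1
  · intro i P P' hP hP'
    obtain ⟨h1, h2⟩ := hC2 i _ hP _ hP'
    refine ⟨?_, fun Q Q' hQ hQ' => ?_⟩
    · rw [← ZMod.intCast_zmod_eq_zero_iff_dvd, ← h1]
      unfold qe
      push_cast
      ring
    · rw [← ZMod.intCast_zmod_eq_zero_iff_dvd, ← h2 _ hQ _ hQ']
      push_cast
      ring

private theorem DE_ne {a : Fin 3 → ℤ} (hsq : ¬ IsSquare (dq a)) (x z : ℤ) (h : ¬ (x = 0 ∧ z = 0)) :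
    qe a x z ≠ 0 := by
  intro h0
  have ha2 : a 2 ≠ 0 := by
    intro h2
    apply hsq
    refine ⟨a 1, ?_⟩
    unfold dq
    rw [h2]
    ring
  have hid : (2 * a 2 * x + a 1 * z) ^ 2 = dq a * z ^ 2 := by
    have h1 : (2 * a 2 * x + a 1 * z) ^ 2 = 4 * a 2 * qe a x z + dq a * z ^ 2 := by
      unfold qe dq
      ring
    rw [h1, h0, mul_zero, zero_add]
  by_cases hz : z = 0
  · rw [hz, mul_zero, add_zero] at hid
    have h1 : 2 * a 2 * x = 0 := by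
      have h2 : (2 * a 2 * x) ^ 2 = 0 := by rw [hid]; ring
      exact pow_eq_zero_iff (two_ne_zero) |>.1 h2
    rcases mul_eq_zero.1 h1 with h2 | h2
    · rcases mul_eq_zero.1 h2 with h3 | h3
      · norm_num at h3
      · exact ha2 h3
    · exact h ⟨h2, hz⟩
  · have h1 : z ^ 2 ∣ (2 * a 2 * x + a 1 * z) ^ 2 := ⟨dq a, by rw [hid]; ring⟩
    obtain ⟨w, hw⟩ := (Int.pow_dvd_pow_iff two_ne_zero).1 h1
    apply hsq
    refine ⟨w, ?_⟩
    rw [hw] at hid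
    have hz2 : z ^ 2 ≠ 0 := pow_ne_zero 2 hz
    apply mul_right_cancel₀ hz2
    rw [← hid]
    ring

private theorem DE_bd {a : Fin 3 → ℤ} {H : ℕ} (ha : ∀ i, |a i| ≤ (H : ℤ)) (u v : ℤ) :
    |qe a (-v) u| ≤ 3 * H * (max |u| |v|) ^ 2 := by
  have hm0 : 0 ≤ max |u| |v| := le_max_of_le_left (abs_nonneg u)
  have hu : |u| ≤ max |u| |v| := le_max_left _ _
  have hv : |v| ≤ max |u| |v| := le_max_right _ _
  have hH : (0 : ℤ) ≤ H := Int.natCast_nonneg _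
  have h1 : |a 0 * u ^ 2| ≤ H * (max |u| |v|) ^ 2 := by
    rw [abs_mul, abs_pow]
    exact mul_le_mul (ha 0) (pow_le_pow_left₀ (abs_nonneg _) hu 2) (pow_nonneg (abs_nonneg _) _) hH
  have h2 : |a 1 * (-v * u)| ≤ H * (max |u| |v|) ^ 2 := by
    rw [abs_mul, abs_mul, abs_neg, sq]
    exact mul_le_mul (ha 1) (mul_le_mul hv hu (abs_nonneg _) hm0)
      (mul_nonneg (abs_nonneg _) (abs_nonneg _)) hH
  have h3 : |a 2 * (-v) ^ 2| ≤ H * (max |u| |v|) ^ 2 := by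
    rw [abs_mul, abs_pow, abs_neg]
    exact mul_le_mul (ha 2) (pow_le_pow_left₀ (abs_nonneg _) hv 2) (pow_nonneg (abs_nonneg _) _) hH
  have h4 : |qe a (-v) u| ≤ |a 0 * u ^ 2| + |a 1 * (-v * u)| + |a 2 * (-v) ^ 2| := abs_add_three _ _ _
  linarith

private theorem DE_dvd {s M : ℕ} (hs : Squarefree s) (hc : Nat.Coprime s M) (x : ℤ)
    (h1 : ∀ p ∈ s.primeFactors, (p : ℤ) ∣ x) (h2 : (M : ℤ) ^ 2 ∣ x) : ((s * M ^ 2 : ℕ) : ℤ) ∣ x := by
  rw [Int.natCast_dvd]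
  apply Nat.Coprime.mul_dvd_of_dvd_of_dvd (hc.pow_right 2)
  · rw [← Nat.prod_primeFactors_of_squarefree hs]
    exact Finset.prod_primes_dvd _ (fun p hp => (Nat.prime_of_mem_primeFactors hp).prime)
      fun p hp => Int.natCast_dvd.1 (h1 p hp)
  · apply Int.natCast_dvd.1
    rw [Nat.cast_pow]
    exact h2

theorem cnt_dvd {m : ℕ} (hm : 3 ≤ m) (a b : Fin 3 → ℤ) (f : Fin (m + 1) → ℤ) {H h s M : ℕ} (hH : 1 ≤ H)
    (ha : ∀ i, |a i| ≤ (H : ℤ)) (hsq : ¬ IsSquare (dq a)) (hs : Squarefree s) (hc : Nat.Coprime s M)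
    (hN : Nat.Coprime s (NN a b)) (hM : 1 ≤ M) (hlev : 3 * H * (s * M ^ 2) ≤ h ^ 2) (B₀ : ℤ × ℤ) :
    (Nat.card {B : ℤ × ℤ // |B.1| ≤ (h : ℤ) ∧ |B.2| ≤ (h : ℤ) ∧ (M : ℤ) ∣ B.1 - B₀.1 ∧ (M : ℤ) ∣ B.2 - B₀.2 ∧
      (s : ℤ) ∣ rf a (f + sh b B)} : ℝ) * (s * (M : ℝ) ^ 2) ≤ 2 ^ s.primeFactors.card * (35 * (h : ℝ) ^ 2) := by
  classical
  choose! T hT1 hT2 using DE_types hm a b f hN
  obtain ⟨X, hX⟩ : ∃ X : Finset (ℤ × ℤ), ∀ B, B ∈ X ↔ (|B.1| ≤ (h : ℤ) ∧ |B.2| ≤ (h : ℤ) ∧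
      (M : ℤ) ∣ B.1 - B₀.1 ∧ (M : ℤ) ∣ B.2 - B₀.2 ∧ (s : ℤ) ∣ rf a (f + sh b B)) := by
    refine ⟨(Icc (-(h : ℤ)) h ×ˢ Icc (-(h : ℤ)) h).filter fun B => (|B.1| ≤ (h : ℤ) ∧ |B.2| ≤ (h : ℤ) ∧
      (M : ℤ) ∣ B.1 - B₀.1 ∧ (M : ℤ) ∣ B.2 - B₀.2 ∧ (s : ℤ) ∣ rf a (f + sh b B)), fun B => ?_⟩
    rw [mem_filter, mem_product, mem_Icc, mem_Icc]
    exact ⟨fun h => h.2, fun h => ⟨⟨abs_le.1 h.1, abs_le.1 h.2.1⟩, h⟩⟩
  rw [Nat.subtype_card X hX]
  have hs0 : 0 < s := Nat.pos_of_ne_zero hs.ne_zero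
  have hcover : X ⊆ (Finset.univ : Finset (s.primeFactors → Fin 2)).biUnion
      fun τ => X.filter fun B => ∀ p : s.primeFactors, T p (τ p) B := by
    intro B hB
    have h1 := ((hX B).1 hB).2.2.2.2
    choose τ hτ using fun p : s.primeFactors => hT1 p p.2 B h1
    exact mem_biUnion.2 ⟨τ, mem_univ _, mem_filter.2 ⟨hB, hτ⟩⟩
  have hone : ∀ τ : s.primeFactors → Fin 2,
      ((X.filter fun B => ∀ p : s.primeFactors, T p (τ p) B).card : ℝ) * ((s * M ^ 2 : ℕ) : ℝ) ≤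
        35 * (h : ℝ) ^ 2 := by
    intro τ
    have hmem : ∀ P ∈ X.filter (fun B => ∀ p : s.primeFactors, T p (τ p) B),
        (|P.1| ≤ (h : ℤ) ∧ |P.2| ≤ (h : ℤ)) ∧ ((M : ℤ) ∣ P.1 - B₀.1 ∧ (M : ℤ) ∣ P.2 - B₀.2) ∧
          ∀ p : s.primeFactors, T p (τ p) P := by
      intro P hP
      have h1 := mem_filter.1 hP
      have h2 := (hX P).1 h1.1
      exact ⟨⟨h2.1, h2.2.1⟩, ⟨h2.2.2.1, h2.2.2.2.1⟩, h1.2⟩
    have hM2 : ∀ P ∈ X.filter (fun B => ∀ p : s.primeFactors, T p (τ p) B),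
        ∀ P' ∈ X.filter (fun B => ∀ p : s.primeFactors, T p (τ p) B),
          (M : ℤ) ∣ P.1 - P'.1 ∧ (M : ℤ) ∣ P.2 - P'.2 := by
      intro P hP P' hP'
      have h1 := (hmem P hP).2.1
      have h2 := (hmem P' hP').2.1
      refine ⟨?_, ?_⟩
      · have h3 := dvd_sub h1.1 h2.1
        rwa [sub_sub_sub_cancel_right] at h3
      · have h3 := dvd_sub h1.2 h2.2
        rwa [sub_sub_sub_cancel_right] at h3
    apply lat_count _ h (s * M ^ 2) H hH (Nat.mul_pos hs0 (pow_pos hM 2))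
    · intro P hP
      exact (hmem P hP).1
    · intro P hP P' hP' Q hQ Q' hQ'
      apply DE_dvd hs hc
      · intro p hp
        exact (hT2 p hp _ P P' ((hmem P hP).2.2 ⟨p, hp⟩) ((hmem P' hP').2.2 ⟨p, hp⟩)).2 Q Q'
          ((hmem Q hQ).2.2 ⟨p, hp⟩) ((hmem Q' hQ').2.2 ⟨p, hp⟩)
      · rw [sq]
        exact dvd_sub (mul_dvd_mul (hM2 P hP P' hP').1 (hM2 Q hQ Q' hQ').2)
          (mul_dvd_mul (hM2 P hP P' hP').2 (hM2 Q hQ Q' hQ').1)
    · intro P hP P' hP' hne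
      have hd : ((s * M ^ 2 : ℕ) : ℤ) ∣ qe a (-(P.2 - P'.2)) (P.1 - P'.1) := by
        apply DE_dvd hs hc
        · intro p hp
          exact (hT2 p hp _ P P' ((hmem P hP).2.2 ⟨p, hp⟩) ((hmem P' hP').2.2 ⟨p, hp⟩)).1
        · obtain ⟨⟨x, hx⟩, ⟨y, hy⟩⟩ := hM2 P hP P' hP'
          rw [hx, hy]
          unfold qe
          exact ⟨a 0 * x ^ 2 + a 1 * (-y * x) + a 2 * y ^ 2, by ring⟩
      have hne0 : qe a (-(P.2 - P'.2)) (P.1 - P'.1) ≠ 0 := by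
        apply DE_ne hsq
        rintro ⟨h1, h2⟩
        apply hne
        exact Prod.ext (sub_eq_zero.1 h2) (sub_eq_zero.1 (neg_eq_zero.1 h1))
      have h1 := Int.le_of_dvd (abs_pos.2 hne0) ((dvd_abs _ _).2 hd)
      exact h1.trans (DE_bd ha _ _)
    · exact hlev
  have h1 : (X.card : ℝ) ≤ ∑ τ : s.primeFactors → Fin 2,
      ((X.filter fun B => ∀ p : s.primeFactors, T p (τ p) B).card : ℝ) := by
    exact_mod_cast (card_le_card hcover).trans card_biUnion_le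
  have h2 : ((s * M ^ 2 : ℕ) : ℝ) = s * (M : ℝ) ^ 2 := by push_cast; ring
  rw [← h2]
  have h3 : (0 : ℝ) ≤ ((s * M ^ 2 : ℕ) : ℝ) := Nat.cast_nonneg _
  calc (X.card : ℝ) * ((s * M ^ 2 : ℕ) : ℝ)
      ≤ (∑ τ : s.primeFactors → Fin 2,
        ((X.filter fun B => ∀ p : s.primeFactors, T p (τ p) B).card : ℝ)) * ((s * M ^ 2 : ℕ) : ℝ) :=
        mul_le_mul_of_nonneg_right h1 h3
    _ = ∑ τ : s.primeFactors → Fin 2,
        ((X.filter fun B => ∀ p : s.primeFactors, T p (τ p) B).card : ℝ) * ((s * M ^ 2 : ℕ) : ℝ) :=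
        Finset.sum_mul _ _ _
    _ ≤ ∑ _τ : s.primeFactors → Fin 2, 35 * (h : ℝ) ^ 2 := Finset.sum_le_sum fun τ _ => hone τ
    _ = 2 ^ s.primeFactors.card * (35 * (h : ℝ) ^ 2) := by
        rw [Finset.sum_const, card_univ, Fintype.card_fun, Fintype.card_fin, Fintype.card_coe,
          nsmul_eq_mul, Nat.cast_pow, Nat.cast_ofNat]

end HT
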