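import Pool.Agent.Lib.MP_10e784_agHT.DD
import Pool.Agent.Lib.MP_10e784_agBS.S3

/-!
# LEAF DF: the sum over the divisors in residue classes

PROOF of `block`.  `MWS.box_crt` with `ι = Fin 1` (or `Unit`), `h = M' = max M 1`, `M = ∏ p ∈ T, p`, and `f p b = weight of c (b + x₀)` modulo `p`; `g p = 10/11` by `mean1` (`c ≠ 0` modulo `p`); the integers of `(x₀, x₀ + M]` are `x₀ + t` with `|t| ≤ M`.  (Every factor of the product `Wt` depends only on the class modulo `p`.)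
PROOF of `sum_W`.  Cover `(B, L]` by the intervals `(B + k M, B + (k + 1) M]`, `k ≥ 0`, `B + k M < L`, `M = ∏ p ∈ T, p ≤ B`: on each of them `1 / D ≤ 1 / (B + k M)`, so the sum is at most `4 (10/11) ^ #T ∑_k M / (B + k M)` and `∑_k M / (B + k M) ≤ M / B + log (L / B) ≤ 1 + log L`
(`M / (B + k M) ≤ ∫` over the previous block for `k ≥ 1`, or `M / (B + k M) ≤ 1 / (k + 1)` as `M ≤ B`, `k + 1 ≤ L`, and `∑_{k < n} 1/(k+1) ≤ 1 + log n`).
-/

set_option autoImplicit false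

namespace HT

open Finset Polynomial MWS HY

theorem block (T : Finset ℕ) (hT : ∀ p ∈ T, p.Prime ∧ 29 ≤ p) (c : ℤ) (hc : ∀ p ∈ T, ¬ (p : ℤ) ∣ c) (x₀ : ℕ) :
    ∑ D ∈ Ioc x₀ (x₀ + ∏ p ∈ T, p), Wt T (c * D) ≤ 4 * (∏ p ∈ T, (p : ℝ)) * (10 / 11 : ℝ) ^ T.card := by
  classical
  obtain ⟨M, hM⟩ : ∃ M : ℕ, M = ∏ p ∈ T, p := ⟨_, rfl⟩
  have key := box_crt (ι := Fin 1) T (fun p hp => (hT p hp).1) (fun _ => M) (fun _ => hM.symm.le)
    (fun p b => if (c : ZMod p) * b 0 + (c : ZMod p) * (x₀ : ZMod p) ≠ 0 ∧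
      IsSquare ((c : ZMod p) * b 0 + (c : ZMod p) * (x₀ : ZMod p)) then (4 / 5 : ℝ) else 1)
    (fun p b => by
      split_ifs <;> norm_num) (fun _ => 10 / 11) (by
      intro p hp _
      have : Fact p.Prime := ⟨(hT p hp).1⟩
      have h1 := mean1 (hT p hp).2 (c : ZMod p) ((c : ZMod p) * (x₀ : ZMod p)) (by
        rw [Ne, ZMod.intCast_zmod_eq_zero_iff_dvd]
        exact hc p hp)
      rw [Fintype.card_fin, pow_one]
      refine le_trans (le_of_eq ?_) h1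
      refine Fintype.sum_equiv (Equiv.funUnique (Fin 1) (ZMod p)) _ _ fun b => ?_
      have e : (Equiv.funUnique (Fin 1) (ZMod p)) b = b 0 := rfl
      rw [e]
      by_cases hh : (c : ZMod p) * b 0 + (c : ZMod p) * (x₀ : ZMod p) ≠ 0 ∧
          IsSquare ((c : ZMod p) * b 0 + (c : ZMod p) * (x₀ : ZMod p))
      · rw [if_pos hh, if_pos hh]
      · rw [if_neg hh, if_neg hh])
  have hinj : Set.InjOn (fun D : ℕ => fun _ : Fin 1 => (D : ℤ) - x₀) (Ioc x₀ (x₀ + ∏ p ∈ T, p) : Finset ℕ) := by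
    intro D _ D' _ e
    have := congrFun e 0
    simp only at this
    omega
  have h2 : ∑ D ∈ Ioc x₀ (x₀ + ∏ p ∈ T, p), Wt T (c * D) =
      ∑ t ∈ (Ioc x₀ (x₀ + ∏ p ∈ T, p)).image (fun D : ℕ => fun _ : Fin 1 => (D : ℤ) - x₀),
        ∏ p ∈ T, if (c : ZMod p) * ((t 0 : ℤ) : ZMod p) + (c : ZMod p) * (x₀ : ZMod p) ≠ 0 ∧
          IsSquare ((c : ZMod p) * ((t 0 : ℤ) : ZMod p) + (c : ZMod p) * (x₀ : ZMod p)) then (4 / 5 : ℝ) else 1 := by
    rw [Finset.sum_image hinj]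
    refine Finset.sum_congr rfl fun D _ => ?_
    unfold Wt
    refine Finset.prod_congr rfl fun p _ => ?_
    have e : (((c * D : ℤ) : ℤ) : ZMod p) =
        (c : ZMod p) * (((D : ℤ) - x₀ : ℤ) : ZMod p) + (c : ZMod p) * (x₀ : ZMod p) := by
      push_cast
      ring
    rw [e]
  rw [h2]
  have hsub : (Ioc x₀ (x₀ + ∏ p ∈ T, p)).image (fun D : ℕ => fun _ : Fin 1 => (D : ℤ) - x₀) ⊆
      Fintype.piFinset (fun _ : Fin 1 => Icc (-(M : ℤ)) (M : ℤ)) := by
    intro t ht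
    obtain ⟨D, hD, rfl⟩ := Finset.mem_image.1 ht
    rw [Finset.mem_Ioc, ← hM] at hD
    rw [Fintype.mem_piFinset]
    intro _
    rw [Finset.mem_Icc]
    constructor <;> omega
  refine (Finset.sum_le_sum_of_subset_of_nonneg hsub fun t _ _ => Finset.prod_nonneg fun p _ => by
    split_ifs <;> norm_num).trans (key.trans (le_of_eq ?_))
  rw [Finset.prod_const, Finset.prod_const, Finset.card_univ, Fintype.card_fin, pow_one, hM]
  push_cast
  rfl

theorem sum_W (T : Finset ℕ) (hT : ∀ p ∈ T, p.Prime ∧ 29 ≤ p) (c : ℤ) (hc : ∀ p ∈ T, ¬ (p : ℤ) ∣ c) (B L : ℕ)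
    (hB : ∏ p ∈ T, p ≤ B) (hL : 1 ≤ L) :
    ∑ D ∈ Ioc B L, Wt T (c * D) / (D : ℝ) ≤ 8 * (1 + Real.log L) * (10 / 11 : ℝ) ^ T.card := by
  classical
  obtain ⟨M, hM⟩ : ∃ M : ℕ, M = ∏ p ∈ T, p := ⟨_, rfl⟩
  have hM1 : 1 ≤ M := by
    rw [hM]
    exact Finset.prod_pos fun p hp => (hT p hp).1.pos
  rw [← hM] at hB
  have hW : ∀ x : ℤ, 0 ≤ Wt T x := fun x => Finset.prod_nonneg fun p _ => by split_ifs <;> norm_num
  have hsplit : ∀ n : ℕ, ∑ D ∈ Ioc B (B + n * M), Wt T (c * D) / (D : ℝ) =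
      ∑ k ∈ range n, ∑ D ∈ Ioc (B + k * M) (B + (k + 1) * M), Wt T (c * D) / (D : ℝ) := by
    intro n
    induction n with
    | zero => simp
    | succ n ih =>
      rw [Finset.sum_range_succ, ← ih]
      exact (Finset.sum_Ioc_consecutive _ (Nat.le_add_right _ _)
        (Nat.add_le_add_left (Nat.mul_le_mul_right _ (Nat.le_succ n)) _)).symm
  have hsub : Ioc B L ⊆ Ioc B (B + L * M) := by
    refine Finset.Ioc_subset_Ioc_right ?_
    calc L = L * 1 := (mul_one L).symm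
      _ ≤ L * M := Nat.mul_le_mul_left _ hM1
      _ ≤ B + L * M := Nat.le_add_left _ _
  refine (Finset.sum_le_sum_of_subset_of_nonneg hsub fun D _ _ => div_nonneg (hW _) (Nat.cast_nonneg _)).trans ?_
  rw [hsplit L]
  have hM0 : (0 : ℝ) < M := by exact_mod_cast hM1
  have hblock : ∀ k ∈ range L, ∑ D ∈ Ioc (B + k * M) (B + (k + 1) * M), Wt T (c * D) / (D : ℝ) ≤
      (4 * (10 / 11 : ℝ) ^ T.card) * ((k : ℝ) + 1)⁻¹ := by
    intro k _
    have h1 := block T hT c hc (B + k * M)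
    have e1 : B + (k + 1) * M = B + k * M + ∏ p ∈ T, p := by
      rw [← hM]
      ring
    have e2 : (∏ p ∈ T, (p : ℝ)) = M := by
      rw [hM]
      push_cast
      rfl
    rw [e2] at h1
    rw [e1]
    have hk : ((k : ℝ) + 1) * M ≤ B + k * M := by
      have : (M : ℝ) ≤ B := by exact_mod_cast hB
      linarith
    have hk0 : (0 : ℝ) < ((k : ℝ) + 1) * M := by positivity
    calc ∑ D ∈ Ioc (B + k * M) (B + k * M + ∏ p ∈ T, p), Wt T (c * D) / (D : ℝ)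
        ≤ ∑ D ∈ Ioc (B + k * M) (B + k * M + ∏ p ∈ T, p), Wt T (c * D) / (((k : ℝ) + 1) * M) := by
          refine Finset.sum_le_sum fun D hD => ?_
          refine div_le_div_of_nonneg_left (hW _) hk0 (hk.trans ?_)
          have := (Finset.mem_Ioc.1 hD).1.le
          exact_mod_cast this
      _ = (∑ D ∈ Ioc (B + k * M) (B + k * M + ∏ p ∈ T, p), Wt T (c * D)) / (((k : ℝ) + 1) * M) :=
          (Finset.sum_div _ _ _).symm
      _ ≤ (4 * M * (10 / 11 : ℝ) ^ T.card) / (((k : ℝ) + 1) * M) := div_le_div_of_nonneg_right h1 hk0.le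
      _ = (4 * (10 / 11 : ℝ) ^ T.card) * ((k : ℝ) + 1)⁻¹ := by
          field_simp
  refine (Finset.sum_le_sum hblock).trans ?_
  rw [← Finset.mul_sum]
  have hh : ∑ k ∈ range L, ((k : ℝ) + 1)⁻¹ ≤ 1 + Real.log L := by
    have := harmonic_le_one_add_log L
    unfold harmonic at this
    push_cast at this
    exact this
  have hlog : 0 ≤ Real.log L := Real.log_natCast_nonneg L
  have hp : (0 : ℝ) ≤ (10 / 11 : ℝ) ^ T.card := by positivity
  calc 4 * (10 / 11 : ℝ) ^ T.card * ∑ k ∈ range L, ((k : ℝ) + 1)⁻¹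
      ≤ 4 * (10 / 11 : ℝ) ^ T.card * (1 + Real.log L) := mul_le_mul_of_nonneg_left hh (by positivity)
    _ ≤ 8 * (1 + Real.log L) * (10 / 11 : ℝ) ^ T.card := by
        nlinarith [mul_nonneg hp (by linarith : (0 : ℝ) ≤ 1 + Real.log L)]

end HT
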