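import Pool.Agent.Lib.MP_10e784_agHT.DD
import Pool.Agent.Lib.MP_10e784_agHT.DE
import Pool.Agent.Lib.MP_10e784_agBS.S3

/-!
# LEAF DG: the weight of the resultant on the shifts with `s ∣ rf`

PROOF.  `M = ∏ p ∈ T, p`.  `Wt T (c * rf a (f + sh b B))` depends only on `B` modulo `M`.  Group the `B` of the box with `s ∣ rf` by the class `B₀ ∈ {0, .., M - 1}²` modulo `M`: `∑_B = ∑_{B₀} Wt(B₀) #{B = B₀ mod M, s ∣ rf}`, and `cnt_dvd` gives `# ≤ 2 ^ ω 35 h² / (s M²)`.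
`∑_{B₀} Wt T (c * rf a (f + sh b B₀)) ≤ (4 M)² (10/11) ^ #T` by `MWS.box_crt` with `ι = Fin 2`, `h = M` (`{0, .., M - 1}² ⊆ [-M, M]²`, all terms `≥ 0`), `f p b = weight of c rf (f + sh b (b 0, b 1))` modulo `p` and `g p = 10/11` by `mean2` (sum over `Fin 2 → ZMod p` = sum over `ZMod p × ZMod p`: `finTwoArrowEquiv`).
-/

set_option autoImplicit false

namespace HT

open Finset Polynomial MWS HY

private theorem DG_mod {p M : ℕ} (h : p ∣ M) (x : ℤ) : ((x % (M : ℤ) : ℤ) : ZMod p) = ((x : ℤ) : ZMod p) := by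
  have h1 : ((M : ℕ) : ZMod p) = 0 := (ZMod.natCast_eq_zero_iff M p).2 h
  conv_rhs => rw [← Int.emod_add_mul_ediv x (M : ℤ)]
  push_cast
  rw [h1, zero_mul, add_zero]

private theorem DG_dvd (x : ℤ) (M : ℤ) : M ∣ x - x % M := by
  refine ⟨x / M, ?_⟩
  have := Int.emod_add_mul_ediv x M
  linarith

open Classical in
/-- the weight as a function of the reductions -/
private noncomputable def DG_f {m : ℕ} (a b : Fin 3 → ℤ) (f : Fin (m + 1) → ℤ) (c : ℤ) (p : ℕ)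
    (B : Fin 2 → ZMod p) : ℝ :=
  if ((c : ℤ) : ZMod p) * rf (fun i => ((a i : ℤ) : ZMod p)) ((fun i => ((f i : ℤ) : ZMod p)) +
      sh (fun i => ((b i : ℤ) : ZMod p)) (B 0, B 1)) ≠ 0 ∧
    IsSquare (((c : ℤ) : ZMod p) * rf (fun i => ((a i : ℤ) : ZMod p)) ((fun i => ((f i : ℤ) : ZMod p)) +
      sh (fun i => ((b i : ℤ) : ZMod p)) (B 0, B 1))) then (4 / 5 : ℝ) else 1

private theorem DG_f_nonneg {m : ℕ} (a b : Fin 3 → ℤ) (f : Fin (m + 1) → ℤ) (c : ℤ) (p : ℕ)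
    (B : Fin 2 → ZMod p) : 0 ≤ DG_f a b f c p B := by
  unfold DG_f
  split_ifs <;> norm_num

private theorem DG_Wt {m : ℕ} (a b : Fin 3 → ℤ) (f : Fin (m + 1) → ℤ) (c : ℤ) (T : Finset ℕ) (B : ℤ × ℤ) :
    Wt T (c * rf a (f + sh b B)) =
      ∏ p ∈ T, DG_f a b f c p (fun i => (((![B.1, B.2] : Fin 2 → ℤ) i : ℤ) : ZMod p)) := by
  unfold Wt
  refine Finset.prod_congr rfl fun p _ => ?_
  have h1 : ((c * rf a (f + sh b B) : ℤ) : ZMod p) = ((c : ℤ) : ZMod p) *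
      rf (fun i => ((a i : ℤ) : ZMod p)) ((fun i => ((f i : ℤ) : ZMod p)) +
        sh (fun i => ((b i : ℤ) : ZMod p)) (((B.1 : ℤ) : ZMod p), ((B.2 : ℤ) : ZMod p))) := by
    rw [Int.cast_mul, rf_cast]
    congr 2
    funext i
    rw [Pi.add_apply, Pi.add_apply, Int.cast_add]
    exact congrArg _ (congrFun (sh_cast p b B) i)
  rw [h1]
  rfl

open Classical in
theorem sum_rf {m : ℕ} (hm : 3 ≤ m) (a b : Fin 3 → ℤ) (f : Fin (m + 1) → ℤ) {H h s : ℕ} (hH : 1 ≤ H)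
    (ha : ∀ i, |a i| ≤ (H : ℤ)) (hsq : ¬ IsSquare (dq a)) (hs : Squarefree s) (hN : Nat.Coprime s (NN a b))
    (T : Finset ℕ) (hT : ∀ p ∈ T, p.Prime ∧ 29 ≤ p ∧ ¬ IsSquare ((dq a : ℤ) : ZMod p) ∧ ((rq a b : ℤ) : ZMod p) ≠ 0)
    (c : ℤ) (hc : ∀ p ∈ T, ¬ (p : ℤ) ∣ c) (hsT : ∀ p ∈ T, ¬ p ∣ s)
    (hlev : 3 * H * (s * (∏ p ∈ T, p) ^ 2) ≤ h ^ 2) :
    ∑ B ∈ (Icc (-(h : ℤ)) h ×ˢ Icc (-(h : ℤ)) h).filter (fun B => (s : ℤ) ∣ rf a (f + sh b B)),
      Wt T (c * rf a (f + sh b B)) ≤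
      2 ^ s.primeFactors.card * (560 * (h : ℝ) ^ 2 / s) * (10 / 11 : ℝ) ^ T.card := by
  obtain ⟨M, hMd⟩ : ∃ M : ℕ, M = ∏ p ∈ T, p := ⟨_, rfl⟩
  rw [← hMd] at hlev
  have hM1 : 1 ≤ M := by
    rw [hMd]
    exact Finset.prod_pos fun p hp => (hT p hp).1.pos
  have hMz : (0 : ℤ) < M := by exact_mod_cast hM1
  have hM0 : (0 : ℝ) < M := by exact_mod_cast hM1
  have hs0 : (0 : ℝ) < s := by exact_mod_cast Nat.pos_of_ne_zero hs.ne_zero
  have hdvd : ∀ p ∈ T, p ∣ M := fun p hp => by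
    rw [hMd]
    exact Finset.dvd_prod_of_mem _ hp
  have hcop : Nat.Coprime s M := by
    rw [hMd]
    refine Nat.Coprime.prod_right fun p hp => ?_
    exact (((hT p hp).1.coprime_iff_not_dvd).2 (hsT p hp)).symm
  let r : ℤ × ℤ → ℤ × ℤ := fun B => (B.1 % (M : ℤ), B.2 % (M : ℤ))
  let W : ℤ × ℤ → ℝ := fun B => Wt T (c * rf a (f + sh b B))
  have hW0 : ∀ B, 0 ≤ W B := fun B => by
    show 0 ≤ Wt T (c * rf a (f + sh b B))
    rw [DG_Wt]
    exact Finset.prod_nonneg fun p _ => DG_f_nonneg _ _ _ _ _ _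
  have hWr : ∀ B, W B = W (r B) := fun B => by
    show Wt T (c * rf a (f + sh b B)) = Wt T (c * rf a (f + sh b (r B)))
    rw [DG_Wt, DG_Wt]
    refine Finset.prod_congr rfl fun p hp => ?_
    congr 1
    funext i
    fin_cases i
    · exact (DG_mod (hdvd p hp) B.1).symm
    · exact (DG_mod (hdvd p hp) B.2).symm
  let Q : Finset (ℤ × ℤ) := Icc (0 : ℤ) (M - 1) ×ˢ Icc (0 : ℤ) (M - 1)
  let F : Finset (ℤ × ℤ) :=
    (Icc (-(h : ℤ)) h ×ˢ Icc (-(h : ℤ)) h).filter (fun B => (s : ℤ) ∣ rf a (f + sh b B))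
  have hrQ : ∀ B ∈ F, r B ∈ Q := fun B _ => by
    have h1 := Int.emod_nonneg B.1 hMz.ne'
    have h2 := Int.emod_lt_of_pos B.1 hMz
    have h3 := Int.emod_nonneg B.2 hMz.ne'
    have h4 := Int.emod_lt_of_pos B.2 hMz
    exact Finset.mem_product.2 ⟨Finset.mem_Icc.2 ⟨h1, Int.le_sub_one_of_lt h2⟩,
      Finset.mem_Icc.2 ⟨h3, Int.le_sub_one_of_lt h4⟩⟩
  obtain ⟨K, hK⟩ : ∃ K : ℝ, K = 2 ^ s.primeFactors.card * (35 * (h : ℝ) ^ 2) / (s * (M : ℝ) ^ 2) := ⟨_, rfl⟩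
  have hcnt : ∀ B₀ : ℤ × ℤ, ((F.filter fun B => r B = B₀).card : ℝ) ≤ K := by
    intro B₀
    have h1 := cnt_dvd hm a b f hH ha hsq hs hcop hN hM1 hlev B₀
    have h2 : Nat.card {B : ℤ × ℤ // |B.1| ≤ (h : ℤ) ∧ |B.2| ≤ (h : ℤ) ∧ (M : ℤ) ∣ B.1 - B₀.1 ∧
        (M : ℤ) ∣ B.2 - B₀.2 ∧ (s : ℤ) ∣ rf a (f + sh b B)} =
        (F.filter fun B => (M : ℤ) ∣ B.1 - B₀.1 ∧ (M : ℤ) ∣ B.2 - B₀.2).card := by
      refine Nat.subtype_card _ fun B => ?_
      rw [Finset.mem_filter, Finset.mem_filter, Finset.mem_product, Finset.mem_Icc, Finset.mem_Icc,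
        ← abs_le, ← abs_le]
      tauto
    rw [h2] at h1
    have h3 : (F.filter fun B => r B = B₀).card ≤
        (F.filter fun B => (M : ℤ) ∣ B.1 - B₀.1 ∧ (M : ℤ) ∣ B.2 - B₀.2).card := by
      refine Finset.card_le_card fun B hB => ?_
      obtain ⟨hB1, hB2⟩ := Finset.mem_filter.1 hB
      refine Finset.mem_filter.2 ⟨hB1, ?_, ?_⟩
      · rw [← hB2]
        exact DG_dvd B.1 M
      · rw [← hB2]
        exact DG_dvd B.2 M
    have h4 : ((F.filter fun B => r B = B₀).card : ℝ) ≤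
        ((F.filter fun B => (M : ℤ) ∣ B.1 - B₀.1 ∧ (M : ℤ) ∣ B.2 - B₀.2).card : ℝ) := by
      exact_mod_cast h3
    rw [hK, le_div_iff₀ (by positivity)]
    exact (mul_le_mul_of_nonneg_right h4 (by positivity)).trans h1
  have hQ : ∑ B₀ ∈ Q, W B₀ ≤ 16 * (M : ℝ) ^ 2 * (10 / 11 : ℝ) ^ T.card := by
    let φ : ℤ × ℤ → (Fin 2 → ℤ) := fun B => ![B.1, B.2]
    have hφ : Function.Injective φ := fun B B' hB =>
      Prod.ext (congrFun hB 0) (congrFun hB 1)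
    have hb := box_crt (ι := Fin 2) T (fun p hp => (hT p hp).1) (fun _ => M)
      (fun _ => hMd.symm.le) (fun p B => DG_f a b f c p B) (fun p B => DG_f_nonneg a b f c p B)
      (fun _ => 10 / 11) (by
        intro p hp _
        obtain ⟨hp1, hp2, hp3, hp4⟩ := hT p hp
        have : Fact p.Prime := ⟨hp1⟩
        have e1 : dq (fun i => ((a i : ℤ) : ZMod p)) = ((dq a : ℤ) : ZMod p) := by
          unfold dq
          push_cast
          ring
        have e2 : rq (fun i => ((a i : ℤ) : ZMod p)) (fun i => ((b i : ℤ) : ZMod p)) =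
            ((rq a b : ℤ) : ZMod p) := by
          unfold rq
          push_cast
          ring
        have e3 : ((c : ℤ) : ZMod p) ≠ 0 := fun h0 =>
          hc p hp ((ZMod.intCast_zmod_eq_zero_iff_dvd c p).1 h0)
        have h1 := mean2 hp2 hm (fun i => ((a i : ℤ) : ZMod p)) (fun i => ((b i : ℤ) : ZMod p))
          (fun i => ((f i : ℤ) : ZMod p)) (by rw [e1]; exact hp3) (by rw [e2]; exact hp4)
          ((c : ℤ) : ZMod p) e3
        rw [Fintype.card_fin]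
        refine le_trans (le_of_eq ?_) h1
        exact Fintype.sum_equiv (finTwoArrowEquiv (ZMod p)) _ _ fun B => by
          by_cases hB : ((c : ℤ) : ZMod p) * rf (fun i => ((a i : ℤ) : ZMod p)) ((fun i => ((f i : ℤ) : ZMod p)) +
              sh (fun i => ((b i : ℤ) : ZMod p)) (B 0, B 1)) ≠ 0 ∧
            IsSquare (((c : ℤ) : ZMod p) * rf (fun i => ((a i : ℤ) : ZMod p)) ((fun i => ((f i : ℤ) : ZMod p)) +
              sh (fun i => ((b i : ℤ) : ZMod p)) (B 0, B 1)))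
          · have e4 : DG_f a b f c p B = 4 / 5 := if_pos hB
            exact e4.trans (if_pos hB).symm
          · have e4 : DG_f a b f c p B = 1 := if_neg hB
            exact e4.trans (if_neg hB).symm)
    have h1 : ∑ B₀ ∈ Q, W B₀ = ∑ C ∈ Q.image φ, ∏ p ∈ T, DG_f a b f c p (fun i => ((C i : ℤ) : ZMod p)) := by
      rw [Finset.sum_image fun B _ B' _ hB => hφ hB]
      exact Finset.sum_congr rfl fun B _ => DG_Wt a b f c T B
    rw [h1]
    have h2 : Q.image φ ⊆ Fintype.piFinset (fun _ : Fin 2 => Icc (-(M : ℤ)) (M : ℤ)) := by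
      intro C hC
      obtain ⟨B, hB, rfl⟩ := Finset.mem_image.1 hC
      obtain ⟨h3, h4⟩ := Finset.mem_product.1 hB
      rw [Finset.mem_Icc] at h3 h4
      rw [Fintype.mem_piFinset]
      intro i
      rw [Finset.mem_Icc]
      fin_cases i
      · show -(M : ℤ) ≤ B.1 ∧ B.1 ≤ M
        omega
      · show -(M : ℤ) ≤ B.2 ∧ B.2 ≤ M
        omega
    refine (Finset.sum_le_sum_of_subset_of_nonneg h2 fun C _ _ =>
      Finset.prod_nonneg fun p _ => DG_f_nonneg _ _ _ _ _ _).trans (hb.trans (le_of_eq ?_))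
    rw [Finset.prod_const, Finset.prod_const, Finset.card_univ, Fintype.card_fin]
    ring
  have hmain : ∑ B ∈ F, W B ≤ (∑ B₀ ∈ Q, W B₀) * K := by
    rw [← Finset.sum_fiberwise_of_maps_to hrQ, Finset.sum_mul]
    refine Finset.sum_le_sum fun B₀ _ => ?_
    have h1 : ∑ B ∈ F.filter (fun B => r B = B₀), W B = (F.filter fun B => r B = B₀).card * W B₀ := by
      rw [← nsmul_eq_mul, ← Finset.sum_const]
      refine Finset.sum_congr rfl fun B hB => ?_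
      rw [hWr B, (Finset.mem_filter.1 hB).2]
    rw [h1, mul_comm (W B₀)]
    exact mul_le_mul_of_nonneg_right (hcnt B₀) (hW0 B₀)
  have hK0 : 0 ≤ K := by
    rw [hK]
    positivity
  refine hmain.trans ((mul_le_mul_of_nonneg_right hQ hK0).trans (le_of_eq ?_))
  rw [hK]
  field_simp
  ring

end HT
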