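import Pool.Agent.Lib.MP_10e784_agHT.DDefs

/-!
# LEAF DH: divisors and cofactors

PROOF of `card_sqf`: the squarefree divisors of `N` are the products of the subsets of `N.primeFactors` (`Nat.prod_primeFactors_of_squarefree`: `g ↦ g.primeFactors` is injective on them).
PROOF of `cop_facts`: `D = g * cop N D`, `g = ∏ p ∈ D.primeFactors.filter (p ∣ N), p` (`Nat.prod_primeFactors_of_squarefree`, `prod_filter_mul_prod_filter_not`), `g` squarefree, `g ∣ N` (squarefree and all its primes divide `N`).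
PROOF of `switch`.  `R = cop N D * e`.  Write `e = e_N * e'` with `e_N` the part of `e` with primes dividing `N` and `e'` prime to `N` (e.g. by `Nat.factorization`, or `Nat.Coprime` splitting: `e' = ∏ p ∈ e.primeFactors.filter (¬ p ∣ N), p ^ e.factorization p`).
`Nat.sq_mul_squarefree`: `e' = s t²`, `s` squarefree (so prime to `N`, `s ∣ e' ∣ R`), `g * e_N = g'' y²`, `g''` squarefree; all primes of `g''` divide `N`, so `g'' ∣ N`.  `D g'' s R = (g cop) g'' s (cop e_N s t²) = (g e_N) g'' (cop s t)² = (g'' y cop s t)²`.  `s * cop N D ∣ ..`: `s ≤ e' ≤ e`, so `s * cop N D ≤ R`.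
-/

set_option autoImplicit false

namespace HT

open Finset

theorem card_sqf {N : ℕ} (hN : N ≠ 0) : ((N.divisors).filter Squarefree).card ≤ 2 ^ N.primeFactors.card := by
  rw [← card_powerset]
  refine card_le_card_of_injOn (fun g => g.primeFactors) ?_ ?_
  · intro g hg
    have hg' := mem_filter.1 (mem_coe.1 hg)
    exact mem_coe.2 (mem_powerset.2 (Nat.primeFactors_mono (Nat.mem_divisors.1 hg'.1).1 hN))
  · intro g hg g' hg' h
    have h1 := (mem_filter.1 (mem_coe.1 hg)).2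
    have h2 := (mem_filter.1 (mem_coe.1 hg')).2
    rw [← Nat.prod_primeFactors_of_squarefree h1, ← Nat.prod_primeFactors_of_squarefree h2]
    have h3 : g.primeFactors = g'.primeFactors := h
    rw [h3]

theorem cop_facts {N D : ℕ} (hN : N ≠ 0) (hD : Squarefree D) :
    ∃ g : ℕ, D = g * cop N D ∧ Squarefree g ∧ g ∣ N ∧ Squarefree (cop N D) ∧ Nat.Coprime (cop N D) N ∧
      ∀ p : ℕ, p.Prime → p ∣ g → p ∣ D ∧ p ∣ N := by
  obtain ⟨g, hg⟩ : ∃ g : ℕ, g = ∏ p ∈ D.primeFactors.filter (fun p => p ∣ N), p := ⟨_, rfl⟩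
  have hDg : D = g * cop N D := by
    conv_lhs => rw [← Nat.prod_primeFactors_of_squarefree hD]
    rw [hg]
    unfold cop
    exact (prod_filter_mul_prod_filter_not _ _ _).symm
  refine ⟨g, hDg, ?_, ?_, ?_, ?_, ?_⟩
  · exact Squarefree.squarefree_of_dvd ⟨_, hDg⟩ hD
  · rw [hg]
    refine prod_primes_dvd _ (fun p hp => ?_) fun p hp => (mem_filter.1 hp).2
    exact (Nat.prime_of_mem_primeFactors (mem_filter.1 hp).1).prime
  · exact Squarefree.squarefree_of_dvd ⟨g, by rw [mul_comm]; exact hDg⟩ hD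
  · unfold cop
    refine Nat.Coprime.prod_left fun p hp => ?_
    exact (Nat.Prime.coprime_iff_not_dvd (Nat.prime_of_mem_primeFactors (mem_filter.1 hp).1)).2
      (mem_filter.1 hp).2
  · intro p hp hpg
    rw [hg] at hpg
    obtain ⟨q, hq, hpq⟩ := (hp.prime.dvd_finsetProd_iff _).1 hpg
    have hq' := mem_filter.1 hq
    have h1 : p = q := (Nat.prime_dvd_prime_iff_eq hp (Nat.prime_of_mem_primeFactors hq'.1)).1 hpq
    rw [h1]
    exact ⟨Nat.dvd_of_mem_primeFactors hq'.1, hq'.2⟩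

theorem switch {N D R : ℕ} (hN : N ≠ 0) (hR : R ≠ 0) (hD : Squarefree D) (hDR : D ∣ R) :
    ∃ g s : ℕ, Squarefree g ∧ g ∣ N ∧ Squarefree s ∧ Nat.Coprime s N ∧ s ∣ R ∧ s * cop N D ≤ R ∧
      IsSquare (D * (g * s * R)) := by
  obtain ⟨g₀, hDg, -, hg₀N, -, -, -⟩ := cop_facts hN hD
  obtain ⟨e₀, he₀⟩ := hDR
  obtain ⟨u, y, huy, hu⟩ := Nat.sq_mul_squarefree (g₀ * (g₀ * e₀))
  obtain ⟨g, hug, hgs, hgN, hss, hsN, -⟩ := cop_facts hN hu
  have hR' : R = cop N D * (g₀ * e₀) := by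
    calc R = D * e₀ := he₀
      _ = g₀ * cop N D * e₀ := by rw [← hDg]
      _ = _ := by ring
  have he : g₀ * e₀ ≠ 0 := fun h => hR (by rw [hR', h, mul_zero])
  have hs0 : cop N u ∣ g₀ * (g₀ * e₀) := by
    have h1 : cop N u ∣ u := ⟨g, by rw [mul_comm]; exact hug⟩
    exact h1.trans ⟨y ^ 2, by rw [← huy]; ring⟩
  have hs1 : cop N u ∣ g₀ * e₀ := (Nat.Coprime.coprime_dvd_right hg₀N hsN).dvd_of_dvd_mul_left hs0
  refine ⟨g, cop N u, hgs, hgN, hss, hsN, ?_, ?_, ?_⟩
  · rw [hR']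
    exact hs1.mul_left _
  · rw [hR', mul_comm (cop N D)]
    exact Nat.mul_le_mul_right _ (Nat.le_of_dvd (Nat.pos_of_ne_zero he) hs1)
  · refine ⟨cop N D * y * u, ?_⟩
    calc D * (g * cop N u * R) = D * (u * R) := by rw [← hug]
      _ = (g₀ * cop N D) * (u * (cop N D * (g₀ * e₀))) := by rw [← hR', ← hDg]
      _ = cop N D ^ 2 * u * (g₀ * (g₀ * e₀)) := by ring
      _ = cop N D ^ 2 * u * (y ^ 2 * u) := by rw [huy]
      _ = _ := by ring

end HT
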