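import Pool.Agent.Lib.MP_10e784_agHT.DE
import Pool.Agent.Lib.MP_10e784_agHT.DF
import Pool.Agent.Lib.MP_10e784_agHT.DH

/-!
# LEAF DJ: small divisors (page, 6.1)

PROOF.  `N = NN a b ≠ 0`, `T'' = T'.filter (¬ p ∣ c)`, `#T'' ≥ 10 T - w` (`om c ≤ w`, `c ≠ 0`).  Let `B` be in the set, `D = g D'`, `D' = cop N D` (`cop_facts`), `g ∣ N` squarefree, `B₁ < D' ≤ L`, `D'` squarefree, prime to `N`, with at most `w` prime factors (`D' ∣ rf ≠ 0`, `om ≤ w`).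
The primes of `T'` do not divide `N` (`rq ≠ 0` modulo `p`; `a 2 ≠ 0` modulo `p` because `dq a` is not a square modulo `p`), so not `g`, and for `p ∈ T''`: `nsq p (c D)` iff the weight of `(c g) D'` is `4/5`: less than `T` of them, so `1 ≤ (5/4)^T Wt T'' ((c g) D')`.
So the number is at most `∑_g ∑_{D' ∈ Ioc B₁ L, squarefree, prime to N, ≤ w primes} (5/4)^T Wt T'' ((c g) D') #{|B| ≤ h : D' ∣ rf}`, `# ≤ 2^w 35 h² / D'` (`cnt_dvd` with `M = 1`; `3 H D' ≤ 3 H L ≤ h²`), at most `2^w` values of `g` (`card_sqf`, `om` of `N` `≤ w`), and `sum_W` (the primes of `T''` do not divide `c g`; `∏ T'' ≤ ∏ T' ≤ B₁`):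
`≤ 2^w 2^w 35 h² (5/4)^T 8 (1 + log L) (10/11)^(10 T - w)`; `(10/11)^(10 T) (5/4)^T ≤ (1/2)^T`, `(11/10)^w ≤ 2^w`: `≤ 280 · 8^w (1 + log L) h² (1/2)^T` (natural subtraction `10 T - w`: if `10 T < w` the bound `(10/11)^0 = 1 ≤ (10/11)^(10 T) (11/10)^w` is fine).
-/

set_option autoImplicit false

namespace HT

open Finset Polynomial MWS HY

/-- the box as a finite set of pairs -/
private noncomputable def DJ_bx (h : ℕ) : Finset (ℤ × ℤ) := Icc (-(h : ℤ)) (h : ℤ) ×ˢ Icc (-(h : ℤ)) (h : ℤ)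

private theorem DJ_mem_bx {h : ℕ} {B : ℤ × ℤ} (h1 : |B.1| ≤ (h : ℤ)) (h2 : |B.2| ≤ (h : ℤ)) :
    B ∈ DJ_bx h := by
  unfold DJ_bx
  rw [Finset.mem_product, Finset.mem_Icc, Finset.mem_Icc]
  exact ⟨abs_le.mp h1, abs_le.mp h2⟩

private theorem DJ_card {h : ℕ} (P : ℤ × ℤ → Prop) [DecidablePred P] (hP : ∀ B, P B → |B.1| ≤ (h : ℤ) ∧ |B.2| ≤ (h : ℤ)) :
    Nat.card {B : ℤ × ℤ // P B} = ((DJ_bx h).filter P).card := by
  refine Nat.subtype_card _ ?_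
  intro B
  rw [Finset.mem_filter]
  exact ⟨fun hB => hB.2, fun hB => ⟨DJ_mem_bx (hP B hB).1 (hP B hB).2, hB⟩⟩

open Classical in
private theorem DJ_wt (T : Finset ℕ) (x : ℤ) :
    Wt T x = (4 / 5 : ℝ) ^ (T.filter fun p => nsq p x).card := by
  unfold Wt
  rw [Finset.prod_ite, Finset.prod_const, Finset.prod_const_one, mul_one]
  refine congrArg (fun k : ℕ => (4 / 5 : ℝ) ^ k) ?_
  refine congrArg Finset.card ?_
  ext p
  rw [Finset.mem_filter, Finset.mem_filter]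
  rfl

private theorem DJ_num {w T k : ℕ} {X : ℝ} (hX : 0 ≤ X) (hk : 10 * T ≤ k + w) :
    (2 : ℝ) ^ w * ((5 / 4 : ℝ) ^ T * ((2 : ℝ) ^ w * 35) * (8 * X * (10 / 11 : ℝ) ^ k)) ≤
      280 * 8 ^ w * X * (1 / 2) ^ T := by
  have h1 : (10 / 11 : ℝ) ^ (k + w) ≤ (10 / 11 : ℝ) ^ (10 * T) :=
    pow_le_pow_of_le_one (by norm_num) (by norm_num) hk
  have h2 : (10 / 11 : ℝ) ^ k ≤ 2 ^ w * (10 / 11 : ℝ) ^ (10 * T) := by
    have h3 : (10 / 11 : ℝ) ^ k = (11 / 10 : ℝ) ^ w * (10 / 11 : ℝ) ^ (k + w) := by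
      rw [pow_add]
      have h4 : (11 / 10 : ℝ) ^ w * (10 / 11 : ℝ) ^ w = 1 := by
        rw [← mul_pow]
        norm_num
      calc (10 / 11 : ℝ) ^ k = (10 / 11 : ℝ) ^ k * ((11 / 10 : ℝ) ^ w * (10 / 11 : ℝ) ^ w) := by
            rw [h4, mul_one]
        _ = (11 / 10 : ℝ) ^ w * ((10 / 11 : ℝ) ^ k * (10 / 11 : ℝ) ^ w) := by ring
    rw [h3]
    have h5 : (11 / 10 : ℝ) ^ w ≤ 2 ^ w := pow_le_pow_left₀ (by norm_num) (by norm_num) w
    exact mul_le_mul h5 h1 (by positivity) (by positivity)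
  have h6 : (5 / 4 : ℝ) ^ T * (10 / 11 : ℝ) ^ (10 * T) ≤ (1 / 2 : ℝ) ^ T := by
    rw [pow_mul, ← mul_pow]
    exact pow_le_pow_left₀ (by positivity) (by norm_num) T
  calc (2 : ℝ) ^ w * ((5 / 4 : ℝ) ^ T * ((2 : ℝ) ^ w * 35) * (8 * X * (10 / 11 : ℝ) ^ k))
      = (280 * X * 2 ^ w * 2 ^ w * (5 / 4 : ℝ) ^ T) * (10 / 11 : ℝ) ^ k := by ring
    _ ≤ (280 * X * 2 ^ w * 2 ^ w * (5 / 4 : ℝ) ^ T) * (2 ^ w * (10 / 11 : ℝ) ^ (10 * T)) :=
        mul_le_mul_of_nonneg_left h2 (by positivity)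
    _ = (280 * X * (2 ^ w * 2 ^ w * 2 ^ w)) * ((5 / 4 : ℝ) ^ T * (10 / 11 : ℝ) ^ (10 * T)) := by ring
    _ ≤ (280 * X * (2 ^ w * 2 ^ w * 2 ^ w)) * (1 / 2 : ℝ) ^ T :=
        mul_le_mul_of_nonneg_left h6 (by positivity)
    _ = 280 * 8 ^ w * X * (1 / 2) ^ T := by
        have h8 : (8 : ℝ) ^ w = 2 ^ w * 2 ^ w * 2 ^ w := by
          rw [← mul_pow, ← mul_pow]
          norm_num
        rw [h8]
        ring

private theorem DJ_ndvd (a b : Fin 3 → ℤ) {p g : ℕ} (hp : p.Prime) (hN : g ∣ NN a b)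
    (hd : ¬ IsSquare ((dq a : ℤ) : ZMod p)) (hr : ((rq a b : ℤ) : ZMod p) ≠ 0) : ¬ p ∣ g := by
  intro hpg
  have : Fact p.Prime := ⟨hp⟩
  have h1 : p ∣ NN a b := dvd_trans hpg hN
  have h2 : (p : ℤ) ∣ a 2 * rq a b := by
    unfold NN at h1
    exact Int.natCast_dvd.mpr h1
  rcases (Nat.prime_iff_prime_int.mp hp).dvd_or_dvd h2 with h3 | h3
  · apply hd
    have h4 : ((a 2 : ℤ) : ZMod p) = 0 := (ZMod.intCast_zmod_eq_zero_iff_dvd _ _).mpr h3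
    refine ⟨((a 1 : ℤ) : ZMod p), ?_⟩
    unfold dq
    push_cast
    rw [h4]
    ring
  · exact hr ((ZMod.intCast_zmod_eq_zero_iff_dvd _ _).mpr h3)

open Classical in
private theorem DJ_T {T' : Finset ℕ} {T w : ℕ} {c : ℤ} (hT : ∀ p ∈ T', p.Prime)
    (hTc : T'.card = 10 * T) (hc : c ≠ 0) (hcw : om c ≤ w) :
    10 * T ≤ (T'.filter fun p : ℕ => ¬ (p : ℤ) ∣ c).card + w := by
  have h1 : (T'.filter fun p : ℕ => (p : ℤ) ∣ c).card ≤ w := by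
    refine le_trans (Finset.card_le_card ?_) hcw
    intro p hp
    rw [Finset.mem_filter] at hp
    rw [Nat.mem_primeFactors]
    exact ⟨hT p hp.1, Int.natCast_dvd.mp hp.2, Int.natAbs_ne_zero.mpr hc⟩
  have h2 := Finset.card_filter_add_card_filter_not (s := T') (fun p : ℕ => (p : ℤ) ∣ c)
  omega

open Classical in
private theorem DJ_one {m : ℕ} (hm : 3 ≤ m) (a b : Fin 3 → ℤ) (f : Fin (m + 1) → ℤ) {H h L w s : ℕ} (hH : 1 ≤ H)
    (ha : ∀ i, |a i| ≤ (H : ℤ)) (hsq : ¬ IsSquare (dq a)) (hs : Squarefree s) (hN : Nat.Coprime s (NN a b))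
    (hsw : s.primeFactors.card ≤ w) (hsL : s ≤ L) (hs0 : 0 < s) (hlev : 3 * H * L ≤ h ^ 2) :
    (((DJ_bx h).filter fun B => (s : ℤ) ∣ rf a (f + sh b B)).card : ℝ) ≤
      (2 : ℝ) ^ w * 35 * (h : ℝ) ^ 2 / s := by
  have h1 := cnt_dvd hm a b f (s := s) (M := 1) hH ha hsq hs (Nat.coprime_one_right s) hN le_rfl
    (le_trans (by rw [one_pow, mul_one]; exact Nat.mul_le_mul_left _ hsL) hlev) ((0, 0) : ℤ × ℤ)
  rw [DJ_card (h := h) _ (fun B hB => ⟨hB.1, hB.2.1⟩)] at h1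
  have e : ((DJ_bx h).filter fun B => (s : ℤ) ∣ rf a (f + sh b B)) =
      ((DJ_bx h).filter fun B => |B.1| ≤ (h : ℤ) ∧ |B.2| ≤ (h : ℤ) ∧
        ((1 : ℕ) : ℤ) ∣ B.1 - ((0, 0) : ℤ × ℤ).1 ∧ ((1 : ℕ) : ℤ) ∣ B.2 - ((0, 0) : ℤ × ℤ).2 ∧
        (s : ℤ) ∣ rf a (f + sh b B)) := by
    refine Finset.filter_congr ?_
    intro B hB
    unfold DJ_bx at hB
    rw [Finset.mem_product, Finset.mem_Icc, Finset.mem_Icc] at hB
    constructor
    · intro hd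
      exact ⟨abs_le.mpr hB.1, abs_le.mpr hB.2, by simp, by simp, hd⟩
    · intro hd
      exact hd.2.2.2.2
  rw [e]
  have hs' : (0 : ℝ) < s := by exact_mod_cast hs0
  rw [le_div_iff₀ hs']
  have h2 : (2 : ℝ) ^ s.primeFactors.card ≤ 2 ^ w := pow_le_pow_right₀ (by norm_num) hsw
  have h3 : (2 : ℝ) ^ s.primeFactors.card * (35 * (h : ℝ) ^ 2) ≤ 2 ^ w * (35 * (h : ℝ) ^ 2) :=
    mul_le_mul_of_nonneg_right h2 (by positivity)
  have h4 : ((1 : ℕ) : ℝ) ^ 2 = 1 := by norm_num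
  rw [h4, mul_one] at h1
  calc _ ≤ (2 : ℝ) ^ s.primeFactors.card * (35 * (h : ℝ) ^ 2) := h1
    _ ≤ 2 ^ w * (35 * (h : ℝ) ^ 2) := h3
    _ = 2 ^ w * 35 * (h : ℝ) ^ 2 := by ring

open Classical in
private theorem DJ_cover {m : ℕ} (a b : Fin 3 → ℤ) (f : Fin (m + 1) → ℤ) {h L B₁ w T : ℕ}
    (hN : NN a b ≠ 0) (T' : Finset ℕ) (c : ℤ) :
    ((DJ_bx h).filter fun B : ℤ × ℤ => |B.1| ≤ (h : ℤ) ∧ |B.2| ≤ (h : ℤ) ∧ rf a (f + sh b B) ≠ 0 ∧
      om (rf a (f + sh b B)) ≤ w ∧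
      ∃ D : ℕ, Squarefree D ∧ (D : ℤ) ∣ rf a (f + sh b B) ∧ B₁ < cop (NN a b) D ∧ cop (NN a b) D ≤ L ∧
        (T'.filter fun p => nsq p (c * D)).card < T) ⊆
    ((NN a b).divisors.filter Squarefree).biUnion fun g =>
      ((Ioc B₁ L).filter fun D' : ℕ => Squarefree D' ∧ Nat.Coprime D' (NN a b) ∧ D'.primeFactors.card ≤ w ∧
        (T'.filter fun p => nsq p (c * g * D')).card < T).biUnion fun D' =>
      (DJ_bx h).filter fun B => (D' : ℤ) ∣ rf a (f + sh b B) := by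
  intro B hB
  rw [Finset.mem_filter] at hB
  obtain ⟨hBx, _, _, hr0, hrw, D, hDs, hDd, hD1, hD2, hD3⟩ := hB
  obtain ⟨g, hg, hgs, hgN, hcs, hcc, _⟩ := cop_facts hN hDs
  have hdv : cop (NN a b) D ∣ D := by
    exact ⟨g, hg.trans (mul_comm _ _)⟩
  have hdr : ((cop (NN a b) D : ℕ) : ℤ) ∣ rf a (f + sh b B) :=
    dvd_trans (Int.natCast_dvd_natCast.mpr hdv) hDd
  rw [Finset.mem_biUnion]
  refine ⟨g, ?_, ?_⟩
  · rw [Finset.mem_filter, Nat.mem_divisors]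
    exact ⟨⟨hgN, hN⟩, hgs⟩
  rw [Finset.mem_biUnion]
  refine ⟨cop (NN a b) D, ?_, ?_⟩
  · rw [Finset.mem_filter, Finset.mem_Ioc]
    refine ⟨⟨hD1, hD2⟩, hcs, hcc, ?_, ?_⟩
    · refine le_trans (Finset.card_le_card ?_) hrw
      exact Nat.primeFactors_mono (Int.natCast_dvd.mp hdr) (Int.natAbs_ne_zero.mpr hr0)
    · have e : (c * (g : ℤ) * ((cop (NN a b) D : ℕ) : ℤ)) = c * (D : ℤ) := by
        have e2 : (D : ℤ) = (g : ℤ) * ((cop (NN a b) D : ℕ) : ℤ) := by exact_mod_cast hg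
        rw [mul_assoc, ← e2]
      rw [e]
      exact hD3
  · rw [Finset.mem_filter]
    exact ⟨hBx, hdr⟩

open Classical in
theorem small_div {m : ℕ} (hm : 3 ≤ m) (a b : Fin 3 → ℤ) (f : Fin (m + 1) → ℤ) {H h L B₁ w T : ℕ} (hH : 1 ≤ H)
    (ha : ∀ i, |a i| ≤ (H : ℤ)) (hsq : ¬ IsSquare (dq a)) (hN : NN a b ≠ 0) (hNw : (NN a b).primeFactors.card ≤ w)
    (T' : Finset ℕ) (hT : ∀ p ∈ T', p.Prime ∧ 29 ≤ p ∧ ¬ IsSquare ((dq a : ℤ) : ZMod p) ∧ ((rq a b : ℤ) : ZMod p) ≠ 0)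
    (hTc : T'.card = 10 * T) (hB : ∏ p ∈ T', p ≤ B₁) (c : ℤ) (hc : c ≠ 0) (hcw : om c ≤ w) (hL : 1 ≤ L)
    (hlev : 3 * H * L ≤ h ^ 2) :
    (Nat.card {B : ℤ × ℤ // |B.1| ≤ (h : ℤ) ∧ |B.2| ≤ (h : ℤ) ∧ rf a (f + sh b B) ≠ 0 ∧ om (rf a (f + sh b B)) ≤ w ∧
      ∃ D : ℕ, Squarefree D ∧ (D : ℤ) ∣ rf a (f + sh b B) ∧ B₁ < cop (NN a b) D ∧ cop (NN a b) D ≤ L ∧
        (T'.filter fun p => nsq p (c * D)).card < T} : ℝ) ≤
      280 * 8 ^ w * (1 + Real.log L) * (h : ℝ) ^ 2 * (1 / 2) ^ T := by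
  rw [DJ_card (h := h) _ (fun B hB => ⟨hB.1, hB.2.1⟩)]
  have hlog : 0 ≤ 1 + Real.log L := by
    have : 0 ≤ Real.log (L : ℝ) := Real.log_nonneg (by exact_mod_cast hL)
    linarith
  have hcov := DJ_cover (h := h) (L := L) (B₁ := B₁) (w := w) (T := T) a b f hN T' c
  have hcard := Finset.card_le_card hcov
  have hgs : (((NN a b).divisors.filter Squarefree).card : ℝ) ≤ (2 : ℝ) ^ w := by
    have h1 := card_sqf hN
    have h2 : ((NN a b).divisors.filter Squarefree).card ≤ 2 ^ w :=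
      le_trans h1 (Nat.pow_le_pow_right (by norm_num) hNw)
    exact_mod_cast h2
  have hk : 10 * T ≤ (T'.filter fun p : ℕ => ¬ (p : ℤ) ∣ c).card + w :=
    DJ_T (fun p hp => (hT p hp).1) hTc hc hcw
  -- the bound for one `g`
  have hone : ∀ g ∈ (NN a b).divisors.filter Squarefree,
      ((((Ioc B₁ L).filter fun D' : ℕ => Squarefree D' ∧ Nat.Coprime D' (NN a b) ∧ D'.primeFactors.card ≤ w ∧
        (T'.filter fun p => nsq p (c * g * D')).card < T).biUnion fun D' =>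
      (DJ_bx h).filter fun B => (D' : ℤ) ∣ rf a (f + sh b B)).card : ℝ) ≤
      (5 / 4 : ℝ) ^ T * ((2 : ℝ) ^ w * 35) * (8 * ((1 + Real.log L) * (h : ℝ) ^ 2) *
        (10 / 11 : ℝ) ^ (T'.filter fun p : ℕ => ¬ (p : ℤ) ∣ c).card) := by
    intro g hg
    have hgN : g ∣ NN a b := (Nat.mem_divisors.mp (Finset.mem_filter.mp hg).1).1
    have hsum := sum_W (T'.filter fun p : ℕ => ¬ (p : ℤ) ∣ c) (fun p hp => by
        have := hT p (Finset.mem_filter.mp hp).1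
        exact ⟨this.1, this.2.1⟩) (c * g) (fun p hp => by
        have h1 := hT p (Finset.mem_filter.mp hp).1
        have h2 := (Finset.mem_filter.mp hp).2
        intro h3
        rcases (Nat.prime_iff_prime_int.mp h1.1).dvd_or_dvd h3 with h4 | h4
        · exact h2 h4
        · exact DJ_ndvd a b h1.1 hgN h1.2.2.1 h1.2.2.2 (Int.natCast_dvd_natCast.mp h4)) B₁ L
        (le_trans (Finset.prod_le_prod_of_subset_of_one_le' (Finset.filter_subset _ _)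
          (fun p hp _ => (hT p hp).1.one_le)) hB) hL
    have h1 : ((((Ioc B₁ L).filter fun D' : ℕ => Squarefree D' ∧ Nat.Coprime D' (NN a b) ∧
        D'.primeFactors.card ≤ w ∧ (T'.filter fun p => nsq p (c * g * D')).card < T).biUnion fun D' =>
        (DJ_bx h).filter fun B => (D' : ℤ) ∣ rf a (f + sh b B)).card : ℝ) ≤
        ∑ D' ∈ (Ioc B₁ L).filter fun D' : ℕ => Squarefree D' ∧ Nat.Coprime D' (NN a b) ∧
          D'.primeFactors.card ≤ w ∧ (T'.filter fun p => nsq p (c * g * D')).card < T,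
          (((DJ_bx h).filter fun B => (D' : ℤ) ∣ rf a (f + sh b B)).card : ℝ) := by
      exact_mod_cast Finset.card_biUnion_le
    have h2 : ∀ D' ∈ (Ioc B₁ L).filter fun D' : ℕ => Squarefree D' ∧ Nat.Coprime D' (NN a b) ∧
          D'.primeFactors.card ≤ w ∧ (T'.filter fun p => nsq p (c * g * D')).card < T,
          (((DJ_bx h).filter fun B => (D' : ℤ) ∣ rf a (f + sh b B)).card : ℝ) ≤
          (5 / 4 : ℝ) ^ T * ((2 : ℝ) ^ w * 35) * (h : ℝ) ^ 2 *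
            (Wt (T'.filter fun p : ℕ => ¬ (p : ℤ) ∣ c) (c * g * D') / (D' : ℝ)) := by
      intro D' hD'
      rw [Finset.mem_filter, Finset.mem_Ioc] at hD'
      obtain ⟨⟨d1, d2⟩, d3, d4, d5, d6⟩ := hD'
      have d0 : 0 < D' := by omega
      have e1 := DJ_one hm a b f (s := D') hH ha hsq d3 d4 d5 d2 d0 hlev
      have d0' : (0 : ℝ) < D' := by exact_mod_cast d0
      have e2 : (1 : ℝ) ≤ (5 / 4 : ℝ) ^ T * Wt (T'.filter fun p : ℕ => ¬ (p : ℤ) ∣ c) (c * g * D') := by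
        rw [DJ_wt]
        have e3 : ((T'.filter fun p : ℕ => ¬ (p : ℤ) ∣ c).filter fun p => nsq p (c * g * D')).card ≤ T := by
          refine le_of_lt (lt_of_le_of_lt (Finset.card_le_card ?_) d6)
          exact Finset.filter_subset_filter _ (Finset.filter_subset _ _)
        have e4 : (4 / 5 : ℝ) ^ T ≤
            (4 / 5 : ℝ) ^ ((T'.filter fun p : ℕ => ¬ (p : ℤ) ∣ c).filter fun p => nsq p (c * g * D')).card :=
          pow_le_pow_of_le_one (by norm_num) (by norm_num) e3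
        calc (1 : ℝ) = (5 / 4 : ℝ) ^ T * (4 / 5 : ℝ) ^ T := by
              rw [← mul_pow]
              norm_num
          _ ≤ _ := mul_le_mul_of_nonneg_left e4 (by positivity)
      calc (((DJ_bx h).filter fun B => (D' : ℤ) ∣ rf a (f + sh b B)).card : ℝ)
          ≤ (2 : ℝ) ^ w * 35 * (h : ℝ) ^ 2 / D' := e1
        _ = ((2 : ℝ) ^ w * 35 * (h : ℝ) ^ 2 / D') * 1 := by rw [mul_one]
        _ ≤ ((2 : ℝ) ^ w * 35 * (h : ℝ) ^ 2 / D') *
            ((5 / 4 : ℝ) ^ T * Wt (T'.filter fun p : ℕ => ¬ (p : ℤ) ∣ c) (c * g * D')) :=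
            mul_le_mul_of_nonneg_left e2 (by positivity)
        _ = _ := by ring
    have hW : ∀ x : ℤ, 0 ≤ Wt (T'.filter fun p : ℕ => ¬ (p : ℤ) ∣ c) x := by
      intro x
      rw [DJ_wt]
      positivity
    refine le_trans h1 (le_trans (Finset.sum_le_sum h2) ?_)
    refine le_trans (Finset.sum_le_sum_of_subset_of_nonneg (Finset.filter_subset _ _)
      (fun D' _ _ => mul_nonneg (by positivity) (div_nonneg (hW _) (Nat.cast_nonneg _)))) ?_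
    rw [← Finset.mul_sum]
    calc (5 / 4 : ℝ) ^ T * ((2 : ℝ) ^ w * 35) * (h : ℝ) ^ 2 *
          ∑ D' ∈ Ioc B₁ L, Wt (T'.filter fun p : ℕ => ¬ (p : ℤ) ∣ c) (c * g * D') / (D' : ℝ)
        ≤ (5 / 4 : ℝ) ^ T * ((2 : ℝ) ^ w * 35) * (h : ℝ) ^ 2 *
          (8 * (1 + Real.log L) * (10 / 11 : ℝ) ^ (T'.filter fun p : ℕ => ¬ (p : ℤ) ∣ c).card) :=
          mul_le_mul_of_nonneg_left hsum (by positivity)
      _ = _ := by ring
  have hfin : ((((DJ_bx h).filter fun B : ℤ × ℤ => |B.1| ≤ (h : ℤ) ∧ |B.2| ≤ (h : ℤ) ∧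
      rf a (f + sh b B) ≠ 0 ∧ om (rf a (f + sh b B)) ≤ w ∧
      ∃ D : ℕ, Squarefree D ∧ (D : ℤ) ∣ rf a (f + sh b B) ∧ B₁ < cop (NN a b) D ∧ cop (NN a b) D ≤ L ∧
        (T'.filter fun p => nsq p (c * D)).card < T).card : ℕ) : ℝ) ≤
      ∑ g ∈ (NN a b).divisors.filter Squarefree,
      ((((Ioc B₁ L).filter fun D' : ℕ => Squarefree D' ∧ Nat.Coprime D' (NN a b) ∧ D'.primeFactors.card ≤ w ∧
        (T'.filter fun p => nsq p (c * g * D')).card < T).biUnion fun D' =>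
      (DJ_bx h).filter fun B => (D' : ℤ) ∣ rf a (f + sh b B)).card : ℝ) := by
    exact_mod_cast le_trans hcard Finset.card_biUnion_le
  refine le_trans hfin (le_trans (Finset.sum_le_sum hone) ?_)
  rw [Finset.sum_const, nsmul_eq_mul]
  have hX : 0 ≤ (1 + Real.log L) * (h : ℝ) ^ 2 := by positivity
  have hpos : 0 ≤ (5 / 4 : ℝ) ^ T * ((2 : ℝ) ^ w * 35) * (8 * ((1 + Real.log L) * (h : ℝ) ^ 2) *
        (10 / 11 : ℝ) ^ (T'.filter fun p : ℕ => ¬ (p : ℤ) ∣ c).card) := by positivity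
  refine le_trans (mul_le_mul_of_nonneg_right hgs hpos) ?_
  refine le_trans (DJ_num hX hk) (le_of_eq ?_)
  ring

end HT
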