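import Pool.Agent.Lib.MP_10e784_agHT.DG
import Pool.Agent.Lib.MP_10e784_agHT.DH

/-!
# LEAF DK: large divisors, small cofactors (page, 6.2)

PROOF.  `N = NN a b ≠ 0`.  Let `B` be in the set, `R = |rf|` (a natural number `≠ 0`, `R ≤ E L`), `D` as in the set.  `switch`: `g, s`, `s * cop N D ≤ R ≤ E L < E (cop N D)`.., so `s ≤ E`, `s` squarefree, prime to `N`, at most `w` prime factors (`s ∣ R`), `D (g s R)` a square `≠ 0`.
`rf = ε R`, `ε = ± 1`.  `T''_s = T'.filter (¬ p ∣ c ∧ ¬ p ∣ s)`: `#T''_s ≥ 10 T - 2 w`.  For `p ∈ T''_s` not dividing `R`: `p` divides neither `D` nor `g` (`g ∣ N`, the primes of `T'` do not divide `N`), and `nsq p (c D)` iff `nsq p (c g s R)` (the product of the two is `c² ·` a square `≠ 0` modulo `p`).  If `p ∣ R` the weight of `c g s R` at `p` is `1`.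
So `1 ≤ (5/4)^T Wt T''_s (c g s ε rf)`.  The number is at most `∑_{ε = ± 1} ∑_g ∑_{s ≤ E, squarefree, prime to N, ≤ w primes} (5/4)^T ∑_{|B| ≤ h, s ∣ rf} Wt T''_s ((ε c g s) rf)`, and `sum_rf` (with `c := ε c g s`, `T := T''_s`; `s M² ≤ E B₁²`) bounds the inner sum by `2^w 560 (h²/s) (10/11)^(10 T - 2 w)`.
`∑_{s ≤ E} 1/s ≤ 1 + log E`; at most `2^w` values of `g`: total `≤ 2 · 2^w · 2^w · 560 h² (1 + log E) (5/4)^T (10/11)^(10 T - 2 w) ≤ 1120 · 8^w (1 + log E) h² (1/2)^T` (`(11/10)^(2 w) ≤ 2^w`, `(10/11)^(10 T) (5/4)^T ≤ (1/2)^T`).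
-/

set_option autoImplicit false

namespace HT

open Finset Polynomial MWS HY

open Classical in
private theorem DK_wt (T'' T' : Finset ℕ) (x y : ℤ) (T : ℕ) (h : ∀ p ∈ T'', nsq p x → p ∈ T' ∧ nsq p y)
    (hT : (T'.filter fun p => nsq p y).card < T) : 1 ≤ (5 / 4 : ℝ) ^ T * Wt T'' x := by
  have h1 : Wt T'' x = (4 / 5 : ℝ) ^ (T''.filter fun p => nsq p x).card := by
    unfold Wt
    rw [Finset.prod_ite, Finset.prod_const, Finset.prod_const_one, mul_one]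
    refine congrArg (fun n : ℕ => (4 / 5 : ℝ) ^ n) (congrArg Finset.card ?_)
    ext p
    rw [Finset.mem_filter, Finset.mem_filter]
    rfl
  have h2 : (T''.filter fun p => nsq p x).card ≤ T := by
    refine le_trans (Finset.card_le_card fun p hp => ?_) hT.le
    rw [Finset.mem_filter] at hp ⊢
    exact h p hp.1 hp.2
  have h3 : (4 / 5 : ℝ) ^ T ≤ (4 / 5 : ℝ) ^ (T''.filter fun p => nsq p x).card :=
    pow_le_pow_of_le_one (by norm_num) (by norm_num) h2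
  have h4 : (5 / 4 : ℝ) ^ T * (4 / 5 : ℝ) ^ T = 1 := by
    rw [← mul_pow]
    norm_num
  rw [h1, ← h4]
  exact mul_le_mul_of_nonneg_left h3 (by positivity)

private theorem DK_nsq {p : ℕ} (hp : p.Prime) (c x : ℤ) (g s R D k : ℕ) (hx : x = c * g * s * R) (hc : ¬ (p : ℤ) ∣ c)
    (hD : D * (g * s * R) = k * k) (hDR : D ∣ R) (h : nsq p x) : nsq p (c * D) := by
  have : Fact p.Prime := ⟨hp⟩
  obtain ⟨hx0, z, hz⟩ := h
  have hR : ¬ p ∣ R := by
    intro hpR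
    refine hx0 ((ZMod.intCast_zmod_eq_zero_iff_dvd _ p).2 ?_)
    rw [hx]
    exact Dvd.dvd.mul_left (Int.natCast_dvd_natCast.2 hpR) _
  have hpD : ¬ p ∣ D := fun h1 => hR (h1.trans hDR)
  have hcD : ((c * D : ℤ) : ZMod p) ≠ 0 := by
    intro h1
    rcases (Int.Prime.dvd_mul' hp ((ZMod.intCast_zmod_eq_zero_iff_dvd _ p).1 h1)) with h2 | h2
    · exact hc h2
    · exact hpD (Int.natCast_dvd_natCast.1 h2)
  refine ⟨hcD, ?_⟩
  have hDz : (D : ℤ) * (g * s * R) = k * k := by exact_mod_cast hD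
  have e1 : (c * D) * x = (c * k) * (c * k) := by
    rw [hx]
    linear_combination c * c * hDz
  have e2 : ((c * D : ℤ) : ZMod p) * ((x : ℤ) : ZMod p) = ((c * k : ℤ) : ZMod p) * ((c * k : ℤ) : ZMod p) := by
    exact_mod_cast congrArg (fun t : ℤ => (t : ZMod p)) e1
  have hz0 : z ≠ 0 := by
    intro h0
    rw [h0, mul_zero] at hz
    exact hx0 hz
  refine ⟨((c * k : ℤ) : ZMod p) * z⁻¹, ?_⟩
  rw [hz] at e2
  field_simp
  linear_combination e2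

private theorem DK_harm (E : ℕ) : ∑ s ∈ Icc 1 E, (1 : ℝ) / s ≤ 1 + Real.log E := by
  refine le_trans (le_of_eq ?_) (harmonic_le_one_add_log E)
  rw [harmonic_eq_sum_Icc]
  push_cast
  exact Finset.sum_congr rfl fun i _ => one_div _

private theorem DK_num (T w n : ℕ) (hn : 10 * T ≤ n + 2 * w) :
    (10 / 11 : ℝ) ^ n ≤ (10 / 11 : ℝ) ^ (10 * T) * 2 ^ w := by
  have h1 : (10 / 11 : ℝ) ^ (n + 2 * w) ≤ (10 / 11 : ℝ) ^ (10 * T) :=
    pow_le_pow_of_le_one (by norm_num) (by norm_num) hn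
  have h2 : (10 / 11 : ℝ) ^ (2 * w) * (11 / 10 : ℝ) ^ (2 * w) = 1 := by
    rw [← mul_pow]
    norm_num
  have h3 : (11 / 10 : ℝ) ^ (2 * w) ≤ 2 ^ w := by
    rw [pow_mul]
    exact pow_le_pow_left₀ (by norm_num) (by norm_num) w
  calc (10 / 11 : ℝ) ^ n = (10 / 11 : ℝ) ^ n * ((10 / 11 : ℝ) ^ (2 * w) * (11 / 10 : ℝ) ^ (2 * w)) := by
        rw [h2, mul_one]
    _ = (10 / 11 : ℝ) ^ (n + 2 * w) * (11 / 10 : ℝ) ^ (2 * w) := by
        rw [pow_add]
        ring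
    _ ≤ (10 / 11 : ℝ) ^ (10 * T) * 2 ^ w :=
        mul_le_mul h1 h3 (by positivity) (by positivity)

private theorem DK_num2 (T : ℕ) : (5 / 4 : ℝ) ^ T * (10 / 11 : ℝ) ^ (10 * T) ≤ (1 / 2) ^ T := by
  rw [pow_mul, ← mul_pow]
  exact pow_le_pow_left₀ (by norm_num) (by norm_num) T

private theorem DK_wt0 (T : Finset ℕ) (x : ℤ) : 0 ≤ Wt T x := by
  classical
  unfold Wt
  refine Finset.prod_nonneg fun p _ => ?_
  split_ifs
  · norm_num
  · norm_num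

/-- the number of the primes which are left -/
private theorem DK_card (T' : Finset ℕ) (c : ℤ) (s w T : ℕ) (hc : c ≠ 0) (hs : s ≠ 0) (hcw : om c ≤ w)
    (hsw : s.primeFactors.card ≤ w) (hT : ∀ p ∈ T', p.Prime) (hTc : T'.card = 10 * T) :
    10 * T ≤ (T'.filter fun p : ℕ => ¬ (p : ℤ) ∣ c ∧ ¬ p ∣ s).card + 2 * w := by
  classical
  have h1 := Finset.card_filter_add_card_filter_not (s := T') (fun p : ℕ => ¬ (p : ℤ) ∣ c ∧ ¬ p ∣ s)
  have h2 : (T'.filter fun p : ℕ => ¬ (¬ (p : ℤ) ∣ c ∧ ¬ p ∣ s)) ⊆ c.natAbs.primeFactors ∪ s.primeFactors := by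
    intro p hp
    rw [Finset.mem_filter] at hp
    rw [Finset.mem_union, Nat.mem_primeFactors, Nat.mem_primeFactors]
    by_cases h3 : (p : ℤ) ∣ c
    · exact Or.inl ⟨hT p hp.1, Int.natCast_dvd.1 h3, Int.natAbs_ne_zero.2 hc⟩
    · refine Or.inr ⟨hT p hp.1, ?_, hs⟩
      by_contra h4
      exact hp.2 ⟨h3, h4⟩
  have h3 := (Finset.card_le_card h2).trans (Finset.card_union_le _ _)
  unfold om at hcw
  omega

open Classical in
theorem large_div {m : ℕ} (hm : 3 ≤ m) (a b : Fin 3 → ℤ) (f : Fin (m + 1) → ℤ) {H h L E B₁ w T : ℕ} (hH : 1 ≤ H)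
    (ha : ∀ i, |a i| ≤ (H : ℤ)) (hsq : ¬ IsSquare (dq a)) (hN : NN a b ≠ 0) (hNw : (NN a b).primeFactors.card ≤ w)
    (T' : Finset ℕ) (hT : ∀ p ∈ T', p.Prime ∧ 29 ≤ p ∧ ¬ IsSquare ((dq a : ℤ) : ZMod p) ∧ ((rq a b : ℤ) : ZMod p) ≠ 0)
    (hTc : T'.card = 10 * T) (hB : ∏ p ∈ T', p ≤ B₁) (c : ℤ) (hc : c ≠ 0) (hcw : om c ≤ w) (hE : 1 ≤ E)
    (hR : ∀ B : ℤ × ℤ, |B.1| ≤ (h : ℤ) → |B.2| ≤ (h : ℤ) → |rf a (f + sh b B)| ≤ (E : ℤ) * L)
    (hlev : 3 * H * (E * B₁ ^ 2) ≤ h ^ 2) :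
    (Nat.card {B : ℤ × ℤ // |B.1| ≤ (h : ℤ) ∧ |B.2| ≤ (h : ℤ) ∧ rf a (f + sh b B) ≠ 0 ∧ om (rf a (f + sh b B)) ≤ w ∧
      ∃ D : ℕ, Squarefree D ∧ (D : ℤ) ∣ rf a (f + sh b B) ∧ L < cop (NN a b) D ∧
        (T'.filter fun p => nsq p (c * D)).card < T} : ℝ) ≤
      1120 * 8 ^ w * (1 + Real.log E) * (h : ℝ) ^ 2 * (1 / 2) ^ T := by
  set N : ℕ := NN a b with hNdef
  let box : Finset (ℤ × ℤ) := Icc (-(h : ℤ)) h ×ˢ Icc (-(h : ℤ)) h
  let T'' : ℕ → Finset ℕ := fun s => T'.filter fun p : ℕ => ¬ (p : ℤ) ∣ c ∧ ¬ p ∣ s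
  let Ss : Finset ℕ := (Icc 1 E).filter fun s => Squarefree s ∧ Nat.Coprime s N ∧ s.primeFactors.card ≤ w
  let G : Finset ℕ := (N.divisors).filter Squarefree
  let idx : Finset (ℤ × ℕ × ℕ) := ({1, -1} : Finset ℤ) ×ˢ (G ×ˢ Ss)
  let F : ℤ × ℕ × ℕ → ℤ × ℤ → ℝ := fun i B => if (i.2.2 : ℤ) ∣ rf a (f + sh b B) then
    (5 / 4 : ℝ) ^ T * Wt (T'' i.2.2) ((i.1 * c * i.2.1 * i.2.2) * rf a (f + sh b B)) else 0
  have hF0 : ∀ i B, 0 ≤ F i B := by
    intro i B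
    show 0 ≤ (if (i.2.2 : ℤ) ∣ rf a (f + sh b B) then
      (5 / 4 : ℝ) ^ T * Wt (T'' i.2.2) ((i.1 * c * i.2.1 * i.2.2) * rf a (f + sh b B)) else 0)
    split_ifs
    · exact mul_nonneg (by positivity) (DK_wt0 _ _)
    · exact le_rfl
  -- the primes of `T'` do not divide `N`
  have hpN : ∀ p ∈ T', ¬ p ∣ N := by
    intro p hp hpN
    obtain ⟨hpp, -, hsqp, hrqp⟩ := hT p hp
    have : Fact p.Prime := ⟨hpp⟩
    have h1 : (p : ℤ) ∣ a 2 * rq a b := by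
      rw [hNdef] at hpN
      exact Int.natCast_dvd.2 hpN
    rcases Int.Prime.dvd_mul' hpp h1 with h2 | h2
    · refine hsqp ⟨((a 1 : ℤ) : ZMod p), ?_⟩
      have h3 : ((a 2 : ℤ) : ZMod p) = 0 := (ZMod.intCast_zmod_eq_zero_iff_dvd _ p).2 h2
      unfold dq
      push_cast
      rw [h3]
      ring
    · exact hrqp ((ZMod.intCast_zmod_eq_zero_iff_dvd _ p).2 h2)
  -- every bad `B` is counted
  have key : ∀ B : ℤ × ℤ, |B.1| ≤ (h : ℤ) → |B.2| ≤ (h : ℤ) → rf a (f + sh b B) ≠ 0 → om (rf a (f + sh b B)) ≤ w →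
      (∃ D : ℕ, Squarefree D ∧ (D : ℤ) ∣ rf a (f + sh b B) ∧ L < cop N D ∧
        (T'.filter fun p => nsq p (c * D)).card < T) → 1 ≤ ∑ i ∈ idx, F i B := by
    rintro B hB1 hB2 hr0 hrw ⟨D, hD, hDr, hLD, hDT⟩
    set r : ℤ := rf a (f + sh b B) with hr
    have hR0 : r.natAbs ≠ 0 := Int.natAbs_ne_zero.2 hr0
    obtain ⟨g, s, hg, hgN, hs, hsN, hsR, hsL, hsq'⟩ := switch hN hR0 hD (Int.natCast_dvd.1 hDr)
    obtain ⟨k, hk⟩ := hsq'
    have hRE : r.natAbs ≤ E * L := by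
      have h1 := hR B hB1 hB2
      rw [← hr, Int.abs_eq_natAbs] at h1
      exact_mod_cast h1
    have hsE : s ≤ E := by
      by_contra h1
      have h2 : (E + 1) * (L + 1) ≤ s * cop N D := Nat.mul_le_mul (by omega) hLD
      have h3 : E * L < (E + 1) * (L + 1) := by
        have : (E + 1) * (L + 1) = E * L + (E + L + 1) := by ring
        omega
      omega
    have hs0 : s ≠ 0 := hs.ne_zero
    have hsw : s.primeFactors.card ≤ w :=
      (Finset.card_le_card (Nat.primeFactors_mono hsR hR0)).trans hrw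
    have hsS : s ∈ Ss := Finset.mem_filter.2 ⟨Finset.mem_Icc.2 ⟨Nat.pos_of_ne_zero hs0, hsE⟩, hs, hsN, hsw⟩
    have hgG : g ∈ G := Finset.mem_filter.2 ⟨Nat.mem_divisors.2 ⟨hgN, hN⟩, hg⟩
    obtain ⟨e, he, her⟩ : ∃ e ∈ ({1, -1} : Finset ℤ), e * r = (r.natAbs : ℤ) := by
      rcases le_total 0 r with h1 | h1
      · exact ⟨1, by simp, by rw [one_mul, Int.natAbs_of_nonneg h1]⟩
      · exact ⟨-1, by simp, by rw [Int.ofNat_natAbs_of_nonpos h1]; ring⟩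
    have hmem : (e, g, s) ∈ idx := Finset.mem_product.2 ⟨he, Finset.mem_product.2 ⟨hgG, hsS⟩⟩
    refine le_trans ?_ (Finset.single_le_sum (f := fun i => F i B) (fun i _ => hF0 i B) hmem)
    have hFe : F (e, g, s) B = (5 / 4 : ℝ) ^ T * Wt (T'' s) ((e * c * g * s) * r) := if_pos (Int.natCast_dvd.2 hsR)
    show 1 ≤ F (e, g, s) B
    rw [hFe]
    refine DK_wt (T'' s) T' _ (c * D) T (fun p hp hx => ?_) hDT
    obtain ⟨hpT, hpc, hps⟩ := Finset.mem_filter.1 hp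
    refine ⟨hpT, DK_nsq (hT p hpT).1 c ((e * c * g * s) * r) g s r.natAbs D k ?_ hpc hk (Int.natCast_dvd.1 hDr) hx⟩
    rw [← her]
    ring
  -- the bound for one index
  have hone : ∀ i ∈ idx, ∑ B ∈ box, F i B ≤
      (5 / 4 : ℝ) ^ T * (2 ^ w * (560 * (h : ℝ) ^ 2 / i.2.2) * ((10 / 11 : ℝ) ^ (10 * T) * 2 ^ w)) := by
    rintro ⟨e, g, s⟩ hi
    obtain ⟨he, hgs⟩ := Finset.mem_product.1 hi
    obtain ⟨hg, hs⟩ := Finset.mem_product.1 hgs
    obtain ⟨hsE, hsf, hsN, hsw⟩ := Finset.mem_filter.1 hs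
    obtain ⟨hgN, hgf⟩ := Finset.mem_filter.1 hg
    have hs1 := (Finset.mem_Icc.1 hsE).1
    have hs2 := (Finset.mem_Icc.1 hsE).2
    have h1 : ∑ B ∈ box, F (e, g, s) B = (5 / 4 : ℝ) ^ T *
        ∑ B ∈ box.filter (fun B => (s : ℤ) ∣ rf a (f + sh b B)), Wt (T'' s) ((e * c * g * s) * rf a (f + sh b B)) := by
      rw [Finset.mul_sum, Finset.sum_filter]
    rw [h1]
    refine mul_le_mul_of_nonneg_left ?_ (by positivity)
    have hTs : ∀ p ∈ T'' s, p.Prime ∧ 29 ≤ p ∧ ¬ IsSquare ((dq a : ℤ) : ZMod p) ∧ ((rq a b : ℤ) : ZMod p) ≠ 0 :=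
      fun p hp => hT p (Finset.mem_filter.1 hp).1
    have hprod : ∏ p ∈ T'' s, p ≤ B₁ := by
      refine le_trans ?_ hB
      exact Finset.prod_le_prod_of_subset_of_one_le' (Finset.filter_subset _ _)
        (fun p hp _ => (hT p hp).1.one_lt.le)
    have hlev' : 3 * H * (s * (∏ p ∈ T'' s, p) ^ 2) ≤ h ^ 2 := by
      refine le_trans ?_ hlev
      exact Nat.mul_le_mul_left _ (Nat.mul_le_mul hs2 (Nat.pow_le_pow_left hprod 2))
    have hcs : ∀ p ∈ T'' s, ¬ (p : ℤ) ∣ e * c * g * s := by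
      intro p hp hd
      obtain ⟨hpT, hpc, hps⟩ := Finset.mem_filter.1 hp
      have hpp := (hT p hpT).1
      rcases Int.Prime.dvd_mul' hpp hd with h2 | h2
      · rcases Int.Prime.dvd_mul' hpp h2 with h3 | h3
        · rcases Int.Prime.dvd_mul' hpp h3 with h4 | h4
          · have h5 : e = 1 ∨ e = -1 := by
              rcases Finset.mem_insert.1 he with h6 | h6
              · exact Or.inl h6
              · exact Or.inr (Finset.mem_singleton.1 h6)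
            have h7 : (p : ℤ) ∣ 1 := by
              rcases h5 with h6 | h6
              · rw [h6] at h4
                exact h4
              · rw [h6] at h4
                exact (dvd_neg.1 h4)
            exact hpp.one_lt.ne' (by exact_mod_cast Int.eq_one_of_dvd_one (by positivity) h7)
          · exact hpc h4
        · exact hpN p hpT ((Int.natCast_dvd_natCast.1 h3).trans (Nat.dvd_of_mem_divisors hgN))
      · exact hps (Int.natCast_dvd_natCast.1 h2)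
    have h2 := sum_rf hm a b f hH ha hsq hsf hsN (T'' s) hTs (e * c * g * s) hcs
      (fun p hp => (Finset.mem_filter.1 hp).2.2) hlev'
    refine h2.trans ?_
    have h3 : (2 : ℝ) ^ s.primeFactors.card ≤ 2 ^ w := pow_le_pow_right₀ (by norm_num) hsw
    have h4 := DK_num T w (T'' s).card (DK_card T' c s w T hc hsf.ne_zero hcw hsw (fun p hp => (hT p hp).1) hTc)
    exact mul_le_mul (mul_le_mul_of_nonneg_right h3 (by positivity)) h4 (by positivity) (by positivity)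
  have hcard : Nat.card {B : ℤ × ℤ // |B.1| ≤ (h : ℤ) ∧ |B.2| ≤ (h : ℤ) ∧ rf a (f + sh b B) ≠ 0 ∧
      om (rf a (f + sh b B)) ≤ w ∧ ∃ D : ℕ, Squarefree D ∧ (D : ℤ) ∣ rf a (f + sh b B) ∧ L < cop N D ∧
        (T'.filter fun p => nsq p (c * D)).card < T} =
      (box.filter fun B => rf a (f + sh b B) ≠ 0 ∧
      om (rf a (f + sh b B)) ≤ w ∧ ∃ D : ℕ, Squarefree D ∧ (D : ℤ) ∣ rf a (f + sh b B) ∧ L < cop N D ∧
        (T'.filter fun p => nsq p (c * D)).card < T).card := by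
    refine Nat.subtype_card _ fun B => ?_
    rw [Finset.mem_filter, Finset.mem_product, Finset.mem_Icc, Finset.mem_Icc, ← abs_le, ← abs_le, and_assoc]
  rw [hcard]
  have hG2 : (G.card : ℝ) ≤ 2 ^ w := by
    have h1 : G.card ≤ 2 ^ w := (card_sqf hN).trans (Nat.pow_le_pow_right (by norm_num) hNw)
    exact_mod_cast h1
  have hSs : ∑ s ∈ Ss, (1 : ℝ) / s ≤ 1 + Real.log E := by
    refine le_trans ?_ (DK_harm E)
    exact Finset.sum_le_sum_of_subset_of_nonneg (Finset.filter_subset _ _) fun s _ _ => by positivity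
  have hSs0 : 0 ≤ ∑ s ∈ Ss, (1 : ℝ) / s := Finset.sum_nonneg fun s _ => by positivity
  set K : ℝ := (5 / 4 : ℝ) ^ T * (2 ^ w * (560 * (h : ℝ) ^ 2) * ((10 / 11 : ℝ) ^ (10 * T) * 2 ^ w)) with hK
  have hK0 : 0 ≤ K := by
    rw [hK]
    positivity
  have hK1 : K ≤ 560 * (h : ℝ) ^ 2 * 4 ^ w * (1 / 2) ^ T := by
    have e1 : K = 560 * (h : ℝ) ^ 2 * (2 ^ w * 2 ^ w) * ((5 / 4 : ℝ) ^ T * (10 / 11 : ℝ) ^ (10 * T)) := by
      rw [hK]
      ring
    have e2 : (2 : ℝ) ^ w * 2 ^ w = 4 ^ w := by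
      rw [← mul_pow]
      norm_num
    rw [e1, e2]
    exact mul_le_mul_of_nonneg_left (DK_num2 T) (by positivity)
  calc ((box.filter fun B => rf a (f + sh b B) ≠ 0 ∧
      om (rf a (f + sh b B)) ≤ w ∧ ∃ D : ℕ, Squarefree D ∧ (D : ℤ) ∣ rf a (f + sh b B) ∧ L < cop N D ∧
        (T'.filter fun p => nsq p (c * D)).card < T).card : ℝ)
      = ∑ B ∈ box.filter (fun B => rf a (f + sh b B) ≠ 0 ∧
      om (rf a (f + sh b B)) ≤ w ∧ ∃ D : ℕ, Squarefree D ∧ (D : ℤ) ∣ rf a (f + sh b B) ∧ L < cop N D ∧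
        (T'.filter fun p => nsq p (c * D)).card < T), (1 : ℝ) := by
        rw [Finset.sum_const, nsmul_eq_mul, mul_one]
    _ ≤ ∑ B ∈ box.filter (fun B => rf a (f + sh b B) ≠ 0 ∧
      om (rf a (f + sh b B)) ≤ w ∧ ∃ D : ℕ, Squarefree D ∧ (D : ℤ) ∣ rf a (f + sh b B) ∧ L < cop N D ∧
        (T'.filter fun p => nsq p (c * D)).card < T), ∑ i ∈ idx, F i B := by
        refine Finset.sum_le_sum fun B hB' => ?_
        obtain ⟨hB1, hr0, hrw, hD⟩ := Finset.mem_filter.1 hB'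
        obtain ⟨hB2, hB3⟩ := Finset.mem_product.1 hB1
        exact key B (abs_le.2 (Finset.mem_Icc.1 hB2)) (abs_le.2 (Finset.mem_Icc.1 hB3)) hr0 hrw hD
    _ ≤ ∑ B ∈ box, ∑ i ∈ idx, F i B :=
        Finset.sum_le_sum_of_subset_of_nonneg (Finset.filter_subset _ _)
          fun B _ _ => Finset.sum_nonneg fun i _ => hF0 i B
    _ = ∑ i ∈ idx, ∑ B ∈ box, F i B := Finset.sum_comm
    _ ≤ ∑ i ∈ idx, K * (1 / (i.2.2 : ℝ)) := by
        refine Finset.sum_le_sum fun i hi => (hone i hi).trans (le_of_eq ?_)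
        rw [hK]
        ring
    _ = 2 * (G.card * (K * ∑ s ∈ Ss, (1 : ℝ) / s)) := by
        show ∑ i ∈ ({1, -1} : Finset ℤ) ×ˢ (G ×ˢ Ss), K * (1 / (i.2.2 : ℝ)) = _
        rw [Finset.sum_product]
        have h1 : ∀ e ∈ ({1, -1} : Finset ℤ), ∑ y ∈ G ×ˢ Ss, K * (1 / (((e, y) : ℤ × ℕ × ℕ).2.2 : ℝ)) =
            G.card * (K * ∑ s ∈ Ss, (1 : ℝ) / s) := by
          intro e _
          rw [Finset.sum_product]
          show ∑ x ∈ G, ∑ y ∈ Ss, K * (1 / (y : ℝ)) = _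
          rw [Finset.sum_const, nsmul_eq_mul, ← Finset.mul_sum]
        rw [Finset.sum_congr rfl h1, Finset.sum_const, nsmul_eq_mul]
        have h2 : (({1, -1} : Finset ℤ).card : ℝ) = 2 := by
          rw [Finset.card_pair (by norm_num)]
          norm_num
        rw [h2]
    _ ≤ 2 * (2 ^ w * (560 * (h : ℝ) ^ 2 * 4 ^ w * (1 / 2) ^ T * (1 + Real.log E))) := by
        refine mul_le_mul_of_nonneg_left ?_ (by norm_num)
        exact mul_le_mul hG2 (mul_le_mul hK1 hSs hSs0 (by positivity)) (mul_nonneg hK0 hSs0) (by positivity)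
    _ = 1120 * 8 ^ w * (1 + Real.log E) * (h : ℝ) ^ 2 * (1 / 2) ^ T := by
        have e1 : (8 : ℝ) ^ w = 2 ^ w * 4 ^ w := by
          rw [← mul_pow]
          norm_num
        rw [e1]
        ring

end HT
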