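import Pool.Agent.Lib.MP_10e784_agHT.DJ
import Pool.Agent.Lib.MP_10e784_agHT.DK
import Pool.Agent.Lib.MP_10e784_agHT.DI

/-!
# LEAF DL: both cases together

PROOF.  `C₁` from `rf_bd m`.  `h = H ^ (k - 1)`, `L = h² / (3 H)` (natural division; `k ≥ 6`, so `L ≥ 1` and `L ≥ h² / (6 H)` as a real number unless `H` is small: choose `C ≥ 10`, so `C B₁ ≤ H` gives `H ≥ 10`), `E = ⌈..⌉`: the values `f + sh b B` are at most `12 H^k + 2 H^k = 14 H^k` (`sh_bd`), so `|rf| ≤ C₁ H^m 196 H^(2 k)`.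
`E = 6 · 196 · C₁ · H^(m + 3)` satisfies `C₁ H^m 196 H^(2 k) ≤ E L` (`L ≥ h²/(6 H) = H^(2 k - 3)/6`).  `3 H E B₁² = 3528 C₁ H^(m + 4) B₁² ≤ h² = H^(2 k - 2)`: as `m + 8 ≤ 2 k`, `2 k - 2 ≥ m + 6`, enough: `3528 C₁ B₁² ≤ H²`, true if `C ≥ 3528 C₁` and `C B₁ ≤ H`.
A divisor `D` with `B₁ < cop N D` has `cop N D ≤ L` or `L < cop N D`: `small_div` and `large_div`.  `1 + log L`, `1 + log E ≤ C' (1 + log H)` (polynomials in `H`).
-/

set_option autoImplicit false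

namespace HT

open Finset Polynomial MWS HY

private theorem DL_card {α : Type} {P P1 P2 : α → Prop} (h : ∀ x, P x → P1 x ∨ P2 x) (h1 : {x | P1 x}.Finite)
    (h2 : {x | P2 x}.Finite) : Nat.card {x // P x} ≤ Nat.card {x // P1 x} + Nat.card {x // P2 x} := by
  have e : ∀ Q : α → Prop, Nat.card {x // Q x} = {x | Q x}.ncard := fun Q => Nat.card_coe_set_eq {x | Q x}
  rw [e, e, e]
  exact (Set.ncard_le_ncard (fun x hx => h x hx) (h1.union h2)).trans (Set.ncard_union_le _ _)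

private theorem DL_fin (h : ℕ) (Q : ℤ × ℤ → Prop) : {B : ℤ × ℤ | |B.1| ≤ (h : ℤ) ∧ |B.2| ≤ (h : ℤ) ∧ Q B}.Finite := by
  refine Set.Finite.subset ((Set.finite_Icc (-(h : ℤ)) (h : ℤ)).prod (Set.finite_Icc (-(h : ℤ)) (h : ℤ))) ?_
  rintro ⟨x, y⟩ ⟨h1, h2, _⟩
  exact ⟨abs_le.1 h1, abs_le.1 h2⟩

open Classical in
theorem V_bound {m k : ℕ} (hm : 4 ≤ m) (hk : m + 8 ≤ 2 * k) : ∃ C : ℝ, 1 ≤ C ∧ ∀ (a b : Fin 3 → ℤ)
    (f : Fin (m + 1) → ℤ) (H B₁ w T : ℕ), 1 ≤ H → (∀ i, |a i| ≤ (H : ℤ)) → (∀ i, |b i| ≤ (H : ℤ)) →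
    (∀ i, |f i| ≤ 12 * (H : ℤ) ^ k) → ¬ IsSquare (dq a) → NN a b ≠ 0 → (NN a b).primeFactors.card ≤ w →
    ∀ T' : Finset ℕ, (∀ p ∈ T', p.Prime ∧ 29 ≤ p ∧ ¬ IsSquare ((dq a : ℤ) : ZMod p) ∧ ((rq a b : ℤ) : ZMod p) ≠ 0) →
    T'.card = 10 * T → ∏ p ∈ T', p ≤ B₁ → C * B₁ ≤ H → ∀ c : ℤ, c ≠ 0 → om c ≤ w →
    (Nat.card {B : ℤ × ℤ // |B.1| ≤ ((H ^ (k - 1) : ℕ) : ℤ) ∧ |B.2| ≤ ((H ^ (k - 1) : ℕ) : ℤ) ∧
      Ev T' T w B₁ (NN a b) c (rf a (f + sh b B))} : ℝ) ≤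
      C * 8 ^ w * (1 + Real.log H) * ((H : ℝ) ^ (k - 1)) ^ 2 * (1 / 2) ^ T := by
  obtain ⟨C₁, hC₁, hrf⟩ := rf_bd m
  have hC₁R : (1 : ℝ) ≤ C₁ := by exact_mod_cast hC₁
  have hlogC : 0 ≤ Real.log (1176 * C₁) := Real.log_nonneg (by nlinarith)
  have hkR : (0 : ℝ) ≤ k := Nat.cast_nonneg k
  have hmR : (0 : ℝ) ≤ m := Nat.cast_nonneg m
  obtain ⟨Cc, hCc⟩ : ∃ Cc : ℝ, Cc = 3528 * C₁ + 560 * k + 1120 * (1 + Real.log (1176 * C₁) + (m + 3)) := ⟨_, rfl⟩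
  refine ⟨Cc, by rw [hCc]; nlinarith, ?_⟩
  intro a b f H B₁ w T hH ha hb hf hsq hN hNw T' hT hTc hB hCH c hc hcw
  have hCc1 : 3528 * (C₁ : ℝ) ≤ Cc := by rw [hCc]; nlinarith
  have hB1 : 1 ≤ B₁ := le_trans (Nat.succ_le_of_lt (Finset.prod_pos fun p hp => (hT p hp).1.pos)) hB
  have hB1R : (1 : ℝ) ≤ B₁ := by exact_mod_cast hB1
  have hCB : 3528 * C₁ * B₁ ≤ H := by
    have h1 : (3528 : ℝ) * C₁ * B₁ ≤ H := (mul_le_mul_of_nonneg_right hCc1 (by positivity)).trans hCH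
    exact_mod_cast h1
  have hBH : B₁ ≤ H := le_trans (by nlinarith) hCB
  have hH10 : 10 ≤ H := le_trans (by nlinarith) hCB
  obtain ⟨n, hn⟩ : ∃ n, 2 * k = n + 3 := ⟨2 * k - 3, by omega⟩
  obtain ⟨h, hh⟩ : ∃ h, h = H ^ (k - 1) := ⟨_, rfl⟩
  have hk0 : k ≠ 0 := by omega
  have hHh : H * h = H ^ k := by rw [hh, mul_pow_sub_one hk0]
  have hh2 : h ^ 2 = H * H ^ n := by
    rw [hh, ← pow_mul, ← pow_succ']
    congr 1
    omega
  obtain ⟨L, hLd⟩ : ∃ L, L = h ^ 2 / (3 * H) := ⟨_, rfl⟩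
  have hL1 : 3 * H * L ≤ h ^ 2 := by rw [hLd]; exact Nat.mul_div_le _ _
  have hL2 : H ^ n < 3 * (L + 1) := by
    have h1 : h ^ 2 < 3 * H * (L + 1) := by
      rw [hLd]
      exact Nat.lt_mul_div_succ _ (by omega)
    rw [hh2] at h1
    have h2 : H * H ^ n < H * (3 * (L + 1)) := by
      calc H * H ^ n < 3 * H * (L + 1) := h1
        _ = H * (3 * (L + 1)) := by ring
    exact Nat.lt_of_mul_lt_mul_left h2
  have hnH : 10 ≤ H ^ n := hH10.trans (Nat.le_self_pow (by omega) H)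
  have hL : 1 ≤ L := by omega
  have hL3 : H ^ n ≤ 6 * L := by omega
  obtain ⟨E, hE⟩ : ∃ E, E = 1176 * C₁ * H ^ (m + 3) := ⟨_, rfl⟩
  have hHp : ∀ r : ℕ, 1 ≤ H ^ r := fun r => Nat.one_le_pow _ _ (by omega)
  have hE1 : 1 ≤ E := by
    rw [hE]
    have h1 := hHp (m + 3)
    have h2 : 1 ≤ 1176 * C₁ := by omega
    exact Nat.one_le_iff_ne_zero.2 (mul_ne_zero (by omega) (by omega))
  have hR : ∀ B : ℤ × ℤ, |B.1| ≤ (h : ℤ) → |B.2| ≤ (h : ℤ) → |rf a (f + sh b B)| ≤ (E : ℤ) * L := by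
    intro B h1 h2
    have h3 : ∀ i, |(f + sh b B : Fin (m + 1) → ℤ) i| ≤ ((14 * H ^ k : ℕ) : ℤ) := by
      intro i
      have h4 := sh_bd (m := m) b B hb h1 h2 i
      have h5 := hf i
      have h6 : ((H * h : ℕ) : ℤ) = ((H ^ k : ℕ) : ℤ) := by rw [hHh]
      push_cast at h6 ⊢
      rw [h6] at h4
      rw [Pi.add_apply]
      calc |f i + sh b B i| ≤ |f i| + |sh b B i| := abs_add_le _ _
        _ ≤ 12 * (H : ℤ) ^ k + 2 * (H : ℤ) ^ k := add_le_add h5 h4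
        _ = 14 * (H : ℤ) ^ k := by ring
    refine (hrf H (14 * H ^ k) a (f + sh b B) ha h3).trans ?_
    have h7 : C₁ * H ^ m * (14 * H ^ k) ^ 2 ≤ E * L := by
      calc C₁ * H ^ m * (14 * H ^ k) ^ 2 = 196 * C₁ * (H ^ m * H ^ (2 * k)) := by ring
        _ = 196 * C₁ * H ^ (m + 3) * H ^ n := by rw [hn]; ring
        _ ≤ 196 * C₁ * H ^ (m + 3) * (6 * L) := Nat.mul_le_mul le_rfl hL3
        _ = E * L := by rw [hE]; ring
    exact_mod_cast h7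
  have hlev : 3 * H * (E * B₁ ^ 2) ≤ h ^ 2 := by
    have h1 : 3528 * C₁ * B₁ ^ 2 ≤ H ^ 2 := by
      calc 3528 * C₁ * B₁ ^ 2 = 3528 * C₁ * B₁ * B₁ := by ring
        _ ≤ H * H := Nat.mul_le_mul hCB hBH
        _ = H ^ 2 := by ring
    calc 3 * H * (E * B₁ ^ 2) = 3528 * C₁ * B₁ ^ 2 * H ^ (m + 4) := by rw [hE]; ring
      _ ≤ H ^ 2 * H ^ (m + 4) := Nat.mul_le_mul h1 le_rfl
      _ = H * H ^ (m + 5) := by ring
      _ ≤ H * H ^ n := Nat.mul_le_mul le_rfl (Nat.pow_le_pow_right (by omega) (by omega))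
      _ = h ^ 2 := hh2.symm
  have hs := small_div (by omega : 3 ≤ m) a b f hH ha hsq hN hNw T' hT hTc hB c hc hcw hL hL1
  have hl := large_div (by omega : 3 ≤ m) a b f hH ha hsq hN hNw T' hT hTc hB c hc hcw hE1 hR hlev
  have hcard : (Nat.card {B : ℤ × ℤ // |B.1| ≤ ((h : ℕ) : ℤ) ∧ |B.2| ≤ ((h : ℕ) : ℤ) ∧
      Ev T' T w B₁ (NN a b) c (rf a (f + sh b B))}) ≤
      Nat.card {B : ℤ × ℤ // |B.1| ≤ (h : ℤ) ∧ |B.2| ≤ (h : ℤ) ∧ rf a (f + sh b B) ≠ 0 ∧ om (rf a (f + sh b B)) ≤ w ∧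
        ∃ D : ℕ, Squarefree D ∧ (D : ℤ) ∣ rf a (f + sh b B) ∧ B₁ < cop (NN a b) D ∧ cop (NN a b) D ≤ L ∧
          (T'.filter fun p => nsq p (c * D)).card < T} +
      Nat.card {B : ℤ × ℤ // |B.1| ≤ (h : ℤ) ∧ |B.2| ≤ (h : ℤ) ∧ rf a (f + sh b B) ≠ 0 ∧ om (rf a (f + sh b B)) ≤ w ∧
        ∃ D : ℕ, Squarefree D ∧ (D : ℤ) ∣ rf a (f + sh b B) ∧ L < cop (NN a b) D ∧
          (T'.filter fun p => nsq p (c * D)).card < T} := by
    refine DL_card ?_ (DL_fin h _) (DL_fin h _)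
    rintro B ⟨h1, h2, h3, h4, D, h5, h6, h7, h8⟩
    by_cases h9 : cop (NN a b) D ≤ L
    · exact Or.inl ⟨h1, h2, h3, h4, D, h5, h6, h7, h9, h8⟩
    · exact Or.inr ⟨h1, h2, h3, h4, D, h5, h6, not_le.1 h9, h8⟩
  have hcardR := (Nat.cast_le (α := ℝ)).2 hcard
  push_cast at hcardR
  have hHR : (1 : ℝ) ≤ H := by exact_mod_cast hH
  have hlog : 0 ≤ Real.log H := Real.log_nonneg hHR
  have hlogL : 1 + Real.log L ≤ 2 * k * (1 + Real.log H) := by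
    have h1 : (L : ℝ) ≤ (H : ℝ) ^ (2 * k) := by
      have h2 : L ≤ H ^ (2 * k) := by
        calc L ≤ 3 * H * L := by nlinarith
          _ ≤ h ^ 2 := hL1
          _ = H ^ (n + 1) := by rw [hh2]; ring
          _ ≤ H ^ (2 * k) := Nat.pow_le_pow_right (by omega) (by omega)
      exact_mod_cast h2
    have h3 : Real.log L ≤ 2 * k * Real.log H := by
      have h4 := Real.log_le_log (by exact_mod_cast hL) h1
      rw [Real.log_pow] at h4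
      push_cast at h4
      exact h4
    have h5 : (1 : ℝ) ≤ 2 * k := by
      have h6 : (1 : ℝ) ≤ k := by exact_mod_cast (by omega : 1 ≤ k)
      linarith
    nlinarith
  have hlogE : 1 + Real.log E ≤ (1 + Real.log (1176 * C₁) + (m + 3)) * (1 + Real.log H) := by
    have h1 : Real.log E = Real.log (1176 * C₁) + (m + 3) * Real.log H := by
      rw [hE]
      push_cast
      rw [Real.log_mul (by positivity) (by positivity), Real.log_pow]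
      push_cast
      ring
    rw [h1]
    nlinarith [mul_nonneg hlogC hlog]
  have hX : (0 : ℝ) ≤ 8 ^ w * (h : ℝ) ^ 2 * (1 / 2) ^ T := by positivity
  have hfinal : 280 * (1 + Real.log L) + 1120 * (1 + Real.log E) ≤ Cc * (1 + Real.log H) := by
    rw [hCc]
    have h1 : (0 : ℝ) ≤ 3528 * C₁ * (1 + Real.log H) := by positivity
    linarith
  have h10 := mul_le_mul_of_nonneg_right hfinal hX
  have hhR : (h : ℝ) = (H : ℝ) ^ (k - 1) := by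
    rw [hh]
    push_cast
    rfl
  rw [← hhR, ← hh]
  calc _ ≤ _ := hcardR
    _ ≤ _ := add_le_add hs hl
    _ = (280 * (1 + Real.log L) + 1120 * (1 + Real.log E)) * (8 ^ w * (h : ℝ) ^ 2 * (1 / 2) ^ T) := by ring
    _ ≤ _ := h10
    _ = _ := by ring

end HT
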