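import Pool.Agent.Lib.MP_10e784_agHT.DL

/-!
# LEAF DM: the large divisors for fixed quadratic forms (page, 5 and 6.3)

`jj j = 1 - j` in `Fin 2`: the other index is written `1 - j`.

PROOF.  `a = q j`, `b = q (1 - j)`, `h = H ^ (k - 1)`.  Averaging: for `F` in the box `10 H^k` and `|B| ≤ h` the form `F - sh b B` is in the box `12 H^k` (`sh_bd`), so `#{F} (2 h + 1)² ≤ ∑_{F' ∈ bo (12 H^k)} #{|B| ≤ h : P (F' + sh b B)}` (as `average` in `HY_SI.lean`: `(F, B) ↦ (F - sh b B, B)`; `sh b` is fixed, `F' + sh b B = F`).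
Fix `F'`.  `rf b (F' + sh b B) = rf b F' =: R₁` (`rf_sh_inv`).  If some `B` has the property `P`: `RT ≠ 0`, `om (RT) ≤ w`, so `R₁ ≠ 0`, `om R₁ ≤ w`, `NN a b ≠ 0` and it has at most `w` prime factors (`RT` is a multiple of `R₁` and of `a 2 * rq a b`; `rq_comm`; `om` is monotone for divisors of a nonzero number).
`c` is `± c₀`, `c₀` a squarefree divisor of `|R₁|`: at most `2 · 2^w` values (`card_sqf`), each with `om c ≤ w`, `c ≠ 0`; `V_bound` for each.  `P (F' + sh b B)` implies `Ev` for one of the `c` (`rf a (F' + sh b B) ∣ RT`, so `≠ 0`, `om ≤ w`).  So `∑_{F'} ≤ (24 H^k + 1)^(m + 1) · 2^(w + 1) C 8^w (1 + log H) h² (1/2)^T`, and `(2 h + 1)² ≥ h²`.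
-/

set_option autoImplicit false

namespace HT

open Finset Polynomial MWS HY

/-- the event for fixed `q`, `j`, `T'` -/
def Bj {m : ℕ} (q : Fin 2 → Fin 3 → ℤ) (j : Fin 2) (T' : Finset ℕ) (T w B₁ : ℕ) (F : Fin (m + 1) → ℤ) : Prop :=
  RT q F ≠ 0 ∧ om (RT q F) ≤ w ∧ ∃ c : ℤ, Squarefree c.natAbs ∧ c ∣ rf (q (1 - j)) F ∧
    Ev T' T w B₁ (NN (q j) (q (1 - j))) c (rf (q j) F)

private theorem DM_om {x y : ℤ} (h : x ∣ y) (hy : y ≠ 0) : om x ≤ om y := by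
  unfold om
  exact card_le_card (Nat.primeFactors_mono (Int.natAbs_dvd_natAbs.2 h) (Int.natAbs_ne_zero.2 hy))

private noncomputable def DM_bx (h : ℕ) : Finset (ℤ × ℤ) := Icc (-(h : ℤ)) (h : ℤ) ×ˢ Icc (-(h : ℤ)) (h : ℤ)

open Classical in
private theorem DM_card (h : ℕ) (P : ℤ × ℤ → Prop) :
    Nat.card {B : ℤ × ℤ // |B.1| ≤ (h : ℤ) ∧ |B.2| ≤ (h : ℤ) ∧ P B} = ((DM_bx h).filter P).card := by
  refine Nat.subtype_card _ fun B => ?_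
  rw [mem_filter, DM_bx, mem_product, mem_Icc, mem_Icc, abs_le, abs_le, and_assoc]

private theorem DM_bx_card (h : ℕ) : (DM_bx h).card = (2 * h + 1) ^ 2 := by
  rw [DM_bx, card_product, Int.card_Icc]
  have h4 : ((h : ℤ) + 1 - -(h : ℤ)).toNat = 2 * h + 1 := by omega
  rw [h4, sq]

private theorem DM_average {m k H : ℕ} (hk : 1 ≤ k) (b : Fin 3 → ℤ) (hb : ∀ i, |b i| ≤ (H : ℤ))
    (Pr : (Fin (m + 1) → ℤ) → Prop) :
    Nat.card {F : Fin (m + 1) → ℤ // (∀ i, |F i| ≤ 10 * (H : ℤ) ^ k) ∧ Pr F} * (2 * H ^ (k - 1) + 1) ^ 2 ≤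
      ∑ F ∈ Fintype.piFinset (fun _ : Fin (m + 1) => Icc (-(12 * (H : ℤ) ^ k)) (12 * (H : ℤ) ^ k)),
        Nat.card {B : ℤ × ℤ // |B.1| ≤ ((H ^ (k - 1) : ℕ) : ℤ) ∧ |B.2| ≤ ((H ^ (k - 1) : ℕ) : ℤ) ∧
          Pr (F + sh b B)} := by
  classical
  have hHk : (H : ℤ) * ((H ^ (k - 1) : ℕ) : ℤ) = (H : ℤ) ^ k := by
    rw [Nat.cast_pow, ← pow_succ', Nat.sub_add_cancel hk]
  set A : Finset (Fin (m + 1) → ℤ) :=
    (Fintype.piFinset (fun _ => Icc (-(10 * (H : ℤ) ^ k)) (10 * (H : ℤ) ^ k))).filter Pr with hA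
  set BF : Finset (Fin (m + 1) → ℤ) :=
    Fintype.piFinset (fun _ => Icc (-(12 * (H : ℤ) ^ k)) (12 * (H : ℤ) ^ k)) with hBF
  have h1 : Nat.card {F : Fin (m + 1) → ℤ // (∀ i, |F i| ≤ 10 * (H : ℤ) ^ k) ∧ Pr F} = A.card := by
    refine Nat.subtype_card A fun F => ?_
    rw [hA, mem_filter, Fintype.mem_piFinset]
    simp only [mem_Icc, abs_le]
  rw [h1, ← DM_bx_card, ← card_product]
  simp only [DM_card]
  rw [← card_sigma]
  refine card_le_card_of_injOn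
    (fun x => (⟨x.1 - sh b x.2, x.2⟩ : (_ : Fin (m + 1) → ℤ) × (ℤ × ℤ))) ?_ ?_
  · rintro ⟨F, Q⟩ hx
    have hx' := mem_product.1 (mem_coe.1 hx)
    have hF := mem_filter.1 hx'.1
    have hF1 := Fintype.mem_piFinset.1 hF.1
    have hQ0 : Q ∈ DM_bx (H ^ (k - 1)) := hx'.2
    have hQ1 := mem_product.1 (by rw [← DM_bx]; exact hQ0 :
      Q ∈ Icc (-((H ^ (k - 1) : ℕ) : ℤ)) ((H ^ (k - 1) : ℕ) : ℤ) ×ˢ Icc (-((H ^ (k - 1) : ℕ) : ℤ)) ((H ^ (k - 1) : ℕ) : ℤ))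
    refine mem_coe.2 (mem_sigma.2 ⟨?_, mem_filter.2 ⟨hx'.2, ?_⟩⟩)
    · show F - sh b Q ∈ BF
      rw [hBF, Fintype.mem_piFinset]
      intro i
      have h5 := sh_bd b Q hb (abs_le.2 (mem_Icc.1 hQ1.1)) (abs_le.2 (mem_Icc.1 hQ1.2)) i
      rw [hHk] at h5
      have h6 := abs_le.1 h5
      have h7 := mem_Icc.1 (hF1 i)
      rw [mem_Icc, Pi.sub_apply]
      constructor
      · linarith [h6.2, h7.1]
      · linarith [h6.1, h7.2]
    · show Pr (F - sh b Q + sh b Q)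
      rw [sub_add_cancel]
      exact hF.2
  · rintro ⟨F, Q⟩ _ ⟨F', Q'⟩ _ h
    have h5 : F - sh b Q = F' - sh b Q' := congrArg Sigma.fst h
    have h6 : Q = Q' := congrArg (fun x : (_ : Fin (m + 1) → ℤ) × (ℤ × ℤ) => x.2) h
    subst h6
    have h7 : F = F' := by
      have := congrArg (fun G => G + sh b Q) h5
      simpa using this
    rw [h7]

private theorem DM_dvd {m : ℕ} (q : Fin 2 → Fin 3 → ℤ) (j : Fin 2) (f : Fin (m + 1) → ℤ) :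
    rf (q (1 - j)) f ∣ RT q f ∧ q j 2 * rq (q j) (q (1 - j)) ∣ RT q f := by
  have h1 : rf (q (1 - j)) f ∣ ∏ i, rf (q i) f := Finset.dvd_prod_of_mem (fun i => rf (q i) f) (mem_univ _)
  have h2 : q j 2 ∣ ∏ i, q i 2 := Finset.dvd_prod_of_mem (fun i => q i 2) (mem_univ _)
  have h3 : rq (q j) (q (1 - j)) = rq (q 0) (q 1) := by
    fin_cases j
    · rfl
    · exact rq_comm _ _
  refine ⟨h1.trans (Dvd.intro_left _ rfl), ?_⟩
  obtain ⟨c, hc⟩ := h2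
  rw [h3]
  exact ⟨(∏ i, dq (q i)) * c * ∏ i, rf (q i) f, by unfold RT; rw [hc]; ring⟩

private theorem DM_rq (q : Fin 2 → Fin 3 → ℤ) (j : Fin 2) : rq (q j) (q (1 - j)) = rq (q 0) (q 1) := by
  fin_cases j
  · rfl
  · exact rq_comm _ _

open Classical in
private theorem DM_cs {R : ℤ} (hR : R ≠ 0) {w : ℕ} (hw : om R ≤ w) :
    ∃ Cs : Finset ℤ, Cs.card ≤ 2 ^ (w + 1) ∧ (∀ c ∈ Cs, c ∣ R) ∧ ∀ c : ℤ, Squarefree c.natAbs → c ∣ R → c ∈ Cs := by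
  have hR' : R.natAbs ≠ 0 := Int.natAbs_ne_zero.2 hR
  refine ⟨((R.natAbs.divisors).filter Squarefree).image (fun d : ℕ => (d : ℤ)) ∪
    ((R.natAbs.divisors).filter Squarefree).image (fun d : ℕ => -(d : ℤ)), ?_, ?_, ?_⟩
  · refine (card_union_le _ _).trans ?_
    have h1 := card_sqf hR'
    have h2 : 2 ^ R.natAbs.primeFactors.card ≤ 2 ^ w := Nat.pow_le_pow_right (by norm_num) hw
    have h3 := card_image_le (s := (R.natAbs.divisors).filter Squarefree) (f := fun d : ℕ => (d : ℤ))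
    have h4 := card_image_le (s := (R.natAbs.divisors).filter Squarefree) (f := fun d : ℕ => -(d : ℤ))
    rw [pow_succ]
    omega
  · intro c hc
    rcases mem_union.1 hc with h | h
    · obtain ⟨d, hd, rfl⟩ := mem_image.1 h
      have := Nat.dvd_of_mem_divisors (mem_filter.1 hd).1
      exact Int.natCast_dvd.2 this
    · obtain ⟨d, hd, rfl⟩ := mem_image.1 h
      have := Nat.dvd_of_mem_divisors (mem_filter.1 hd).1
      exact (neg_dvd).2 (Int.natCast_dvd.2 this)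
  · intro c hc hcR
    have h1 : c.natAbs ∈ (R.natAbs.divisors).filter Squarefree :=
      mem_filter.2 ⟨Nat.mem_divisors.2 ⟨Int.natAbs_dvd_natAbs.2 hcR, hR'⟩, hc⟩
    rcases Int.natAbs_eq c with h | h
    · exact mem_union_left _ (mem_image.2 ⟨c.natAbs, h1, h.symm⟩)
    · exact mem_union_right _ (mem_image.2 ⟨c.natAbs, h1, h.symm⟩)

theorem bad_fix {m k : ℕ} (hm : 4 ≤ m) (hk : m + 8 ≤ 2 * k) : ∃ C : ℝ, 1 ≤ C ∧ ∀ (q : Fin 2 → Fin 3 → ℤ) (j : Fin 2)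
    (H B₁ w T : ℕ), 1 ≤ H → (∀ i l, |q i l| ≤ (H : ℤ)) → ¬ IsSquare (dq (q j)) →
    ∀ T' : Finset ℕ, (∀ p ∈ T', p.Prime ∧ 29 ≤ p ∧ ¬ IsSquare ((dq (q j) : ℤ) : ZMod p) ∧
      ((rq (q 0) (q 1) : ℤ) : ZMod p) ≠ 0) → T'.card = 10 * T → ∏ p ∈ T', p ≤ B₁ → C * B₁ ≤ H →
    (Nat.card {F : Fin (m + 1) → ℤ // (∀ i, |F i| ≤ 10 * (H : ℤ) ^ k) ∧ Bj q j T' T w B₁ F} : ℝ) ≤
      C * 16 ^ w * (1 + Real.log H) * ((H : ℝ) ^ k) ^ (m + 1) * (1 / 2) ^ T := by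
  obtain ⟨C₁, hC₁, hV⟩ := V_bound (m := m) (k := k) hm hk
  have hk1 : 1 ≤ k := by omega
  refine ⟨25 ^ (m + 1) * 2 * C₁, ?_, ?_⟩
  · have h1 : (1 : ℝ) ≤ 25 ^ (m + 1) := one_le_pow₀ (by norm_num)
    nlinarith
  intro q j H B₁ w T hH hq hj T' hT' hT'c hB hCB
  have hH1 : (1 : ℝ) ≤ H := by exact_mod_cast hH
  have hlog : 0 ≤ Real.log H := Real.log_nonneg hH1
  have h25 : (1 : ℝ) ≤ 25 ^ (m + 1) := one_le_pow₀ (by norm_num)
  have hB0 : (0 : ℝ) ≤ B₁ := Nat.cast_nonneg _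
  have hCB' : C₁ * B₁ ≤ H := by
    refine le_trans ?_ hCB
    refine mul_le_mul_of_nonneg_right ?_ hB0
    nlinarith
  obtain ⟨Y, hY⟩ : ∃ Y : ℝ, Y = C₁ * 8 ^ w * (1 + Real.log H) * ((H : ℝ) ^ (k - 1)) ^ 2 * (1 / 2) ^ T := ⟨_, rfl⟩
  have hY0 : 0 ≤ Y := by rw [hY]; positivity
  -- one fixed `F'`
  have hfix : ∀ F' ∈ Fintype.piFinset (fun _ : Fin (m + 1) => Icc (-(12 * (H : ℤ) ^ k)) (12 * (H : ℤ) ^ k)),
      (Nat.card {B : ℤ × ℤ // |B.1| ≤ ((H ^ (k - 1) : ℕ) : ℤ) ∧ |B.2| ≤ ((H ^ (k - 1) : ℕ) : ℤ) ∧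
        Bj q j T' T w B₁ (F' + sh (q (1 - j)) B)} : ℝ) ≤ 2 ^ (w + 1) * Y := by
    intro F' hF'
    have hF'1 : ∀ i, |F' i| ≤ 12 * (H : ℤ) ^ k := fun i => abs_le.2 (mem_Icc.1 (Fintype.mem_piFinset.1 hF' i))
    by_cases hex : ∃ B : ℤ × ℤ, Bj q j T' T w B₁ (F' + sh (q (1 - j)) B)
    · obtain ⟨B₀, hB1, hB2, _⟩ := hex
      have hinv : ∀ B : ℤ × ℤ, rf (q (1 - j)) (F' + sh (q (1 - j)) B) = rf (q (1 - j)) F' :=
        fun B => rf_sh_inv (by omega) _ _ _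
      obtain ⟨d1, d2⟩ := DM_dvd q j (F' + sh (q (1 - j)) B₀)
      have hR0 : rf (q (1 - j)) F' ≠ 0 := by
        rw [← hinv B₀]
        exact ne_zero_of_dvd_ne_zero hB1 d1
      have hRw : om (rf (q (1 - j)) F') ≤ w := by
        rw [← hinv B₀]
        exact (DM_om d1 hB1).trans hB2
      have hN0 : NN (q j) (q (1 - j)) ≠ 0 := by
        unfold NN
        exact Int.natAbs_ne_zero.2 (ne_zero_of_dvd_ne_zero hB1 d2)
      have hNw : (NN (q j) (q (1 - j))).primeFactors.card ≤ w := (DM_om d2 hB1).trans hB2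
      obtain ⟨Cs, hCs1, hCs2, hCs3⟩ := DM_cs hR0 hRw
      classical
      have hsub : (DM_bx (H ^ (k - 1))).filter (fun B => Bj q j T' T w B₁ (F' + sh (q (1 - j)) B)) ⊆
          Cs.biUnion fun c => (DM_bx (H ^ (k - 1))).filter
            (fun B => Ev T' T w B₁ (NN (q j) (q (1 - j))) c (rf (q j) (F' + sh (q (1 - j)) B))) := by
        intro B hB'
        obtain ⟨hB3, _, _, c, hc1, hc2, hc3⟩ := mem_filter.1 hB'
        rw [hinv B] at hc2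
        exact mem_biUnion.2 ⟨c, hCs3 c hc1 hc2, mem_filter.2 ⟨hB3, hc3⟩⟩
      have hcard := (card_le_card hsub).trans card_biUnion_le
      rw [DM_card]
      have hone : ∀ c ∈ Cs, (((DM_bx (H ^ (k - 1))).filter
          (fun B => Ev T' T w B₁ (NN (q j) (q (1 - j))) c (rf (q j) (F' + sh (q (1 - j)) B)))).card : ℝ) ≤ Y := by
        intro c hc
        have h5 := hV (q j) (q (1 - j)) F' H B₁ w T hH (hq j) (hq (1 - j)) hF'1 hj hN0 hNw T'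
          (fun p hp => ⟨(hT' p hp).1, (hT' p hp).2.1, (hT' p hp).2.2.1, by
            rw [DM_rq q j]
            exact (hT' p hp).2.2.2⟩) hT'c hB hCB' c (ne_zero_of_dvd_ne_zero hR0 (hCs2 c hc))
          ((DM_om (hCs2 c hc) hR0).trans hRw)
        rw [DM_card, ← hY] at h5
        exact h5
      have h6 : (((DM_bx (H ^ (k - 1))).filter (fun B => Bj q j T' T w B₁ (F' + sh (q (1 - j)) B))).card : ℝ) ≤
          ∑ c ∈ Cs, (((DM_bx (H ^ (k - 1))).filter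
            (fun B => Ev T' T w B₁ (NN (q j) (q (1 - j))) c (rf (q j) (F' + sh (q (1 - j)) B)))).card : ℝ) := by
        exact_mod_cast hcard
      refine h6.trans ((sum_le_card_nsmul Cs _ Y hone).trans ?_)
      rw [nsmul_eq_mul]
      refine mul_le_mul_of_nonneg_right ?_ hY0
      exact_mod_cast hCs1
    · have h0 : IsEmpty {B : ℤ × ℤ // |B.1| ≤ ((H ^ (k - 1) : ℕ) : ℤ) ∧ |B.2| ≤ ((H ^ (k - 1) : ℕ) : ℤ) ∧
          Bj q j T' T w B₁ (F' + sh (q (1 - j)) B)} := ⟨fun x => hex ⟨x.1, x.2.2.2⟩⟩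
      rw [Nat.card_of_isEmpty]
      push_cast
      positivity
  have hav := DM_average (m := m) hk1 (q (1 - j)) (hq (1 - j)) (Bj q j T' T w B₁)
  have hav' : (Nat.card {F : Fin (m + 1) → ℤ // (∀ i, |F i| ≤ 10 * (H : ℤ) ^ k) ∧ Bj q j T' T w B₁ F} : ℝ) *
      (2 * (H : ℝ) ^ (k - 1) + 1) ^ 2 ≤ (24 * (H : ℝ) ^ k + 1) ^ (m + 1) * (2 ^ (w + 1) * Y) := by
    have h7 : (Nat.card {F : Fin (m + 1) → ℤ // (∀ i, |F i| ≤ 10 * (H : ℤ) ^ k) ∧ Bj q j T' T w B₁ F} : ℝ) *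
      (2 * (H : ℝ) ^ (k - 1) + 1) ^ 2 ≤
      ∑ F' ∈ Fintype.piFinset (fun _ : Fin (m + 1) => Icc (-(12 * (H : ℤ) ^ k)) (12 * (H : ℤ) ^ k)),
        (Nat.card {B : ℤ × ℤ // |B.1| ≤ ((H ^ (k - 1) : ℕ) : ℤ) ∧ |B.2| ≤ ((H ^ (k - 1) : ℕ) : ℤ) ∧
          Bj q j T' T w B₁ (F' + sh (q (1 - j)) B)} : ℝ) := by
      exact_mod_cast hav
    refine h7.trans ((sum_le_card_nsmul _ _ _ hfix).trans ?_)
    rw [nsmul_eq_mul]
    refine mul_le_mul_of_nonneg_right ?_ (by positivity)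
    rw [Fintype.card_piFinset, prod_const, card_univ, Fintype.card_fin, Int.card_Icc]
    have h8 : (12 * (H : ℤ) ^ k + 1 - -(12 * (H : ℤ) ^ k)).toNat = 24 * H ^ k + 1 := by
      have h9 : (H : ℤ) ^ k = ((H ^ k : ℕ) : ℤ) := by push_cast; rfl
      rw [h9]
      omega
    rw [h8]
    push_cast
    exact le_rfl
  have hHk1 : (1 : ℝ) ≤ (H : ℝ) ^ k := one_le_pow₀ hH1
  have hh1 : (1 : ℝ) ≤ (H : ℝ) ^ (k - 1) := one_le_pow₀ hH1
  have hbox : (24 * (H : ℝ) ^ k + 1) ^ (m + 1) ≤ 25 ^ (m + 1) * ((H : ℝ) ^ k) ^ (m + 1) := by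
    rw [← mul_pow]
    exact pow_le_pow_left₀ (by positivity) (by linarith) _
  have hsq : ((H : ℝ) ^ (k - 1)) ^ 2 ≤ (2 * (H : ℝ) ^ (k - 1) + 1) ^ 2 :=
    pow_le_pow_left₀ (by positivity) (by linarith) _
  have hN0 : (0 : ℝ) ≤ (Nat.card {F : Fin (m + 1) → ℤ // (∀ i, |F i| ≤ 10 * (H : ℤ) ^ k) ∧ Bj q j T' T w B₁ F} : ℝ) :=
    Nat.cast_nonneg _
  have hfin : (Nat.card {F : Fin (m + 1) → ℤ // (∀ i, |F i| ≤ 10 * (H : ℤ) ^ k) ∧ Bj q j T' T w B₁ F} : ℝ) *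
      ((H : ℝ) ^ (k - 1)) ^ 2 ≤
      (25 ^ (m + 1) * 2 * C₁ * 16 ^ w * (1 + Real.log H) * ((H : ℝ) ^ k) ^ (m + 1) * (1 / 2) ^ T) *
        ((H : ℝ) ^ (k - 1)) ^ 2 := by
    refine (mul_le_mul_of_nonneg_left hsq hN0).trans (hav'.trans ?_)
    refine (mul_le_mul_of_nonneg_right hbox (by positivity)).trans (le_of_eq ?_)
    rw [hY]
    have h16 : (16 : ℝ) ^ w = 2 ^ w * 8 ^ w := by rw [← mul_pow]; norm_num
    rw [h16, pow_succ (2 : ℝ) w]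
    ring
  exact le_of_mul_le_mul_right hfin (by positivity)

end HT
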