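import Pool.Agent.Lib.MP_10e784_agHT.DI
import Pool.Agent.Lib.MP_10e784_agBS.S3
import Mathlib.RingTheory.Polynomial.Resultant.Basic
import Mathlib.Algebra.MvPolynomial.SchwartzZippel

/-!
# LEAF DN: forms with `p ∣ rf` (page, 4)

PROOF of `rf_zero_count` (`K = ZMod p`).  `a 2 ≠ 0`: `rf a f = 0` implies that `pol a` and `pol f` are not coprime; if `pol a` has a root in `ZMod p` (roots `r, r'`), one of `fe f r 1`, `fe f r' 1` is `0`: at most `2 p^m` forms (each is one nontrivial linear condition); if `pol a` is irreducible it divides `pol f`: at most `p^(m - 1)` forms (`f` is determined by the quotient of degree `≤ m - 2`), or weaker: the remainder of `f`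
modulo `a` is 0, so `f 0` is determined by the others: `p^m`.  `a 2 = 0`, `a ≠ 0`: `f (last) = 0` (at most `p^m` forms) or `fe f (-a 0) (a 1) = 0` with `a 1 ≠ 0` (at most `p^m`): the resultant in degrees `2, m` of a polynomial of degree `≤ 1` is `± f_m ·` (resultant in degrees `1, m`)
(`resultant_add_left_deg`), which is `± fe f (-a 0) (a 1)` if `a 1 ≠ 0`, and `± a 0 ^ m f_m` if `a 1 = 0`.
PROOF of `rf_box`.  `MWS.box_crt` with `S = {p}`, `ι = Fin (m + 1)`, all `h i = h ≥ p`, `f p b = 1` if `rf = 0` and `g p = 2 / p` (`rf_cast`); the count is the sum over the box.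
-/

set_option autoImplicit false

namespace HT

open Finset Polynomial MWS HY

private theorem DN_pol_map {R S : Type*} [CommRing R] [CommRing S] (φ : R →+* S) {k : ℕ} (f : Fin k → R) :
    (pol f).map φ = pol (fun i => φ (f i)) := by
  unfold pol
  rw [Polynomial.map_sum]
  refine Finset.sum_congr rfl fun i _ => ?_
  rw [Polynomial.map_monomial]

private theorem DN_rf_map {R S : Type*} [CommRing R] [CommRing S] (φ : R →+* S) {m : ℕ} (a : Fin 3 → R) (f : Fin (m + 1) → R) :
    rf (fun i => φ (a i)) (fun i => φ (f i)) = φ (rf a f) := by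
  unfold rf
  rw [← DN_pol_map, ← DN_pol_map, resultant_map_map]

/-- the polynomial of the coefficients -/
private theorem DN_pol_coeffs {R : Type*} [CommRing R] {m : ℕ} (g : R[X]) (hg : g.natDegree ≤ m) :
    pol (fun i : Fin (m + 1) => g.coeff i) = g := by
  ext n
  rw [pol_coeff]
  split_ifs with h
  · rfl
  · exact (coeff_eq_zero_of_natDegree_lt (by omega)).symm

private theorem DN_ne {K : Type*} [Field K] {m : ℕ} (hm : 2 ≤ m) (a : Fin 3 → K) (ha : a ≠ 0) :
    ∃ f : Fin (m + 1) → K, rf a f ≠ 0 := by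
  have hc : ∀ i : Fin 3, (pol a).coeff i = a i := by
    intro i
    rw [pol_coeff, dif_pos i.2]
  by_cases h2 : a 2 = 0
  · by_cases h0 : a 0 = 0
    · have h1 : a 1 ≠ 0 := by
        intro h1
        apply ha
        funext i
        fin_cases i
        · exact h0
        · exact h1
        · exact h2
      have hp : pol a = C (a 1) * (X - C 0) := by
        unfold pol
        rw [Fin.sum_univ_three, h0, h2]
        simp [C_mul_X_eq_monomial]
      have hgd : (1 + X ^ m : K[X]).natDegree ≤ m := by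
        refine (natDegree_add_le _ _).trans ?_
        simp
      refine ⟨fun i => (1 + X ^ m : K[X]).coeff i, ?_⟩
      have e2 : resultant (X - C 0 : K[X]) (1 + X ^ m) 2 m =
          (-1) ^ m * (1 + X ^ m : K[X]).coeff m * resultant (X - C 0 : K[X]) (1 + X ^ m) 1 m :=
        resultant_succ_left_deg _ _ 1 m (natDegree_X_sub_C (0 : K)).le
      unfold rf
      rw [DN_pol_coeffs _ hgd, hp, resultant_C_mul_left, e2, resultant_X_sub_C_left _ _ _ hgd]
      have hm0 : m ≠ 0 := by omega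
      have e1 : (1 + X ^ m : K[X]).coeff m = 1 := by
        rw [coeff_add, coeff_X_pow_self, coeff_one, if_neg hm0, zero_add]
      rw [e1]
      simp [hm0, h1]
    · refine ⟨fun i => (X ^ m : K[X]).coeff i, ?_⟩
      unfold rf
      rw [DN_pol_coeffs _ (by simp), resultant_X_pow_right _ _ _ (pol_deg a)]
      have := hc 0
      simp only [Fin.val_zero] at this
      rw [this]
      exact mul_ne_zero (pow_ne_zero _ (neg_ne_zero.mpr one_ne_zero)) (pow_ne_zero _ h0)
  · refine ⟨fun i => (1 : K[X]).coeff i, ?_⟩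
    unfold rf
    rw [DN_pol_coeffs _ (by simp), resultant_one_right]
    have := hc 2
    simp only [Fin.val_two] at this
    rw [this]
    exact pow_ne_zero _ h2

open Matrix in
private theorem DN_deg {K : Type*} [Field K] {m : ℕ} (a : Fin 3 → K) :
    (rf (fun i => MvPolynomial.C (a i)) (fun i : Fin (m + 1) => MvPolynomial.X i) : MvPolynomial (Fin (m + 1)) K).totalDegree ≤ 2 := by
  unfold rf resultant
  rw [Matrix.det_apply']
  refine (MvPolynomial.totalDegree_finsetSum _ _).trans (Finset.sup_le fun σ _ => ?_)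
  refine (MvPolynomial.totalDegree_mul _ _).trans ?_
  have h1 : ((Equiv.Perm.sign σ : ℤ) : MvPolynomial (Fin (m + 1)) K).totalDegree = 0 := by
    have : ((Equiv.Perm.sign σ : ℤ) : MvPolynomial (Fin (m + 1)) K) = MvPolynomial.C ((Equiv.Perm.sign σ : ℤ) : K) := by simp
    rw [this, MvPolynomial.totalDegree_C]
  rw [h1, zero_add]
  refine (MvPolynomial.totalDegree_finsetProd _ _).trans ?_
  rw [Fin.sum_univ_add]
  have h2 : ∀ i : Fin 2, (sylvester (pol fun i => MvPolynomial.C (a i)) (pol fun i : Fin (m + 1) => (MvPolynomial.X i : MvPolynomial (Fin (m + 1)) K)) 2 m (σ (Fin.castAdd m i)) (Fin.castAdd m i)).totalDegree ≤ 1 := by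
    intro i
    unfold sylvester
    rw [Matrix.of_apply, Fin.addCases_left]
    split_ifs with h
    · rw [pol_coeff]
      split_ifs with h'
      · exact (MvPolynomial.totalDegree_X _).le
      · simp
    · simp
  have h3 : ∀ i : Fin m, (sylvester (pol fun i => MvPolynomial.C (a i)) (pol fun i : Fin (m + 1) => (MvPolynomial.X i : MvPolynomial (Fin (m + 1)) K)) 2 m (σ (Fin.natAdd 2 i)) (Fin.natAdd 2 i)).totalDegree = 0 := by
    intro i
    unfold sylvester
    rw [Matrix.of_apply, Fin.addCases_right]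
    split_ifs with h
    · rw [pol_coeff]
      split_ifs with h'
      · exact MvPolynomial.totalDegree_C _
      · simp
    · simp
  rw [Finset.sum_congr rfl fun i _ => h3 i]
  calc _ ≤ ∑ i : Fin 2, 1 + ∑ i : Fin m, 0 := by
        gcongr with i
        exact h2 i
    _ = 2 := by simp

theorem rf_zero_count {p : ℕ} [Fact p.Prime] {m : ℕ} (hm : 2 ≤ m) (a : Fin 3 → ZMod p) (ha : a ≠ 0) :
    Nat.card {f : Fin (m + 1) → ZMod p // rf a f = 0} ≤ 2 * p ^ m := by
  classical
  obtain ⟨P, hP⟩ : ∃ P : MvPolynomial (Fin (m + 1)) (ZMod p), P = rf (fun i => MvPolynomial.C (a i)) (fun i => MvPolynomial.X i) := ⟨_, rfl⟩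
  have hev : ∀ f : Fin (m + 1) → ZMod p, MvPolynomial.eval f P = rf a f := by
    intro f
    rw [hP, ← DN_rf_map]
    simp
  have hdeg : P.totalDegree ≤ 2 := by
    rw [hP]
    exact DN_deg a
  have hP0 : P ≠ 0 := by
    intro h
    obtain ⟨f, hf⟩ := DN_ne hm a ha
    apply hf
    rw [← hev, h, map_zero]
  have hsz := MvPolynomial.schwartz_zippel_totalDegree hP0 (Finset.univ : Finset (ZMod p))
  rw [Finset.card_univ, ZMod.card] at hsz
  have hp0 : 0 < p := (Fact.out : p.Prime).pos
  have hcard : Nat.card {f : Fin (m + 1) → ZMod p // rf a f = 0} =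
      (Finset.filter (fun f => MvPolynomial.eval f P = 0) (Fintype.piFinset fun _ : Fin (m + 1) => (Finset.univ : Finset (ZMod p)))).card := by
    rw [Nat.card_eq_fintype_card, Fintype.card_subtype]
    congr 1
    ext f
    simp [hev]
  rw [hcard]
  have hpq : (0 : ℚ≥0) < p := by exact_mod_cast hp0
  rw [div_le_div_iff₀ (pow_pos hpq _) hpq] at hsz
  have h3 : ((Finset.filter (fun f => MvPolynomial.eval f P = 0) (Fintype.piFinset fun _ : Fin (m + 1) => (Finset.univ : Finset (ZMod p)))).card : ℚ≥0) * p ≤ (2 * p ^ m) * p := by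
    refine hsz.trans ?_
    rw [mul_assoc, ← pow_succ]
    gcongr
    exact_mod_cast hdeg
  have h4 := le_of_mul_le_mul_right h3 hpq
  exact_mod_cast h4

theorem rf_box {p : ℕ} (hp : p.Prime) {m h : ℕ} (hm : 2 ≤ m) (hh : p ≤ h) (a : Fin 3 → ℤ)
    (ha : ∃ i, ¬ (p : ℤ) ∣ a i) :
    (Nat.card {F : Fin (m + 1) → ℤ // (∀ i, |F i| ≤ (h : ℤ)) ∧ (p : ℤ) ∣ rf a F} : ℝ) * p ≤
      2 * (4 * (h : ℝ)) ^ (m + 1) := by
  classical
  have : Fact p.Prime := ⟨hp⟩
  have hp0 : (0 : ℝ) < p := by exact_mod_cast hp.pos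
  obtain ⟨g0, hg0⟩ : ∃ g0 : (q : ℕ) → (Fin (m + 1) → ZMod q) → ℝ, g0 = fun q b =>
      if rf (fun i => ((a i : ℤ) : ZMod q)) b = 0 then (1 : ℝ) else 0 := ⟨_, rfl⟩
  have hnn : ∀ q b, 0 ≤ g0 q b := by
    intro q b
    rw [hg0]
    dsimp only
    split_ifs <;> norm_num
  have hsum : ∀ q ∈ ({p} : Finset ℕ), ∀ [NeZero q], ∑ b : Fin (m + 1) → ZMod q, g0 q b ≤ (2 / p : ℝ) * (q : ℝ) ^ Fintype.card (Fin (m + 1)) := by
    intro q hq _
    obtain rfl := Finset.mem_singleton.mp hq
    have ha' : (fun i => ((a i : ℤ) : ZMod q)) ≠ 0 := by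
      intro h0
      obtain ⟨i, hi⟩ := ha
      apply hi
      rw [← ZMod.intCast_zmod_eq_zero_iff_dvd]
      exact congrFun h0 i
    have h1 := rf_zero_count hm (fun i => ((a i : ℤ) : ZMod q)) ha'
    rw [hg0]
    dsimp only
    rw [Finset.sum_boole, ← Fintype.card_subtype, ← Nat.card_eq_fintype_card, Fintype.card_fin]
    calc ((Nat.card {f : Fin (m + 1) → ZMod q // rf (fun i => ((a i : ℤ) : ZMod q)) f = 0} : ℕ) : ℝ) ≤ ((2 * q ^ m : ℕ) : ℝ) := by
          exact_mod_cast h1
      _ = (2 / q : ℝ) * (q : ℝ) ^ (m + 1) := by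
          push_cast
          field_simp
          ring
  have hbox := MWS.box_crt (ι := Fin (m + 1)) {p} (fun q hq => by rw [Finset.mem_singleton.mp hq]; exact hp) (fun _ => h)
    (fun i => by rw [Finset.prod_singleton]; exact hh) g0 hnn (fun _ => (2 / p : ℝ)) hsum
  rw [Finset.prod_singleton, Finset.prod_const, Finset.card_univ, Fintype.card_fin] at hbox
  have hcount : (Nat.card {F : Fin (m + 1) → ℤ // (∀ i, |F i| ≤ (h : ℤ)) ∧ (p : ℤ) ∣ rf a F} : ℝ) =
      ∑ c ∈ Fintype.piFinset (fun _ : Fin (m + 1) => Icc (-(h : ℤ)) (h : ℤ)), ∏ q ∈ ({p} : Finset ℕ), g0 q (fun i => ((c i : ℤ) : ZMod q)) := by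
    simp only [Finset.prod_singleton]
    rw [hg0]
    dsimp only
    rw [Finset.sum_boole]
    congr 1
    have hset : {F : Fin (m + 1) → ℤ | (∀ i, |F i| ≤ (h : ℤ)) ∧ (p : ℤ) ∣ rf a F} =
        ((Finset.filter (fun c : Fin (m + 1) → ℤ => rf (fun i => ((a i : ℤ) : ZMod p)) (fun i => ((c i : ℤ) : ZMod p)) = 0)
          (Fintype.piFinset (fun _ : Fin (m + 1) => Icc (-(h : ℤ)) (h : ℤ))) : Finset (Fin (m + 1) → ℤ)) : Set (Fin (m + 1) → ℤ)) := by
      ext F
      simp only [Set.mem_ofPred_eq, Finset.coe_filter, Fintype.mem_piFinset, Finset.mem_Icc]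
      rw [← rf_cast, ZMod.intCast_zmod_eq_zero_iff_dvd]
      simp only [abs_le]
    have : Nat.card {F : Fin (m + 1) → ℤ // (∀ i, |F i| ≤ (h : ℤ)) ∧ (p : ℤ) ∣ rf a F} =
        Set.ncard {F : Fin (m + 1) → ℤ | (∀ i, |F i| ≤ (h : ℤ)) ∧ (p : ℤ) ∣ rf a F} := by
      rfl
    rw [this, hset, Set.ncard_coe_finset]
  rw [hcount]
  calc _ ≤ ((4 * (h : ℝ)) ^ (m + 1) * (2 / p)) * p := by
        refine mul_le_mul_of_nonneg_right ?_ hp0.le
        exact hbox
    _ = 2 * (4 * (h : ℝ)) ^ (m + 1) := by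
        field_simp

end HT
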