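import Pool.Agent.Lib.MP_10e784_agHT.DN

/-!
# LEAF DO: condition G (page, 4)

PROOF.  Split the pairs `(q, F)` of the set according to `j` and to whether `p ∣ q j l` for all `l` or not.
(a) `p` divides all `q j l` for some prime `p > z`: `q j ≠ 0` (`RT ≠ 0`: `dq (q j) ≠ 0`), so `p ≤ H`.  The number of `v ≠ 0` in `[-H, H]³` with `p ∣ v` for some `p > z` is at most `∑_{z < n ≤ H} ((2 ⌊H/n⌋ + 1)³ - 1) ≤ ∑ 27 H³/n³ ≤ 27 H³ / z` (even `/ z²`), times `(2 H + 1)³ (20 H^k + 1)^(m + 1)`.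
(b) fix `q`; the primes `p > z` with `p ∣ NN (q j) (q (1 - j))` are at most `w` (they divide `RT ≠ 0`, `om (RT) ≤ w`, for some `F`; if there is no such `F` the set is empty); `p ∣ q j 2` or `p ∣ rq`, both `≠ 0`, of absolute value `≤ 8 H⁴`, so `p ≤ 8 H⁴ ≤ 10 H^k` (`k ≥ 6`); by `rf_box` (`h = 10 H^k`) at most `2 (40 H^k)^(m + 1) / p ≤ 2 (40 H^k)^(m+1)/z` forms `F` each.
Sum over `q`: `(2 H + 1)^6 · w · 2 (40 H^k)^(m + 1) / z`.
-/

set_option autoImplicit false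

namespace HT

open Finset Polynomial MWS HY

private theorem DO_card_bo {ι : Type} [Fintype ι] [DecidableEq ι] (h : ℕ) :
    (Fintype.piFinset fun _ : ι => Icc (-(h : ℤ)) (h : ℤ)).card = (2 * h + 1) ^ Fintype.card ι := by
  rw [Fintype.card_piFinset, Finset.prod_const, Int.card_Icc, Finset.card_univ]
  have : ((h : ℤ) + 1 - -(h : ℤ)).toNat = 2 * h + 1 := by omega
  rw [this]

theorem content (H z : ℕ) (hz : 1 ≤ z) :
    (Nat.card {v : Fin 3 → ℤ // v ≠ 0 ∧ (∀ i, |v i| ≤ (H : ℤ)) ∧ ∃ p : ℕ, p.Prime ∧ z < p ∧ ∀ i, (p : ℤ) ∣ v i} : ℝ) * z ≤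
      27 * (H : ℝ) ^ 3 := by
  classical
  obtain ⟨S, hS⟩ : ∃ S : Set (Fin 3 → ℤ), S = {v | v ≠ 0 ∧ (∀ i, |v i| ≤ (H : ℤ)) ∧
      ∃ p : ℕ, p.Prime ∧ z < p ∧ ∀ i, (p : ℤ) ∣ v i} := ⟨_, rfl⟩
  obtain ⟨F, hF⟩ : ∃ F : Finset (Fin 3 → ℤ), F = (Finset.Ioc z H).biUnion fun n =>
      (Fintype.piFinset fun _ : Fin 3 => Icc (-((H / n : ℕ) : ℤ)) ((H / n : ℕ) : ℤ)).image
        (fun u i => (n : ℤ) * u i) := ⟨_, rfl⟩
  have hsub : S ⊆ (F : Set (Fin 3 → ℤ)) := by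
    rw [hS]
    rintro v ⟨hv0, hvH, p, hp, hzp, hpv⟩
    choose u hu using hpv
    have hp0 : (0 : ℤ) < p := by exact_mod_cast hp.pos
    have hb : ∀ i, |u i| * (p : ℤ) ≤ (H : ℤ) := by
      intro i
      have h1 := hvH i
      rw [hu i, abs_mul, abs_of_pos hp0, mul_comm] at h1
      exact h1
    rw [Finset.mem_coe, hF, Finset.mem_biUnion]
    refine ⟨p, Finset.mem_Ioc.2 ⟨hzp, ?_⟩, Finset.mem_image.2 ⟨u, ?_, ?_⟩⟩
    · by_contra hlt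
      push Not at hlt
      apply hv0
      funext i
      have h1 := hb i
      have h2 : u i = 0 := by
        by_contra h3
        have h4 : 1 ≤ |u i| := Int.one_le_abs h3
        have h5 : (H : ℤ) < p := by exact_mod_cast hlt
        nlinarith
      rw [hu i, h2, mul_zero]
      rfl
    · rw [Fintype.mem_piFinset]
      intro i
      rw [Finset.mem_Icc, ← abs_le, ← Int.natCast_natAbs, Nat.cast_le, Nat.le_div_iff_mul_le hp.pos]
      have h1 := hb i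
      rw [← Int.natCast_natAbs] at h1
      exact_mod_cast h1
    · funext i
      exact (hu i).symm
  have hcard : (Nat.card {v : Fin 3 → ℤ // v ≠ 0 ∧ (∀ i, |v i| ≤ (H : ℤ)) ∧
      ∃ p : ℕ, p.Prime ∧ z < p ∧ ∀ i, (p : ℤ) ∣ v i}) ≤ F.card := by
    have h1 : S.ncard ≤ F.card := by
      rw [← Set.ncard_coe_finset]
      exact Set.ncard_le_ncard hsub (Finset.finite_toSet F)
    rw [hS] at h1
    exact h1
  have hF2 : (F.card : ℝ) ≤ ∑ n ∈ Finset.Ioc z H, 27 * (H : ℝ) ^ 3 * (((n : ℝ) ^ 2)⁻¹) := by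
    have h1 : F.card ≤ ∑ n ∈ Finset.Ioc z H, (2 * (H / n) + 1) ^ 3 := by
      rw [hF]
      refine le_trans Finset.card_biUnion_le (Finset.sum_le_sum fun n _ => ?_)
      refine le_trans Finset.card_image_le ?_
      rw [DO_card_bo, Fintype.card_fin]
    have h2 : (F.card : ℝ) ≤ ∑ n ∈ Finset.Ioc z H, (2 * ((H / n : ℕ) : ℝ) + 1) ^ 3 := by
      exact_mod_cast h1
    refine le_trans h2 (Finset.sum_le_sum fun n hn => ?_)
    rw [Finset.mem_Ioc] at hn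
    have hn1 : 1 ≤ n := by omega
    have hK : 1 ≤ H / n := (Nat.one_le_div_iff (by omega)).2 hn.2
    have hK' : (1 : ℝ) ≤ ((H / n : ℕ) : ℝ) := by exact_mod_cast hK
    have hn' : (1 : ℝ) ≤ n := by exact_mod_cast hn1
    have h3 : 2 * ((H / n : ℕ) : ℝ) + 1 ≤ 3 * ((H : ℝ) / n) := by
      have := @Nat.cast_div_le ℝ _ _ _ H n
      linarith
    have h4 : (2 * ((H / n : ℕ) : ℝ) + 1) ^ 3 ≤ (3 * ((H : ℝ) / n)) ^ 3 :=
      pow_le_pow_left₀ (by positivity) h3 3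
    refine le_trans h4 ?_
    have h5 : (3 * ((H : ℝ) / n)) ^ 3 = 27 * (H : ℝ) ^ 3 * (((n : ℝ) ^ 2)⁻¹ * (n : ℝ)⁻¹) := by
      field_simp
      ring
    rw [h5]
    have h6 : (n : ℝ)⁻¹ ≤ 1 := inv_le_one_of_one_le₀ hn'
    have h7 : 0 ≤ ((n : ℝ) ^ 2)⁻¹ := by positivity
    have h8 : ((n : ℝ) ^ 2)⁻¹ * (n : ℝ)⁻¹ ≤ ((n : ℝ) ^ 2)⁻¹ := by nlinarith
    exact mul_le_mul_of_nonneg_left h8 (by positivity)
  have hz' : (1 : ℝ) ≤ z := by exact_mod_cast hz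
  have hsum : ∑ n ∈ Finset.Ioc z H, (((n : ℝ) ^ 2)⁻¹) ≤ (z : ℝ)⁻¹ := by
    rcases Nat.lt_or_ge H z with h | h
    · rw [Finset.Ioc_eq_empty (by omega)]
      simp
    · refine le_trans (sum_Ioc_inv_sq_le_sub (by omega) h) ?_
      have : (0 : ℝ) ≤ (H : ℝ)⁻¹ := by positivity
      linarith
  rw [← Finset.mul_sum] at hF2
  have h9 : (Nat.card {v : Fin 3 → ℤ // v ≠ 0 ∧ (∀ i, |v i| ≤ (H : ℤ)) ∧
      ∃ p : ℕ, p.Prime ∧ z < p ∧ ∀ i, (p : ℤ) ∣ v i} : ℝ) ≤ 27 * (H : ℝ) ^ 3 * (z : ℝ)⁻¹ := by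
    refine le_trans (by exact_mod_cast hcard) (le_trans hF2 ?_)
    exact mul_le_mul_of_nonneg_left hsum (by positivity)
  calc _ ≤ 27 * (H : ℝ) ^ 3 * (z : ℝ)⁻¹ * z := mul_le_mul_of_nonneg_right h9 (by positivity)
    _ = 27 * (H : ℝ) ^ 3 := by
      rw [mul_assoc, inv_mul_cancel₀ (by positivity), mul_one]

private theorem DO_fin2 : ∀ i j : Fin 2, i = j ∨ i = 1 - j := by decide

private theorem DO_rq_bd {H : ℕ} (v w : Fin 3 → ℤ) (hv : ∀ i, |v i| ≤ (H : ℤ)) (hw : ∀ i, |w i| ≤ (H : ℤ)) :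
    |rq v w| ≤ 8 * (H : ℤ) ^ 4 := by
  have hm : ∀ i j, |v i * w j| ≤ (H : ℤ) ^ 2 := by
    intro i j
    rw [abs_mul, pow_two]
    exact mul_le_mul (hv i) (hw j) (abs_nonneg _) (le_trans (abs_nonneg _) (hv i))
  have hd : ∀ i j i' j', |v i * w j - v i' * w j'| ≤ 2 * (H : ℤ) ^ 2 := by
    intro i j i' j'
    refine le_trans (abs_sub _ _) ?_
    have h1 := hm i j
    have h2 := hm i' j'
    linarith
  have hH : (0 : ℤ) ≤ 2 * (H : ℤ) ^ 2 := by positivity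
  unfold rq
  refine le_trans (abs_sub _ _) ?_
  have h1 : |(v 0 * w 2 - v 2 * w 0) ^ 2| ≤ (2 * (H : ℤ) ^ 2) * (2 * (H : ℤ) ^ 2) := by
    rw [pow_two, abs_mul]
    exact mul_le_mul (hd 0 2 2 0) (hd 0 2 2 0) (abs_nonneg _) hH
  have h2 : |(v 2 * w 1 - v 1 * w 2) * (v 1 * w 0 - v 0 * w 1)| ≤ (2 * (H : ℤ) ^ 2) * (2 * (H : ℤ) ^ 2) := by
    rw [abs_mul]
    exact mul_le_mul (hd 2 1 1 2) (hd 1 0 0 1) (abs_nonneg _) hH
  nlinarith

private theorem DO_NN_dvd {m : ℕ} (q : Fin 2 × Fin 3 → ℤ) (F : Fin (m + 1) → ℤ) (j : Fin 2) :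
    NN (fun l => q (j, l)) (fun l => q (1 - j, l)) ∣ (RT (fun i j => q (i, j)) F).natAbs := by
  unfold NN
  rw [Int.natAbs_dvd_natAbs]
  have hj : j = 0 ∨ j = 1 := by
    fin_cases j
    · exact Or.inl rfl
    · exact Or.inr rfl
  unfold RT
  rw [Fin.prod_univ_two (fun i => (fun i j => q (i, j)) i 2)]
  rcases hj with rfl | rfl
  · have h10 : (1 : Fin 2) - 0 = 1 := rfl
    rw [h10]
    exact ⟨(∏ i, dq ((fun i j => q (i, j)) i)) * q (1, 2) * ∏ i, rf ((fun i j => q (i, j)) i) F, by ring⟩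
  · have h11 : (1 : Fin 2) - 1 = 0 := rfl
    rw [h11, rq_comm (fun l => q (1, l)) (fun l => q (0, l))]
    exact ⟨(∏ i, dq ((fun i j => q (i, j)) i)) * q (0, 2) * ∏ i, rf ((fun i j => q (i, j)) i) F, by ring⟩

private theorem DO_fib {m k H w z : ℕ} (hm : 2 ≤ m) (hk : 4 ≤ k) (hH : 1 ≤ H) (q : Fin 2 × Fin 3 → ℤ)
    (hq : ∀ i, |q i| ≤ (H : ℤ)) (j : Fin 2) (G : Finset (Fin (m + 1) → ℤ))
    (hG : ∀ F ∈ G, (∀ i, |F i| ≤ ((10 * H ^ k : ℕ) : ℤ)) ∧ RT (fun i j => q (i, j)) F ≠ 0 ∧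
      om (RT (fun i j => q (i, j)) F) ≤ w ∧ ∃ p : ℕ, p.Prime ∧ z < p ∧
      p ∣ NN (fun l => q (j, l)) (fun l => q (1 - j, l)) ∧ (p : ℤ) ∣ rf (fun l => q (j, l)) F ∧
      ∃ l, ¬ (p : ℤ) ∣ q (j, l)) :
    (G.card : ℝ) * z ≤ w * (2 * (4 * ((10 * H ^ k : ℕ) : ℝ)) ^ (m + 1)) := by
  classical
  rcases G.eq_empty_or_nonempty with rfl | ⟨F0, hF0⟩
  · simp only [Finset.card_empty, Nat.cast_zero, zero_mul]
    positivity
  obtain ⟨-, hR0, hom0, -⟩ := hG F0 hF0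
  obtain ⟨N, hN⟩ : ∃ N, N = NN (fun l => q (j, l)) (fun l => q (1 - j, l)) := ⟨_, rfl⟩
  have hNR : N ∣ (RT (fun i j => q (i, j)) F0).natAbs := by rw [hN]; exact DO_NN_dvd q F0 j
  have hRn : (RT (fun i j => q (i, j)) F0).natAbs ≠ 0 := Int.natAbs_ne_zero.2 hR0
  have hN0 : N ≠ 0 := fun h => hRn (by rw [h] at hNR; exact Nat.eq_zero_of_zero_dvd hNR)
  have hcardN : N.primeFactors.card ≤ w := le_trans (Finset.card_le_card (Nat.primeFactors_mono hNR hRn)) hom0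
  obtain ⟨h, hh⟩ : ∃ h : ℕ, h = 10 * H ^ k := ⟨_, rfl⟩
  obtain ⟨Ps, hPs⟩ : ∃ Ps : Finset ℕ, Ps = N.primeFactors.filter fun p => z < p ∧ ∃ l, ¬ (p : ℤ) ∣ q (j, l) := ⟨_, rfl⟩
  obtain ⟨Z, hZ⟩ : ∃ Z : ℕ → Finset (Fin (m + 1) → ℤ), Z = fun p : ℕ =>
      (Fintype.piFinset fun _ : Fin (m + 1) => Icc (-(h : ℤ)) (h : ℤ)).filter
        fun F => (p : ℤ) ∣ rf (fun l => q (j, l)) F := ⟨_, rfl⟩
  have hsub : G ⊆ Ps.biUnion Z := by
    intro F hF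
    obtain ⟨h1, -, -, p, hp, hzp, hpN, hpr, hl⟩ := hG F hF
    rw [Finset.mem_biUnion]
    refine ⟨p, ?_, ?_⟩
    · rw [hPs, Finset.mem_filter, Nat.mem_primeFactors]
      exact ⟨⟨hp, by rw [hN]; exact hpN, hN0⟩, hzp, hl⟩
    · rw [hZ]
      rw [Finset.mem_filter, Fintype.mem_piFinset]
      refine ⟨fun i => ?_, hpr⟩
      rw [Finset.mem_Icc, ← abs_le, hh]
      exact h1 i
  have hZc : ∀ p ∈ Ps, ((Z p).card : ℝ) * z ≤ 2 * (4 * (h : ℝ)) ^ (m + 1) := by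
    intro p hp
    rw [hPs, Finset.mem_filter, Nat.mem_primeFactors] at hp
    obtain ⟨⟨hpp, hpN, -⟩, hzp, hl⟩ := hp
    have hHk : H ^ 4 ≤ H ^ k := Nat.pow_le_pow_right hH hk
    have hH1 : H ≤ H ^ 4 := Nat.le_self_pow (by norm_num) H
    have hph : p ≤ h := by
      rw [hh]
      rw [hN] at hpN hN0
      unfold NN at hpN hN0
      rw [Int.natAbs_mul] at hpN hN0
      have ha : (q (j, 2)).natAbs ≠ 0 := fun h => hN0 (by
        show (q (j, 2)).natAbs * _ = 0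
        rw [h, zero_mul])
      have hb : (rq (fun l => q (j, l)) (fun l => q (1 - j, l))).natAbs ≠ 0 := fun h => hN0 (by rw [h, mul_zero])
      rcases (Nat.Prime.dvd_mul hpp).1 hpN with h1 | h1
      · have h2 := Nat.le_of_dvd (Nat.pos_of_ne_zero ha) h1
        have h3 : (q (j, 2)).natAbs ≤ H := by
          have h5 : ((q (j, 2)).natAbs : ℤ) ≤ (H : ℤ) := by
            rw [Int.natCast_natAbs]
            exact hq (j, 2)
          exact_mod_cast h5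
        have h4 : p ≤ H := le_trans h2 h3
        omega
      · have h2 := Nat.le_of_dvd (Nat.pos_of_ne_zero hb) h1
        have h3 : ((rq (fun l => q (j, l)) (fun l => q (1 - j, l))).natAbs : ℤ) ≤ ((8 * H ^ 4 : ℕ) : ℤ) := by
          rw [Int.natCast_natAbs]
          push_cast
          exact DO_rq_bd _ _ (fun i => hq _) (fun i => hq _)
        have h4 : (rq (fun l => q (j, l)) (fun l => q (1 - j, l))).natAbs ≤ 8 * H ^ 4 := by exact_mod_cast h3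
        omega
    have hbox := rf_box hpp hm hph (fun l => q (j, l)) hl
    have hcd : Nat.card {F : Fin (m + 1) → ℤ // (∀ i, |F i| ≤ (h : ℤ)) ∧ (p : ℤ) ∣ rf (fun l => q (j, l)) F} =
        (Z p).card := by
      refine Nat.subtype_card (Z p) fun F => ?_
      rw [hZ]
      rw [Finset.mem_filter, Fintype.mem_piFinset]
      refine and_congr_left fun _ => forall_congr' fun i => ?_
      rw [Finset.mem_Icc, abs_le]
    rw [hcd] at hbox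
    refine le_trans ?_ hbox
    exact mul_le_mul_of_nonneg_left (by exact_mod_cast hzp.le) (by positivity)
  have h1 : (G.card : ℝ) ≤ ∑ p ∈ Ps, ((Z p).card : ℝ) := by
    exact_mod_cast le_trans (Finset.card_le_card hsub) Finset.card_biUnion_le
  calc (G.card : ℝ) * z ≤ (∑ p ∈ Ps, ((Z p).card : ℝ)) * z := mul_le_mul_of_nonneg_right h1 (by positivity)
    _ = ∑ p ∈ Ps, ((Z p).card : ℝ) * z := Finset.sum_mul _ _ _
    _ ≤ ∑ p ∈ Ps, 2 * (4 * (h : ℝ)) ^ (m + 1) := Finset.sum_le_sum hZc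
    _ = (Ps.card : ℝ) * (2 * (4 * (h : ℝ)) ^ (m + 1)) := by rw [Finset.sum_const, nsmul_eq_mul]
    _ ≤ w * (2 * (4 * ((10 * H ^ k : ℕ) : ℝ)) ^ (m + 1)) := by
      rw [hh]
      refine mul_le_mul_of_nonneg_right ?_ (by positivity)
      have : Ps.card ≤ w := by
        refine le_trans (Finset.card_le_card ?_) hcardN
        rw [hPs]
        exact Finset.filter_subset _ _
      exact_mod_cast this

theorem cond_G {m k : ℕ} (hm : 2 ≤ m) (hk : 4 ≤ k) : ∃ C : ℝ, 1 ≤ C ∧ ∀ H w z : ℕ, 1 ≤ H → 1 ≤ z →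
    (Nat.card {x : (Fin 2 × Fin 3 → ℤ) × (Fin (m + 1) → ℤ) // (∀ i, |x.1 i| ≤ (H : ℤ)) ∧ (∀ i, |x.2 i| ≤ 10 * (H : ℤ) ^ k) ∧
      RT (fun i j => x.1 (i, j)) x.2 ≠ 0 ∧ om (RT (fun i j => x.1 (i, j)) x.2) ≤ w ∧
      ∃ (j : Fin 2) (p : ℕ), p.Prime ∧ z < p ∧ p ∣ NN (fun l => x.1 (j, l)) (fun l => x.1 (1 - j, l)) ∧
        (p : ℤ) ∣ rf (fun l => x.1 (j, l)) x.2} : ℝ) ≤
      C * (H : ℝ) ^ (6 + k * (m + 1)) * ((w + 1) / z) := by
  classical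
  refine ⟨4374 * 40 ^ (m + 1), ?_, ?_⟩
  · have : (1 : ℝ) ≤ 40 ^ (m + 1) := one_le_pow₀ (by norm_num)
    linarith
  intro H w z hH hz
  have hH' : (1 : ℝ) ≤ H := by exact_mod_cast hH
  have hz' : (0 : ℝ) < z := by exact_mod_cast hz
  obtain ⟨h, hh⟩ : ∃ h : ℕ, h = 10 * H ^ k := ⟨_, rfl⟩
  have hhZ : (h : ℤ) = 10 * (H : ℤ) ^ k := by rw [hh]; push_cast; ring
  have hhR : (h : ℝ) = 10 * (H : ℝ) ^ k := by rw [hh]; push_cast; ring
  obtain ⟨BQ, hBQ⟩ : ∃ BQ : Finset (Fin 2 × Fin 3 → ℤ),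
      BQ = Fintype.piFinset fun _ : Fin 2 × Fin 3 => Icc (-(H : ℤ)) (H : ℤ) := ⟨_, rfl⟩
  obtain ⟨BF, hBF⟩ : ∃ BF : Finset (Fin (m + 1) → ℤ),
      BF = Fintype.piFinset fun _ : Fin (m + 1) => Icc (-(h : ℤ)) (h : ℤ) := ⟨_, rfl⟩
  have mBQ : ∀ q, q ∈ BQ ↔ ∀ i, |q i| ≤ (H : ℤ) := by
    intro q
    rw [hBQ, Fintype.mem_piFinset]
    exact forall_congr' fun i => by rw [Finset.mem_Icc, abs_le]
  have mBF : ∀ F, F ∈ BF ↔ ∀ i, |F i| ≤ (h : ℤ) := by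
    intro F
    rw [hBF, Fintype.mem_piFinset]
    exact forall_congr' fun i => by rw [Finset.mem_Icc, abs_le]
  have cBQ : BQ.card = (2 * H + 1) ^ 6 := by rw [hBQ, DO_card_bo]; rfl
  have cBF : BF.card = (2 * h + 1) ^ (m + 1) := by rw [hBF, DO_card_bo, Fintype.card_fin]
  obtain ⟨CS, hCS⟩ : ∃ CS : Finset (Fin 3 → ℤ), CS = (Fintype.piFinset fun _ : Fin 3 => Icc (-(H : ℤ)) (H : ℤ)).filter
      fun v => v ≠ 0 ∧ ∃ p : ℕ, p.Prime ∧ z < p ∧ ∀ i, (p : ℤ) ∣ v i := ⟨_, rfl⟩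
  have cCS : (CS.card : ℝ) * z ≤ 27 * (H : ℝ) ^ 3 := by
    have h1 := content H z hz
    have h2 : Nat.card {v : Fin 3 → ℤ // v ≠ 0 ∧ (∀ i, |v i| ≤ (H : ℤ)) ∧
        ∃ p : ℕ, p.Prime ∧ z < p ∧ ∀ i, (p : ℤ) ∣ v i} = CS.card := by
      refine Nat.subtype_card CS fun v => ?_
      rw [hCS, Finset.mem_filter, Fintype.mem_piFinset]
      have h3 : (∀ i, v i ∈ Icc (-(H : ℤ)) (H : ℤ)) ↔ ∀ i, |v i| ≤ (H : ℤ) :=
        forall_congr' fun i => by rw [Finset.mem_Icc, abs_le]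
      rw [h3]
      tauto
    rw [h2] at h1
    exact h1
  obtain ⟨P, hP⟩ : ∃ P : (Fin 2 × Fin 3 → ℤ) × (Fin (m + 1) → ℤ) → Fin 2 → Prop, P = fun x j =>
      RT (fun i j => x.1 (i, j)) x.2 ≠ 0 ∧ om (RT (fun i j => x.1 (i, j)) x.2) ≤ w ∧
      ∃ p : ℕ, p.Prime ∧ z < p ∧ p ∣ NN (fun l => x.1 (j, l)) (fun l => x.1 (1 - j, l)) ∧
        (p : ℤ) ∣ rf (fun l => x.1 (j, l)) x.2 ∧ ∃ l, ¬ (p : ℤ) ∣ x.1 (j, l) := ⟨_, rfl⟩
  obtain ⟨A, hA⟩ : ∃ A : Fin 2 → Finset ((Fin 2 × Fin 3 → ℤ) × (Fin (m + 1) → ℤ)), A = fun j =>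
      (BQ ×ˢ BF).filter fun x => (fun l => x.1 (j, l)) ∈ CS := ⟨_, rfl⟩
  obtain ⟨B, hB⟩ : ∃ B : Fin 2 → Finset ((Fin 2 × Fin 3 → ℤ) × (Fin (m + 1) → ℤ)), B = fun j =>
      (BQ ×ˢ BF).filter fun x => P x j := ⟨_, rfl⟩
  have hHk1 : (1 : ℝ) ≤ (H : ℝ) ^ k := one_le_pow₀ hH'
  have hpw : (H : ℝ) ^ (6 + k * (m + 1)) = (H : ℝ) ^ 6 * ((H : ℝ) ^ k) ^ (m + 1) := by
    rw [pow_add, pow_mul]
  have hAc : ∀ j, (((A j).card : ℕ) : ℝ) * z ≤ 729 * 40 ^ (m + 1) * (H : ℝ) ^ (6 + k * (m + 1)) := by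
    intro j
    have h1 : (A j).card ≤ CS.card * ((2 * H + 1) ^ 3 * (2 * h + 1) ^ (m + 1)) := by
      have h2 : (CS ×ˢ ((Fintype.piFinset fun _ : Fin 3 => Icc (-(H : ℤ)) (H : ℤ)) ×ˢ BF)).card =
          CS.card * ((2 * H + 1) ^ 3 * (2 * h + 1) ^ (m + 1)) := by
        rw [Finset.card_product, Finset.card_product, DO_card_bo, Fintype.card_fin, cBF]
      rw [← h2]
      refine Finset.card_le_card_of_injOn (fun x => ((fun l => x.1 (j, l)), ((fun l => x.1 (1 - j, l)), x.2))) ?_ ?_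
      · intro x hx
        rw [Finset.mem_coe, hA, Finset.mem_filter, Finset.mem_product] at hx
        obtain ⟨⟨hx1, hx2⟩, hx3⟩ := hx
        rw [Finset.mem_coe, Finset.mem_product, Finset.mem_product]
        refine ⟨hx3, ?_, hx2⟩
        rw [Fintype.mem_piFinset]
        intro i
        rw [Finset.mem_Icc, ← abs_le]
        exact (mBQ _).1 hx1 _
      · intro x _ y _ hxy
        simp only [Prod.mk.injEq] at hxy
        obtain ⟨e1, e2, e3⟩ := hxy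
        refine Prod.ext ?_ e3
        funext il
        obtain ⟨i, l⟩ := il
        have hij : i = j ∨ i = 1 - j := DO_fin2 i j
        rcases hij with rfl | rfl
        · exact congrFun e1 l
        · exact congrFun e2 l
    have h2 : ((A j).card : ℝ) ≤ CS.card * ((2 * (H : ℝ) + 1) ^ 3 * (2 * (h : ℝ) + 1) ^ (m + 1)) := by exact_mod_cast h1
    have h3 : (2 * (H : ℝ) + 1) ^ 3 ≤ 27 * (H : ℝ) ^ 3 := by
      calc (2 * (H : ℝ) + 1) ^ 3 ≤ (3 * (H : ℝ)) ^ 3 := pow_le_pow_left₀ (by positivity) (by linarith) 3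
        _ = 27 * (H : ℝ) ^ 3 := by ring
    have h4 : (2 * (h : ℝ) + 1) ^ (m + 1) ≤ 40 ^ (m + 1) * ((H : ℝ) ^ k) ^ (m + 1) := by
      rw [← mul_pow, hhR]
      exact pow_le_pow_left₀ (by positivity) (by linarith) _
    have h5 : (0 : ℝ) ≤ CS.card := by positivity
    calc ((A j).card : ℝ) * z ≤ CS.card * ((2 * (H : ℝ) + 1) ^ 3 * (2 * (h : ℝ) + 1) ^ (m + 1)) * z :=
          mul_le_mul_of_nonneg_right h2 hz'.le
      _ = (CS.card * z) * ((2 * (H : ℝ) + 1) ^ 3 * (2 * (h : ℝ) + 1) ^ (m + 1)) := by ring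
      _ ≤ (27 * (H : ℝ) ^ 3) * ((27 * (H : ℝ) ^ 3) * (40 ^ (m + 1) * ((H : ℝ) ^ k) ^ (m + 1))) :=
          mul_le_mul cCS (mul_le_mul h3 h4 (by positivity) (by positivity)) (by positivity) (by positivity)
      _ = 729 * 40 ^ (m + 1) * (H : ℝ) ^ (6 + k * (m + 1)) := by rw [hpw]; ring
  have hBc : ∀ j, (((B j).card : ℕ) : ℝ) * z ≤ 1458 * 40 ^ (m + 1) * (H : ℝ) ^ (6 + k * (m + 1)) * w := by
    intro j
    have h1 : (B j).card = ∑ q ∈ BQ, (BF.filter fun F => P (q, F) j).card := by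
      rw [hB]
      rw [Finset.card_filter, Finset.sum_product]
      refine Finset.sum_congr rfl fun q _ => ?_
      rw [Finset.card_filter]
    have h2 : ∀ q ∈ BQ, ((BF.filter fun F => P (q, F) j).card : ℝ) * z ≤
        w * (2 * (4 * ((10 * H ^ k : ℕ) : ℝ)) ^ (m + 1)) := by
      intro q hq
      refine DO_fib hm hk hH q ((mBQ q).1 hq) j _ ?_
      intro F hF
      rw [Finset.mem_filter, hP] at hF
      obtain ⟨hF1, hF2, hF3, hF4⟩ := hF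
      refine ⟨?_, hF2, hF3, hF4⟩
      rw [← hh]
      exact (mBF F).1 hF1
    have h3 : ((B j).card : ℝ) * z ≤ (BQ.card : ℝ) * (w * (2 * (4 * ((10 * H ^ k : ℕ) : ℝ)) ^ (m + 1))) := by
      rw [h1, Nat.cast_sum, Finset.sum_mul]
      refine le_trans (Finset.sum_le_sum h2) ?_
      rw [Finset.sum_const, nsmul_eq_mul]
    refine le_trans h3 ?_
    rw [← hh, cBQ]
    have h4 : (((2 * H + 1) ^ 6 : ℕ) : ℝ) ≤ 729 * (H : ℝ) ^ 6 := by
      push_cast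
      calc (2 * (H : ℝ) + 1) ^ 6 ≤ (3 * (H : ℝ)) ^ 6 := pow_le_pow_left₀ (by positivity) (by linarith) 6
        _ = 729 * (H : ℝ) ^ 6 := by ring
    have h5 : 2 * (4 * (h : ℝ)) ^ (m + 1) = 2 * (40 ^ (m + 1) * ((H : ℝ) ^ k) ^ (m + 1)) := by
      rw [← mul_pow, hhR, ← mul_assoc]
      norm_num
    rw [h5]
    calc (((2 * H + 1) ^ 6 : ℕ) : ℝ) * (w * (2 * (40 ^ (m + 1) * ((H : ℝ) ^ k) ^ (m + 1)))) ≤
          (729 * (H : ℝ) ^ 6) * (w * (2 * (40 ^ (m + 1) * ((H : ℝ) ^ k) ^ (m + 1)))) :=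
          mul_le_mul_of_nonneg_right h4 (by positivity)
      _ = 1458 * 40 ^ (m + 1) * (H : ℝ) ^ (6 + k * (m + 1)) * w := by rw [hpw]; ring
  have hX : Nat.card {x : (Fin 2 × Fin 3 → ℤ) × (Fin (m + 1) → ℤ) // (∀ i, |x.1 i| ≤ (H : ℤ)) ∧
      (∀ i, |x.2 i| ≤ 10 * (H : ℤ) ^ k) ∧
      RT (fun i j => x.1 (i, j)) x.2 ≠ 0 ∧ om (RT (fun i j => x.1 (i, j)) x.2) ≤ w ∧
      ∃ (j : Fin 2) (p : ℕ), p.Prime ∧ z < p ∧ p ∣ NN (fun l => x.1 (j, l)) (fun l => x.1 (1 - j, l)) ∧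
        (p : ℤ) ∣ rf (fun l => x.1 (j, l)) x.2} ≤ ∑ j : Fin 2, ((A j).card + (B j).card) := by
    have h1 : {x : (Fin 2 × Fin 3 → ℤ) × (Fin (m + 1) → ℤ) | (∀ i, |x.1 i| ≤ (H : ℤ)) ∧
        (∀ i, |x.2 i| ≤ 10 * (H : ℤ) ^ k) ∧
        RT (fun i j => x.1 (i, j)) x.2 ≠ 0 ∧ om (RT (fun i j => x.1 (i, j)) x.2) ≤ w ∧
        ∃ (j : Fin 2) (p : ℕ), p.Prime ∧ z < p ∧ p ∣ NN (fun l => x.1 (j, l)) (fun l => x.1 (1 - j, l)) ∧
          (p : ℤ) ∣ rf (fun l => x.1 (j, l)) x.2} ⊆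
        (((Finset.univ : Finset (Fin 2)).biUnion fun j => A j ∪ B j : Finset _) : Set _) := by
      rintro x ⟨hx1, hx2, hx3, hx4, j, p, hp, hzp, hpN, hpr⟩
      rw [Finset.mem_coe, Finset.mem_biUnion]
      refine ⟨j, Finset.mem_univ _, ?_⟩
      have hxb : x ∈ BQ ×ˢ BF := by
        rw [Finset.mem_product]
        refine ⟨(mBQ _).2 hx1, (mBF _).2 fun i => ?_⟩
        rw [hhZ]
        exact hx2 i
      rw [Finset.mem_union]
      by_cases hl : ∃ l, ¬ (p : ℤ) ∣ x.1 (j, l)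
      · right
        rw [hB]
        rw [Finset.mem_filter, hP]
        exact ⟨hxb, hx3, hx4, p, hp, hzp, hpN, hpr, hl⟩
      · left
        push Not at hl
        rw [hA]
        rw [Finset.mem_filter]
        refine ⟨hxb, ?_⟩
        rw [hCS, Finset.mem_filter, Fintype.mem_piFinset]
        refine ⟨fun i => ?_, ?_, p, hp, hzp, hl⟩
        · rw [Finset.mem_Icc, ← abs_le]
          exact hx1 _
        · intro h0
          apply hx3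
          have hd : dq (fun l => x.1 (j, l)) = 0 := by
            unfold dq
            have e0 : x.1 (j, 0) = 0 := congrFun h0 0
            have e1 : x.1 (j, 1) = 0 := congrFun h0 1
            show x.1 (j, 1) ^ 2 - 4 * (x.1 (j, 0) * x.1 (j, 2)) = 0
            rw [e0, e1]
            ring
          unfold RT
          have hpd : ∏ i, dq ((fun i j => x.1 (i, j)) i) = 0 := Finset.prod_eq_zero (Finset.mem_univ j) hd
          rw [hpd]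
          ring
    have h2 := Set.ncard_le_ncard h1 (Finset.finite_toSet _)
    rw [Set.ncard_coe_finset] at h2
    refine le_trans h2 (le_trans Finset.card_biUnion_le ?_)
    exact Finset.sum_le_sum fun j _ => Finset.card_union_le _ _
  have hXR : (Nat.card {x : (Fin 2 × Fin 3 → ℤ) × (Fin (m + 1) → ℤ) // (∀ i, |x.1 i| ≤ (H : ℤ)) ∧
      (∀ i, |x.2 i| ≤ 10 * (H : ℤ) ^ k) ∧
      RT (fun i j => x.1 (i, j)) x.2 ≠ 0 ∧ om (RT (fun i j => x.1 (i, j)) x.2) ≤ w ∧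
      ∃ (j : Fin 2) (p : ℕ), p.Prime ∧ z < p ∧ p ∣ NN (fun l => x.1 (j, l)) (fun l => x.1 (1 - j, l)) ∧
        (p : ℤ) ∣ rf (fun l => x.1 (j, l)) x.2} : ℝ) ≤
      (((A 0).card : ℝ) + (B 0).card) + (((A 1).card : ℝ) + (B 1).card) := by
    rw [Fin.sum_univ_two] at hX
    exact_mod_cast hX
  rw [← mul_div_assoc, le_div_iff₀ hz']
  refine le_trans (mul_le_mul_of_nonneg_right hXR hz'.le) ?_
  have a0 := hAc 0
  have a1 := hAc 1
  have b0 := hBc 0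
  have b1 := hBc 1
  have hpos : (0 : ℝ) ≤ 40 ^ (m + 1) * (H : ℝ) ^ (6 + k * (m + 1)) := by positivity
  have hw0 : (0 : ℝ) ≤ w := by positivity
  nlinarith [mul_nonneg hpos hw0]

end HT
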