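import Pool.Agent.Lib.MP_10e784_agHT.DDefs
import Pool.Agent.Lib.MP_10e784_agBS.S3
import Pool.Agent.Lib.MP_10e784_agH.SH

/-!
# LEAF DP: the average over the quadratic forms for fixed `D` and the union over small `D` (page, 3.2)

PROOF of `sum_D`: `MODEL HY_SH.lean` (`HY.sum_q`), with `S' = S.filter (¬ (p : ℤ) ∣ D)`: `nU S U q D` is the number of `p ∈ S'` with `gd p U D (cr p q)` (`gd` contains `D ≠ 0`); `box_crt` with `ι = Fin 2 × Fin 3`, `g p = 1 - γ/5`.  `#(S \ S') ≤ Nat.log 2 |D|` (distinct primes dividing `D ≠ 0`).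
PROOF of `few_q`.  `1 ≤ (5/4)^T (4/5)^(nU)` if `nU < T`; sum over `q`.
PROOF of `small_D`.  Union over `D` with `0 < |D| ≤ D₀` (`2 D₀` values), `Nat.log 2 |D| ≤ Nat.log 2 D₀`.
-/

set_option autoImplicit false

namespace HT

open Finset Polynomial MWS HY

open Classical in
private theorem DP_sum {α : Type} [Fintype α] (G : α → Prop) :
    ∑ b : α, (if G b then (4 / 5 : ℝ) else 1) = (Fintype.card α : ℝ) - 1 / 5 * (Nat.card {b // G b} : ℝ) := by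
  have h2 : ∀ z : α, (if G z then (4 / 5 : ℝ) else 1) = 1 - 1 / 5 * (if G z then 1 else 0) := by
    intro z
    split_ifs <;> norm_num
  rw [Finset.sum_congr rfl fun z _ => h2 z, Finset.sum_sub_distrib, ← Finset.mul_sum, Finset.sum_boole]
  have h3 : Nat.card {b // G b} = (univ.filter fun z : α => G z).card := by
    rw [Nat.card_eq_fintype_card, Fintype.card_subtype]
  rw [h3]
  simp

open Classical in
private theorem DP_main (S : Finset ℕ) (hS : ∀ p ∈ S, p.Prime) {H U : ℕ} (hq : ∏ p ∈ S, p ≤ H) {γ : ℝ}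
    (D : ℤ) (hd : ∀ p ∈ S, γ * (p : ℝ) ^ 6 ≤
      (Nat.card {v : Fin 2 × Fin 3 → ZMod p // gd p U ((D : ℤ) : ZMod p) (fun i j => v (i, j))} : ℝ)) :
    ∑ q ∈ bo (ι := Fin 2 × Fin 3) H, (4 / 5 : ℝ) ^ nU S U (fun i j => q (i, j)) D ≤
      (4 * (H : ℝ)) ^ 6 * Real.exp (-(1 / 5 * ∑ _p ∈ S, γ)) := by
  let f : (p : ℕ) → (Fin 2 × Fin 3 → ZMod p) → ℝ := fun p b =>
    if gd p U ((D : ℤ) : ZMod p) (fun i j => b (i, j)) then 4 / 5 else 1
  have hf0 : ∀ p b, 0 ≤ f p b := by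
    intro p b
    show 0 ≤ if gd p U ((D : ℤ) : ZMod p) (fun i j => b (i, j)) then (4 / 5 : ℝ) else 1
    split_ifs <;> norm_num
  have hg : ∀ p ∈ S, ∀ [NeZero p], ∑ b : Fin 2 × Fin 3 → ZMod p, f p b ≤
      (1 - 1 / 5 * γ) * (p : ℝ) ^ Fintype.card (Fin 2 × Fin 3) := by
    intro p hp _
    have e1 : ∑ b : Fin 2 × Fin 3 → ZMod p, f p b = (Fintype.card (Fin 2 × Fin 3 → ZMod p) : ℝ) -
        1 / 5 * (Nat.card {v : Fin 2 × Fin 3 → ZMod p // gd p U ((D : ℤ) : ZMod p) (fun i j => v (i, j))} : ℝ) :=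
      DP_sum fun b : Fin 2 × Fin 3 → ZMod p => gd p U ((D : ℤ) : ZMod p) (fun i j => b (i, j))
    have e2 : (Fintype.card (Fin 2 × Fin 3 → ZMod p) : ℝ) = (p : ℝ) ^ 6 := by
      rw [Fintype.card_fun, ZMod.card, Fintype.card_prod, Fintype.card_fin, Fintype.card_fin]
      push_cast
      norm_num
    have e3 : Fintype.card (Fin 2 × Fin 3) = 6 := by
      rw [Fintype.card_prod, Fintype.card_fin, Fintype.card_fin]
    rw [e1, e2, e3]
    have := hd p hp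
    linarith
  have key := box_crt S hS (fun _ : Fin 2 × Fin 3 => H) (fun _ => hq) f hf0 (fun _ => 1 - 1 / 5 * γ) hg
  have e2 : ∏ _i : Fin 2 × Fin 3, (4 * (H : ℝ)) = (4 * (H : ℝ)) ^ 6 := by
    rw [Finset.prod_const, Finset.card_univ, Fintype.card_prod, Fintype.card_fin, Fintype.card_fin]
  have hnn : ∀ p ∈ S, 0 ≤ 1 - 1 / 5 * γ := by
    intro p hp
    have : NeZero p := ⟨(hS p hp).ne_zero⟩
    have h2 := hg p hp
    have h3 : 0 ≤ ∑ b : Fin 2 × Fin 3 → ZMod p, f p b := Finset.sum_nonneg fun b _ => hf0 p b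
    have h4 : (0 : ℝ) < (p : ℝ) ^ Fintype.card (Fin 2 × Fin 3) := by
      have : (0 : ℝ) < p := by exact_mod_cast (hS p hp).pos
      positivity
    by_contra hcon
    push Not at hcon
    have := mul_neg_of_neg_of_pos hcon h4
    linarith
  have e3 : ∏ _p ∈ S, (1 - 1 / 5 * γ) ≤ Real.exp (-(1 / 5 * ∑ _p ∈ S, γ)) := by
    rw [Finset.mul_sum, ← Finset.sum_neg_distrib, Real.exp_sum]
    refine Finset.prod_le_prod hnn fun _ _ => ?_
    have := Real.add_one_le_exp (-(1 / 5 * γ))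
    linarith
  have e4 : ∑ q ∈ bo (ι := Fin 2 × Fin 3) H, (4 / 5 : ℝ) ^ nU S U (fun i j => q (i, j)) D =
      ∑ c ∈ Fintype.piFinset (fun _ : Fin 2 × Fin 3 => Icc (-(H : ℤ)) (H : ℤ)),
        ∏ p ∈ S, f p (fun i => ((c i : ℤ) : ZMod p)) := by
    refine Finset.sum_congr rfl fun c _ => ?_
    show _ = ∏ p ∈ S, if gd p U ((D : ℤ) : ZMod p) (cr p (fun i j => c (i, j))) then (4 / 5 : ℝ) else 1
    rw [Finset.prod_ite, Finset.prod_const_one, mul_one, Finset.prod_const]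
    rfl
  rw [e4]
  refine key.trans ?_
  rw [e2]
  exact mul_le_mul_of_nonneg_left e3 (by positivity)

theorem sum_D (S : Finset ℕ) (hS : ∀ p ∈ S, p.Prime) {H U : ℕ} (hq : ∏ p ∈ S, p ≤ H) {γ : ℝ} (hγ : 0 ≤ γ)
    (hd : ∀ p ∈ S, ∀ D : ZMod p, D ≠ 0 → γ * (p : ℝ) ^ 6 ≤
      (Nat.card {v : Fin 2 × Fin 3 → ZMod p // gd p U D (fun i j => v (i, j))} : ℝ)) (D : ℤ) (hD : D ≠ 0) :
    ∑ q ∈ bo (ι := Fin 2 × Fin 3) H, (4 / 5 : ℝ) ^ nU S U (fun i j => q (i, j)) D ≤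
      (4 * (H : ℝ)) ^ 6 * Real.exp (-(γ / 5 * ((S.card : ℝ) - Nat.log 2 D.natAbs))) := by
  classical
  have hne : ∀ p : ℕ, ¬ (p : ℤ) ∣ D → ((D : ℤ) : ZMod p) ≠ 0 := fun p h h0 =>
    h ((ZMod.intCast_zmod_eq_zero_iff_dvd _ _).1 h0)
  have hsub : S.filter (fun p : ℕ => ¬ (p : ℤ) ∣ D) ⊆ S := filter_subset _ _
  have hq' : (∏ p ∈ S.filter (fun p : ℕ => ¬ (p : ℤ) ∣ D), p : ℕ) ≤ H := by
    refine le_trans (Nat.le_of_dvd (prod_pos fun p hp => (hS p hp).pos) ?_) hq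
    exact prod_dvd_prod_of_subset _ _ _ hsub
  have h1 := DP_main (S.filter fun p : ℕ => ¬ (p : ℤ) ∣ D) (fun p hp => hS p (hsub hp)) (U := U) hq' (γ := γ) D
    fun p hp => hd p (hsub hp) _ (hne p (mem_filter.1 hp).2)
  have h2 : ∀ q : Fin 2 → Fin 3 → ℤ, nU (S.filter fun p : ℕ => ¬ (p : ℤ) ∣ D) U q D = nU S U q D := by
    intro q
    unfold nU
    rw [filter_filter]
    congr 1
    refine filter_congr fun p _ => ⟨fun h => h.2, fun h => ⟨fun h3 => ?_, h⟩⟩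
    exact h.1 ((ZMod.intCast_zmod_eq_zero_iff_dvd _ _).2 h3)
  rw [sum_congr rfl fun q _ => by rw [h2 (fun i j => q (i, j))]] at h1
  refine h1.trans (mul_le_mul_of_nonneg_left (Real.exp_le_exp.2 (neg_le_neg ?_)) (by positivity))
  have h3 : (S.card : ℝ) - Nat.log 2 D.natAbs ≤ ((S.filter fun p : ℕ => ¬ (p : ℤ) ∣ D).card : ℝ) := by
    have h4 := card_filter_add_card_filter_not (s := S) (fun p : ℕ => (p : ℤ) ∣ D)
    have h5 : (S.filter fun p : ℕ => (p : ℤ) ∣ D).card ≤ Nat.log 2 D.natAbs := by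
      refine Nat.le_log_of_pow_le (by norm_num) ?_
      calc 2 ^ (S.filter fun p : ℕ => (p : ℤ) ∣ D).card ≤ ∏ p ∈ S.filter (fun p : ℕ => (p : ℤ) ∣ D), p :=
            pow_card_le_prod _ _ _ fun p hp => (hS p (mem_filter.1 hp).1).two_le
        _ ≤ D.natAbs := by
            refine Nat.le_of_dvd (Int.natAbs_pos.2 hD) ?_
            exact prod_primes_dvd _ (fun p hp => (hS p (mem_filter.1 hp).1).prime)
              fun p hp => Int.natCast_dvd.1 (mem_filter.1 hp).2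
    have h6 : (S.card : ℝ) = ((S.filter fun p : ℕ => (p : ℤ) ∣ D).card : ℝ) + ((S.filter fun p : ℕ => ¬ (p : ℤ) ∣ D).card : ℝ) := by
      exact_mod_cast h4.symm
    have h7 : ((S.filter fun p : ℕ => (p : ℤ) ∣ D).card : ℝ) ≤ (Nat.log 2 D.natAbs : ℝ) := by exact_mod_cast h5
    linarith
  rw [sum_const, nsmul_eq_mul]
  calc γ / 5 * ((S.card : ℝ) - Nat.log 2 D.natAbs)
      ≤ γ / 5 * ((S.filter fun p : ℕ => ¬ (p : ℤ) ∣ D).card : ℝ) := mul_le_mul_of_nonneg_left h3 (by positivity)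
    _ = 1 / 5 * (((S.filter fun p : ℕ => ¬ (p : ℤ) ∣ D).card : ℝ) * γ) := by ring

theorem few_q (S : Finset ℕ) (hS : ∀ p ∈ S, p.Prime) {H U : ℕ} (hq : ∏ p ∈ S, p ≤ H) {γ : ℝ} (hγ : 0 ≤ γ)
    (hd : ∀ p ∈ S, ∀ D : ZMod p, D ≠ 0 → γ * (p : ℝ) ^ 6 ≤
      (Nat.card {v : Fin 2 × Fin 3 → ZMod p // gd p U D (fun i j => v (i, j))} : ℝ)) (D : ℤ) (hD : D ≠ 0) (T : ℕ) :
    (((bo (ι := Fin 2 × Fin 3) H).filter fun q => nU S U (fun i j => q (i, j)) D < T).card : ℝ) ≤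
      (5 / 4) ^ T * ((4 * (H : ℝ)) ^ 6 * Real.exp (-(γ / 5 * ((S.card : ℝ) - Nat.log 2 D.natAbs)))) := by
  refine le_trans ?_ (mul_le_mul_of_nonneg_left (sum_D S hS hq hγ hd D hD) (by positivity))
  rw [card_eq_sum_ones, Nat.cast_sum, mul_sum]
  refine (sum_le_sum fun q hq => ?_).trans (sum_le_sum_of_subset_of_nonneg (filter_subset _ _) fun q _ _ => by positivity)
  rw [Nat.cast_one]
  have h1 := (mem_filter.1 hq).2
  have h2 : (4 / 5 : ℝ) ^ T ≤ (4 / 5 : ℝ) ^ nU S U (fun i j => q (i, j)) D :=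
    pow_le_pow_of_le_one (by norm_num) (by norm_num) h1.le
  calc (1 : ℝ) = (5 / 4) ^ T * (4 / 5) ^ T := by
        rw [← mul_pow]
        norm_num
    _ ≤ (5 / 4) ^ T * (4 / 5) ^ nU S U (fun i j => q (i, j)) D := mul_le_mul_of_nonneg_left h2 (by positivity)

open Classical in
theorem small_D (S : Finset ℕ) (hS : ∀ p ∈ S, p.Prime) {H U : ℕ} (hq : ∏ p ∈ S, p ≤ H) {γ : ℝ} (hγ : 0 ≤ γ)
    (hd : ∀ p ∈ S, ∀ D : ZMod p, D ≠ 0 → γ * (p : ℝ) ^ 6 ≤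
      (Nat.card {v : Fin 2 × Fin 3 → ZMod p // gd p U D (fun i j => v (i, j))} : ℝ)) (D₀ : ℕ) (T : ℕ) :
    (((bo (ι := Fin 2 × Fin 3) H).filter fun q => ∃ D : ℤ, D ≠ 0 ∧ D.natAbs ≤ D₀ ∧
      nU S U (fun i j => q (i, j)) D < T).card : ℝ) ≤
      2 * D₀ * ((5 / 4) ^ T * ((4 * (H : ℝ)) ^ 6 * Real.exp (-(γ / 5 * ((S.card : ℝ) - Nat.log 2 D₀))))) := by
  have h1 : (bo (ι := Fin 2 × Fin 3) H).filter (fun q => ∃ D : ℤ, D ≠ 0 ∧ D.natAbs ≤ D₀ ∧
      nU S U (fun i j => q (i, j)) D < T) ⊆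
      ((Icc (-(D₀ : ℤ)) D₀).erase 0).biUnion fun D =>
        (bo (ι := Fin 2 × Fin 3) H).filter fun q => nU S U (fun i j => q (i, j)) D < T := by
    intro q hq
    obtain ⟨h2, D, h3, h4, h5⟩ := mem_filter.1 hq
    rw [mem_biUnion]
    refine ⟨D, mem_erase.2 ⟨h3, mem_Icc.2 ?_⟩, mem_filter.2 ⟨h2, h5⟩⟩
    have h6 : |D| ≤ (D₀ : ℤ) := by
      rw [Int.abs_eq_natAbs]
      exact_mod_cast h4
    exact abs_le.1 h6
  have h2 : (((bo (ι := Fin 2 × Fin 3) H).filter fun q => ∃ D : ℤ, D ≠ 0 ∧ D.natAbs ≤ D₀ ∧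
      nU S U (fun i j => q (i, j)) D < T).card : ℝ) ≤
      ∑ D ∈ (Icc (-(D₀ : ℤ)) D₀).erase 0,
        (((bo (ι := Fin 2 × Fin 3) H).filter fun q => nU S U (fun i j => q (i, j)) D < T).card : ℝ) := by
    exact_mod_cast (card_le_card h1).trans card_biUnion_le
  refine h2.trans ?_
  have h3 : ∀ D ∈ (Icc (-(D₀ : ℤ)) D₀).erase 0,
      (((bo (ι := Fin 2 × Fin 3) H).filter fun q => nU S U (fun i j => q (i, j)) D < T).card : ℝ) ≤
      (5 / 4) ^ T * ((4 * (H : ℝ)) ^ 6 * Real.exp (-(γ / 5 * ((S.card : ℝ) - Nat.log 2 D₀)))) := by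
    intro D hD
    obtain ⟨h4, h5⟩ := mem_erase.1 hD
    refine (few_q S hS hq hγ hd D h4 T).trans ?_
    refine mul_le_mul_of_nonneg_left (mul_le_mul_of_nonneg_left (Real.exp_le_exp.2 (neg_le_neg ?_)) (by positivity))
      (by positivity)
    refine mul_le_mul_of_nonneg_left (sub_le_sub_left ?_ _) (by positivity)
    have h6 : D.natAbs ≤ D₀ := by
      have h7 := mem_Icc.1 h5
      omega
    exact_mod_cast Nat.log_mono_right h6
  refine (sum_le_sum h3).trans ?_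
  rw [sum_const, nsmul_eq_mul]
  refine mul_le_mul_of_nonneg_right ?_ (by positivity)
  have h4 : ((Icc (-(D₀ : ℤ)) D₀).erase 0).card = 2 * D₀ := by
    rw [card_erase_of_mem (mem_Icc.2 ⟨by omega, by omega⟩), Int.card_Icc]
    omega
  rw [h4]
  push_cast
  exact le_rfl

end HT
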