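import Pool.Agent.Lib.MP_10e784_agHT.DM
import Pool.Agent.Lib.MP_10e784_agHT.DO
import Pool.Agent.Lib.MP_10e784_agHT.DP

/-!
# LEAF DQ: the bad pairs (page, 3 - 7)

PROOF of `gd_sq`.  `D = s²` modulo `p`, `s ≠ 0`: `D² Aq = s⁴ Aq`, `D³ Bq = s⁶ Bq` and `Gk p U 1` is invariant (`HY.nz_tw` in SE; the discriminant is multiplied by `s^12`).
PROOF of `split`.  `B₁ = X^(10 T)`.  Let `D = ± a b` be admissible, `nU S U q D < T`, `N_0 = NN (q 0) (q 1)`, `N_1 = NN (q 1) (q 0)`.  If `cop N_0 a ≤ B₁` and `cop N_1 b ≤ B₁`: `a = g cop N_0 a` (`cop_facts`), every prime of `g` divides `N_0` and `a ∣ rf (q 0) F`, so it is `≤ z` by `hG`, and `g` has at most `w` prime factors (they divide `RT ≠ 0`): `g ≤ z^w`; the same for `b`: `|D| ≤ (z^w B₁)²`: `Or.inl`.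
Otherwise say `B₁ < cop N_0 a` (`j = 0`): `c = ± b`, `c a = D`, `Ev`: `rf (q 0) F ≠ 0`, `om ≤ w` (divisors of `RT`), `#{p ∈ T' : nsq p (c a)} ≤ nU S U q D < T` by `gd_sq` (`T' ⊆ S`, `gd p U 1 (cr p q)`), so `Bj q 0 ..`; in the other case `B₁ < cop N_1 b`: `j = 1`, `1 - j = 0`, `c = ± a`.
-/

set_option autoImplicit false

namespace HT

open Finset Polynomial MWS HY

private theorem DQ_nz {p : ℕ} [Fact p.Prime] (s A B : ZMod p) (hs : s ≠ 0) : nz (s ^ 4 * A) (s ^ 6 * B) = nz A B := by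
  unfold nz
  refine Nat.card_congr (Equiv.subtypeEquiv (Equiv.prodCongr (Equiv.mulLeft₀ (s ^ 2) (pow_ne_zero 2 hs))
    (Equiv.mulLeft₀ (s ^ 3) (pow_ne_zero 3 hs))) fun z => ?_).symm
  show z.2 ^ 2 = z.1 ^ 3 + A * z.1 + B ↔ (s ^ 3 * z.2) ^ 2 = (s ^ 2 * z.1) ^ 3 + s ^ 4 * A * (s ^ 2 * z.1) + s ^ 6 * B
  have e : (s ^ 2 * z.1) ^ 3 + s ^ 4 * A * (s ^ 2 * z.1) + s ^ 6 * B = s ^ 6 * (z.1 ^ 3 + A * z.1 + B) := by ring
  have e2 : (s ^ 3 * z.2) ^ 2 = s ^ 6 * z.2 ^ 2 := by ring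
  rw [e, e2]
  exact ⟨fun h => by rw [h], fun h => mul_left_cancel₀ (pow_ne_zero 6 hs) h⟩

private theorem DQ_dsc {R : Type*} [CommRing R] (v w : Fin 3 → R) :
    4 * Aq v w ^ 3 + 27 * Bq v w ^ 2 = -(3 ^ 12 * 16) * ((dq v * dq w) ^ 2 * rq v w) := by
  unfold Aq Bq dq bq rq
  ring

private theorem DQ_dq (p : ℕ) (q : Fin 2 → Fin 3 → ℤ) (j : Fin 2) : dq (cr p q j) = ((dq (q j) : ℤ) : ZMod p) := by
  unfold dq cr
  push_cast
  ring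

private theorem DQ_rq (p : ℕ) (q : Fin 2 → Fin 3 → ℤ) : rq (cr p q 0) (cr p q 1) = ((rq (q 0) (q 1) : ℤ) : ZMod p) := by
  unfold rq cr
  push_cast
  ring

theorem gd_sq {p U : ℕ} (hp : p.Prime) (q : Fin 2 → Fin 3 → ℤ) (h : gd p U 1 (cr p q)) {D : ℤ} (hD : nsq p D) :
    gd p U ((D : ℤ) : ZMod p) (cr p q) := by
  have : Fact p.Prime := ⟨hp⟩
  obtain ⟨-, h1, h2, l, hl1, hl2, hl3, hl4⟩ := h
  obtain ⟨hD0, s, hs⟩ := hD
  have hs0 : s ≠ 0 := by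
    rintro rfl
    apply hD0
    rw [hs, mul_zero]
  refine ⟨hD0, h1, ?_, l, hl1, hl2, hl3, ?_⟩
  · show 4 * (((D : ℤ) : ZMod p) ^ 2 * Aq (cr p q 0) (cr p q 1)) ^ 3 +
      27 * (((D : ℤ) : ZMod p) ^ 3 * Bq (cr p q 0) (cr p q 1)) ^ 2 ≠ 0
    have h2' : 4 * ((1 : ZMod p) ^ 2 * Aq (cr p q 0) (cr p q 1)) ^ 3 +
      27 * ((1 : ZMod p) ^ 3 * Bq (cr p q 0) (cr p q 1)) ^ 2 ≠ 0 := h2
    have e : 4 * (((D : ℤ) : ZMod p) ^ 2 * Aq (cr p q 0) (cr p q 1)) ^ 3 +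
      27 * (((D : ℤ) : ZMod p) ^ 3 * Bq (cr p q 0) (cr p q 1)) ^ 2 = ((D : ℤ) : ZMod p) ^ 6 *
      (4 * ((1 : ZMod p) ^ 2 * Aq (cr p q 0) (cr p q 1)) ^ 3 +
      27 * ((1 : ZMod p) ^ 3 * Bq (cr p q 0) (cr p q 1)) ^ 2) := by ring
    rw [e]
    exact mul_ne_zero (pow_ne_zero 6 hD0) h2'
  · show l ^ 1 ∣ nz (((D : ℤ) : ZMod p) ^ 2 * Aq (cr p q 0) (cr p q 1)) (((D : ℤ) : ZMod p) ^ 3 * Bq (cr p q 0) (cr p q 1)) + 1
    have h3 : l ^ 1 ∣ nz ((1 : ZMod p) ^ 2 * Aq (cr p q 0) (cr p q 1)) ((1 : ZMod p) ^ 3 * Bq (cr p q 0) (cr p q 1)) + 1 := hl4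
    rw [one_pow, one_pow, one_mul, one_mul] at h3
    have e1 : ((D : ℤ) : ZMod p) ^ 2 = s ^ 4 := by rw [hs]; ring
    have e2 : ((D : ℤ) : ZMod p) ^ 3 = s ^ 6 := by rw [hs]; ring
    rw [e1, e2, DQ_nz s _ _ hs0]
    exact h3

/-- the primes of `T'` satisfy the hypotheses of `bad_fix` -/
theorem gd_one {p U : ℕ} (hp : p.Prime) (hp3 : 5 ≤ p) (q : Fin 2 → Fin 3 → ℤ) (h : gd p U 1 (cr p q)) (j : Fin 2) :
    ¬ IsSquare ((dq (q j) : ℤ) : ZMod p) ∧ ((rq (q 0) (q 1) : ℤ) : ZMod p) ≠ 0 := by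
  obtain ⟨-, h1, h2, -⟩ := h
  refine ⟨?_, ?_⟩
  · rw [← DQ_dq]
    exact h1 j
  · rw [← DQ_rq]
    intro h0
    have h2' : 4 * ((1 : ZMod p) ^ 2 * Aq (cr p q 0) (cr p q 1)) ^ 3 +
      27 * ((1 : ZMod p) ^ 3 * Bq (cr p q 0) (cr p q 1)) ^ 2 ≠ 0 := h2
    apply h2'
    rw [one_pow, one_pow, one_mul, one_mul, DQ_dsc, h0, mul_zero, mul_zero]

private theorem DQ_om {x y : ℤ} (h : x ∣ y) (hy : y ≠ 0) : om x ≤ om y := by
  unfold om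
  exact Finset.card_le_card (Nat.primeFactors_mono (Int.natAbs_dvd_natAbs.2 h) (Int.natAbs_ne_zero.2 hy))

private theorem DQ_rf {m : ℕ} (q : Fin 2 → Fin 3 → ℤ) (F : Fin (m + 1) → ℤ) (j : Fin 2) : rf (q j) F ∣ RT q F := by
  unfold RT
  exact Dvd.dvd.mul_left (Finset.dvd_prod_of_mem (fun i => rf (q i) F) (mem_univ j)) _

private theorem DQ_NN {m : ℕ} {q : Fin 2 → Fin 3 → ℤ} {F : Fin (m + 1) → ℤ} (hR : RT q F ≠ 0) (j : Fin 2) :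
    NN (q j) (q (1 - j)) ≠ 0 := by
  unfold RT at hR
  have h1 := left_ne_zero_of_mul hR
  have h2 := right_ne_zero_of_mul h1
  have h3 := right_ne_zero_of_mul (left_ne_zero_of_mul h1)
  rw [Fin.prod_univ_two] at h2
  unfold NN
  rw [Int.natAbs_ne_zero]
  have e : rq (q 1) (q 0) = rq (q 0) (q 1) := by
    unfold rq
    ring
  fin_cases j
  · show (q 0) 2 * rq (q 0) (q 1) ≠ 0
    exact mul_ne_zero (left_ne_zero_of_mul h2) h3
  · show (q 1) 2 * rq (q 1) (q 0) ≠ 0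
    rw [e]
    exact mul_ne_zero (right_ne_zero_of_mul h2) h3

private theorem DQ_le {m : ℕ} {w z B₁ : ℕ} (hz : 1 ≤ z)
    (q : Fin 2 → Fin 3 → ℤ) (F : Fin (m + 1) → ℤ) (hR : RT q F ≠ 0) (hw : om (RT q F) ≤ w)
    (hG : ∀ (j : Fin 2) (p : ℕ), p.Prime → p ∣ NN (q j) (q (1 - j)) → (p : ℤ) ∣ rf (q j) F → p ≤ z)
    (j : Fin 2) {a : ℕ} (ha : Squarefree a) (hd : (a : ℤ) ∣ rf (q j) F) (hB : cop (NN (q j) (q (1 - j))) a ≤ B₁) :
    a ≤ z ^ w * B₁ := by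
  obtain ⟨g, hg1, hg2, -, -, -, hg3⟩ := cop_facts (DQ_NN hR j) ha
  have hga : g ∣ a := ⟨_, hg1⟩
  have hg : g ≤ z ^ w := by
    have h1 : g = ∏ p ∈ g.primeFactors, p := (Nat.prod_primeFactors_of_squarefree hg2).symm
    have h2 : ∏ p ∈ g.primeFactors, p ≤ z ^ g.primeFactors.card := by
      refine Finset.prod_le_pow_card _ _ _ fun p hp => ?_
      have hpp := Nat.prime_of_mem_primeFactors hp
      obtain ⟨h3, h4⟩ := hg3 p hpp (Nat.dvd_of_mem_primeFactors hp)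
      exact hG j p hpp h4 ((Int.natCast_dvd_natCast.2 h3).trans hd)
    have h3 : g.primeFactors.card ≤ w := by
      have h4 : (g : ℤ) ∣ RT q F := ((Int.natCast_dvd_natCast.2 hga).trans hd).trans (DQ_rf q F j)
      have h5 := DQ_om h4 hR
      have h6 : om (g : ℤ) = g.primeFactors.card := rfl
      omega
    calc g = ∏ p ∈ g.primeFactors, p := h1
      _ ≤ z ^ g.primeFactors.card := h2
      _ ≤ z ^ w := Nat.pow_le_pow_right hz h3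
  rw [hg1]
  exact Nat.mul_le_mul hg hB

private theorem DQ_bj {m : ℕ} (S : Finset ℕ) (hS : ∀ p ∈ S, p.Prime ∧ 29 ≤ p) {U T w B₁ : ℕ}
    (q : Fin 2 → Fin 3 → ℤ) (F : Fin (m + 1) → ℤ) (hR : RT q F ≠ 0) (hw : om (RT q F) ≤ w)
    (T' : Finset ℕ) (hT' : T' ⊆ S) (hT1 : ∀ p ∈ T', gd p U 1 (cr p q)) {D : ℤ}
    (hn : nU S U q D < T) (j : Fin 2) {a : ℕ} (ha : Squarefree a) (hd : (a : ℤ) ∣ rf (q j) F)
    (hB : B₁ < cop (NN (q j) (q (1 - j))) a) {c : ℤ} (hc : Squarefree c.natAbs) (hc1 : c ∣ rf (q (1 - j)) F)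
    (hD : c * a = D) : Bj q j T' T w B₁ F := by
  refine ⟨hR, hw, c, hc, hc1, fun h => hR ?_, (DQ_om (DQ_rf q F j) hR).trans hw, a, ha, hd, hB, ?_⟩
  · have h1 := DQ_rf q F j
    rw [h] at h1
    exact zero_dvd_iff.1 h1
  · classical
    refine lt_of_le_of_lt (Finset.card_le_card fun p hp => ?_) hn
    have hp1 := (Finset.mem_filter.1 hp).1
    have hp2 : nsq p (c * a) := (Finset.mem_filter.1 hp).2
    refine Finset.mem_filter.2 ⟨hT' hp1, gd_sq (hS p (hT' hp1)).1 q (hT1 p hp1) ?_⟩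
    rw [← hD]
    exact hp2

theorem split {m : ℕ} (S : Finset ℕ) (hS : ∀ p ∈ S, p.Prime ∧ 29 ≤ p) {U T w z B₁ : ℕ} (hz : 1 ≤ z)
    (q : Fin 2 → Fin 3 → ℤ) (F : Fin (m + 1) → ℤ) (hR : RT q F ≠ 0) (hw : om (RT q F) ≤ w)
    (hG : ∀ (j : Fin 2) (p : ℕ), p.Prime → p ∣ NN (q j) (q (1 - j)) → (p : ℤ) ∣ rf (q j) F → p ≤ z)
    (T' : Finset ℕ) (hT' : T' ⊆ S) (hT1 : ∀ p ∈ T', gd p U 1 (cr p q)) {D : ℤ} (hD : Adm q F D)
    (hn : nU S U q D < T) :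
    (D ≠ 0 ∧ D.natAbs ≤ (z ^ w * B₁) ^ 2) ∨ ∃ j, Bj q j T' T w B₁ F := by
  obtain ⟨a, b, ha, hb, hda, hdb, hDD⟩ := hD
  have hrw : ∀ n : ℕ, (-(n : ℤ)).natAbs = n := fun n => by rw [Int.natAbs_neg, Int.natAbs_natCast]
  by_cases h0 : cop (NN (q 0) (q (1 - 0))) a ≤ B₁
  · by_cases h1 : cop (NN (q 1) (q (1 - 1))) b ≤ B₁
    · left
      have ha' := DQ_le hz q F hR hw hG 0 ha hda h0
      have hb' := DQ_le hz q F hR hw hG 1 hb hdb h1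
      have hab : D.natAbs = a * b := by
        rcases hDD with h | h
        · rw [h, Int.natAbs_mul, Int.natAbs_natCast, Int.natAbs_natCast]
        · rw [h, Int.natAbs_neg, Int.natAbs_mul, Int.natAbs_natCast, Int.natAbs_natCast]
      refine ⟨?_, ?_⟩
      · rw [← Int.natAbs_ne_zero, hab]
        exact mul_ne_zero ha.ne_zero hb.ne_zero
      · rw [hab, sq]
        exact Nat.mul_le_mul ha' hb'
    · right
      push Not at h1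
      refine ⟨1, ?_⟩
      rcases hDD with h | h
      · refine DQ_bj S hS q F hR hw T' hT' hT1 hn 1 hb hdb h1 (c := (a : ℤ)) ?_ hda ?_
        · rw [Int.natAbs_natCast]
          exact ha
        · rw [h]
      · refine DQ_bj S hS q F hR hw T' hT' hT1 hn 1 hb hdb h1 (c := -(a : ℤ)) ?_ ((neg_dvd).2 hda) ?_
        · rw [hrw]
          exact ha
        · rw [h, neg_mul]
  · right
    push Not at h0
    refine ⟨0, ?_⟩
    rcases hDD with h | h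
    · refine DQ_bj S hS q F hR hw T' hT' hT1 hn 0 ha hda h0 (c := (b : ℤ)) ?_ hdb ?_
      · rw [Int.natAbs_natCast]
        exact hb
      · rw [h, mul_comm]
    · refine DQ_bj S hS q F hR hw T' hT' hT1 hn 0 ha hda h0 (c := -(b : ℤ)) ?_ ((neg_dvd).2 hdb) ?_
      · rw [hrw]
        exact hb
      · rw [h, neg_mul, mul_comm]

end HT
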