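import Pool.Agent.Lib.MP_10e784_agHT.DQ

/-!
# LEAF DR: the count of the bad pairs

PROOF.  `B₁ = X^(10 T)`, `D₀ = (z^w B₁)²`.  A pair `(q, F)` of the set belongs to one of: (G) the set of `cond_G`; (1) `nU S U q 1 < 10 T` (`few_q` with `D = 1`, `Nat.log 2 1 = 0`), any `F`; (2) `q` in the set of `small_D`, any `F`; (3) `nU S U q 1 ≥ 10 T` and `Bj q j T'(q) T w B₁ F` for some `j`, where `T'(q) ⊆ {p ∈ S : gd p U 1 (cr p q)}` has `10 T` elements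
(`Finset.exists_subset_card_eq`, chosen from `q` alone); `∏ T'(q) ≤ X^(10 T) = B₁`, `C B₁ ≤ H`; `dq (q j)` is not a square because it is not a square modulo `p ∈ T'(q)` (if `T = 0` nothing is to be proved: `nU < 0` is impossible): `gd_one`, `bad_fix` and the sum over the `(2 H + 1)^6` forms `q`.
The number of `F` in the box is at most `(21 H^k)^(m + 1)`.  By `split` these cover everything.  `16^w ≤ 64^w`, `(1 + log H) ≤ (1 + log H)²`.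
-/

set_option autoImplicit false

namespace HT

open Finset Polynomial MWS HY

private theorem DR_card_eq {α : Type} (s : Finset α) (P : α → Prop) [DecidablePred P] (h : ∀ x, P x → x ∈ s) :
    Nat.card {x // P x} = (s.filter P).card := by
  have e : {x // P x} ≃ {x // x ∈ s.filter P} := Equiv.subtypeEquivRight fun x => by
    rw [Finset.mem_filter]
    exact ⟨fun hx => ⟨h x hx, hx⟩, fun hx => hx.2⟩
  rw [Nat.card_congr e, Nat.card_eq_fintype_card, Fintype.card_coe]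

private theorem DR_prod {α β : Type} (A : Finset α) (B : Finset β) (P : α × β → Prop) [DecidablePred P] :
    ((A ×ˢ B).filter P).card = ∑ a ∈ A, (B.filter fun b => P (a, b)).card := by
  rw [Finset.card_filter, Finset.sum_product]
  exact Finset.sum_congr rfl fun a _ => (Finset.card_filter _ _).symm

private theorem DR_mem {ι : Type} [Fintype ι] [DecidableEq ι] {h : ℕ} {x : ι → ℤ} :
    x ∈ bo (ι := ι) h ↔ ∀ i, |x i| ≤ (h : ℤ) := by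
  simp only [bo, Fintype.mem_piFinset, Finset.mem_Icc, abs_le]

private theorem DR_bo {ι : Type} [Fintype ι] [DecidableEq ι] (h : ℕ) :
    (bo (ι := ι) h).card = (2 * h + 1) ^ Fintype.card ι := by
  rw [bo, Fintype.card_piFinset]
  simp only [Int.card_Icc]
  rw [Finset.prod_const, Finset.card_univ]
  congr 1
  omega

private theorem DR_prod_card {α β : Type} (A : Finset α) (B : Finset β) (P : α → Prop) [DecidablePred P] :
    ((A ×ˢ B).filter fun x => P x.1).card = (A.filter P).card * B.card := by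
  have h : (A ×ˢ B).filter (fun x => P x.1) = (A.filter P) ×ˢ B := by
    ext x
    simp only [Finset.mem_filter, Finset.mem_product]
    tauto
  rw [h, Finset.card_product]

private theorem DR_choose (S : Finset ℕ) (U T : ℕ) (q : Fin 2 → Fin 3 → ℤ) :
    ∃ T' : Finset ℕ, 10 * T ≤ nU S U q 1 → T' ⊆ S ∧ (∀ p ∈ T', gd p U 1 (cr p q)) ∧ T'.card = 10 * T := by
  classical
  by_cases h : 10 * T ≤ nU S U q 1
  · obtain ⟨T', h1, h2⟩ := Finset.exists_subset_card_eq h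
    refine ⟨T', fun _ => ⟨fun p hp => (Finset.mem_filter.1 (h1 hp)).1, fun p hp => ?_, h2⟩⟩
    have h3 := (Finset.mem_filter.1 (h1 hp)).2
    rw [Int.cast_one] at h3
    exact h3
  · exact ⟨∅, fun h1 => absurd h1 h⟩

/-- the four estimates together -/
private theorem DR_num {m k H T w z : ℕ} {D₀ CG Cb L e₁ e₂ n₀ n₁ n₂ n₃ N : ℝ} (hH : 1 ≤ H)
    (hCG : 1 ≤ CG) (hCb : 1 ≤ Cb) (hL : 1 ≤ L) (hD₀ : 0 ≤ D₀) (he₁ : 0 ≤ e₁) (he₂ : 0 ≤ e₂)
    (hN : N ≤ n₀ + (n₁ + (n₂ + n₃)))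
    (h0 : n₀ ≤ CG * (H : ℝ) ^ (6 + k * (m + 1)) * ((w + 1) / z))
    (h1 : n₁ ≤ (5 / 4) ^ (10 * T) * ((4 * (H : ℝ)) ^ 6 * e₁) * (21 * (H : ℝ) ^ k) ^ (m + 1))
    (h2 : n₂ ≤ 2 * D₀ * ((5 / 4) ^ T * ((4 * (H : ℝ)) ^ 6 * e₂)) * (21 * (H : ℝ) ^ k) ^ (m + 1))
    (h3 : n₃ ≤ (3 * (H : ℝ)) ^ 6 * (2 * (Cb * 16 ^ w * L * ((H : ℝ) ^ k) ^ (m + 1) * (1 / 2) ^ T))) :
    N ≤ (CG + 2 * 4 ^ 6 * 21 ^ (m + 1) + 2 * 3 ^ 6 * Cb) * (H : ℝ) ^ (6 + k * (m + 1)) *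
      (D₀ * (5 / 4) ^ T * e₂ + (5 / 4) ^ (10 * T) * e₁ + ((w : ℝ) + 1) / z + 64 ^ w * L ^ 2 * (1 / 2) ^ T) := by
  have hH0 : (0 : ℝ) ≤ H := Nat.cast_nonneg H
  set P : ℝ := (H : ℝ) ^ (6 + k * (m + 1)) with hP
  have hP0 : 0 ≤ P := pow_nonneg hH0 _
  have hP1 : P = (H : ℝ) ^ 6 * ((H : ℝ) ^ k) ^ (m + 1) := by rw [hP, pow_add, pow_mul]
  set A : ℝ := 2 * 4 ^ 6 * 21 ^ (m + 1) with hA
  have hA0 : 0 ≤ A := by positivity
  have hz : (0 : ℝ) ≤ ((w : ℝ) + 1) / z := by positivity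
  have g1 : n₁ ≤ A * P * ((5 / 4) ^ (10 * T) * e₁) := by
    refine h1.trans ?_
    have h4 : (5 / 4 : ℝ) ^ (10 * T) * ((4 * (H : ℝ)) ^ 6 * e₁) * (21 * (H : ℝ) ^ k) ^ (m + 1) =
        A / 2 * P * ((5 / 4) ^ (10 * T) * e₁) := by
      rw [hP1, hA, mul_pow 21]
      ring
    rw [h4]
    exact mul_le_mul_of_nonneg_right (mul_le_mul_of_nonneg_right (by linarith) hP0) (by positivity)
  have g2 : n₂ ≤ A * P * (D₀ * (5 / 4) ^ T * e₂) := by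
    refine h2.trans (le_of_eq ?_)
    rw [hP1, hA, mul_pow 21]
    ring
  have g3 : n₃ ≤ 2 * 3 ^ 6 * Cb * P * (64 ^ w * L ^ 2 * (1 / 2) ^ T) := by
    have h4 : (3 * (H : ℝ)) ^ 6 * (2 * (Cb * 16 ^ w * L * ((H : ℝ) ^ k) ^ (m + 1) * (1 / 2) ^ T)) =
        2 * 3 ^ 6 * Cb * P * (16 ^ w * L * (1 / 2) ^ T) := by
      rw [hP1]
      ring
    refine (h3.trans_eq h4).trans ?_
    have h5 : (16 : ℝ) ^ w ≤ 64 ^ w := pow_le_pow_left₀ (by norm_num) (by norm_num) w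
    have h6 : L ≤ L ^ 2 := by nlinarith
    have h7 : (16 : ℝ) ^ w * L ≤ 64 ^ w * L ^ 2 := mul_le_mul h5 h6 (by linarith) (by positivity)
    exact mul_le_mul_of_nonneg_left (mul_le_mul_of_nonneg_right h7 (by positivity))
      (mul_nonneg (by positivity) hP0)
  have x1 : 0 ≤ P * ((5 / 4 : ℝ) ^ (10 * T) * e₁) := by positivity
  have x2 : 0 ≤ P * (D₀ * (5 / 4 : ℝ) ^ T * e₂) := by positivity
  have x3 : 0 ≤ P * (64 ^ w * L ^ 2 * (1 / 2 : ℝ) ^ T) := by positivity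
  have x4 : 0 ≤ P * (((w : ℝ) + 1) / z) := mul_nonneg hP0 hz
  have hC0 : (0 : ℝ) ≤ CG := by linarith
  have hB0 : (0 : ℝ) ≤ 2 * 3 ^ 6 * Cb := by positivity
  have y1 := mul_nonneg (add_nonneg hC0 hB0) x1
  have y2 := mul_nonneg (add_nonneg hC0 hB0) x2
  have y3 := mul_nonneg (add_nonneg hC0 hA0) x3
  have y4 := mul_nonneg (add_nonneg hA0 hB0) x4
  calc N ≤ n₀ + (n₁ + (n₂ + n₃)) := hN
    _ ≤ CG * P * (((w : ℝ) + 1) / z) + (A * P * ((5 / 4) ^ (10 * T) * e₁) + (A * P * (D₀ * (5 / 4) ^ T * e₂) +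
        2 * 3 ^ 6 * Cb * P * (64 ^ w * L ^ 2 * (1 / 2) ^ T))) := by
        exact add_le_add h0 (add_le_add g1 (add_le_add g2 g3))
    _ ≤ _ := by
        have h9 : (CG + A + 2 * 3 ^ 6 * Cb) * P *
            (D₀ * (5 / 4) ^ T * e₂ + (5 / 4) ^ (10 * T) * e₁ + ((w : ℝ) + 1) / z + 64 ^ w * L ^ 2 * (1 / 2) ^ T) =
            CG * P * (((w : ℝ) + 1) / z) + (A * P * ((5 / 4) ^ (10 * T) * e₁) + (A * P * (D₀ * (5 / 4) ^ T * e₂) +
              2 * 3 ^ 6 * Cb * P * (64 ^ w * L ^ 2 * (1 / 2) ^ T))) +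
            ((CG + 2 * 3 ^ 6 * Cb) * (P * ((5 / 4) ^ (10 * T) * e₁)) +
              (CG + 2 * 3 ^ 6 * Cb) * (P * (D₀ * (5 / 4) ^ T * e₂)) +
              (CG + A) * (P * (64 ^ w * L ^ 2 * (1 / 2) ^ T)) +
              (A + 2 * 3 ^ 6 * Cb) * (P * (((w : ℝ) + 1) / z))) := by ring
        rw [h9]
        linarith

theorem bad_count {m k : ℕ} (hm : 4 ≤ m) (hk : m + 8 ≤ 2 * k) : ∃ C : ℝ, 1 ≤ C ∧ ∀ (S : Finset ℕ)
    (X U H T w z : ℕ) (γ : ℝ), (∀ p ∈ S, p.Prime ∧ 29 ≤ p ∧ p ≤ X) → 0 ≤ γ →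
    (∀ p ∈ S, ∀ D : ZMod p, D ≠ 0 → γ * (p : ℝ) ^ 6 ≤
      (Nat.card {v : Fin 2 × Fin 3 → ZMod p // gd p U D (fun i j => v (i, j))} : ℝ)) →
    1 ≤ H → 1 ≤ z → C * (X : ℝ) ^ (10 * T) ≤ H → ∏ p ∈ S, p ≤ H →
    (Nat.card {x : (Fin 2 × Fin 3 → ℤ) × (Fin (m + 1) → ℤ) // (∀ i, |x.1 i| ≤ (H : ℤ)) ∧
      (∀ i, |x.2 i| ≤ 10 * (H : ℤ) ^ k) ∧ RT (fun i j => x.1 (i, j)) x.2 ≠ 0 ∧
      om (RT (fun i j => x.1 (i, j)) x.2) ≤ w ∧
      ∃ D : ℤ, Adm (fun i j => x.1 (i, j)) x.2 D ∧ nU S U (fun i j => x.1 (i, j)) D < T} : ℝ) ≤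
      C * (H : ℝ) ^ (6 + k * (m + 1)) *
        ((((z ^ w * X ^ (10 * T)) ^ 2 : ℕ) : ℝ) * (5 / 4) ^ T *
            Real.exp (-(γ / 5 * ((S.card : ℝ) - Nat.log 2 ((z ^ w * X ^ (10 * T)) ^ 2)))) +
          (5 / 4) ^ (10 * T) * Real.exp (-(γ / 5 * (S.card : ℝ))) + ((w : ℝ) + 1) / z +
          64 ^ w * (1 + Real.log H) ^ 2 * (1 / 2) ^ T) := by
  classical
  obtain ⟨CG, hCG, hG⟩ := cond_G (m := m) (k := k) (by omega) (by omega)
  obtain ⟨Cb, hCb, hb⟩ := bad_fix hm hk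
  have hA1 : (1 : ℝ) ≤ 21 ^ (m + 1) := one_le_pow₀ (by norm_num)
  refine ⟨CG + 2 * 4 ^ 6 * 21 ^ (m + 1) + 2 * 3 ^ 6 * Cb, by linarith, ?_⟩
  intro S X U H T w z γ hS hγ hd hH hz hX hprod
  have hSp : ∀ p ∈ S, p.Prime := fun p hp => (hS p hp).1
  have hHr : (1 : ℝ) ≤ H := by exact_mod_cast hH
  set B₁ : ℕ := X ^ (10 * T) with hB₁
  have hX' : Cb * (B₁ : ℝ) ≤ H := by
    refine le_trans ?_ hX
    rw [hB₁, Nat.cast_pow]
    exact mul_le_mul_of_nonneg_right (by linarith) (by positivity)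
  set BQ : Finset (Fin 2 × Fin 3 → ℤ) := bo (ι := Fin 2 × Fin 3) H with hBQ
  set BF : Finset (Fin (m + 1) → ℤ) := bo (ι := Fin (m + 1)) (10 * H ^ k) with hBF
  have hmF : ∀ F : Fin (m + 1) → ℤ, F ∈ BF ↔ ∀ i, |F i| ≤ 10 * (H : ℤ) ^ k := by
    intro F
    rw [hBF, DR_mem]
    push_cast
    exact Iff.rfl
  have hBFc : (BF.card : ℝ) ≤ (21 * (H : ℝ) ^ k) ^ (m + 1) := by
    rw [hBF, DR_bo, Fintype.card_fin]
    push_cast
    refine pow_le_pow_left₀ (by positivity) ?_ _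
    have h1 : (1 : ℝ) ≤ (H : ℝ) ^ k := one_le_pow₀ hHr
    linarith
  have hBQc : (BQ.card : ℝ) ≤ (3 * (H : ℝ)) ^ 6 := by
    rw [hBQ, DR_bo]
    have h1 : Fintype.card (Fin 2 × Fin 3) = 6 := by simp
    rw [h1]
    push_cast
    exact pow_le_pow_left₀ (by positivity) (by linarith) _
  choose T' hT' using fun q : Fin 2 → Fin 3 → ℤ => DR_choose S U T q
  -- the cover
  let PG : (Fin 2 × Fin 3 → ℤ) × (Fin (m + 1) → ℤ) → Prop := fun x =>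
    (∀ i, |x.1 i| ≤ (H : ℤ)) ∧ (∀ i, |x.2 i| ≤ 10 * (H : ℤ) ^ k) ∧
      RT (fun i j => x.1 (i, j)) x.2 ≠ 0 ∧ om (RT (fun i j => x.1 (i, j)) x.2) ≤ w ∧
      ∃ (j : Fin 2) (p : ℕ), p.Prime ∧ z < p ∧ p ∣ NN (fun l => x.1 (j, l)) (fun l => x.1 (1 - j, l)) ∧
        (p : ℤ) ∣ rf (fun l => x.1 (j, l)) x.2
  let P1 : (Fin 2 × Fin 3 → ℤ) → Prop := fun q => nU S U (fun i j => q (i, j)) 1 < 10 * T
  let P2 : (Fin 2 × Fin 3 → ℤ) → Prop := fun q => ∃ D : ℤ, D ≠ 0 ∧ D.natAbs ≤ (z ^ w * B₁) ^ 2 ∧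
    nU S U (fun i j => q (i, j)) D < T
  let P3 : (Fin 2 × Fin 3 → ℤ) × (Fin (m + 1) → ℤ) → Prop := fun x =>
    10 * T ≤ nU S U (fun i j => x.1 (i, j)) 1 ∧ 1 ≤ T ∧
      ∃ j, Bj (fun i j => x.1 (i, j)) j (T' fun i j => x.1 (i, j)) T w B₁ x.2
  let PA : (Fin 2 × Fin 3 → ℤ) × (Fin (m + 1) → ℤ) → Prop := fun x =>
    (∀ i, |x.1 i| ≤ (H : ℤ)) ∧ (∀ i, |x.2 i| ≤ 10 * (H : ℤ) ^ k) ∧ RT (fun i j => x.1 (i, j)) x.2 ≠ 0 ∧
      om (RT (fun i j => x.1 (i, j)) x.2) ≤ w ∧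
      ∃ D : ℤ, Adm (fun i j => x.1 (i, j)) x.2 D ∧ nU S U (fun i j => x.1 (i, j)) D < T
  have hcover : (BQ ×ˢ BF).filter PA ⊆ (BQ ×ˢ BF).filter PG ∪ ((BQ ×ˢ BF).filter (fun x => P1 x.1) ∪
      ((BQ ×ˢ BF).filter (fun x => P2 x.1) ∪ (BQ ×ˢ BF).filter P3)) := by
    intro x hx
    obtain ⟨hx1, hx2, hx3, hx4, hx5, D, hD, hn⟩ := Finset.mem_filter.1 hx
    simp only [Finset.mem_union, Finset.mem_filter]
    by_cases hPG : PG x
    · exact Or.inl ⟨hx1, hPG⟩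
    by_cases hP1 : P1 x.1
    · exact Or.inr (Or.inl ⟨hx1, hP1⟩)
    have h10 : 10 * T ≤ nU S U (fun i j => x.1 (i, j)) 1 := not_lt.1 hP1
    obtain ⟨t1, t2, t3⟩ := hT' _ h10
    have hG' : ∀ (j : Fin 2) (p : ℕ), p.Prime → p ∣ NN (fun l => x.1 (j, l)) (fun l => x.1 (1 - j, l)) →
        (p : ℤ) ∣ rf (fun l => x.1 (j, l)) x.2 → p ≤ z := fun j p hp h1 h2 => by
      by_contra h3
      exact hPG ⟨hx2, hx3, hx4, hx5, j, p, hp, not_le.1 h3, h1, h2⟩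
    rcases split S (fun p hp => ⟨(hS p hp).1, (hS p hp).2.1⟩) hz (fun i j => x.1 (i, j)) x.2 hx4 hx5 hG'
      (T' fun i j => x.1 (i, j)) t1 t2 (B₁ := B₁) hD hn with h | ⟨j, hj⟩
    · exact Or.inr (Or.inr (Or.inl ⟨hx1, D, h.1, h.2, hn⟩))
    · exact Or.inr (Or.inr (Or.inr ⟨hx1, h10, by omega, j, hj⟩))
  have hmem : ∀ x : (Fin 2 × Fin 3 → ℤ) × (Fin (m + 1) → ℤ), (∀ i, |x.1 i| ≤ (H : ℤ)) →
      (∀ i, |x.2 i| ≤ 10 * (H : ℤ) ^ k) → x ∈ BQ ×ˢ BF := fun x h1 h2 =>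
    Finset.mem_product.2 ⟨DR_mem.2 h1, (hmF _).2 h2⟩
  have hA : Nat.card {x // PA x} = ((BQ ×ˢ BF).filter PA).card :=
    DR_card_eq _ _ fun x hx => hmem x hx.1 hx.2.1
  have hGc : Nat.card {x // PG x} = ((BQ ×ˢ BF).filter PG).card :=
    DR_card_eq _ _ fun x hx => hmem x hx.1 hx.2.1
  have hle : ((Nat.card {x // PA x} : ℕ) : ℝ) ≤ ((Nat.card {x // PG x} : ℕ) : ℝ) +
      ((((BQ ×ˢ BF).filter (fun x => P1 x.1)).card : ℝ) + ((((BQ ×ˢ BF).filter (fun x => P2 x.1)).card : ℝ) +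
        (((BQ ×ˢ BF).filter P3).card : ℝ))) := by
    rw [hA, hGc]
    have h1 := (Finset.card_le_card hcover).trans ((Finset.card_union_le _ _).trans
      (Nat.add_le_add_left ((Finset.card_union_le _ _).trans (Nat.add_le_add_left (Finset.card_union_le _ _) _)) _))
    exact_mod_cast h1
  have h1 : (((BQ ×ˢ BF).filter (fun x => P1 x.1)).card : ℝ) ≤
      (5 / 4) ^ (10 * T) * ((4 * (H : ℝ)) ^ 6 * Real.exp (-(γ / 5 * (S.card : ℝ)))) *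
        (21 * (H : ℝ) ^ k) ^ (m + 1) := by
    rw [DR_prod_card BQ BF P1, Nat.cast_mul]
    have h2 := few_q S hSp hprod hγ hd 1 one_ne_zero (10 * T)
    rw [Int.natAbs_one, Nat.log_one_right, Nat.cast_zero, sub_zero] at h2
    exact mul_le_mul h2 hBFc (Nat.cast_nonneg _) (by positivity)
  have h2 : (((BQ ×ˢ BF).filter (fun x => P2 x.1)).card : ℝ) ≤
      2 * (((z ^ w * B₁) ^ 2 : ℕ) : ℝ) * ((5 / 4) ^ T * ((4 * (H : ℝ)) ^ 6 *
        Real.exp (-(γ / 5 * ((S.card : ℝ) - Nat.log 2 ((z ^ w * B₁) ^ 2)))))) * (21 * (H : ℝ) ^ k) ^ (m + 1) := by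
    rw [DR_prod_card BQ BF P2, Nat.cast_mul]
    exact mul_le_mul (small_D S hSp hprod hγ hd ((z ^ w * B₁) ^ 2) T) hBFc (Nat.cast_nonneg _) (by positivity)
  have hlog : 0 ≤ Real.log H := Real.log_nonneg hHr
  have h3 : (((BQ ×ˢ BF).filter P3).card : ℝ) ≤
      (3 * (H : ℝ)) ^ 6 * (2 * (Cb * 16 ^ w * (1 + Real.log H) * ((H : ℝ) ^ k) ^ (m + 1) * (1 / 2) ^ T)) := by
    rw [DR_prod, Nat.cast_sum]
    have h4 : ∀ q ∈ BQ, (((BF.filter fun F => P3 (q, F)).card : ℕ) : ℝ) ≤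
        2 * (Cb * 16 ^ w * (1 + Real.log H) * ((H : ℝ) ^ k) ^ (m + 1) * (1 / 2) ^ T) := by
      intro q hq
      by_cases h5 : 10 * T ≤ nU S U (fun i j => q (i, j)) 1 ∧ 1 ≤ T
      · obtain ⟨h5, h6⟩ := h5
        obtain ⟨t1, t2, t3⟩ := hT' _ h5
        have hpr : ∀ (j : Fin 2), ∀ p ∈ T' (fun i j => q (i, j)), p.Prime ∧ 29 ≤ p ∧
            ¬ IsSquare ((dq ((fun i j => q (i, j) : Fin 2 → Fin 3 → ℤ) j) : ℤ) : ZMod p) ∧
            ((rq ((fun i j => q (i, j) : Fin 2 → Fin 3 → ℤ) 0) ((fun i j => q (i, j) : Fin 2 → Fin 3 → ℤ) 1) : ℤ) :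
              ZMod p) ≠ 0 := fun j p hp => by
          have h7 := hS p (t1 hp)
          exact ⟨h7.1, h7.2.1, gd_one h7.1 (by omega) _ (t2 p hp) j⟩
        have hns : ∀ j : Fin 2, ¬ IsSquare (dq ((fun i j => q (i, j) : Fin 2 → Fin 3 → ℤ) j)) := by
          intro j hsq
          have h7 : (T' (fun i j => q (i, j))).Nonempty := by
            rw [← Finset.card_pos, t3]
            omega
          obtain ⟨p, hp⟩ := h7
          obtain ⟨r, hr⟩ := hsq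
          refine (hpr j p hp).2.2.1 ⟨(r : ZMod p), ?_⟩
          rw [hr, Int.cast_mul]
        have hpm : ∏ p ∈ T' (fun i j => q (i, j)), p ≤ B₁ := by
          rw [hB₁, ← t3]
          exact Finset.prod_le_pow_card _ _ _ fun p hp => (hS p (t1 hp)).2.2
        have hqb : ∀ i l, |(fun i j => q (i, j) : Fin 2 → Fin 3 → ℤ) i l| ≤ (H : ℤ) := fun i l =>
          DR_mem.1 hq (i, l)
        have h8 : ∀ j : Fin 2, (((BF.filter fun F => Bj (fun i j => q (i, j)) j (T' fun i j => q (i, j)) T w B₁ F).card :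
            ℕ) : ℝ) ≤ Cb * 16 ^ w * (1 + Real.log H) * ((H : ℝ) ^ k) ^ (m + 1) * (1 / 2) ^ T := by
          intro j
          have h9 := hb (fun i j => q (i, j)) j H B₁ w T hH hqb (hns j) (T' fun i j => q (i, j)) (hpr j) t3 hpm hX'
          refine le_trans (le_of_eq ?_) h9
          congr 1
          rw [DR_card_eq BF _ fun F hF => (hmF F).2 hF.1]
          congr 1
          refine Finset.filter_congr fun F hF => ?_
          exact ⟨fun h => ⟨(hmF F).1 hF, h⟩, fun h => h.2⟩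
        have h10 : (BF.filter fun F => P3 (q, F)) ⊆
            (BF.filter fun F => Bj (fun i j => q (i, j)) 0 (T' fun i j => q (i, j)) T w B₁ F) ∪
            (BF.filter fun F => Bj (fun i j => q (i, j)) 1 (T' fun i j => q (i, j)) T w B₁ F) := by
          intro F hF
          obtain ⟨hF1, -, -, j, hj⟩ := Finset.mem_filter.1 hF
          simp only [Finset.mem_union, Finset.mem_filter]
          fin_cases j
          · exact Or.inl ⟨hF1, hj⟩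
          · exact Or.inr ⟨hF1, hj⟩
        have h11 := (Finset.card_le_card h10).trans (Finset.card_union_le _ _)
        have h12 : (((BF.filter fun F => P3 (q, F)).card : ℕ) : ℝ) ≤
            (((BF.filter fun F => Bj (fun i j => q (i, j)) 0 (T' fun i j => q (i, j)) T w B₁ F).card : ℕ) : ℝ) +
            (((BF.filter fun F => Bj (fun i j => q (i, j)) 1 (T' fun i j => q (i, j)) T w B₁ F).card : ℕ) : ℝ) := by
          exact_mod_cast h11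
        linarith [h8 0, h8 1]
      · have h6 : (BF.filter fun F => P3 (q, F)) = ∅ := by
          refine Finset.filter_eq_empty_iff.2 fun F _ h7 => h5 ⟨h7.1, h7.2.1⟩
        rw [h6, Finset.card_empty, Nat.cast_zero]
        positivity
    calc ∑ q ∈ BQ, (((BF.filter fun F => P3 (q, F)).card : ℕ) : ℝ)
        ≤ ∑ q ∈ BQ, 2 * (Cb * 16 ^ w * (1 + Real.log H) * ((H : ℝ) ^ k) ^ (m + 1) * (1 / 2) ^ T) :=
          Finset.sum_le_sum h4
      _ = (BQ.card : ℝ) * (2 * (Cb * 16 ^ w * (1 + Real.log H) * ((H : ℝ) ^ k) ^ (m + 1) * (1 / 2) ^ T)) := by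
          rw [Finset.sum_const, nsmul_eq_mul]
      _ ≤ _ := mul_le_mul_of_nonneg_right hBQc (by positivity)
  exact DR_num hH hCG hCb (by linarith) (Nat.cast_nonneg _) (Real.exp_pos _).le (Real.exp_pos _).le hle
    (hG H w z hH hz) h1 h2 h3

end HT
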