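import Pool.Agent.Lib.MP_10e784_agH.SDefs

/-!
# Hyperelliptic curves `y² = q₀ q₁ F`: definitions
-/

set_option autoImplicit false

namespace HT

open Finset Polynomial MWS HY

section
variable {R : Type*} [CommRing R]

/-- the coefficients of the product `q₀ q₁ Q` -/
noncomputable def mulT {n : ℕ} (q : Fin 2 → Fin 3 → R) (Q : Fin (n + 1) → R) : Fin (n + 4 + 1) → R :=
  fun i => (pol (q 0) * pol (q 1) * pol Q).coeff i

/-- the form of degree `m` with the polynomial `b(X) (u X + v)` -/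
noncomputable def sh {m : ℕ} (b : Fin 3 → R) (B : R × R) : Fin (m + 1) → R :=
  fun i => (pol b * (C B.1 * X + C B.2)).coeff i

/-- the product of all the discriminants, resultants and leading coefficients -/
noncomputable def RT {m : ℕ} (q : Fin 2 → Fin 3 → R) (f : Fin (m + 1) → R) : R :=
  (∏ i, dq (q i)) * rq (q 0) (q 1) * (∏ i, q i 2) * ∏ i, rf (q i) f

end

/-- a point over the ring of integers, coprime coordinates -/
def SolT {m : ℕ} (q : Fin 2 → Fin 3 → ℤ) (f : Fin (m + 1) → ℤ) : Prop :=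
  ∃ x z y : ℤ, IsCoprime x z ∧ y ^ 2 = qe (q 0) x z * qe (q 1) x z * fe f x z

/-- the prime `p` is useful for the twist `D` -/
def gd (p U : ℕ) (D : ZMod p) (v : Fin 2 → Fin 3 → ZMod p) : Prop :=
  D ≠ 0 ∧ (∀ i, ¬ IsSquare (dq (v i))) ∧ Gk p U 1 (D ^ 2 * Aq (v 0) (v 1), D ^ 3 * Bq (v 0) (v 1))

/-- reduction modulo `p` of the quadratic forms -/
def cr (p : ℕ) (q : Fin 2 → Fin 3 → ℤ) : Fin 2 → Fin 3 → ZMod p := fun i j => ((q i j : ℤ) : ZMod p)

open Classical in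
/-- the number of the primes of `S` which are useful for the twist `D` -/
noncomputable def nU (S : Finset ℕ) (U : ℕ) (q : Fin 2 → Fin 3 → ℤ) (D : ℤ) : ℕ :=
  (S.filter fun p => gd p U ((D : ℤ) : ZMod p) (cr p q)).card

/-- the admissible twists: up to the sign products of a divisor of `rf (q 0) f` and a divisor of `rf (q 1) f` -/
def Adm {m : ℕ} (q : Fin 2 → Fin 3 → ℤ) (f : Fin (m + 1) → ℤ) (D : ℤ) : Prop :=
  ∃ a b : ℕ, Squarefree a ∧ Squarefree b ∧ (a : ℤ) ∣ rf (q 0) f ∧ (b : ℤ) ∣ rf (q 1) f ∧ (D = a * b ∨ D = -(a * b))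

/-- the local condition: `Q` such that the curve `y² = q₀ q₁ (f + q₀ q₁ Q)` has a point `(x, z)` modulo `p` with
`q_k(x, z) = d_k · square`, which gives on `E` twisted by `d₀ d₁` a point with reduction `ζ` -/
def LocT (p n : ℕ) (q : Fin 2 → Fin 3 → ZMod p) (f : Fin (n + 4 + 1) → ZMod p) (d : Fin 2 → ZMod p)
    (ζ : Option (ZMod p × ZMod p)) : Set (Fin (n + 1) → ZMod p) :=
  {Q | ∃ x z : ZMod p, (x ≠ 0 ∨ z ≠ 0) ∧ (∀ k, ∃ s, s ≠ 0 ∧ qe (q k) x z = d k * s ^ 2) ∧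
    (∃ η, ζ = some (9 * (d 0 * d 1) * dq (q 0) * qe (q 1) x z * (qe (q 0) x z)⁻¹ - 3 * (d 0 * d 1) * bq (q 0) (q 1), η)) ∧
    IsSquare (d 0 * d 1 * (fe f x z + qe (q 0) x z * qe (q 1) x z * fe Q x z))}

open Classical in
/-- the product over `p ∈ T` of `4/5` if `x` is a nonzero square modulo `p`, `1` otherwise -/
noncomputable def Wt (T : Finset ℕ) (x : ℤ) : ℝ :=
  ∏ p ∈ T, if ((x : ℤ) : ZMod p) ≠ 0 ∧ IsSquare ((x : ℤ) : ZMod p) then (4 / 5 : ℝ) else 1

/-- the box `|c_i| ≤ h` -/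
noncomputable abbrev bo {ι : Type} [Fintype ι] [DecidableEq ι] (h : ℕ) : Finset (ι → ℤ) :=
  Fintype.piFinset fun _ => Icc (-(h : ℤ)) (h : ℤ)

end HT
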