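import Pool.Agent.Lib.MP_10e784_agHT.SE

/-!
# (3.1) of the page: many pairs of quadratic forms for which `p` is useful for the twist `D`
-/

set_option autoImplicit false

namespace HT

open MWS HY

/-- the interface: many pairs modulo `p`, for every twist -/
def FactG2 : Prop := ∃ c : ℝ, 0 < c ∧ ∃ K : ℕ, ∀ U : ℕ, K ≤ U → ∀ p : ℕ, p.Prime → p % 4 = 3 → U ^ K ≤ p →
  (K : ℝ) * Real.log p ≤ U → ∀ D : ZMod p, D ≠ 0 → c * (p : ℝ) ^ 6 / Real.log p ^ 3 ≤
    (Nat.card {v : Fin 2 × Fin 3 → ZMod p // gd p U D (fun i j => v (i, j))} : ℝ)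

private theorem GA_neg {p U : ℕ} (hp : p.Prime) {v : Fin 2 → Fin 3 → ZMod p} (hg : gd p U 1 v) {s : ZMod p}
    (hs0 : s ≠ 0) : gd p U (-(s * s)) (fun i j => if i = 0 then v 0 j else -v 1 j) := by
  have hf : Fact p.Prime := ⟨hp⟩
  obtain ⟨-, h2, h3, l, hl⟩ := hg
  have e0 : (fun j => if (0 : Fin 2) = 0 then v 0 j else -v 1 j) = v 0 := by
    funext j
    rw [if_pos rfl]
  have e1 : (fun j => if (1 : Fin 2) = 0 then v 0 j else -v 1 j) = fun j => -v 1 j := by
    funext j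
    rw [if_neg (by decide)]
  have hA : (-(s * s)) ^ 2 * Aq (v 0) (fun j => -v 1 j) = s ^ 4 * Aq (v 0) (v 1) := by
    unfold Aq dq bq
    ring
  have hB : (-(s * s)) ^ 3 * Bq (v 0) (fun j => -v 1 j) = s ^ 6 * Bq (v 0) (v 1) := by
    unfold Bq dq bq
    ring
  refine ⟨neg_ne_zero.2 (mul_ne_zero hs0 hs0), ?_, ?_, l, ?_⟩
  · intro i
    fin_cases i
    · exact h2 0
    · intro h
      refine h2 1 ?_
      have h4 : dq (fun j => if (1 : Fin 2) = 0 then v 0 j else -v 1 j) = dq (v 1) := by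
        rw [e1]
        unfold dq
        ring
      rw [← h4]
      exact h
  · show 4 * ((-(s * s)) ^ 2 * Aq (fun j => if (0 : Fin 2) = 0 then v 0 j else -v 1 j)
      (fun j => if (1 : Fin 2) = 0 then v 0 j else -v 1 j)) ^ 3 + 27 * ((-(s * s)) ^ 3 *
      Bq (fun j => if (0 : Fin 2) = 0 then v 0 j else -v 1 j) (fun j => if (1 : Fin 2) = 0 then v 0 j else -v 1 j)) ^ 2 ≠ 0
    rw [e0, e1, hA, hB]
    have h8 : 4 * (s ^ 4 * Aq (v 0) (v 1)) ^ 3 + 27 * (s ^ 6 * Bq (v 0) (v 1)) ^ 2 =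
        s ^ 12 * (4 * (1 ^ 2 * Aq (v 0) (v 1)) ^ 3 + 27 * (1 ^ 3 * Bq (v 0) (v 1)) ^ 2) := by ring
    rw [h8]
    exact mul_ne_zero (pow_ne_zero _ hs0) h3
  · show l.Prime ∧ U < l ∧ l ≤ 4 * U ∧ l ^ 1 ∣ nz ((-(s * s)) ^ 2 *
      Aq (fun j => if (0 : Fin 2) = 0 then v 0 j else -v 1 j) (fun j => if (1 : Fin 2) = 0 then v 0 j else -v 1 j))
      ((-(s * s)) ^ 3 * Bq (fun j => if (0 : Fin 2) = 0 then v 0 j else -v 1 j)
        (fun j => if (1 : Fin 2) = 0 then v 0 j else -v 1 j)) + 1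
    rw [e0, e1, hA, hB, nz_tw s _ _ hs0]
    have h9 : l.Prime ∧ U < l ∧ l ≤ 4 * U ∧
        l ^ 1 ∣ nz ((1 : ZMod p) ^ 2 * Aq (v 0) (v 1)) ((1 : ZMod p) ^ 3 * Bq (v 0) (v 1)) + 1 := hl
    rwa [one_pow, one_pow, one_mul, one_mul] at h9

/-- for `p ≡ 3` modulo `4` the number of pairs does not decrease with the twist -/
private theorem GA_tw {p U : ℕ} (hp : p.Prime) (h3 : p % 4 = 3) (D : ZMod p) (hD : D ≠ 0) :
    Nat.card {v : Fin 2 × Fin 3 → ZMod p // gd p U 1 (fun i j => v (i, j))} ≤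
      Nat.card {v : Fin 2 × Fin 3 → ZMod p // gd p U D (fun i j => v (i, j))} := by
  have hf : Fact p.Prime := ⟨hp⟩
  by_cases hs : IsSquare D
  · refine Nat.card_le_card_of_injective (fun v => ⟨v.1, gd_of_sq hp v.2 hD hs⟩) fun v w h => ?_
    have h4 := congrArg Subtype.val h
    exact Subtype.ext h4
  · have h1 : ¬ IsSquare (-1 : ZMod p) := by
      rw [ZMod.exists_sq_eq_neg_one_iff]
      omega
    have h2 : IsSquare (-D) := by
      classical
      have hp2 : ringChar (ZMod p) ≠ 2 := by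
        rw [ZMod.ringChar_zmod_n]
        rintro rfl
        omega
      have c1 : quadraticChar (ZMod p) (-1) = -1 := (quadraticChar_neg_one_iff_not_isSquare).2 h1
      have c2 : quadraticChar (ZMod p) D = -1 := (quadraticChar_neg_one_iff_not_isSquare).2 hs
      refine (quadraticChar_one_iff_isSquare (neg_ne_zero.2 hD)).1 ?_
      rw [← neg_one_mul, map_mul, c1, c2]
      norm_num
    obtain ⟨s, hs⟩ := h2
    have hs0 : s ≠ 0 := by
      rintro rfl
      apply hD
      have : -D = 0 := by rw [hs]; ring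
      exact neg_eq_zero.1 this
    have hDs : D = -(s * s) := by rw [← hs]; ring
    refine Nat.card_le_card_of_injective (fun v => ⟨fun x => if x.1 = 0 then v.1 (0, x.2) else -v.1 (1, x.2), ?_⟩)
      fun v w h => ?_
    · have h4 := GA_neg hp v.2 hs0
      rw [hDs]
      exact h4
    · have h4 := congrArg Subtype.val h
      refine Subtype.ext (funext fun x => ?_)
      have h5 := congrFun h4 x
      obtain ⟨i, j⟩ := x
      fin_cases i
      · exact h5
      · exact neg_injective h5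

/-- the projection from the triples to the pairs -/
private theorem GA_proj {p U : ℕ} (hp : p.Prime) :
    Nat.card {v : Fin 3 × Fin 3 → ZMod p // good p U (fun i j => v (i, j))} ≤
      Nat.card {v : Fin 2 × Fin 3 → ZMod p // gd p U 1 (fun i j => v (i, j))} * p ^ 3 := by
  have hf : Fact p.Prime := ⟨hp⟩
  have e1 : Nat.card (Fin 3 → ZMod p) = p ^ 3 := by
    rw [Nat.card_eq_fintype_card, Fintype.card_fun, ZMod.card, Fintype.card_fin]
  rw [← e1, ← Nat.card_prod]
  refine Nat.card_le_card_of_injective (fun v => (⟨fun x => v.1 (x.1.castSucc, x.2), ?_⟩, fun j => v.1 (2, j)))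
    fun v w h => ?_
  · have hg := v.2
    refine ⟨one_ne_zero, fun i => hg.1 i.castSucc, ?_⟩
    have h1 := hg.2 0 1 (by decide)
    show Gk p U 1 ((1 : ZMod p) ^ 2 * Aq (fun j => v.1 (0, j)) (fun j => v.1 (1, j)),
      (1 : ZMod p) ^ 3 * Bq (fun j => v.1 (0, j)) (fun j => v.1 (1, j)))
    rw [one_pow, one_pow, one_mul, one_mul]
    exact h1
  · have h1 := congrArg (fun z => (Prod.fst z).val) h
    have h2 := congrArg Prod.snd h
    refine Subtype.ext (funext fun x => ?_)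
    obtain ⟨i, j⟩ := x
    fin_cases i
    · exact congrFun h1 (0, j)
    · exact congrFun h1 (1, j)
    · exact congrFun h2 j

theorem factG2 (hG : FactG) : FactG2 := by
  obtain ⟨c, hc, K, h⟩ := hG
  refine ⟨c, hc, K, fun U hU p hp h3 hUp hK D hD => ?_⟩
  have h1 := h U hU p hp h3 hUp hK
  have hp0 : (0 : ℝ) < (p : ℝ) ^ 3 := by
    have : (0 : ℝ) < p := by exact_mod_cast hp.pos
    positivity
  have h2 : ((Nat.card {v : Fin 3 × Fin 3 → ZMod p // good p U (fun i j => v (i, j))} : ℕ) : ℝ) ≤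
      (Nat.card {v : Fin 2 × Fin 3 → ZMod p // gd p U D (fun i j => v (i, j))} : ℝ) * (p : ℝ) ^ 3 := by
    have h4 := (GA_proj (U := U) hp).trans (Nat.mul_le_mul_right (p ^ 3) (GA_tw (U := U) hp h3 D hD))
    exact_mod_cast h4
  refine le_of_mul_le_mul_right (le_trans (le_of_eq ?_) (h1.trans h2)) hp0
  ring

end HT
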