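import Pool.Agent.Lib.MP_10e784_agHE.Defs
import Pool.Agent.Lib.MP_10e784_agHT.Defs

/-!
# From rational to coprime integral coordinates

-/

set_option autoImplicit false

namespace HT

open HY

private theorem PH_coprime (a c : ℤ) (h : a ≠ 0 ∨ c ≠ 0) :
    ∃ g X Z : ℤ, g ≠ 0 ∧ a = g * X ∧ c = g * Z ∧ IsCoprime X Z := by
  have hg : Int.gcd a c ≠ 0 := by
    intro h0
    rw [Int.gcd_eq_zero_iff] at h0
    rcases h with h | h
    · exact h h0.1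
    · exact h h0.2
  have hg' : ((Int.gcd a c : ℕ) : ℤ) ≠ 0 := Int.natCast_ne_zero.2 hg
  obtain ⟨X, hX⟩ := Int.gcd_dvd_left a c
  obtain ⟨Z, hZ⟩ := Int.gcd_dvd_right a c
  refine ⟨(Int.gcd a c : ℕ), X, Z, hg', hX, hZ, ?_⟩
  have hb := Int.gcd_eq_gcd_ab a c
  refine ⟨Int.gcdA a c, Int.gcdB a c, ?_⟩
  have h1 : ((Int.gcd a c : ℕ) : ℤ) * (Int.gcdA a c * X + Int.gcdB a c * Z) =
      ((Int.gcd a c : ℕ) : ℤ) * 1 := by
    calc ((Int.gcd a c : ℕ) : ℤ) * (Int.gcdA a c * X + Int.gcdB a c * Z)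
        = (((Int.gcd a c : ℕ) : ℤ) * X) * Int.gcdA a c + (((Int.gcd a c : ℕ) : ℤ) * Z) * Int.gcdB a c := by ring
      _ = a * Int.gcdA a c + c * Int.gcdB a c := by rw [← hX, ← hZ]
      _ = ((Int.gcd a c : ℕ) : ℤ) * 1 := by rw [← hb, mul_one]
  exact mul_left_cancel₀ hg' h1

private theorem PH_qe (v : Fin 3 → ℤ) (r : ℚ) (X Z : ℤ) :
    qe (fun j => ((v j : ℤ) : ℚ)) (r * X) (r * Z) = r ^ 2 * ((qe v X Z : ℤ) : ℚ) := by
  simp only [qe]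
  push_cast
  ring

private theorem PH_fe {m : ℕ} (f : Fin (m + 1) → ℤ) (r : ℚ) (X Z : ℤ) :
    fe (fun i => ((f i : ℤ) : ℚ)) (r * X) (r * Z) = r ^ m * ((fe f X Z : ℤ) : ℚ) := by
  simp only [fe]
  push_cast
  rw [Finset.mul_sum]
  refine Finset.sum_congr rfl fun i _ => ?_
  have h1 : (i : ℕ) + (m - (i : ℕ)) = m := Nat.add_sub_cancel' (Nat.lt_succ_iff.1 i.2)
  have h2 : r ^ m = r ^ (i : ℕ) * r ^ (m - (i : ℕ)) := by rw [← pow_add, h1]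
  rw [h2, mul_pow, mul_pow]
  ring

theorem sol_of_rat {m : ℕ} (hm : Even m) (q : Fin 2 → Fin 3 → ℤ) (f : Fin (m + 1) → ℤ) (h : HE.SolK2 ℚ q f) :
    SolT q f := by
  obtain ⟨x, z, y, h, hy⟩ := h
  obtain ⟨k, hk⟩ := hm
  have hxd : (x.den : ℚ) ≠ 0 := Nat.cast_ne_zero.2 x.den_nz
  have hzd : (z.den : ℚ) ≠ 0 := Nat.cast_ne_zero.2 z.den_nz
  have hne : x.num * z.den ≠ 0 ∨ z.num * x.den ≠ 0 := by
    rcases h with h | h
    · exact Or.inl (mul_ne_zero (Rat.num_ne_zero.2 h) (Int.natCast_ne_zero.2 z.den_nz))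
    · exact Or.inr (mul_ne_zero (Rat.num_ne_zero.2 h) (Int.natCast_ne_zero.2 x.den_nz))
  obtain ⟨g, X, Z, hg, hX, hZ, hXZ⟩ := PH_coprime _ _ hne
  have hgQ : (g : ℚ) ≠ 0 := Int.cast_ne_zero.2 hg
  have hXQ : (x.num : ℚ) * z.den = g * X := by exact_mod_cast hX
  have hZQ : (z.num : ℚ) * x.den = g * Z := by exact_mod_cast hZ
  obtain ⟨r, hr⟩ : ∃ r : ℚ, r = g / (x.den * z.den) := ⟨_, rfl⟩
  have hr0 : r ≠ 0 := by
    rw [hr]
    exact div_ne_zero hgQ (mul_ne_zero hxd hzd)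
  have hx : x = r * X := by
    rw [hr, div_mul_eq_mul_div, ← hXQ, eq_div_iff (mul_ne_zero hxd hzd)]
    have h1 : x * x.den = x.num := Rat.mul_den_eq_num x
    rw [← mul_assoc, h1]
  have hz : z = r * Z := by
    rw [hr, div_mul_eq_mul_div, ← hZQ, eq_div_iff (mul_ne_zero hxd hzd)]
    have h1 : z * z.den = z.num := Rat.mul_den_eq_num z
    rw [mul_comm (x.den : ℚ), ← mul_assoc, h1]
  rw [hx, hz, PH_qe, PH_qe, PH_fe] at hy
  have hN : (((qe (q 0) X Z * qe (q 1) X Z * fe f X Z : ℤ)) : ℚ) =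
      (y / r ^ (2 + k)) * (y / r ^ (2 + k)) := by
    rw [div_mul_div_comm, ← pow_add, eq_div_iff (pow_ne_zero _ hr0), ← pow_two, hy]
    push_cast
    have h2 : 2 + k + (2 + k) = 4 + m := by omega
    rw [h2, pow_add r 4]
    ring
  obtain ⟨w, hw⟩ := Rat.isSquare_intCast_iff.1 ⟨_, hN⟩
  exact ⟨X, Z, w, hXZ, by rw [pow_two, hw]⟩

end HT
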