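import Pool.Agent.Lib.MP_10e784_agHT.Defs
import Pool.Agent.Lib.MP_10e784_agHO.OG
import Pool.Agent.Lib.MP_10e784_agHO.OH
import Pool.Agent.Lib.MP_10e784_agHO.OI

/-!
# Almost always the product of the resultants is not `0` and has few prime factors
-/

set_option autoImplicit false

namespace HT

open Finset HY HYO

theorem RT_map {R S : Type} [CommRing R] [CommRing S] (ψ : R →+* S) {m : ℕ} (q : Fin 2 → Fin 3 → R)
    (f : Fin (m + 1) → R) : ψ (RT q f) = RT (fun i j => ψ (q i j)) (fun k => ψ (f k)) := by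
  have h1 : ∀ v : Fin 3 → R, ψ (dq v) = dq fun k => ψ (v k) := by
    intro v
    simp only [dq, map_sub, map_mul, map_pow, map_ofNat]
  have h2 : ∀ v w : Fin 3 → R, ψ (rq v w) = rq (fun k => ψ (v k)) (fun k => ψ (w k)) := by
    intro v w
    simp only [rq, map_sub, map_mul, map_pow]
  have h3 : ∀ v : Fin 3 → R, ψ (rf v f) = rf (fun k => ψ (v k)) (fun k => ψ (f k)) := by
    intro v
    exact rs_map ψ v f
  unfold RT
  rw [map_mul, map_mul, map_mul, map_prod, map_prod, map_prod, h2]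
  simp only [h1, h3]

private theorem OA_dq {k : Type} [Field k] {σ : Type} (i : Fin 2) (X : Fin 2 × Fin 3 → σ) :
    dq (fun j => (MvPolynomial.X (X (i, j)) : MvPolynomial σ k)) ≠ 0 ∨ ¬ Function.Injective X := by
  classical
  by_cases hX : Function.Injective X
  · refine Or.inl fun h => ?_
    have h1 := congrArg (MvPolynomial.eval (fun s : σ => if s = X (i, 1) then (1 : k) else 0)) h
    have e : ∀ j : Fin 3, (if X (i, j) = X (i, 1) then (1 : k) else 0) = if j = 1 then 1 else 0 := by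
      intro j
      by_cases hj : j = 1
      · rw [hj, if_pos rfl, if_pos rfl]
      · rw [if_neg hj, if_neg]
        intro h2
        exact hj (Prod.ext_iff.1 (hX h2)).2
    simp only [dq, map_sub, map_mul, map_pow, map_ofNat, MvPolynomial.eval_X, map_zero, e] at h1
    norm_num at h1
  · exact Or.inr hX

private theorem OA_rq {k : Type} [Field k] {σ : Type} (i i' : Fin 2) (hi : i ≠ i') (X : Fin 2 × Fin 3 → σ)
    (hX : Function.Injective X) :
    rq (fun j => (MvPolynomial.X (X (i, j)) : MvPolynomial σ k)) (fun j => MvPolynomial.X (X (i', j))) ≠ 0 := by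
  classical
  intro h
  have h1 := congrArg (MvPolynomial.eval (fun s : σ => if s = X (i, 0) ∨ s = X (i', 2) then (1 : k) else 0)) h
  have e : ∀ j : Fin 3, (if X (i, j) = X (i, 0) ∨ X (i, j) = X (i', 2) then (1 : k) else 0) =
      if j = 0 then 1 else 0 := by
    intro j
    by_cases hj : j = 0
    · rw [hj, if_pos (Or.inl rfl), if_pos rfl]
    · rw [if_neg hj, if_neg]
      rintro (h2 | h2)
      · exact hj (Prod.ext_iff.1 (hX h2)).2
      · exact hi (Prod.ext_iff.1 (hX h2)).1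
  have e' : ∀ j : Fin 3, (if X (i', j) = X (i, 0) ∨ X (i', j) = X (i', 2) then (1 : k) else 0) =
      if j = 2 then 1 else 0 := by
    intro j
    by_cases hj : j = 2
    · rw [hj, if_pos (Or.inr rfl), if_pos rfl]
    · rw [if_neg hj, if_neg]
      rintro (h2 | h2)
      · exact hi (Prod.ext_iff.1 (hX h2)).1.symm
      · exact hj (Prod.ext_iff.1 (hX h2)).2
  have h01 : (1 : Fin 3) ≠ 0 := by decide
  have h02 : (2 : Fin 3) ≠ 0 := by decide
  have h03 : (0 : Fin 3) ≠ 2 := by decide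
  have h04 : (1 : Fin 3) ≠ 2 := by decide
  simp only [rq, map_sub, map_mul, map_pow, MvPolynomial.eval_X, map_zero, e, e', if_neg h01, if_neg h02,
    if_neg h03, if_neg h04] at h1
  norm_num at h1

private theorem OA_rf {k : Type} [Field k] {σ : Type} {m : ℕ} (i : Fin 2) (X : Fin 2 × Fin 3 → σ)
    (hX : Function.Injective X) (Y : Fin (m + 1) → σ) (hY : Function.Injective Y)
    (hXY : ∀ a b, X a ≠ Y b) :
    rf (fun j => (MvPolynomial.X (X (i, j)) : MvPolynomial σ k)) (fun j => MvPolynomial.X (Y j)) ≠ 0 := by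
  classical
  intro h
  have h1 := congrArg (MvPolynomial.eval (fun s : σ => if s = X (i, 2) ∨ s = Y 0 then (1 : k) else 0)) h
  rw [show rf (fun j => (MvPolynomial.X (X (i, j)) : MvPolynomial σ k)) (fun j => MvPolynomial.X (Y j)) =
    rs (fun j => (MvPolynomial.X (X (i, j)) : MvPolynomial σ k)) (fun j => MvPolynomial.X (Y j)) from rfl,
    rs_map, map_zero] at h1
  have h2 := rs_one (R := k) (m := m)
    (fun j => MvPolynomial.eval (fun s : σ => if s = X (i, 2) ∨ s = Y 0 then (1 : k) else 0)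
      (MvPolynomial.X (X (i, j))))
    (fun j => MvPolynomial.eval (fun s : σ => if s = X (i, 2) ∨ s = Y 0 then (1 : k) else 0)
      (MvPolynomial.X (Y j))) ?_ ?_
  · rcases h2 with h2 | h2 <;> rw [h1] at h2
    · exact zero_ne_one h2
    · exact one_ne_zero (neg_eq_zero.1 h2.symm)
  · funext j
    rw [MvPolynomial.eval_X]
    by_cases hj : j = 2
    · rw [hj, if_pos (Or.inl rfl)]
      rfl
    · rw [if_neg]
      · fin_cases j
        · rfl
        · rfl
        · exact absurd rfl hj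
      · rintro (h3 | h3)
        · exact hj (Prod.ext_iff.1 (hX h3)).2
        · exact hXY _ _ h3
  · intro j
    rw [MvPolynomial.eval_X]
    by_cases hj : (j : ℕ) = 0
    · have : j = 0 := Fin.ext hj
      rw [if_pos hj, this, if_pos (Or.inr rfl)]
    · rw [if_neg hj, if_neg]
      rintro (h3 | h3)
      · exact hXY _ _ h3.symm
      · exact hj (by rw [hY h3]; rfl)

theorem exists_RT (m : ℕ) : ∃ P : MvPolynomial ((Fin 2 × Fin 3) ⊕ Fin (m + 1)) ℤ, Prim P ∧
    ∀ c : (Fin 2 × Fin 3) ⊕ Fin (m + 1) → ℤ,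
      MvPolynomial.eval c P = RT (fun i j => c (.inl (i, j))) (fun k => c (.inr k)) := by
  classical
  refine ⟨RT (fun i j => MvPolynomial.X (.inl (i, j))) (fun k => MvPolynomial.X (.inr k)), ?_, ?_⟩
  · intro p hp
    have : Fact p.Prime := ⟨hp⟩
    rw [RT_map]
    simp only [MvPolynomial.map_X]
    have hX : Function.Injective (fun a : Fin 2 × Fin 3 => (Sum.inl a : (Fin 2 × Fin 3) ⊕ Fin (m + 1))) :=
      Sum.inl_injective
    have hY : Function.Injective (fun a : Fin (m + 1) => (Sum.inr a : (Fin 2 × Fin 3) ⊕ Fin (m + 1))) :=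
      Sum.inr_injective
    have hXY : ∀ (a : Fin 2 × Fin 3) (b : Fin (m + 1)), (fun a : Fin 2 × Fin 3 =>
      (Sum.inl a : (Fin 2 × Fin 3) ⊕ Fin (m + 1))) a ≠ (fun a : Fin (m + 1) =>
      (Sum.inr a : (Fin 2 × Fin 3) ⊕ Fin (m + 1))) b := fun a b => by simp
    rw [RT]
    refine mul_ne_zero (mul_ne_zero (mul_ne_zero (prod_ne_zero_iff.2 fun i _ => ?_) ?_)
      (prod_ne_zero_iff.2 fun i _ => MvPolynomial.X_ne_zero _)) (prod_ne_zero_iff.2 fun i _ => ?_)
    · exact (OA_dq (k := ZMod p) i (fun a => (Sum.inl a : (Fin 2 × Fin 3) ⊕ Fin (m + 1)))).resolve_right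
        (fun h => h hX)
    · exact OA_rq (k := ZMod p) 0 1 (by decide) _ hX
    · exact OA_rf (k := ZMod p) i _ hX _ hY hXY
  · intro c
    rw [RT_map]
    simp only [MvPolynomial.eval_X]

/-- the box of block O -/
private def OA_h (k m H : ℕ) : (Fin 2 × Fin 3) ⊕ Fin (m + 1) → ℕ := Sum.elim (fun _ => H) (fun _ => H ^ k)

private theorem OA_prod (k m H : ℕ) : ∏ i, ((OA_h k m H i : ℕ) : ℝ) = (H : ℝ) ^ (6 + k * (m + 1)) := by
  rw [Fintype.prod_sum_type]
  have e1 : ∏ a : Fin 2 × Fin 3, ((OA_h k m H (.inl a) : ℕ) : ℝ) = (H : ℝ) ^ 6 := by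
    have h : ∀ a : Fin 2 × Fin 3, ((OA_h k m H (.inl a) : ℕ) : ℝ) = (H : ℝ) := fun a => rfl
    simp only [h, Finset.prod_const, Finset.card_univ, Fintype.card_prod, Fintype.card_fin]
  have e2 : ∏ a : Fin (m + 1), ((OA_h k m H (.inr a) : ℕ) : ℝ) = (H : ℝ) ^ (k * (m + 1)) := by
    have h : ∀ a : Fin (m + 1), ((OA_h k m H (.inr a) : ℕ) : ℝ) = (H : ℝ) ^ k := fun a => by
      show ((H ^ k : ℕ) : ℝ) = _
      push_cast
      rfl
    simp only [h, Finset.prod_const, Finset.card_univ, Fintype.card_fin, ← pow_mul]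
  rw [e1, e2, ← pow_add]

private theorem OA_pow {L a b : ℝ} (hL : 0 ≤ L) (ha : 0 < a) (hab : a ≤ b) : L ^ a ≤ 1 + L ^ b := by
  rcases le_total L 1 with h | h
  · have h1 : L ^ a ≤ 1 := Real.rpow_le_one hL h ha.le
    have h2 : 0 ≤ L ^ b := Real.rpow_nonneg hL b
    linarith
  · have h1 : L ^ a ≤ L ^ b := Real.rpow_le_rpow_of_exponent_le h hab
    linarith

theorem factOT {c : ℝ} (hc : 0 < c) (hc4 : c < 1 / 4) (m k : ℕ) (hk : 1 ≤ k) : ∃ C : ℝ, ∀ H : ℕ, 1 ≤ H →
    (Nat.card {z : (Fin 2 × Fin 3 → ℤ) × (Fin (m + 1) → ℤ) // (∀ i, |z.1 i| ≤ (H : ℤ)) ∧ (∀ i, |z.2 i| ≤ (H : ℤ) ^ k) ∧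
      (RT (fun i j => z.1 (i, j)) z.2 = 0 ∨
        Real.log H ^ (3 * c) < ((RT (fun i j => z.1 (i, j)) z.2).natAbs.primeFactors.card : ℝ))} : ℝ) ≤
      C * (H : ℝ) ^ (6 + k * (m + 1)) * Real.exp (-(Real.log H) ^ c) := by
  classical
  obtain ⟨P, hP, hPe⟩ := exists_RT m
  have hP0 : P ≠ 0 := by
    intro h
    exact hP 2 Nat.prime_two (by rw [h, map_zero])
  obtain ⟨C1, hC1⟩ := few_primes P hP k (3 * c) (by linarith) (by linarith)
  obtain ⟨C2, hC2⟩ := few_zeros P hP0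
  refine ⟨(|C1| + |C2|) * Real.exp 1, fun H hH => ?_⟩
  have hbox : ∀ i, H ≤ OA_h k m H i ∧ OA_h k m H i ≤ H ^ k := by
    rintro (i | i)
    · exact ⟨le_rfl, Nat.le_self_pow (by omega) H⟩
    · exact ⟨Nat.le_self_pow (by omega) H, le_rfl⟩
  have h1 := hC1 H hH (OA_h k m H) hbox
  have h2 := hC2 H hH (OA_h k m H) fun i => (hbox i).1
  rw [OA_prod] at h1 h2
  set L : ℝ := Real.log H with hL
  have hL0 : 0 ≤ L := Real.log_natCast_nonneg H
  have hHr : (1 : ℝ) ≤ H := by exact_mod_cast hH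
  have hexpL : Real.exp (-L) = 1 / H := by
    rw [Real.exp_neg, hL, Real.exp_log (by linarith), one_div]
  set A : Finset ((Fin 2 × Fin 3) ⊕ Fin (m + 1) → ℤ) := (bx (OA_h k m H)).filter fun x => MvPolynomial.eval x P ≠ 0 ∧
    L ^ (3 * c) < ((MvPolynomial.eval x P).natAbs.primeFactors.card : ℝ) with hA
  set B : Finset ((Fin 2 × Fin 3) ⊕ Fin (m + 1) → ℤ) := (bx (OA_h k m H)).filter fun x =>
    MvPolynomial.eval x P = 0 with hB
  have hmem : ∀ z : (Fin 2 × Fin 3 → ℤ) × (Fin (m + 1) → ℤ), ((∀ i, |z.1 i| ≤ (H : ℤ)) ∧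
      (∀ i, |z.2 i| ≤ (H : ℤ) ^ k) ∧ (RT (fun i j => z.1 (i, j)) z.2 = 0 ∨
        L ^ (3 * c) < ((RT (fun i j => z.1 (i, j)) z.2).natAbs.primeFactors.card : ℝ))) →
      (Sum.elim z.1 z.2 : (Fin 2 × Fin 3) ⊕ Fin (m + 1) → ℤ) ∈ A ∪ B := by
    rintro z ⟨hz1, hz2, hz3⟩
    have hb : (Sum.elim z.1 z.2 : (Fin 2 × Fin 3) ⊕ Fin (m + 1) → ℤ) ∈ bx (OA_h k m H) := by
      rw [Fintype.mem_piFinset]
      rintro (i | i)
      · rw [Sum.elim_inl, mem_Icc]
        have := abs_le.1 (hz1 i)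
        exact this
      · rw [Sum.elim_inr, mem_Icc]
        have h := abs_le.1 (hz2 i)
        have e : ((OA_h k m H (.inr i) : ℕ) : ℤ) = (H : ℤ) ^ k := by
          show ((H ^ k : ℕ) : ℤ) = _
          push_cast
          rfl
        rw [e]
        exact h
    have he : MvPolynomial.eval (Sum.elim z.1 z.2 : (Fin 2 × Fin 3) ⊕ Fin (m + 1) → ℤ) P =
        RT (fun i j => z.1 (i, j)) z.2 := by
      rw [hPe]
      rfl
    rw [mem_union, hA, hB, mem_filter, mem_filter, he]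
    by_cases h0 : RT (fun i j => z.1 (i, j)) z.2 = 0
    · exact Or.inr ⟨hb, h0⟩
    · exact Or.inl ⟨hb, h0, hz3.resolve_left h0⟩
  have hcard : (Nat.card {z : (Fin 2 × Fin 3 → ℤ) × (Fin (m + 1) → ℤ) // (∀ i, |z.1 i| ≤ (H : ℤ)) ∧
      (∀ i, |z.2 i| ≤ (H : ℤ) ^ k) ∧ (RT (fun i j => z.1 (i, j)) z.2 = 0 ∨
        L ^ (3 * c) < ((RT (fun i j => z.1 (i, j)) z.2).natAbs.primeFactors.card : ℝ))}) ≤ A.card + B.card := by
    refine le_trans ?_ (card_union_le A B)
    have h3 : Nat.card {x // x ∈ A ∪ B} = (A ∪ B).card := by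
      rw [Nat.card_eq_fintype_card, Fintype.card_coe]
    rw [← h3]
    refine Nat.card_le_card_of_injective (fun z => ⟨Sum.elim z.1.1 z.1.2, hmem z.1 z.2⟩) ?_
    intro z z' hzz
    have h4 : (Sum.elim z.1.1 z.1.2 : (Fin 2 × Fin 3) ⊕ Fin (m + 1) → ℤ) = Sum.elim z'.1.1 z'.1.2 :=
      congrArg Subtype.val hzz
    refine Subtype.ext (Prod.ext ?_ ?_)
    · funext i
      exact congrFun h4 (.inl i)
    · funext i
      exact congrFun h4 (.inr i)
  have hN : (0 : ℝ) ≤ (H : ℝ) ^ (6 + k * (m + 1)) := by positivity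
  have h3 : (A.card : ℝ) ≤ |C1| * (H : ℝ) ^ (6 + k * (m + 1)) * (Real.exp 1 * Real.exp (-L ^ c)) := by
    refine h1.trans ?_
    have h4 : Real.exp (-L ^ (3 * c / 2)) ≤ Real.exp 1 * Real.exp (-L ^ c) := by
      rw [← Real.exp_add]
      refine Real.exp_le_exp.2 ?_
      have := OA_pow hL0 hc (show c ≤ 3 * c / 2 by linarith)
      linarith
    have h5 : C1 * (H : ℝ) ^ (6 + k * (m + 1)) ≤ |C1| * (H : ℝ) ^ (6 + k * (m + 1)) :=
      mul_le_mul_of_nonneg_right (le_abs_self C1) hN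
    exact mul_le_mul h5 h4 (Real.exp_pos _).le (by positivity)
  have h6 : (B.card : ℝ) ≤ |C2| * (H : ℝ) ^ (6 + k * (m + 1)) * (Real.exp 1 * Real.exp (-L ^ c)) := by
    have h7 : (B.card : ℝ) ≤ |C2| * (H : ℝ) ^ (6 + k * (m + 1)) * Real.exp (-L) := by
      rw [hexpL, mul_one_div, le_div_iff₀ (by linarith)]
      exact h2.trans (mul_le_mul_of_nonneg_right (le_abs_self C2) hN)
    refine h7.trans (mul_le_mul_of_nonneg_left ?_ (by positivity))
    rw [← Real.exp_add]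
    refine Real.exp_le_exp.2 ?_
    have := OA_pow hL0 hc (show c ≤ 1 by linarith)
    rw [Real.rpow_one] at this
    linarith
  calc (Nat.card {z : (Fin 2 × Fin 3 → ℤ) × (Fin (m + 1) → ℤ) // (∀ i, |z.1 i| ≤ (H : ℤ)) ∧
      (∀ i, |z.2 i| ≤ (H : ℤ) ^ k) ∧ (RT (fun i j => z.1 (i, j)) z.2 = 0 ∨
        L ^ (3 * c) < ((RT (fun i j => z.1 (i, j)) z.2).natAbs.primeFactors.card : ℝ))} : ℝ)
      ≤ (A.card : ℝ) + B.card := by exact_mod_cast hcard
    _ ≤ (|C1| + |C2|) * Real.exp 1 * (H : ℝ) ^ (6 + k * (m + 1)) * Real.exp (-L ^ c) := by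
      nlinarith [h3, h6]

end HT
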