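import Mathlib

/-!
# The choice of the parameters
-/

set_option autoImplicit false

namespace HT

open Filter

private theorem SJ_log (C δ : ℝ) (n : ℕ) (hδ : 0 < δ) :
    ∀ᶠ x : ℝ in atTop, C * Real.log x ^ n ≤ x ^ δ := by
  have h := (isLittleO_log_rpow_rpow_atTop (n : ℝ) hδ).bound (c := 1 / (|C| + 1)) (by positivity)
  filter_upwards [h, eventually_ge_atTop 1] with x hx h1
  have h0 : 0 ≤ Real.log x := Real.log_nonneg h1
  rw [Real.rpow_natCast, Real.norm_of_nonneg (by positivity),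
    Real.norm_of_nonneg (by positivity)] at hx
  have h2 : C * Real.log x ^ n ≤ (|C| + 1) * Real.log x ^ n :=
    mul_le_mul_of_nonneg_right (by linarith [le_abs_self C]) (by positivity)
  have h3 : (|C| + 1) * Real.log x ^ n ≤ (|C| + 1) * (1 / (|C| + 1) * x ^ δ) :=
    mul_le_mul_of_nonneg_left hx (by positivity)
  have h4 : (|C| + 1) * (1 / (|C| + 1) * x ^ δ) = x ^ δ := by
    field_simp
  linarith

private theorem SJ_ge (C δ : ℝ) (hδ : 0 < δ) : ∀ᶠ x : ℝ in atTop, C ≤ x ^ δ :=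
  (tendsto_rpow_atTop hδ).eventually_ge_atTop C

private theorem SJ_clog {X : ℕ} (hX : 1 ≤ X) (hl : 4 ≤ Real.log X) :
    (Nat.clog 2 (3 * X) : ℝ) ≤ 4 * Real.log X := by
  have hx : (0 : ℝ) < X := by exact_mod_cast hX
  have h1 : 2 ^ (Nat.clog 2 (3 * X)).pred < 3 * X := Nat.pow_pred_clog_lt_self (by norm_num) (by omega)
  have h2 : (2 : ℝ) ^ (Nat.clog 2 (3 * X)).pred < 3 * X := by exact_mod_cast h1
  have h3 := Real.log_lt_log (by positivity) h2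
  rw [Real.log_pow, Real.log_mul (by norm_num) (by positivity)] at h3
  have h4 : (Nat.clog 2 (3 * X) : ℝ) ≤ (Nat.clog 2 (3 * X)).pred + 1 := by
    exact_mod_cast Nat.le_succ_of_pred_le le_rfl
  have h5 := Real.log_two_gt_d9
  have h6 : Real.log 3 ≤ 2 := by
    have h7 := Real.log_le_sub_one_of_pos (show (0 : ℝ) < 3 by norm_num)
    linarith
  have h7 : (0 : ℝ) ≤ ((Nat.clog 2 (3 * X)).pred : ℝ) := Nat.cast_nonneg _
  nlinarith

private theorem SJ_div (X n : ℕ) (hn : 0 < n) : 3 * X ≤ (3 * X / n + 1) * n := by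
  have h1 := Nat.div_add_mod (3 * X) n
  have h2 := Nat.mod_lt (3 * X) hn
  nlinarith

private theorem SJ_loss {x l a g U t e Y w v : ℝ} (hx : 0 < x) (hl : 0 < l) (ha : 1 ≤ a) (hg : 0 < g)
    (hU : a * a / 2 ≤ U) (ht : t + 1 ≤ 2 * a) (_ : 0 ≤ t) (he0 : 0 ≤ e) (he : e ≤ 4 * l)
    (hY0 : 0 ≤ Y) (hY : Y * U ≤ 4 * x) (h1 : 768 / g * l ^ 6 ≤ a) (hw0 : 0 ≤ w) (hw : 2 * w ≤ a + 2) (hv : v ≤ a)
    (h2 : 10 * a * l ^ 5 ≤ g * x / 2) :
    3 * (w + 1) * Real.log 2 + 3 * (t + 1) * e * Y * Real.log 4 + w * Real.log (5 / 4) + v ≤ g * x / l ^ 5 := by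
  have h4 : Real.log 4 ≤ 2 := by
    have h5 : Real.log 4 = 2 * Real.log 2 := by
      rw [show (4 : ℝ) = 2 ^ 2 by norm_num, Real.log_pow]
      norm_num
    have h6 := Real.log_two_lt_d9
    linarith
  have h4' : 0 ≤ Real.log 4 := Real.log_nonneg (by norm_num)
  have hl2 : Real.log 2 ≤ 1 := by
    have h6 := Real.log_two_lt_d9
    linarith
  have hl5 : Real.log (5 / 4) ≤ 1 := by
    have h7 := Real.log_le_sub_one_of_pos (show (0 : ℝ) < 5 / 4 by norm_num)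
    linarith
  have hU0 : 0 < U := lt_of_lt_of_le (by positivity) hU
  have h3 : 768 * l ^ 6 ≤ g * a := by
    have h3 := mul_le_mul_of_nonneg_left h1 hg.le
    have h5 : g * (768 / g * l ^ 6) = 768 * l ^ 6 := by field_simp
    linarith
  have h6 : 3 * (w + 1) * Real.log 2 + w * Real.log (5 / 4) + v ≤ 10 * a := by
    have k1 : 3 * (w + 1) * Real.log 2 ≤ 3 * (w + 1) * 1 := by gcongr
    have k2 : w * Real.log (5 / 4) ≤ w * 1 := by gcongr
    linarith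
  have h7 : 3 * (t + 1) * e * Y * Real.log 4 * l ^ 5 * U ≤ (g * x / 2) * U := by
    calc 3 * (t + 1) * e * Y * Real.log 4 * l ^ 5 * U
        ≤ 3 * (2 * a) * (4 * l) * Y * 2 * l ^ 5 * U := by gcongr
      _ = 48 * a * l ^ 6 * (Y * U) := by ring
      _ ≤ 48 * a * l ^ 6 * (4 * x) := by gcongr
      _ = (768 * l ^ 6) * (a * x / 4) := by ring
      _ ≤ (g * a) * (a * x / 4) := by gcongr
      _ = (g * x / 2) * (a * a / 2) := by ring
      _ ≤ (g * x / 2) * U := by gcongr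
  have h8 : 3 * (t + 1) * e * Y * Real.log 4 * l ^ 5 ≤ g * x / 2 := le_of_mul_le_mul_right h7 hU0
  rw [le_div_iff₀ (by positivity)]
  have h9 : (3 * (w + 1) * Real.log 2 + w * Real.log (5 / 4) + v) * l ^ 5 ≤ 10 * a * l ^ 5 := by gcongr
  nlinarith

private theorem SJ_X (K₁ : ℕ) : ∃ c₀ : ℝ, 0 < c₀ ∧ c₀ ≤ 1 / 64 ∧ ∀ (K g : ℝ) (C₀ : ℕ), 1 ≤ K → 0 < g →
    ∀ᶠ X : ℕ in atTop, ∃ U t e Y w : ℕ,
    1 ≤ U ∧ K₁ ≤ U ∧ (U : ℝ) ^ K₁ ≤ X / K ∧ (K₁ : ℝ) * Real.log X ≤ U ∧ 3 * X ≤ 2 ^ e ∧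
    4 * U ≤ Y ∧ 3 * X ≤ Y * U ∧ (4 * (X : ℝ) + 4) ^ (3 * c₀) ≤ w ∧ (w : ℝ) ≤ (X : ℝ) ^ (1 / 8 : ℝ) ∧
    2 * w + C₀ + 4 ≤ t ∧
    3 * ((w : ℝ) + 1) * Real.log 2 + 3 * ((t : ℝ) + 1) * e * Y * Real.log 4 + w * Real.log (5 / 4) +
      (4 * (X : ℝ) + 4) ^ c₀ ≤ g * X / (Real.log X) ^ 5 := by
  obtain ⟨s, hs⟩ : ∃ s : ℝ, s = 1 / (8 * ((K₁ : ℝ) + 1)) := ⟨_, rfl⟩
  have hK1 : (0 : ℝ) ≤ K₁ := Nat.cast_nonneg _
  have hs0 : 0 < s := by
    rw [hs]
    positivity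
  have hs1 : s * (8 * ((K₁ : ℝ) + 1)) = 1 := by
    rw [hs]
    field_simp
  have hs8 : s ≤ 1 / 8 := by nlinarith
  have hsK : 2 * s * K₁ ≤ 1 / 4 := by nlinarith
  refine ⟨s / 8, by positivity, by linarith, fun K g C₀ hK hg => ?_⟩
  have hnat := tendsto_natCast_atTop_atTop (R := ℝ)
  filter_upwards [hnat.eventually (SJ_ge (K₁ + C₀ + 7) s hs0), hnat.eventually (SJ_ge K (3 / 4) (by norm_num)),
    hnat.eventually (SJ_ge 4 (1 / 4) (by norm_num)), hnat.eventually (SJ_log (768 / g) s 6 hs0),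
    hnat.eventually (SJ_log (20 / g) (1 / 4) 5 (by norm_num)), hnat.eventually (SJ_log K₁ s 1 hs0),
    hnat.eventually (SJ_ge 2 (s / 4) (by positivity)), hnat.eventually (eventually_ge_atTop 100),
    hnat.eventually (Real.tendsto_log_atTop.eventually_ge_atTop 4)]
    with X A1 A2 A3 A4 A5 A6 A7 A8 A9
  obtain ⟨x, hx⟩ : ∃ x : ℝ, x = X := ⟨_, rfl⟩
  rw [← hx] at A1 A2 A3 A4 A5 A6 A7 A8
  have hx0 : 0 < x := by linarith
  have hx1 : 1 ≤ x := by linarith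
  have hX1 : 1 ≤ X := by
    have h1 : (1 : ℝ) ≤ X := by rw [← hx]; exact hx1
    exact_mod_cast h1
  obtain ⟨a, ha⟩ : ∃ a : ℝ, a = x ^ s := ⟨_, rfl⟩
  have haa : x ^ (2 * s) = a * a := by
    rw [ha, ← Real.rpow_add hx0]
    congr 1
    ring
  have hC0 : (0 : ℝ) ≤ C₀ := Nat.cast_nonneg _
  have ha4 : (K₁ : ℝ) + C₀ + 7 ≤ a := by rw [ha]; exact A1
  have ha0 : 0 < a := by linarith
  have hUle : ((⌊a * a⌋₊ : ℕ) : ℝ) ≤ a * a := Nat.floor_le (by positivity)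
  have hUlt : a * a - 1 < ((⌊a * a⌋₊ : ℕ) : ℝ) := Nat.sub_one_lt_floor _
  obtain ⟨U, hU⟩ : ∃ U : ℕ, U = ⌊a * a⌋₊ := ⟨_, rfl⟩
  rw [← hU] at hUle hUlt
  have hU2 : a * a / 2 ≤ U := by nlinarith
  have hUa : a ≤ U := by nlinarith
  have hUK : (K₁ : ℝ) ≤ U := by linarith
  have hU1 : (1 : ℝ) ≤ U := by linarith
  have hU1' : 1 ≤ U := by exact_mod_cast hU1
  have hq : x ^ (1 / 4 : ℝ) * x ^ (3 / 4 : ℝ) = x := by
    rw [← Real.rpow_add hx0]
    norm_num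
  have hpw : ∀ n : ℕ, 2 * s * n ≤ 3 / 4 → (U : ℝ) ^ n ≤ x ^ (3 / 4 : ℝ) := by
    intro n hn
    calc (U : ℝ) ^ n ≤ (a * a) ^ n := by gcongr
      _ = x ^ (2 * s * n) := by rw [← haa, ← Real.rpow_natCast, ← Real.rpow_mul hx0.le]
      _ ≤ x ^ (3 / 4 : ℝ) := Real.rpow_le_rpow_of_exponent_le hx1 hn
  have hpK : (U : ℝ) ^ K₁ ≤ x ^ (1 / 4 : ℝ) := by
    calc (U : ℝ) ^ K₁ ≤ (a * a) ^ K₁ := by gcongr
      _ = x ^ (2 * s * K₁) := by rw [← haa, ← Real.rpow_natCast, ← Real.rpow_mul hx0.le]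
      _ ≤ x ^ (1 / 4 : ℝ) := Real.rpow_le_rpow_of_exponent_le hx1 hsK
  have hU22 : 4 * (U : ℝ) ^ 2 ≤ x := by
    have h1 := hpw 2 (by push_cast; linarith)
    have h2 : 0 ≤ x ^ (3 / 4 : ℝ) := by positivity
    nlinarith
  have h44 : 4 * x + 4 ≤ x ^ (2 : ℝ) := by
    rw [Real.rpow_two]
    nlinarith
  have hv : (4 * x + 4) ^ (s / 8) ≤ a := by
    calc (4 * x + 4) ^ (s / 8) ≤ (x ^ (2 : ℝ)) ^ (s / 8) :=
          Real.rpow_le_rpow (by positivity) h44 (by positivity)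
      _ = x ^ (2 * (s / 8)) := by rw [← Real.rpow_mul hx0.le]
      _ ≤ x ^ s := Real.rpow_le_rpow_of_exponent_le hx1 (by linarith)
      _ = a := ha.symm
  have hb : (4 * x + 4) ^ (3 * (s / 8)) ≤ a / 2 := by
    have h1 : (4 * x + 4) ^ (3 * (s / 8)) ≤ x ^ (3 * s / 4) := by
      calc (4 * x + 4) ^ (3 * (s / 8)) ≤ (x ^ (2 : ℝ)) ^ (3 * (s / 8)) :=
            Real.rpow_le_rpow (by positivity) h44 (by positivity)
        _ = x ^ (3 * s / 4) := by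
            rw [← Real.rpow_mul hx0.le]
            congr 1
            ring
    have h2 : x ^ (s / 4) * x ^ (3 * s / 4) = a := by
      rw [ha, ← Real.rpow_add hx0]
      congr 1
      ring
    have h3 : 0 ≤ x ^ (3 * s / 4) := by positivity
    nlinarith
  obtain ⟨w, hw⟩ : ∃ w : ℕ, w = ⌈(4 * x + 4) ^ (3 * (s / 8))⌉₊ := ⟨_, rfl⟩
  have hw1 : (4 * x + 4) ^ (3 * (s / 8)) ≤ w := by
    rw [hw]
    exact Nat.le_ceil _
  have hw2 : (w : ℝ) < (4 * x + 4) ^ (3 * (s / 8)) + 1 := by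
    rw [hw]
    exact Nat.ceil_lt_add_one (by positivity)
  have hl : 0 < Real.log x := by
    rw [hx]
    linarith
  have he : (Nat.clog 2 (3 * X) : ℝ) ≤ 4 * Real.log x := by
    rw [hx]
    exact SJ_clog hX1 A9
  have hwg : 10 * a * Real.log x ^ 5 ≤ g * x / 2 := by
    have h2 : a ≤ x ^ (1 / 4 : ℝ) := by
      rw [ha]
      exact Real.rpow_le_rpow_of_exponent_le hx1 (by linarith)
    have h3 : 10 * Real.log x ^ 5 ≤ g / 2 * x ^ (1 / 4 : ℝ) := by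
      have h4 := mul_le_mul_of_nonneg_left A5 (show 0 ≤ g / 2 by positivity)
      have h5 : g / 2 * (20 / g * Real.log x ^ 5) = 10 * Real.log x ^ 5 := by
        field_simp
        ring
      linarith
    have h4 : x ^ (1 / 4 : ℝ) * x ^ (1 / 4 : ℝ) ≤ x := by
      rw [← Real.rpow_add hx0]
      calc x ^ (1 / 4 + 1 / 4 : ℝ) ≤ x ^ (1 : ℝ) := Real.rpow_le_rpow_of_exponent_le hx1 (by norm_num)
        _ = x := Real.rpow_one x
    calc 10 * a * Real.log x ^ 5 = a * (10 * Real.log x ^ 5) := by ring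
      _ ≤ x ^ (1 / 4 : ℝ) * (g / 2 * x ^ (1 / 4 : ℝ)) := by gcongr
      _ = g / 2 * (x ^ (1 / 4 : ℝ) * x ^ (1 / 4 : ℝ)) := by ring
      _ ≤ g / 2 * x := by gcongr
      _ = g * x / 2 := by ring
  have hYle : ((3 * X / U + 1 : ℕ) : ℝ) * U ≤ 4 * x := by
    have h1 : ((3 * X / U * U : ℕ) : ℝ) ≤ 3 * x := by
      rw [hx]
      exact_mod_cast Nat.div_mul_le_self (3 * X) U
    push_cast at h1 ⊢
    have h2 : (U : ℝ) ≤ x := by nlinarith
    linarith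
  have h4U : 4 * U ≤ 3 * X / U + 1 := by
    have h1 : 4 * U ≤ 3 * X / U := by
      rw [Nat.le_div_iff_mul_le (by omega)]
      have h2 : (4 * (U : ℝ) * U) ≤ 3 * X := by
        rw [← hx]
        nlinarith
      exact_mod_cast h2
    omega
  refine ⟨U, 2 * w + C₀ + 4, Nat.clog 2 (3 * X), 3 * X / U + 1, w, hU1', by exact_mod_cast hUK, ?_, ?_,
    Nat.le_pow_clog (by norm_num) _, h4U, SJ_div X U (by omega), ?_, ?_, le_rfl, ?_⟩
  · rw [← hx, le_div_iff₀ (by linarith)]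
    calc (U : ℝ) ^ K₁ * K ≤ x ^ (1 / 4 : ℝ) * x ^ (3 / 4 : ℝ) := by gcongr
      _ = x := hq
  · rw [pow_one] at A6
    rw [← hx]
    refine A6.trans ?_
    rw [← ha]
    exact hUa
  · rw [← hx]
    exact hw1
  · rw [← hx]
    have h1 : (w : ℝ) ≤ a := by linarith
    refine h1.trans ?_
    rw [ha]
    exact Real.rpow_le_rpow_of_exponent_le hx1 hs8
  · rw [← hx]
    refine SJ_loss hx0 hl (by linarith) hg hU2 ?_ (by positivity) (by positivity) he (by positivity) hYle ?_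
      (by positivity) (by linarith) hv hwg
    · push_cast
      linarith
    · rw [ha]
      exact A4


/-- the second group of parameters: `T` and `z` -/
private theorem SJ_T {g C : ℝ} (hg : 0 < g) (hC : 1 ≤ C) : ∃ δ : ℝ, 0 < δ ∧ ∀ c₀ : ℝ, 0 < c₀ → c₀ ≤ 1 / 64 →
    ∀ᶠ X : ℕ in atTop, ∀ w : ℕ, (w : ℝ) ≤ (X : ℝ) ^ (1 / 8 : ℝ) → ∀ L : ℝ, 2 * (X : ℝ) ≤ L → L ≤ 4 * (X : ℝ) + 4 →
    ∃ T z : ℕ, 1 ≤ z ∧ δ * X / (Real.log X) ^ 5 ≤ T * Real.log (5 / 4) ∧ Real.log C + 10 * T * Real.log X ≤ L ∧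
      6 * (w * Real.log z + 10 * T * Real.log X) + 10 * T + L ^ c₀ ≤ g * X / (Real.log X) ^ 4 ∧
      ((w : ℝ) + 1) / z ≤ Real.exp (-L ^ c₀) ∧
      w * Real.log 64 + 2 * Real.log (1 + L) + L ^ c₀ ≤ T * Real.log 2 := by
  obtain ⟨d, hd⟩ : ∃ d : ℝ, d = min (g / 200) (1 / 20) := ⟨_, rfl⟩
  have hd0 : 0 < d := by
    rw [hd]
    positivity
  have hdg : d ≤ g / 200 := by
    rw [hd]
    exact min_le_left _ _
  have hd20 : d ≤ 1 / 20 := by
    rw [hd]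
    exact min_le_right _ _
  refine ⟨d / 10, by positivity, fun c₀ hc₀ hc₁ => ?_⟩
  have hnat := tendsto_natCast_atTop_atTop (R := ℝ)
  filter_upwards [hnat.eventually (SJ_log (38 / g) (1 / 8) 4 (by norm_num)),
    hnat.eventually (SJ_log (40 / d) (1 / 8) 5 (by norm_num)), hnat.eventually (SJ_log 1 (1 / 8) 1 (by norm_num)),
    hnat.eventually (SJ_ge 3 (1 / 8) (by norm_num)), hnat.eventually (eventually_ge_atTop (100 + Real.log C)),
    hnat.eventually (Real.tendsto_log_atTop.eventually_ge_atTop 4)] with X A1 A2 A3 A4 A5 A6 w hw L hL1 hL2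
  obtain ⟨x, hx⟩ : ∃ x : ℝ, x = X := ⟨_, rfl⟩
  obtain ⟨l, hl⟩ : ∃ l : ℝ, l = Real.log x := ⟨_, rfl⟩
  obtain ⟨a, ha⟩ : ∃ a : ℝ, a = x ^ (1 / 8 : ℝ) := ⟨_, rfl⟩
  have hlX : Real.log (X : ℝ) = l := by rw [hl, hx]
  have haX : (X : ℝ) ^ (1 / 8 : ℝ) = a := by rw [ha, hx]
  rw [hlX] at A1 A2 A3 A6 ⊢
  rw [haX] at A1 A2 A3 A4 hw
  rw [← hx] at hL1 hL2 A5 ⊢
  have hlC : 0 ≤ Real.log C := Real.log_nonneg hC
  have hx100 : 100 ≤ x := by linarith
  have hx0 : 0 < x := by linarith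
  have ha8 : x = a ^ 8 := by
    rw [ha, ← Real.rpow_natCast, ← Real.rpow_mul hx0.le]
    norm_num
  have ha0 : 0 < a := by linarith
  have ha1 : 1 ≤ a := by linarith
  have hl0 : 0 < l := by linarith
  have hl5 : 0 < l ^ 5 := by positivity
  have hl4 : 0 < l ^ 4 := by positivity
  have hw0 : (0 : ℝ) ≤ w := Nat.cast_nonneg w
  -- the numbers
  obtain ⟨T, hT⟩ : ∃ T : ℕ, T = ⌊d * x / l ^ 5⌋₊ := ⟨_, rfl⟩
  obtain ⟨z, hz⟩ : ∃ z : ℕ, z = ⌊Real.exp (Real.sqrt L)⌋₊ := ⟨_, rfl⟩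
  have hT1 : (T : ℝ) ≤ d * x / l ^ 5 := by
    rw [hT]
    exact Nat.floor_le (by positivity)
  have hT2 : d * x / l ^ 5 < (T : ℝ) + 1 := by
    rw [hT]
    exact Nat.lt_floor_add_one _
  have hT0 : (0 : ℝ) ≤ T := Nat.cast_nonneg T
  have hA2 : 40 * l ^ 5 ≤ d * a := by
    have h1 := mul_le_mul_of_nonneg_left A2 hd0.le
    have h2 : d * (40 / d * l ^ 5) = 40 * l ^ 5 := by field_simp
    linarith
  have hA1 : 38 * l ^ 4 ≤ g * a := by
    have h1 := mul_le_mul_of_nonneg_left A1 hg.le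
    have h2 : g * (38 / g * l ^ 4) = 38 * l ^ 4 := by field_simp
    linarith
  have hq : 40 * a ≤ d * x / l ^ 5 := by
    rw [le_div_iff₀ hl5]
    have h1 : a ^ 2 ≤ a ^ 8 := pow_le_pow_right₀ ha1 (by norm_num)
    calc 40 * a * l ^ 5 = (40 * l ^ 5) * a := by ring
      _ ≤ (d * a) * a := by gcongr
      _ = d * a ^ 2 := by ring
      _ ≤ d * a ^ 8 := by gcongr
      _ = d * x := by rw [ha8]
  have hT3 : d * x / l ^ 5 / 2 ≤ (T : ℝ) := by linarith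
  have hT4 : 20 * a ≤ (T : ℝ) := by linarith
  have hTl : (T : ℝ) * l ≤ d * x / l ^ 4 := by
    calc (T : ℝ) * l ≤ d * x / l ^ 5 * l := by gcongr
      _ = d * x / l ^ 4 := by
        field_simp
  have hL0 : 0 < L := by linarith
  have hsq1 : Real.sqrt L ≤ 3 * a ^ 4 := by
    rw [Real.sqrt_le_iff]
    refine ⟨by positivity, ?_⟩
    have h1 : (3 * a ^ 4) ^ 2 = 9 * x := by
      rw [ha8]
      ring
    rw [h1]
    linarith
  have hsq2 : a ^ 4 ≤ Real.sqrt L := by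
    refine Real.le_sqrt_of_sq_le ?_
    have h1 : (a ^ 4) ^ 2 = x := by
      rw [ha8]
      ring
    rw [h1]
    linarith
  have hLc0 : 0 ≤ L ^ c₀ := Real.rpow_nonneg hL0.le _
  have hLc : L ^ c₀ ≤ a := by
    have h1 : L ≤ x ^ (2 : ℝ) := by
      rw [Real.rpow_two]
      nlinarith
    calc L ^ c₀ ≤ (x ^ (2 : ℝ)) ^ c₀ := Real.rpow_le_rpow hL0.le h1 hc₀.le
      _ = x ^ (2 * c₀) := by rw [← Real.rpow_mul hx0.le]
      _ ≤ x ^ (1 / 8 : ℝ) := Real.rpow_le_rpow_of_exponent_le (by linarith) (by linarith)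
      _ = a := ha.symm
  have ha34 : 3 * a ≤ a ^ 4 := by
    have h1 : (3 : ℝ) ≤ a ^ 3 := A4.trans (by
      calc a = a ^ 1 := (pow_one a).symm
        _ ≤ a ^ 3 := pow_le_pow_right₀ ha1 (by norm_num))
    calc 3 * a ≤ a ^ 3 * a := by gcongr
      _ = a ^ 4 := by ring
  have hs1 : 1 ≤ Real.sqrt L := by linarith
  have hexp : 2 ≤ Real.exp (Real.sqrt L) := by
    have := Real.add_one_le_exp (Real.sqrt L)
    linarith
  have hz1 : (z : ℝ) ≤ Real.exp (Real.sqrt L) := by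
    rw [hz]
    exact Nat.floor_le (Real.exp_pos _).le
  have hz2 : Real.exp (Real.sqrt L) < (z : ℝ) + 1 := by
    rw [hz]
    exact Nat.lt_floor_add_one _
  have hz3 : Real.exp (Real.sqrt L) / 2 ≤ (z : ℝ) := by linarith
  have hz4 : (1 : ℝ) ≤ z := by linarith
  have hlz : Real.log z ≤ Real.sqrt L := by
    have h1 := Real.log_le_log (by linarith) hz1
    rwa [Real.log_exp] at h1
  have hlz0 : 0 ≤ Real.log z := Real.log_nonneg hz4
  have h54 : 1 / 5 ≤ Real.log (5 / 4) := by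
    have h1 := Real.one_sub_inv_le_log_of_pos (show (0 : ℝ) < 5 / 4 by norm_num)
    norm_num at h1
    linarith
  refine ⟨T, z, by exact_mod_cast hz4, ?_, ?_, ?_, ?_, ?_⟩
  · calc d / 10 * x / l ^ 5 = d * x / l ^ 5 / 2 * (1 / 5) := by ring
      _ ≤ T * Real.log (5 / 4) := by gcongr
  · have h1 : d * x / l ^ 4 ≤ 1 / 20 * x := by
      rw [div_le_iff₀ hl4]
      have h2 : (1 : ℝ) ≤ l ^ 4 := one_le_pow₀ (by linarith)
      calc d * x ≤ 1 / 20 * x := by gcongr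
        _ ≤ 1 / 20 * x * l ^ 4 := le_mul_of_one_le_right (by positivity) h2
    have h3 : 10 * (T : ℝ) * l = 10 * (T * l) := by ring
    rw [h3]
    linarith
  · have h1 : (w : ℝ) * Real.log z ≤ 3 * a ^ 5 := by
      calc (w : ℝ) * Real.log z ≤ a * (3 * a ^ 4) := by
            gcongr
            exact hlz.trans hsq1
        _ = 3 * a ^ 5 := by ring
    have h2 : a ≤ a ^ 5 := by
      calc a = a ^ 1 := (pow_one a).symm
        _ ≤ a ^ 5 := pow_le_pow_right₀ ha1 (by norm_num)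
    have h3 : 19 * a ^ 5 ≤ g / 2 * x / l ^ 4 := by
      rw [le_div_iff₀ hl4]
      have h4 : a ^ 6 ≤ a ^ 8 := pow_le_pow_right₀ ha1 (by norm_num)
      calc 19 * a ^ 5 * l ^ 4 = (38 * l ^ 4) * a ^ 5 / 2 := by ring
        _ ≤ (g * a) * a ^ 5 / 2 := by gcongr
        _ = g / 2 * a ^ 6 := by ring
        _ ≤ g / 2 * a ^ 8 := by gcongr
        _ = g / 2 * x := by rw [ha8]
    have h5 : d * x / l ^ 4 ≤ g / 200 * x / l ^ 4 := by gcongr
    have h6 : (T : ℝ) ≤ T * l := le_mul_of_one_le_right hT0 (by linarith)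
    have h7 : g * x / l ^ 4 = g / 2 * x / l ^ 4 + 100 * (g / 200 * x / l ^ 4) := by ring
    have h8 : 0 ≤ g / 200 * x / l ^ 4 := by positivity
    rw [h7]
    have h9 : 6 * ((w : ℝ) * Real.log z + 10 * T * l) = 6 * (w * Real.log z) + 60 * (T * l) := by ring
    rw [h9]
    linarith
  · have h1 : ((w : ℝ) + 1) / z ≤ 2 * ((w : ℝ) + 1) * Real.exp (-Real.sqrt L) := by
      rw [div_le_iff₀ (by linarith)]
      have h2 : Real.exp (-Real.sqrt L) * Real.exp (Real.sqrt L) = 1 := by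
        rw [← Real.exp_add]
        simp
      have h3 : (1 : ℝ) ≤ 2 * Real.exp (-Real.sqrt L) * z := by
        calc (1 : ℝ) = 2 * Real.exp (-Real.sqrt L) * (Real.exp (Real.sqrt L) / 2) := by
              linear_combination -h2
          _ ≤ 2 * Real.exp (-Real.sqrt L) * z := by gcongr
      calc (w : ℝ) + 1 ≤ ((w : ℝ) + 1) * (2 * Real.exp (-Real.sqrt L) * z) := le_mul_of_one_le_right (by positivity) h3
        _ = 2 * ((w : ℝ) + 1) * Real.exp (-Real.sqrt L) * z := by ring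
    refine h1.trans ?_
    have h2 : (2 : ℝ) ≤ Real.exp 1 := by
      have := Real.add_one_le_exp (1 : ℝ)
      linarith
    have h3 : (w : ℝ) + 1 ≤ Real.exp w := Real.add_one_le_exp _
    calc 2 * ((w : ℝ) + 1) * Real.exp (-Real.sqrt L) ≤ Real.exp 1 * Real.exp w * Real.exp (-Real.sqrt L) := by gcongr
      _ = Real.exp (1 + w + -Real.sqrt L) := by rw [Real.exp_add, Real.exp_add]
      _ ≤ Real.exp (-L ^ c₀) := Real.exp_le_exp.2 (by linarith)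
  · have h1 : Real.log 64 ≤ 5 := by
      have h2 : Real.log 64 = 6 * Real.log 2 := by
        rw [show (64 : ℝ) = 2 ^ 6 by norm_num, Real.log_pow]
        norm_num
      have h3 := Real.log_two_lt_d9
      linarith
    have h2 : Real.log (1 + L) ≤ 2 * l := by
      have h3 : Real.log (1 + L) ≤ Real.log (x ^ 2) := by
        refine Real.log_le_log (by linarith) ?_
        nlinarith
      rw [Real.log_pow] at h3
      rw [hl]
      exact_mod_cast h3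
    have h4 : (w : ℝ) * Real.log 64 ≤ a * 5 := by
      have : 0 ≤ Real.log 64 := Real.log_nonneg (by norm_num)
      gcongr
    have h5 : 1 / 2 ≤ Real.log 2 := by
      have := Real.log_two_gt_d9
      linarith
    have h6 : (T : ℝ) * (1 / 2) ≤ T * Real.log 2 := by gcongr
    rw [pow_one, one_mul] at A3
    linarith

/-- the parameters -/
theorem par_T (K₁ : ℕ) : ∃ c₀ : ℝ, 0 < c₀ ∧ c₀ < 1 / 4 ∧ ∀ (K g C : ℝ) (C₀ : ℕ), 1 ≤ K → 0 < g → 1 ≤ C → ∀ x₀ : ℝ,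
    ∃ H₀ : ℕ, ∀ H : ℕ, H₀ ≤ H → ∃ X U t e Y w T z : ℕ, x₀ ≤ X ∧ 4 ^ X ≤ H ∧ (29 : ℝ) ≤ X / K ∧
    1 ≤ U ∧ K₁ ≤ U ∧ (U : ℝ) ^ K₁ ≤ X / K ∧ (K₁ : ℝ) * Real.log X ≤ U ∧ 3 * X ≤ 2 ^ e ∧
    4 * U ≤ Y ∧ 3 * X ≤ Y * U ∧ (Real.log H) ^ (3 * c₀) ≤ w ∧ 2 * w + C₀ + 4 ≤ t ∧ 1 ≤ z ∧
    2 * ((w : ℝ) + 1) * Real.log 2 + ((t : ℝ) + 1) * e * Y * Real.log 4 + w * Real.log (5 / 4) +
      (Real.log H) ^ c₀ ≤ T * Real.log (5 / 4) ∧
    C * (X : ℝ) ^ (10 * T) ≤ H ∧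
    6 * (w * Real.log z + 10 * T * Real.log X) + 10 * T + (Real.log H) ^ c₀ ≤ g * X / (Real.log X) ^ 4 ∧
    ((w : ℝ) + 1) / z ≤ Real.exp (-(Real.log H) ^ c₀) ∧
    w * Real.log 64 + 2 * Real.log (1 + Real.log H) + (Real.log H) ^ c₀ ≤ T * Real.log 2 := by
  obtain ⟨c₀, hc₀, hc₁, hpar⟩ := SJ_X K₁
  refine ⟨c₀, hc₀, by linarith, fun K g C C₀ hK hg hC x₀ => ?_⟩
  obtain ⟨δ, hδ, hTz⟩ := SJ_T hg hC
  have hlim : Tendsto (fun H : ℕ => ⌊Real.log (H : ℝ) / 2⌋₊) atTop atTop := by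
    refine tendsto_nat_floor_atTop.comp ?_
    exact (Real.tendsto_log_atTop.comp tendsto_natCast_atTop_atTop).atTop_div_const (by norm_num)
  have hX1 : ∀ᶠ X : ℕ in atTop, x₀ ≤ (X : ℝ) := tendsto_natCast_atTop_atTop.eventually_ge_atTop x₀
  have hX2 : ∀ᶠ X : ℕ in atTop, 29 * K ≤ (X : ℝ) := tendsto_natCast_atTop_atTop.eventually_ge_atTop (29 * K)
  have hX3 : ∀ᶠ X : ℕ in atTop, 1 ≤ X := eventually_ge_atTop 1
  have hall := hlim.eventually (((((hpar K δ C₀ hK hδ).and (hTz c₀ hc₀ hc₁)).and hX1).and hX2).and hX3)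
  obtain ⟨H₀, hH₀⟩ := eventually_atTop.1 hall
  refine ⟨max H₀ 1, fun H hH => ?_⟩
  have hH1 : 1 ≤ H := le_trans (le_max_right _ _) hH
  obtain ⟨⟨⟨⟨⟨U, t, e, Y, w, h1, h2, h3, h4, h5, h6, h7, h8, h8', h9, h10⟩, h11⟩, h12⟩, h13⟩, h14⟩ :=
    hH₀ H (le_trans (le_max_left _ _) hH)
  have hHpos : (0 : ℝ) < H := by exact_mod_cast hH1
  have hlog0 : 0 ≤ Real.log H := Real.log_nonneg (by exact_mod_cast hH1)
  set X : ℕ := ⌊Real.log (H : ℝ) / 2⌋₊ with hX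
  have hXle : (X : ℝ) ≤ Real.log H / 2 := Nat.floor_le (by positivity)
  have hXlt : Real.log H / 2 < (X : ℝ) + 1 := Nat.lt_floor_add_one _
  have hlog4 : Real.log 4 ≤ 2 := by
    have : Real.log 4 = 2 * Real.log 2 := by
      rw [show (4 : ℝ) = 2 ^ 2 by norm_num, Real.log_pow]
      norm_num
    have h := Real.log_two_lt_d9
    linarith
  have hlog4' : 0 ≤ Real.log 4 := Real.log_nonneg (by norm_num)
  have hX0 : (0 : ℝ) ≤ X := Nat.cast_nonneg _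
  have hXpos : (0 : ℝ) < X := by exact_mod_cast h14
  have h4X : 4 ^ X ≤ H := by
    have h : ((4 : ℝ)) ^ X ≤ H := by
      rw [← Real.log_le_log_iff (by positivity) hHpos, Real.log_pow]
      nlinarith
    exact_mod_cast h
  have hle : Real.log H ≤ 4 * (X : ℝ) + 4 := by linarith
  have hpow : (Real.log H) ^ c₀ ≤ (4 * (X : ℝ) + 4) ^ c₀ := Real.rpow_le_rpow hlog0 hle hc₀.le
  have hpow3 : (Real.log H) ^ (3 * c₀) ≤ (4 * (X : ℝ) + 4) ^ (3 * c₀) :=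
    Real.rpow_le_rpow hlog0 hle (by positivity)
  obtain ⟨T, z, t1, t2, t3, t4, t5, t6⟩ := h11 w h8' (Real.log H) (by linarith) hle
  refine ⟨X, U, t, e, Y, w, T, z, h12, h4X, ?_, h1, h2, h3, h4, h5, h6, h7, hpow3.trans h8, h9, t1, ?_, ?_, t4, t5, t6⟩
  · rw [le_div_iff₀ (by linarith)]
    exact h13
  · refine le_trans ?_ t2
    refine le_trans ?_ h10
    have k2 : 0 ≤ Real.log 2 := Real.log_nonneg (by norm_num)
    have k3 : 0 ≤ ((w : ℝ) + 1) * Real.log 2 := by positivity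
    have k4 : 0 ≤ ((t : ℝ) + 1) * e * Y * Real.log 4 := by positivity
    have e1 : 3 * ((w : ℝ) + 1) * Real.log 2 = 2 * ((w : ℝ) + 1) * Real.log 2 + ((w : ℝ) + 1) * Real.log 2 := by ring
    have e2 : 3 * ((t : ℝ) + 1) * e * Y * Real.log 4 = ((t : ℝ) + 1) * e * Y * Real.log 4 +
      2 * (((t : ℝ) + 1) * e * Y * Real.log 4) := by ring
    rw [e1, e2]
    linarith
  · rw [← Real.log_le_log_iff (by positivity) hHpos, Real.log_mul (by positivity) (by positivity), Real.log_pow]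
    push_cast
    exact t3

end HT
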