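import Pool.Agent.Lib.MP_10e784_agHT.PB

/-!
# The resultants do not depend on `Q`

-/

set_option autoImplicit false

namespace HT

open Finset Polynomial MWS HY

private theorem PC_pol_add {R : Type*} [CommRing R] {k : ℕ} (f g : Fin k → R) : pol (f + g) = pol f + pol g := by
  unfold pol
  rw [← Finset.sum_add_distrib]
  refine Finset.sum_congr rfl (fun i _ => ?_)
  rw [Pi.add_apply, map_add]

private theorem PC_main {R : Type*} [CommRing R] {n : ℕ} (v a : Fin 3 → R) (f : Fin (n + 4 + 1) → R)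
    (Q : Fin (n + 1) → R) (h : Fin (n + 4 + 1) → R) (hh : pol h = pol v * (pol a * pol Q)) :
    rf v (f + h) = rf v f := by
  unfold rf
  rw [PC_pol_add, hh]
  have ha : (pol a).natDegree ≤ 2 := pol_deg (m := 2) a
  have hQ : (pol Q).natDegree ≤ n := pol_deg Q
  have h1 : (pol a * pol Q).natDegree ≤ n + 2 := by
    have e1 := natDegree_mul_le (p := pol a) (q := pol Q)
    omega
  have hv : (pol v).natDegree ≤ 2 := pol_deg (m := 2) v
  exact resultant_add_mul_right _ _ _ _ _ (by omega) hv

theorem rf_add {R : Type*} [CommRing R] {n : ℕ} (q : Fin 2 → Fin 3 → R) (f : Fin (n + 4 + 1) → R) (Q : Fin (n + 1) → R)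
    (i : Fin 2) : rf (q i) (f + mulT q Q) = rf (q i) f := by
  fin_cases i
  · exact PC_main (q 0) (q 1) f Q _ (by rw [pol_mulT]; ring)
  · exact PC_main (q 1) (q 0) f Q _ (by rw [pol_mulT]; ring)

theorem RT_add {R : Type*} [CommRing R] {n : ℕ} (q : Fin 2 → Fin 3 → R) (f : Fin (n + 4 + 1) → R)
    (Q : Fin (n + 1) → R) : RT q (f + mulT q Q) = RT q f := by
  unfold RT
  simp only [rf_add]

end HT
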