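import Pool.Agent.Lib.MP_10e784_agH.PD
import Pool.Agent.Lib.MP_10e784_agHT.PC

/-!
# The square classes of the values of the quadratic forms
-/

set_option autoImplicit false

namespace HT

open Finset Polynomial MWS HY

private theorem PE_sq (N : ℤ) (hN : N ≠ 0) : ∃ d k : ℤ, N = d * k ^ 2 ∧ Squarefree d := by
  obtain ⟨a, b, hab, ha⟩ := Nat.sq_mul_squarefree N.natAbs
  have h1 : ((b : ℤ) ^ 2 * (a : ℤ)) = |N| := by
    rw [← Int.natCast_natAbs, ← hab]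
    push_cast
    ring
  have h2 : Squarefree (a : ℤ) := Int.squarefree_natCast.2 ha
  rcases abs_choice N with h | h
  · refine ⟨a, b, ?_, h2⟩
    rw [h] at h1
    rw [← h1]
    ring
  · refine ⟨-a, b, ?_, fun x hx => h2 x (dvd_neg.1 hx)⟩
    rw [h] at h1
    linear_combination h1

theorem rq_dvd_RT {m : ℕ} (q : Fin 2 → Fin 3 → ℤ) (f : Fin (m + 1) → ℤ) : rq (q 0) (q 1) ∣ RT q f := by
  rw [RT_eq]
  exact Dvd.dvd.mul_right (Dvd.dvd.mul_left (dvd_mul_right _ _) _) _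

theorem dq_dvd_RT {m : ℕ} (q : Fin 2 → Fin 3 → ℤ) (f : Fin (m + 1) → ℤ) (i : Fin 2) : dq (q i) ∣ RT q f := by
  rw [RT_eq]
  exact Dvd.dvd.mul_right (Dvd.dvd.mul_right (Finset.dvd_prod_of_mem (fun i => dq (q i)) (Finset.mem_univ i)) _) _

theorem lead_dvd_RT {m : ℕ} (q : Fin 2 → Fin 3 → ℤ) (f : Fin (m + 1) → ℤ) (i : Fin 2) : q i 2 ∣ RT q f := by
  rw [RT_eq]
  refine Dvd.dvd.mul_right (Dvd.dvd.mul_left (Dvd.dvd.mul_left ?_ _) _) _
  fin_cases i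
  · exact dvd_mul_right _ _
  · exact dvd_mul_left _ _

theorem rf_dvd_RT {m : ℕ} (q : Fin 2 → Fin 3 → ℤ) (f : Fin (m + 1) → ℤ) (i : Fin 2) : rf (q i) f ∣ RT q f :=
  Dvd.dvd.mul_left (Finset.dvd_prod_of_mem (fun i => rf (q i) f) (Finset.mem_univ i)) _

/-- a squarefree number divides every number divisible by all its prime divisors -/
theorem sqf_dvd {a : ℕ} (ha : Squarefree a) {N : ℤ} (h : ∀ p : ℕ, p.Prime → p ∣ a → (p : ℤ) ∣ N) : (a : ℤ) ∣ N := by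
  rw [Int.natCast_dvd, ← Nat.prod_primeFactors_of_squarefree ha]
  refine Finset.prod_primes_dvd N.natAbs ?_ ?_
  · intro p hp
    exact (Nat.prime_of_mem_primeFactors hp).prime
  · intro p hp
    exact Int.natCast_dvd.1 (h p (Nat.prime_of_mem_primeFactors hp) (Nat.dvd_of_mem_primeFactors hp))

theorem sol_data {m : ℕ} (hm : 1 ≤ m) (q : Fin 2 → Fin 3 → ℤ) (f : Fin (m + 1) → ℤ) {x z y : ℤ} (hc : IsCoprime x z)
    (hy : y ^ 2 = qe (q 0) x z * qe (q 1) x z * fe f x z) (h0 : ∀ i, qe (q i) x z ≠ 0) :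
    ∃ d k : Fin 2 → ℤ, (∀ i, qe (q i) x z = d i * k i ^ 2) ∧ (∀ i, Squarefree (d i)) ∧
      (∀ i, ∀ p : ℕ, p.Prime → (p : ℤ) ∣ d i → (p : ℤ) ∣ RT q f) ∧ IsSquare (d 0 * d 1 * fe f x z) ∧
      ∃ g D : ℤ, d 0 * d 1 = g ^ 2 * D ∧ Adm q f D := by
  choose d k hdk hsq using fun i => PE_sq (qe (q i) x z) (h0 i)
  have hk : ∀ i, k i ≠ 0 := by
    intro i h
    apply h0 i
    rw [hdk, h]
    ring
  have hK : k 0 * k 1 ≠ 0 := mul_ne_zero (hk 0) (hk 1)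
  have h1 : (k 0 * k 1) ^ 2 * (d 0 * d 1 * fe f x z) = y ^ 2 := by
    rw [hy, hdk 0, hdk 1]
    ring
  have h2 : k 0 * k 1 ∣ y := by
    rw [← Int.pow_dvd_pow_iff (n := 2) two_ne_zero]
    exact ⟨_, h1.symm⟩
  obtain ⟨s, hs⟩ := h2
  have h3 : d 0 * d 1 * fe f x z = s ^ 2 := by
    rw [hs, mul_pow (k 0 * k 1) s] at h1
    exact mul_left_cancel₀ (pow_ne_zero 2 hK) h1
  -- a prime dividing exactly one of the two numbers divides the value of `f`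
  have key : ∀ p : ℕ, p.Prime → ∀ a b : ℤ, Squarefree a → a * b * fe f x z = s ^ 2 → (p : ℤ) ∣ a → ¬ (p : ℤ) ∣ b →
      (p : ℤ) ∣ fe f x z := by
    intro p hp a b ha hab hpa hpb
    have hpp : Prime (p : ℤ) := Nat.prime_iff_prime_int.1 hp
    by_contra hpf
    have h8 : ¬ (p : ℤ) ∣ b * fe f x z := fun h => (hpp.dvd_or_dvd h).elim hpb hpf
    have h9 : a * (b * fe f x z) = s ^ 2 := by rw [← mul_assoc, hab]
    have h10 : (p : ℤ) ∣ s := hpp.dvd_of_dvd_pow (h9 ▸ Dvd.dvd.mul_right hpa _)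
    have h11 : (p : ℤ) ^ 2 ∣ a * (b * fe f x z) := by
      rw [h9]
      exact pow_dvd_pow_of_dvd h10 2
    have h12 := hpp.pow_dvd_of_dvd_mul_right 2 h8 h11
    rw [sq] at h12
    exact hpp.not_isUnit (ha _ h12)
  have h3' : d 1 * d 0 * fe f x z = s ^ 2 := by rw [← h3]; ring
  have hq : ∀ i, ∀ p : ℕ, p.Prime → (p : ℤ) ∣ d i → (p : ℤ) ∣ qe (q i) x z := by
    intro i p hp hpd
    rw [hdk]
    exact Dvd.dvd.mul_right hpd _
  have hrf0 : ∀ p : ℕ, p.Prime → (p : ℤ) ∣ d 0 → ¬ (p : ℤ) ∣ d 1 → (p : ℤ) ∣ rf (q 0) f := fun p hp ha hb =>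
    dvd_rf hp hm hc (hq 0 p hp ha) (key p hp (d 0) (d 1) (hsq 0) h3 ha hb)
  have hrf1 : ∀ p : ℕ, p.Prime → (p : ℤ) ∣ d 1 → ¬ (p : ℤ) ∣ d 0 → (p : ℤ) ∣ rf (q 1) f := fun p hp ha hb =>
    dvd_rf hp hm hc (hq 1 p hp ha) (key p hp (d 1) (d 0) (hsq 1) h3' ha hb)
  refine ⟨d, k, hdk, hsq, ?_, ⟨s, by rw [h3, sq]⟩, ?_⟩
  · have hboth : ∀ p : ℕ, p.Prime → (p : ℤ) ∣ d 0 → (p : ℤ) ∣ d 1 → (p : ℤ) ∣ RT q f := fun p hp ha hb =>
      (dvd_rq hp hc (hq 0 p hp ha) (hq 1 p hp hb)).trans (rq_dvd_RT q f)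
    intro i p hp hpd
    fin_cases i
    · by_cases hb : (p : ℤ) ∣ d 1
      · exact hboth p hp hpd hb
      · exact (hrf0 p hp hpd hb).trans (rf_dvd_RT q f 0)
    · by_cases ha : (p : ℤ) ∣ d 0
      · exact hboth p hp ha hpd
      · exact (hrf1 p hp hpd ha).trans (rf_dvd_RT q f 1)
  · obtain ⟨a, ha⟩ := Nat.gcd_dvd_left (d 0).natAbs (d 1).natAbs
    obtain ⟨b, hb⟩ := Nat.gcd_dvd_right (d 0).natAbs (d 1).natAbs
    set g := Nat.gcd (d 0).natAbs (d 1).natAbs with hg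
    have s0 : Squarefree (d 0).natAbs := Int.squarefree_natAbs.2 (hsq 0)
    have s1 : Squarefree (d 1).natAbs := Int.squarefree_natAbs.2 (hsq 1)
    have sa : Squarefree a := s0.squarefree_of_dvd ⟨g, by rw [ha]; ring⟩
    have sb : Squarefree b := s1.squarefree_of_dvd ⟨g, by rw [hb]; ring⟩
    have cop : ∀ (u v c : ℕ), Squarefree u → u = g * c → (∀ p : ℕ, p ∣ u → p ∣ v → p ∣ g) →
        ∀ p : ℕ, p.Prime → p ∣ c → ¬ p ∣ v := by
      intro u v c hu hc' hgc p hp hpc hpv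
      have h4 : p ∣ u := by rw [hc']; exact Dvd.dvd.mul_left hpc _
      have h5 : p ∣ g := hgc p h4 hpv
      have h6 : p * p ∣ u := by rw [hc']; exact mul_dvd_mul h5 hpc
      exact hp.one_lt.ne' (Nat.isUnit_iff.1 (hu p h6))
    have hgd : ∀ p : ℕ, p ∣ (d 0).natAbs → p ∣ (d 1).natAbs → p ∣ g := fun p h h' => Nat.dvd_gcd h h'
    have a1 : (a : ℤ) ∣ rf (q 0) f := by
      refine sqf_dvd sa fun p hp hpa => ?_
      have h4 := cop _ _ a s0 ha hgd p hp hpa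
      refine hrf0 p hp (Int.natCast_dvd.2 (by rw [ha]; exact Dvd.dvd.mul_left hpa _)) fun h => h4 (Int.natCast_dvd.1 h)
    have b1 : (b : ℤ) ∣ rf (q 1) f := by
      refine sqf_dvd sb fun p hp hpb => ?_
      have h4 := cop _ _ b s1 hb (fun p h h' => hgd p h' h) p hp hpb
      refine hrf1 p hp (Int.natCast_dvd.2 (by rw [hb]; exact Dvd.dvd.mul_left hpb _)) fun h => h4 (Int.natCast_dvd.1 h)
    have ha' : |d 0| = (g : ℤ) * a := by
      rw [← Int.natCast_natAbs, ha]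
      push_cast
      rfl
    have hb' : |d 1| = (g : ℤ) * b := by
      rw [← Int.natCast_natAbs, hb]
      push_cast
      rfl
    rcases abs_choice (d 0) with e0 | e0 <;> rcases abs_choice (d 1) with e1 | e1 <;> rw [e0] at ha' <;>
      rw [e1] at hb'
    · exact ⟨g, a * b, by rw [ha', hb']; ring, a, b, sa, sb, a1, b1, Or.inl rfl⟩
    · refine ⟨g, -(a * b), ?_, a, b, sa, sb, a1, b1, Or.inr rfl⟩
      linear_combination (d 1) * ha' - (g : ℤ) * a * hb'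
    · refine ⟨g, -(a * b), ?_, a, b, sa, sb, a1, b1, Or.inr rfl⟩
      linear_combination (-(d 1)) * ha' - (g : ℤ) * a * hb'
    · refine ⟨g, a * b, ?_, a, b, sa, sb, a1, b1, Or.inl rfl⟩
      linear_combination (-(d 1)) * ha' + (g : ℤ) * a * hb'

end HT
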