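import Pool.Agent.Lib.MP_10e784_agHT.Defs

/-!
# The set of the useful primes
-/

set_option autoImplicit false

namespace HT

open Finset Polynomial MWS HY

/-- the primes of `S` which are useful for the twist `D` -/
noncomputable def ug (S : Finset ℕ) (U : ℕ) (q : Fin 2 → Fin 3 → ℤ) (D : ℤ) : Finset ℕ := by
  classical exact S.filter fun p => gd p U ((D : ℤ) : ZMod p) (cr p q)

theorem mem_ug {S : Finset ℕ} {U : ℕ} {q : Fin 2 → Fin 3 → ℤ} {D : ℤ} {p : ℕ} :
    p ∈ ug S U q D ↔ p ∈ S ∧ gd p U ((D : ℤ) : ZMod p) (cr p q) := by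
  classical
  unfold ug
  exact Finset.mem_filter

theorem ug_card (S : Finset ℕ) (U : ℕ) (q : Fin 2 → Fin 3 → ℤ) (D : ℤ) : (ug S U q D).card = nU S U q D := by
  unfold ug nU
  rfl

theorem RT_eq {R : Type*} [CommRing R] {m : ℕ} (q : Fin 2 → Fin 3 → R) (f : Fin (m + 1) → R) :
    RT q f = (∏ i, dq (q i)) * (rq (q 0) (q 1) * (q 0 2 * q 1 2)) * ∏ i, rf (q i) f := by
  unfold RT
  rw [Fin.prod_univ_two (f := fun i => q i 2)]
  ring

end HT
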