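import Pool.Agent.Lib.MP_10e784_agH.PB
import Pool.Agent.Lib.MP_10e784_agHT.UA

/-!
# The product `q₀ q₁ Q`

-/

set_option autoImplicit false

namespace HT

open Finset Polynomial MWS HY

variable {R S : Type*} [CommRing R] [CommRing S]

theorem pol_mulT {n : ℕ} (q : Fin 2 → Fin 3 → R) (Q : Fin (n + 1) → R) :
    pol (mulT q Q) = pol (q 0) * pol (q 1) * pol Q := by
  ext i
  rw [pol_coeff]
  by_cases h : i < n + 4 + 1
  · rw [dif_pos h]
    rfl
  · rw [dif_neg h]
    symm
    refine Polynomial.coeff_eq_zero_of_natDegree_lt ?_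
    have h0 := pol_deg (q 0)
    have h1 := pol_deg (q 1)
    have h3 := pol_deg Q
    have a1 : (pol (q 0) * pol (q 1)).natDegree ≤ (pol (q 0)).natDegree + (pol (q 1)).natDegree :=
      Polynomial.natDegree_mul_le
    have a3 : (pol (q 0) * pol (q 1) * pol Q).natDegree ≤
        (pol (q 0) * pol (q 1)).natDegree + (pol Q).natDegree :=
      Polynomial.natDegree_mul_le
    omega

/-- `pol` commutes with ring homomorphisms -/
private theorem pb_map (φ : R →+* S) {k : ℕ} (f : Fin k → R) :
    pol (fun i => φ (f i)) = (pol f).map φ := by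
  unfold pol
  rw [Polynomial.map_sum]
  refine Finset.sum_congr rfl fun i _ => ?_
  rw [Polynomial.map_monomial]

/-- the value of the homogenisation of `pol f` -/
private theorem pb_hev {m : ℕ} (f : Fin (m + 1) → R) (x z : R) :
    MvPolynomial.eval ![x, z] ((pol f).homogenize m) = fe f x z := by
  unfold pol fe
  rw [Polynomial.homogenize_finsetSum, map_sum]
  refine Finset.sum_congr rfl fun i _ => ?_
  rw [Polynomial.homogenize_monomial (Nat.lt_succ_iff.1 i.2), MvPolynomial.eval_monomial,
    Finsupp.update_eq_add_single (by simp), Finsupp.prod_add_index', Finsupp.prod_single_index,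
    Finsupp.prod_single_index]
  · simp [mul_assoc]
  · simp
  · simp
  · intro a
    exact pow_zero _
  · intro a b c
    exact pow_add _ _ _

private theorem pb_fe_two (v : Fin 3 → R) (x z : R) : fe (m := 2) v x z = qe v x z := by
  unfold fe qe
  rw [Fin.sum_univ_three]
  simp only [Fin.val_zero, Fin.val_one, Fin.val_two, pow_zero, pow_one, Nat.sub_zero, Nat.sub_self]
  norm_num
  ring

theorem fe_mulT {n : ℕ} (q : Fin 2 → Fin 3 → R) (Q : Fin (n + 1) → R) (x z : R) :
    fe (mulT q Q) x z = qe (q 0) x z * qe (q 1) x z * fe Q x z := by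
  rw [← pb_hev, pol_mulT]
  have e : n + 4 = 2 + 2 + n := by omega
  have h0 := pol_deg (q 0)
  have h1 := pol_deg (q 1)
  have h3 := pol_deg Q
  have a1 : (pol (q 0) * pol (q 1)).natDegree ≤ 2 + 2 :=
    Polynomial.natDegree_mul_le.trans (add_le_add h0 h1)
  rw [e, Polynomial.homogenize_mul _ _ a1 h3, Polynomial.homogenize_mul _ _ h0 h1, map_mul, map_mul, pb_hev, pb_hev,
    pb_hev, pb_fe_two, pb_fe_two]

theorem mulT_map (φ : R →+* S) {n : ℕ} (q : Fin 2 → Fin 3 → R) (Q : Fin (n + 1) → R) :
    mulT (fun i j => φ (q i j)) (fun i => φ (Q i)) = fun i => φ (mulT q Q i) := by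
  funext i
  unfold mulT
  simp only [pb_map, ← Polynomial.map_mul, Polynomial.coeff_map]

/-- `pol` commutes with ring homomorphisms -/
theorem pol_map (φ : R →+* S) {k : ℕ} (f : Fin k → R) : pol (fun i => φ (f i)) = (pol f).map φ := pb_map φ f

/-- `fe` is the value of the homogenisation of `pol f` -/
theorem hev_pol {m : ℕ} (f : Fin (m + 1) → R) (x z : R) :
    MvPolynomial.eval ![x, z] ((pol f).homogenize m) = fe f x z := pb_hev f x z

end HT
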