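import Pool.Agent.Lib.MP_10e784_agHT.Defs
import Pool.Agent.Lib.MP_10e784_agH.SE

/-!
# Useful primes: the number of points and the discriminant
-/

set_option autoImplicit false

namespace HT

open MWS HY

private theorem SE_castA (p : ℕ) (q : Fin 2 → Fin 3 → ℤ) (D : ℤ) :
    ((D ^ 2 * Aq (q 0) (q 1) : ℤ) : ZMod p) = (D : ZMod p) ^ 2 * Aq (cr p q 0) (cr p q 1) := by
  have h1 := Aq_map (Int.castRingHom (ZMod p)) (q 0) (q 1)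
  rw [Int.cast_mul, Int.cast_pow]
  exact congrArg (fun t => (D : ZMod p) ^ 2 * t) h1.symm

private theorem SE_castB (p : ℕ) (q : Fin 2 → Fin 3 → ℤ) (D : ℤ) :
    ((D ^ 3 * Bq (q 0) (q 1) : ℤ) : ZMod p) = (D : ZMod p) ^ 3 * Bq (cr p q 0) (cr p q 1) := by
  have h1 := Bq_map (Int.castRingHom (ZMod p)) (q 0) (q 1)
  rw [Int.cast_mul, Int.cast_pow]
  exact congrArg (fun t => (D : ZMod p) ^ 3 * t) h1.symm

theorem na_dvd {p X U Y e : ℕ} (hp : p.Prime) (hpX : p ≤ X) (q : Fin 2 → Fin 3 → ℤ) {D D' g : ℤ}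
    (hg : gd p U ((D : ℤ) : ZMod p) (cr p q)) (hD' : D' = g ^ 2 * D) (hg0 : ((g : ℤ) : ZMod p) ≠ 0) (hU : 1 ≤ U)
    (h1 : 4 * U ≤ Y) (h2 : 3 * X ≤ Y * U) (h3 : 3 * X ≤ 2 ^ e) :
    na (D' ^ 2 * Aq (q 0) (q 1)) (D' ^ 3 * Bq (q 0) (q 1)) p + 1 ∣ primorial Y ^ e := by
  have hf : Fact p.Prime := ⟨hp⟩
  have h4 : na (D' ^ 2 * Aq (q 0) (q 1)) (D' ^ 3 * Bq (q 0) (q 1)) p =
      nz ((D : ZMod p) ^ 2 * Aq (cr p q 0) (cr p q 1)) ((D : ZMod p) ^ 3 * Bq (cr p q 0) (cr p q 1)) := by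
    have h5 : na (D' ^ 2 * Aq (q 0) (q 1)) (D' ^ 3 * Bq (q 0) (q 1)) p =
        nz ((D' ^ 2 * Aq (q 0) (q 1) : ℤ) : ZMod p) ((D' ^ 3 * Bq (q 0) (q 1) : ℤ) : ZMod p) := rfl
    rw [h5, SE_castA, SE_castB, hD']
    push_cast
    have h6 : ((g : ZMod p) ^ 2 * (D : ZMod p)) ^ 2 * Aq (cr p q 0) (cr p q 1) =
        (g : ZMod p) ^ 4 * ((D : ZMod p) ^ 2 * Aq (cr p q 0) (cr p q 1)) := by ring
    have h7 : ((g : ZMod p) ^ 2 * (D : ZMod p)) ^ 3 * Bq (cr p q 0) (cr p q 1) =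
        (g : ZMod p) ^ 6 * ((D : ZMod p) ^ 3 * Bq (cr p q 0) (cr p q 1)) := by ring
    rw [h6, h7]
    exact nz_tw _ _ _ hg0
  rw [h4]
  exact Gk_dvd hp hpX hg.2.2 hU h1 (by rw [pow_one]; exact h2) h3

theorem gd_dsc {p U : ℕ} (hp : p.Prime) (q : Fin 2 → Fin 3 → ℤ) {D D' g : ℤ}
    (hg : gd p U ((D : ℤ) : ZMod p) (cr p q)) (hD' : D' = g ^ 2 * D) (hg0 : ((g : ℤ) : ZMod p) ≠ 0) :
    ¬ (p : ℤ) ∣ dsc (D' ^ 2 * Aq (q 0) (q 1)) (D' ^ 3 * Bq (q 0) (q 1)) := by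
  have hf : Fact p.Prime := ⟨hp⟩
  intro hdv
  have h1 := (ZMod.intCast_zmod_eq_zero_iff_dvd _ p).2 hdv
  have h2 : ((dsc (D' ^ 2 * Aq (q 0) (q 1)) (D' ^ 3 * Bq (q 0) (q 1)) : ℤ) : ZMod p) =
      4 * ((D' ^ 2 * Aq (q 0) (q 1) : ℤ) : ZMod p) ^ 3 + 27 * ((D' ^ 3 * Bq (q 0) (q 1) : ℤ) : ZMod p) ^ 2 := by
    unfold dsc
    rw [Int.cast_add, Int.cast_mul, Int.cast_mul, Int.cast_pow, Int.cast_pow, Int.cast_ofNat, Int.cast_ofNat]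
  rw [h2, SE_castA, SE_castB, hD'] at h1
  push_cast at h1
  have h3 : 4 * (((g : ZMod p) ^ 2 * (D : ZMod p)) ^ 2 * Aq (cr p q 0) (cr p q 1)) ^ 3 +
      27 * (((g : ZMod p) ^ 2 * (D : ZMod p)) ^ 3 * Bq (cr p q 0) (cr p q 1)) ^ 2 =
      (g : ZMod p) ^ 12 * (4 * ((D : ZMod p) ^ 2 * Aq (cr p q 0) (cr p q 1)) ^ 3 +
        27 * ((D : ZMod p) ^ 3 * Bq (cr p q 0) (cr p q 1)) ^ 2) := by
    ring
  rw [h3] at h1
  rcases mul_eq_zero.1 h1 with h4 | h4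
  · exact hg0 (pow_eq_zero_iff (by norm_num) |>.1 h4)
  · exact hg.2.2.1 h4

/-- a useful prime does not divide the resultant of the two quadratic forms -/
theorem gd_rq {p U : ℕ} (hp : p.Prime) (q : Fin 2 → Fin 3 → ℤ) {D : ZMod p} (hg : gd p U D (cr p q)) :
    ¬ (p : ℤ) ∣ rq (q 0) (q 1) := by
  have hf : Fact p.Prime := ⟨hp⟩
  intro hdv
  have h1 := (ZMod.intCast_zmod_eq_zero_iff_dvd _ p).2 hdv
  have h2 : rq (cr p q 0) (cr p q 1) = 0 := by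
    rw [← h1]
    exact rq_map (Int.castRingHom (ZMod p)) (q 0) (q 1)
  refine hg.2.2.1 ?_
  have h3 := dsc_q (cr p q 0) (cr p q 1)
  rw [h2] at h3
  have h4 : 4 * (D ^ 2 * Aq (cr p q 0) (cr p q 1)) ^ 3 + 27 * (D ^ 3 * Bq (cr p q 0) (cr p q 1)) ^ 2 =
      D ^ 6 * (4 * Aq (cr p q 0) (cr p q 1) ^ 3 + 27 * Bq (cr p q 0) (cr p q 1) ^ 2) := by ring
  show 4 * (D ^ 2 * Aq (cr p q 0) (cr p q 1)) ^ 3 + 27 * (D ^ 3 * Bq (cr p q 0) (cr p q 1)) ^ 2 = 0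
  rw [h4, h3]
  ring

/-- a useful prime does not divide the leading coefficients -/
theorem gd_lead {p U : ℕ} (q : Fin 2 → Fin 3 → ℤ) {D : ZMod p} (hg : gd p U D (cr p q)) (i : Fin 2) :
    ¬ (p : ℤ) ∣ q i 2 := by
  intro hdv
  have h1 : ((q i 2 : ℤ) : ZMod p) = 0 := (ZMod.intCast_zmod_eq_zero_iff_dvd _ p).2 hdv
  refine hg.2.1 i ⟨cr p q i 1, ?_⟩
  unfold dq
  have h2 : cr p q i 2 = 0 := h1
  rw [h2]
  ring

/-- a useful prime does not divide the discriminants -/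
theorem gd_dq {p U : ℕ} (q : Fin 2 → Fin 3 → ℤ) {D : ZMod p} (hg : gd p U D (cr p q)) (i : Fin 2) :
    ¬ (p : ℤ) ∣ dq (q i) := by
  intro hdv
  have h1 := (ZMod.intCast_zmod_eq_zero_iff_dvd _ p).2 hdv
  refine hg.2.1 i ?_
  have h2 : dq (cr p q i) = 0 := by
    rw [← h1]
    exact dq_map (Int.castRingHom (ZMod p)) (q i)
  rw [h2]
  exact IsSquare.zero

/-- a useful prime stays useful if the twist is multiplied by a nonzero square -/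
theorem gd_sq_mul {p U : ℕ} (hp : p.Prime) {v : Fin 2 → Fin 3 → ZMod p} {D : ZMod p} (hg : gd p U D v) {s : ZMod p}
    (hs0 : s ≠ 0) : gd p U (s ^ 2 * D) v := by
  have hf : Fact p.Prime := ⟨hp⟩
  have h6 : (s ^ 2 * D) ^ 2 * Aq (v 0) (v 1) = s ^ 4 * (D ^ 2 * Aq (v 0) (v 1)) := by ring
  have h7 : (s ^ 2 * D) ^ 3 * Bq (v 0) (v 1) = s ^ 6 * (D ^ 3 * Bq (v 0) (v 1)) := by ring
  obtain ⟨h1, h2, h3, l, hl⟩ := hg
  refine ⟨mul_ne_zero (pow_ne_zero 2 hs0) h1, h2, ?_, l, ?_⟩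
  · show 4 * ((s ^ 2 * D) ^ 2 * Aq (v 0) (v 1)) ^ 3 + 27 * ((s ^ 2 * D) ^ 3 * Bq (v 0) (v 1)) ^ 2 ≠ 0
    rw [h6, h7]
    have h8 : 4 * (s ^ 4 * (D ^ 2 * Aq (v 0) (v 1))) ^ 3 + 27 * (s ^ 6 * (D ^ 3 * Bq (v 0) (v 1))) ^ 2 =
        s ^ 12 * (4 * (D ^ 2 * Aq (v 0) (v 1)) ^ 3 + 27 * (D ^ 3 * Bq (v 0) (v 1)) ^ 2) := by ring
    rw [h8]
    exact mul_ne_zero (pow_ne_zero _ hs0) h3
  · show l.Prime ∧ U < l ∧ l ≤ 4 * U ∧ l ^ 1 ∣ nz ((s ^ 2 * D) ^ 2 * Aq (v 0) (v 1)) ((s ^ 2 * D) ^ 3 * Bq (v 0) (v 1)) + 1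
    rw [h6, h7, nz_tw s _ _ hs0]
    exact hl

/-- (3.3) of the page: a useful prime for the trivial twist is useful for every twist which is a nonzero square -/
theorem gd_of_sq {p U : ℕ} (hp : p.Prime) {v : Fin 2 → Fin 3 → ZMod p} (hg : gd p U 1 v) {D : ZMod p} (hD : D ≠ 0)
    (hs : IsSquare D) : gd p U D v := by
  have hf : Fact p.Prime := ⟨hp⟩
  obtain ⟨s, rfl⟩ := hs
  have h := gd_sq_mul hp hg (s := s) (by rintro rfl; exact hD (by ring))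
  rwa [mul_one, sq] at h

end HT
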