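import Pool.Agent.Lib.MP_10e784_agHT.SC
import Pool.Agent.Lib.MP_10e784_agHT.SF
import Pool.Agent.Lib.MP_10e784_agHT.PC
import Pool.Agent.Lib.MP_10e784_agHT.PE
import Pool.Agent.Lib.MP_10e784_agH.PF
import Pool.Agent.Lib.MP_10e784_agBS.S3
import Pool.Agent.Lib.MP_10e784_agBS.S7
import Pool.Agent.Lib.MP_10e784_agV.VM

/-!
# The sieve for fixed `q`, `f` (section 2 of the page)

-/

set_option autoImplicit false

namespace HT

open Finset MWS HY

private theorem SG_nz {K : Type*} [Field K] (v : Fin 3 → K) {x z : K} (h : x ≠ 0 ∨ z ≠ 0) (h0 : qe v x z = 0) :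
    IsSquare (dq v) := by
  rcases h with h | h
  · have e : (2 * v 0 * z + v 1 * x) ^ 2 - dq v * x ^ 2 = 4 * v 0 * qe v x z := by
      simp only [dq, qe]
      ring
    rw [h0, mul_zero, sub_eq_zero] at e
    refine ⟨(2 * v 0 * z + v 1 * x) / x, ?_⟩
    field_simp
    linear_combination -e
  · have e : (2 * v 2 * x + v 1 * z) ^ 2 - dq v * z ^ 2 = 4 * v 2 * qe v x z := by
      simp only [dq, qe]
      ring
    rw [h0, mul_zero, sub_eq_zero] at e
    refine ⟨(2 * v 2 * x + v 1 * z) / z, ?_⟩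
    field_simp
    linear_combination -e

private theorem SG_union {ι I : Type} [Fintype ι] [DecidableEq ι] [Fintype I] {h : ℕ} (Q : (ι → ℤ) → Prop)
    (R : I → (ι → ℤ) → Prop) (hQ : ∀ c, (∀ i, |c i| ≤ (h : ℤ)) → Q c → ∃ a, R a c) (T : ℝ)
    (hR : ∀ a, (Nat.card {c : ι → ℤ // (∀ i, |c i| ≤ (h : ℤ)) ∧ R a c} : ℝ) ≤ T) :
    (Nat.card {c : ι → ℤ // (∀ i, |c i| ≤ (h : ℤ)) ∧ Q c} : ℝ) ≤ (Fintype.card I : ℝ) * T := by
  have h1 := VM_union (ι := ι) (H := h) (N := Fintype.card I) Q (fun k => R ((Fintype.equivFin I).symm k))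
    (by
      intro c hc hQc
      obtain ⟨a, ha⟩ := hQ c hc hQc
      exact ⟨Fintype.equivFin I a, by simpa using ha⟩)
    1 T zero_le_one (fun k => by
      rw [mul_one]
      exact hR _)
  simpa using h1

private theorem SG_count {n h : ℕ} (T : Finset ℕ) (hT : ∀ p ∈ T, p.Prime) (hq : ∏ p ∈ T, p ≤ h)
    (R : (Fin (n + 1) → ℤ) → Prop) (Z : (p : ℕ) → Set (Fin (n + 1) → ZMod p))
    (hZ : ∀ p ∈ T, (Nat.card (Z p) : ℝ) ≤ 4 / 5 * (p : ℝ) ^ (n + 1)) (hR : ∀ Q, R Q → ∀ p ∈ T, cf p Q ∈ Z p) :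
    (Nat.card {Q : Fin (n + 1) → ℤ // (∀ i, |Q i| ≤ (h : ℤ)) ∧ R Q} : ℝ) ≤
      (4 * (h : ℝ)) ^ (n + 1) * (4 / 5) ^ T.card := by
  classical
  rw [VM_card]
  have hb := box_crt (ι := Fin (n + 1)) T hT (fun _ => h) (fun _ => hq)
    (fun p b => if b ∈ Z p then (1 : ℝ) else 0)
    (fun p b => by split_ifs <;> norm_num) (fun _ => 4 / 5)
    (fun p hp hne => by
      have h3 := hZ p hp
      rw [sum_boole]
      refine le_trans (le_of_eq ?_) (h3.trans (le_of_eq ?_))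
      · rw [Nat.card_eq_fintype_card, Fintype.card_subtype]
      · simp)
  rw [prod_const, prod_const, card_univ, Fintype.card_fin] at hb
  refine le_trans ?_ hb
  rw [card_filter]
  push_cast
  refine sum_le_sum fun c _ => ?_
  rw [prod_boole]
  by_cases hc : R c
  · rw [if_pos hc, if_pos]
    exact fun p hp => hR c hc p hp
  · rw [if_neg hc]
    split_ifs <;> norm_num

private theorem SG_box {n h : ℕ} (hh : 1 ≤ h) (Q : (Fin (n + 1) → ℤ) → Prop) :
    (Nat.card {c : Fin (n + 1) → ℤ // (∀ i, |c i| ≤ (h : ℤ)) ∧ Q c} : ℝ) ≤ (4 * (h : ℝ)) ^ (n + 1) := by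
  classical
  rw [VM_card h Q]
  have h1 : ((Fintype.piFinset (fun _ : Fin (n + 1) => Icc (-(h : ℤ)) h)).filter Q).card ≤ (2 * h + 1) ^ (n + 1) := by
    refine (card_filter_le _ _).trans ?_
    rw [Fintype.card_piFinset, Finset.prod_const, Int.card_Icc, card_univ, Fintype.card_fin]
    refine Nat.pow_le_pow_left ?_ _
    omega
  have h2 : (((Fintype.piFinset (fun _ : Fin (n + 1) => Icc (-(h : ℤ)) h)).filter Q).card : ℝ) ≤
      ((2 * h + 1 : ℕ) : ℝ) ^ (n + 1) := by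
    exact_mod_cast h1
  refine h2.trans ?_
  have h3 : (1 : ℝ) ≤ h := by exact_mod_cast hh
  refine pow_le_pow_left₀ (by positivity) ?_ _
  push_cast
  linarith

private theorem SG_primorial {Y : ℕ} (hY : 4 ≤ Y) : 2 ≤ primorial Y := by
  refine Nat.le_of_dvd (primorial_pos Y) ?_
  unfold primorial
  exact Finset.dvd_prod_of_mem (f := fun p => p) (a := 2)
    (Finset.mem_filter.2 ⟨Finset.mem_range.2 (by omega), Nat.prime_two⟩)

/-- the primes used for one pair of square classes -/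
private noncomputable def SGT (S : Finset ℕ) (U : ℕ) {n : ℕ} (q : Fin 2 → Fin 3 → ℤ) (f : Fin (n + 4 + 1) → ℤ)
    (D : ℤ) : Finset ℕ := (ug S U q D).filter fun p : ℕ => ¬ (p : ℤ) ∣ RT q f

private theorem SGT_mem {S : Finset ℕ} {U n : ℕ} {q : Fin 2 → Fin 3 → ℤ} {f : Fin (n + 4 + 1) → ℤ} {D : ℤ} {p : ℕ} :
    p ∈ SGT S U q f D ↔ p ∈ S ∧ gd p U ((D : ℤ) : ZMod p) (cr p q) ∧ ¬ (p : ℤ) ∣ RT q f := by
  unfold SGT
  rw [mem_filter, mem_ug, and_assoc]

open Classical in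
theorem one_fibre {n : ℕ} (hn : Even n) (q : Fin 2 → Fin 3 → ℤ) (f : Fin (n + 4 + 1) → ℤ) (hR : RT q f ≠ 0)
    {w t T₁ : ℕ} (hw : (RT q f).natAbs.primeFactors.card ≤ w)
    (hF : ∀ D : ℤ, D ≠ 0 → (∀ p : ℕ, p.Prime → (p : ℤ) ∣ D → (p : ℤ) ∣ RT q f) →
      Few (D ^ 2 * Aq (q 0) (q 1)) (D ^ 3 * Bq (q 0) (q 1)) t)
    (S : Finset ℕ) {X U Y e h : ℕ} (hS : ∀ p ∈ S, p.Prime ∧ 29 ≤ p ∧ p ≤ X) (hU : 1 ≤ U) (hY : 4 * U ≤ Y)
    (hX : 3 * X ≤ Y * U) (he : 3 * X ≤ 2 ^ e) (hq : ∏ p ∈ S, p ≤ h)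
    (hT : ∀ D : ℤ, Adm q f D → T₁ ≤ nU S U q D) :
    (Nat.card {Q : Fin (n + 1) → ℤ // (∀ i, |Q i| ≤ (h : ℤ)) ∧ SolT q (f + mulT q Q)} : ℝ) ≤
      2 ^ (2 * (w + 1)) * ((primorial Y : ℝ) ^ e) ^ (t + 1) * ((4 * (h : ℝ)) ^ (n + 1) * (4 / 5) ^ (T₁ - w)) := by
  have hprod : ∀ T : Finset ℕ, T ⊆ S → ∏ p ∈ T, p ≤ ∏ p ∈ S, p := fun T hT =>
    Finset.prod_le_prod_of_subset_of_one_le' hT fun p hp _ => (hS p hp).1.one_lt.le
  have hh : 1 ≤ h := by
    have := (hprod ∅ (Finset.empty_subset S)).trans hq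
    simpa using this
  have hP : 2 ≤ primorial Y := SG_primorial (by omega)
  have hL1 : (1 : ℝ) ≤ (primorial Y : ℝ) ^ e := by
    refine one_le_pow₀ ?_
    have : (2 : ℝ) ≤ primorial Y := by exact_mod_cast hP
    linarith
  have hM : (1 : ℝ) ≤ 2 ^ (2 * (w + 1)) * ((primorial Y : ℝ) ^ e) ^ (t + 1) :=
    one_le_mul_of_one_le_of_one_le (one_le_pow₀ one_le_two) (one_le_pow₀ hL1)
  have h4h : (0 : ℝ) ≤ (4 * (h : ℝ)) ^ (n + 1) := by positivity
  rcases Nat.le_total T₁ w with hTw | hTw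
  · rw [Nat.sub_eq_zero_of_le hTw, pow_zero, mul_one]
    refine (SG_box hh _).trans ?_
    nlinarith
  -- the number of useful primes not dividing `RT`
  have hcard : ∀ g D D' : ℤ, D' = g ^ 2 * D → Adm q f D →
      (∀ p : ℕ, p.Prime → (p : ℤ) ∣ D' → (p : ℤ) ∣ RT q f) → T₁ - w ≤ (SGT S U q f D').card := by
    intro g D D' hD hA hD'
    have h1 : ((ug S U q D).filter fun p : ℕ => (p : ℤ) ∣ RT q f) ⊆ (RT q f).natAbs.primeFactors := by
      intro p hp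
      rw [Finset.mem_filter] at hp
      rw [Nat.mem_primeFactors]
      have hpS : p ∈ S := (mem_ug.1 hp.1).1
      exact ⟨(hS p hpS).1, Int.natCast_dvd.1 hp.2, by simpa using hR⟩
    have h2 := (Finset.card_le_card h1).trans hw
    have h3 := Finset.card_filter_add_card_filter_not (s := ug S U q D) (fun p : ℕ => (p : ℤ) ∣ RT q f)
    have h4 : T₁ ≤ (ug S U q D).card := by
      rw [ug_card]
      exact hT D hA
    have h5 : ((ug S U q D).filter fun p : ℕ => ¬ (p : ℤ) ∣ RT q f) ⊆ SGT S U q f D' := by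
      intro p hp
      rw [Finset.mem_filter] at hp
      have h6 := mem_ug.1 hp.1
      refine SGT_mem.2 ⟨h6.1, ?_, hp.2⟩
      have hpp := (hS p h6.1).1
      have : Fact p.Prime := ⟨hpp⟩
      have hg0 : ((g : ℤ) : ZMod p) ≠ 0 := by
        intro h0
        refine hp.2 (hD' p hpp ?_)
        rw [hD, sq]
        exact Dvd.dvd.mul_right (Dvd.dvd.mul_right ((ZMod.intCast_zmod_eq_zero_iff_dvd _ p).1 h0) _) _
      rw [hD]
      push_cast
      exact gd_sq_mul hpp h6.2 hg0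
    have h6 := Finset.card_le_card h5
    omega
  rcases Nat.eq_or_lt_of_le hTw with hTw | hTw
  · rw [← hTw, Nat.sub_self, pow_zero, mul_one]
    refine (SG_box hh _).trans ?_
    nlinarith
  -- a useful prime for the trivial twist
  obtain ⟨p₁, hp₁⟩ : (SGT S U q f (1 : ℤ)).Nonempty := by
    rw [← Finset.card_pos]
    have := hcard 1 1 1 (by norm_num) ⟨1, 1, squarefree_one, squarefree_one, by simp, by simp, Or.inl (by norm_num)⟩
      (fun p hp h => absurd h (fun h => by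
        have h1 := Int.natCast_dvd.1 h
        exact hp.one_lt.ne' (Nat.dvd_one.1 (by simpa using h1))))
    omega
  rw [SGT_mem] at hp₁
  obtain ⟨s, hs1, hs2⟩ := dset hR hw
  obtain ⟨L, hL⟩ : ∃ L : ℕ, L = primorial Y ^ e := ⟨_, rfl⟩
  obtain ⟨N, hN⟩ : ∃ N : ℕ, N = L ^ (t + 1) := ⟨_, rfl⟩
  -- valid pairs of square classes
  let V : (Fin 2 → ℤ) → Prop := fun d => (∀ k, d k ≠ 0) ∧
    (∀ k, ∀ p : ℕ, p.Prime → (p : ℤ) ∣ d k → (p : ℤ) ∣ RT q f) ∧ ∃ g D : ℤ, d 0 * d 1 = g ^ 2 * D ∧ Adm q f D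
  have hVdvd : ∀ d, V d → ∀ p : ℕ, p.Prime → (p : ℤ) ∣ d 0 * d 1 → (p : ℤ) ∣ RT q f := by
    intro d hd p hp hpD
    have hp' : Prime (p : ℤ) := Nat.prime_iff_prime_int.1 hp
    rcases hp'.dvd_or_dvd hpD with h1 | h1
    · exact hd.2.1 0 p hp h1
    · exact hd.2.1 1 p hp h1
  have hVcard : ∀ d, V d → T₁ - w ≤ (SGT S U q f (d 0 * d 1)).card := by
    intro d hd
    obtain ⟨g, D, hgD, hA⟩ := hd.2.2
    exact hcard g D _ hgD hA (hVdvd d hd)
  have hcls : ∀ d : Fin 2 → ℤ, ∃ r : Fin N → Pt ℚ ((d 0 * d 1) ^ 2 * Aq (q 0) (q 1))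
      ((d 0 * d 1) ^ 3 * Bq (q 0) (q 1)), V d → ∀ P, ∃ a, ∃ Q', P = r a + L • Q' := by
    intro d
    by_cases hd : V d
    · obtain ⟨p₀, hp₀⟩ : (SGT S U q f (d 0 * d 1)).Nonempty := by
        rw [← Finset.card_pos]
        have := hVcard d hd
        omega
      rw [SGT_mem] at hp₀
      obtain ⟨b1, b2, b3⟩ := hS p₀ hp₀.1
      have hpd := gd_dsc b1 q hp₀.2.1 (g := 1) (D' := d 0 * d 1) (by ring) (by
        have : Fact p₀.Prime := ⟨b1⟩
        push_cast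
        exact one_ne_zero)
      have hd' : dsc ((d 0 * d 1) ^ 2 * Aq (q 0) (q 1)) ((d 0 * d 1) ^ 3 * Bq (q 0) (q 1)) ≠ 0 := by
        intro h0
        exact hpd (by rw [h0]; exact dvd_zero _)
      have hL' : 2 * p₀ + 1 ≤ L := by
        have : 2 ^ e ≤ primorial Y ^ e := Nat.pow_le_pow_left hP e
        omega
      have hfew := hF (d 0 * d 1) (mul_ne_zero (hd.1 0) (hd.1 1)) (hVdvd d hd)
      obtain ⟨r, hr⟩ := few_cls hd' hfew b1 (by omega) hpd hL'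
      rw [hN]
      exact ⟨r, fun _ => hr⟩
    · exact ⟨fun _ => 0, fun h1 => absurd h1 hd⟩
  choose r hr using hcls
  -- the conditions
  let Rr : (Fin 2 → {x // x ∈ s}) × Fin N → (Fin (n + 1) → ℤ) → Prop := fun a Q =>
    V (fun k => (a.1 k : ℤ)) ∧ ∀ p ∈ SGT S U q f ((a.1 0 : ℤ) * (a.1 1 : ℤ)),
      cf p Q ∈ LocT p n (cr p q) (cf p f) (cf p fun k => (a.1 k : ℤ)) (rd p (r (fun k => (a.1 k : ℤ)) a.2))
  have hun := SG_union (ι := Fin (n + 1)) (I := (Fin 2 → {x // x ∈ s}) × Fin N) (h := h)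
    (fun Q => SolT q (f + mulT q Q)) Rr ?_ ((4 * (h : ℝ)) ^ (n + 1) * (4 / 5) ^ (T₁ - w)) ?_
  · refine hun.trans ?_
    refine mul_le_mul_of_nonneg_right ?_ (by positivity)
    rw [Fintype.card_prod, Fintype.card_fun, Fintype.card_fin, Fintype.card_fin, Fintype.card_coe]
    have e1 : ((s.card : ℝ)) ^ 2 ≤ 2 ^ (2 * (w + 1)) := by
      have : (s.card : ℝ) ≤ 2 ^ (w + 1) := by exact_mod_cast hs1
      refine (pow_le_pow_left₀ (by positivity) this 2).trans (le_of_eq ?_)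
      rw [← pow_mul]
      congr 1
      ring
    have e2 : (N : ℝ) = ((primorial Y : ℝ) ^ e) ^ (t + 1) := by
      rw [hN, hL]
      push_cast
      rfl
    push_cast
    rw [e2]
    exact mul_le_mul_of_nonneg_right e1 (by positivity)
  · -- a solution satisfies one of the conditions
    rintro Q - ⟨x, z, y, hc, hy⟩
    have hp0 := (hS p₁ hp₁.1).1
    have hq0 : ∀ i, qe (q i) x z ≠ 0 := by
      intro i h0
      have : Fact p₁.Prime := ⟨hp0⟩
      refine hp₁.2.1.2.1 i (SG_nz (cr p₁ q i) (x := ((x : ℤ) : ZMod p₁)) (z := ((z : ℤ) : ZMod p₁)) ?_ ?_)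
      · by_contra hcon
        push Not at hcon
        have hx : (p₁ : ℤ) ∣ x := (ZMod.intCast_zmod_eq_zero_iff_dvd x p₁).1 hcon.1
        have hz : (p₁ : ℤ) ∣ z := (ZMod.intCast_zmod_eq_zero_iff_dvd z p₁).1 hcon.2
        have hu := hc.isUnit_of_dvd' hx hz
        exact (Nat.prime_iff_prime_int.1 hp0).not_isUnit hu
      · have := qe_map (Int.castRingHom (ZMod p₁)) (q i) x z
        rw [h0, map_zero] at this
        exact this
    obtain ⟨d, k, hk, hsf, hdR, hsq, hA⟩ := sol_data (m := n + 4) (by omega) q (f + mulT q Q) hc hy hq0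
    rw [RT_add] at hdR
    have hA' : ∃ g D : ℤ, d 0 * d 1 = g ^ 2 * D ∧ Adm q f D := by
      obtain ⟨g, D, h1, a, b, h2, h3, h4, h5, h6⟩ := hA
      rw [rf_add] at h4 h5
      exact ⟨g, D, h1, a, b, h2, h3, h4, h5, h6⟩
    have hd0 : ∀ i, d i ≠ 0 := by
      intro i h0
      have := hk i
      rw [h0, zero_mul] at this
      exact hq0 i this
    have hV : V d := ⟨hd0, hdR, hA'⟩
    obtain ⟨p₀, hp₀⟩ : (SGT S U q f (d 0 * d 1)).Nonempty := by
      rw [← Finset.card_pos]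
      have := hVcard d hV
      omega
    rw [SGT_mem] at hp₀
    have hdp : ∀ p, p ∈ SGT S U q f (d 0 * d 1) →
        ¬ (p : ℤ) ∣ dsc ((d 0 * d 1) ^ 2 * Aq (q 0) (q 1)) ((d 0 * d 1) ^ 3 * Bq (q 0) (q 1)) := by
      intro p hp
      rw [SGT_mem] at hp
      have hpp := (hS p hp.1).1
      exact gd_dsc hpp q hp.2.1 (g := 1) (D' := d 0 * d 1) (by ring) (by
        have : Fact p.Prime := ⟨hpp⟩
        push_cast
        exact one_ne_zero)
    have hd' : dsc ((d 0 * d 1) ^ 2 * Aq (q 0) (q 1)) ((d 0 * d 1) ^ 3 * Bq (q 0) (q 1)) ≠ 0 := by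
      intro h0
      exact hdp p₀ (SGT_mem.2 hp₀) (by rw [h0]; exact dvd_zero _)
    obtain ⟨P, hP'⟩ := exists_pt (q 0) (q 1) (d 0 * d 1) (k 0 * k 1) x z hd' (hq0 0) (by
      rw [hk 0, hk 1]
      ring)
    obtain ⟨a, Q', hPa⟩ := hr d hV P
    refine ⟨(fun i => ⟨d i, hs2 (d i) (hsf i) (hdR i)⟩, a), hV, fun p hp => ?_⟩
    have hp' := SGT_mem.1 hp
    obtain ⟨c1, c2, c3⟩ := hS p hp'.1
    refine mem_loc q f Q hc d k hk hsq c1 (by omega) hp'.2.1.2.1 (L := L) ?_ ?_ P _ Q' hPa hP'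
    · exact hdp p hp
    · rw [hL]
      exact na_dvd c1 c3 q hp'.2.1 (g := 1) (D' := d 0 * d 1) (by ring) (by
        have : Fact p.Prime := ⟨c1⟩
        push_cast
        exact one_ne_zero) hU hY hX he
  · -- the number for one condition
    rintro ⟨a1, a2⟩
    by_cases hV' : V (fun k => (a1 k : ℤ))
    · have key : ∀ p : ℕ, ∃ Z : Set (Fin (n + 1) → ZMod p), p ∈ SGT S U q f ((a1 0 : ℤ) * (a1 1 : ℤ)) →
          ((Nat.card Z : ℝ) ≤ 4 / 5 * (p : ℝ) ^ (n + 1) ∧ ∀ Q, Rr (a1, a2) Q → cf p Q ∈ Z) := by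
        intro p
        by_cases hp : p ∈ SGT S U q f ((a1 0 : ℤ) * (a1 1 : ℤ))
        · have hp' := SGT_mem.1 hp
          obtain ⟨c1, c2, c3⟩ := hS p hp'.1
          have : Fact p.Prime := ⟨c1⟩
          have hdn : ∀ k, cf p (fun k => (a1 k : ℤ)) k ≠ 0 := by
            intro k h0
            exact hp'.2.2 (hV'.2.1 k p c1 ((ZMod.intCast_zmod_eq_zero_iff_dvd (a1 k : ℤ) p).1 h0))
          refine ⟨LocT p n (cr p q) (cf p f) (cf p fun k => (a1 k : ℤ))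
            (rd p (r (fun k => (a1 k : ℤ)) a2)), fun _ => ⟨?_, fun Q hQ => ?_⟩⟩
          · refine loc_dens c2 hn _ _ _ hdn ?_ ?_ _
            · intro h0
              exact hp'.2.1.2.1 0 (by rw [h0]; exact IsSquare.zero)
            · intro h0
              have h1 := rq_map (Int.castRingHom (ZMod p)) (q 0) (q 1)
              have h2 : ((rq (q 0) (q 1) : ℤ) : ZMod p) = 0 := by
                rw [← h0]
                exact h1.symm
              exact hp'.2.2 (((ZMod.intCast_zmod_eq_zero_iff_dvd _ p).1 h2).trans (rq_dvd_RT q f))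
          · exact hQ.2 p hp
        · exact ⟨∅, fun h' => absurd h' hp⟩
      choose Z hZ using key
      have hsub : SGT S U q f ((a1 0 : ℤ) * (a1 1 : ℤ)) ⊆ S := fun p hp => (SGT_mem.1 hp).1
      refine (SG_count (SGT S U q f ((a1 0 : ℤ) * (a1 1 : ℤ))) (fun p hp => (hS p (hsub hp)).1)
        ((hprod _ hsub).trans hq) _ Z (fun p hp => (hZ p hp).1) (fun Q hQ p hp => (hZ p hp).2 Q hQ)).trans ?_
      have hpow : ((4 : ℝ) / 5) ^ (SGT S U q f ((a1 0 : ℤ) * (a1 1 : ℤ))).card ≤ (4 / 5) ^ (T₁ - w) :=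
        pow_le_pow_of_le_one (by norm_num) (by norm_num) (hVcard _ hV')
      exact mul_le_mul_of_nonneg_left hpow h4h
    · have h0 : Nat.card {c : Fin (n + 1) → ℤ // (∀ i, |c i| ≤ (h : ℤ)) ∧ Rr (a1, a2) c} = 0 := by
        have : IsEmpty {c : Fin (n + 1) → ℤ // (∀ i, |c i| ≤ (h : ℤ)) ∧ Rr (a1, a2) c} :=
          ⟨fun z => hV' z.2.2.1⟩
        exact Nat.card_of_isEmpty
      rw [h0]
      push_cast
      positivity

end HT
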