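import Pool.Agent.Lib.MP_10e784_agHT.PE
import Pool.Agent.Lib.MP_10e784_agHT.SG
import Pool.Agent.Lib.MP_10e784_agHT.SI

/-!
# One pair of quadratic forms
-/

set_option autoImplicit false

namespace HT

open Finset Polynomial MWS HY

/-- `Few` is monotone -/
private theorem SL_few {A B : ℤ} {t t' : ℕ} (h : t ≤ t') (hF : Few A B t) : Few A B t' := by
  obtain ⟨r, hr⟩ := hF
  refine ⟨fun i => if hi : (i : ℕ) < 2 ^ t then r ⟨i, hi⟩ else 0, fun P => ?_⟩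
  obtain ⟨i, Q, hQ⟩ := hr P
  have hi : (i : ℕ) < 2 ^ t' := lt_of_lt_of_le i.2 (Nat.pow_le_pow_right (by norm_num) h)
  refine ⟨⟨i, hi⟩, Q, ?_⟩
  show P = (if hi : (i : ℕ) < 2 ^ t then r ⟨(i : ℕ), hi⟩ else 0) + 2 • Q
  rw [dif_pos i.2]
  exact hQ

/-- few classes modulo `2` for the twisted curves -/
theorem few_twist {C0 : ℕ} (hR : ∀ a b : ℤ, b ≠ 0 → a ^ 2 - 4 * b ≠ 0 →
    Few (81 * b - 27 * a ^ 2) (54 * a ^ 3 - 243 * (a * b))
      (b.natAbs.primeFactors.card + (a ^ 2 - 4 * b).natAbs.primeFactors.card + C0))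
    {m : ℕ} (q : Fin 2 → Fin 3 → ℤ) (f : Fin (m + 1) → ℤ) (h0 : RT q f ≠ 0) {w t : ℕ}
    (hw : (RT q f).natAbs.primeFactors.card ≤ w) (ht : 2 * w + C0 + 4 ≤ t) (D : ℤ) (hD : D ≠ 0)
    (hDR : ∀ p : ℕ, p.Prime → (p : ℤ) ∣ D → (p : ℤ) ∣ RT q f) :
    Few (D ^ 2 * Aq (q 0) (q 1)) (D ^ 3 * Bq (q 0) (q 1)) t := by
  have hdi : ∀ i : Fin 2, dq (q i) ≠ 0 := fun i h => h0 (by
    have := dq_dvd_RT q f i
    rw [h, zero_dvd_iff] at this
    exact this)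
  have hr : rq (q 0) (q 1) ≠ 0 := fun h => h0 (by
    have := rq_dvd_RT q f
    rw [h, zero_dvd_iff] at this
    exact this)
  have hb : D ^ 2 * (dq (q 0) * dq (q 1)) ≠ 0 := mul_ne_zero (pow_ne_zero _ hD) (mul_ne_zero (hdi 0) (hdi 1))
  have e1 : (-(D * bq (q 0) (q 1))) ^ 2 - 4 * (D ^ 2 * (dq (q 0) * dq (q 1))) =
      16 * (D ^ 2 * rq (q 0) (q 1)) := by
    have := bq_sq (q 0) (q 1)
    linear_combination D ^ 2 * this
  have ha : (-(D * bq (q 0) (q 1))) ^ 2 - 4 * (D ^ 2 * (dq (q 0) * dq (q 1))) ≠ 0 := by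
    rw [e1]
    exact mul_ne_zero (by norm_num) (mul_ne_zero (pow_ne_zero _ hD) hr)
  have key := hR (-(D * bq (q 0) (q 1))) (D ^ 2 * (dq (q 0) * dq (q 1))) hb ha
  have e2 : 81 * (D ^ 2 * (dq (q 0) * dq (q 1))) - 27 * (-(D * bq (q 0) (q 1))) ^ 2 =
      D ^ 2 * Aq (q 0) (q 1) := by
    unfold Aq
    ring
  have e3 : 54 * (-(D * bq (q 0) (q 1))) ^ 3 - 243 * (-(D * bq (q 0) (q 1)) * (D ^ 2 * (dq (q 0) * dq (q 1)))) =
      D ^ 3 * Bq (q 0) (q 1) := by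
    unfold Bq
    ring
  rw [e2, e3] at key
  refine SL_few ?_ key
  have hp : ∀ p : ℕ, p.Prime → (p : ℤ) ∣ D ^ 2 → (p : ℤ) ∣ RT q f := fun p hp h =>
    hDR p hp (Int.Prime.dvd_pow' hp h)
  have c1 : (D ^ 2 * (dq (q 0) * dq (q 1))).natAbs.primeFactors.card ≤ w := by
    refine (Finset.card_le_card ?_).trans hw
    intro p hpp
    rw [Nat.mem_primeFactors] at hpp ⊢
    refine ⟨hpp.1, ?_, by simpa using h0⟩
    have h1 : (p : ℤ) ∣ D ^ 2 * (dq (q 0) * dq (q 1)) := Int.natCast_dvd.2 hpp.2.1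
    have hpr : Prime (p : ℤ) := Nat.prime_iff_prime_int.1 hpp.1
    refine Int.natCast_dvd.1 ?_
    rcases hpr.dvd_or_dvd h1 with h | h
    · exact hp p hpp.1 h
    · rcases hpr.dvd_or_dvd h with h | h
      · exact h.trans (dq_dvd_RT q f 0)
      · exact h.trans (dq_dvd_RT q f 1)
  have c2 : ((-(D * bq (q 0) (q 1))) ^ 2 - 4 * (D ^ 2 * (dq (q 0) * dq (q 1)))).natAbs.primeFactors.card ≤ w + 1 := by
    rw [e1]
    have h2 : (16 * (D ^ 2 * rq (q 0) (q 1))).natAbs.primeFactors ⊆ insert 2 (RT q f).natAbs.primeFactors := by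
      intro p hpp
      rw [Nat.mem_primeFactors] at hpp
      rw [Finset.mem_insert, Nat.mem_primeFactors]
      have h1 : (p : ℤ) ∣ 16 * (D ^ 2 * rq (q 0) (q 1)) := Int.natCast_dvd.2 hpp.2.1
      have hpr : Prime (p : ℤ) := Nat.prime_iff_prime_int.1 hpp.1
      rcases hpr.dvd_or_dvd h1 with h | h
      · left
        have h3 : (p : ℤ) ∣ 2 := by
          have : (16 : ℤ) = 2 ^ 4 := by norm_num
          rw [this] at h
          exact hpr.dvd_of_dvd_pow h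
        have h4 : p ∣ 2 := by exact_mod_cast h3
        exact (Nat.prime_dvd_prime_iff_eq hpp.1 Nat.prime_two).1 h4
      · right
        refine ⟨hpp.1, Int.natCast_dvd.1 ?_, by simpa using h0⟩
        rcases hpr.dvd_or_dvd h with h | h
        · exact hp p hpp.1 h
        · exact h.trans (rq_dvd_RT q f)
    refine (Finset.card_le_card h2).trans ((Finset.card_insert_le _ _).trans ?_)
    omega
  omega

private theorem SL_45 (T w : ℕ) : (4 / 5 : ℝ) ^ (T - w) ≤ (5 / 4) ^ w * (4 / 5) ^ T := by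
  rcases le_total w T with h | h
  · have e : (4 / 5 : ℝ) ^ T = (4 / 5) ^ w * (4 / 5) ^ (T - w) := by
      rw [← pow_add, Nat.add_sub_cancel' h]
    rw [e, ← mul_assoc, ← mul_pow]
    norm_num
  · rw [Nat.sub_eq_zero_of_le h, pow_zero]
    have e : (5 / 4 : ℝ) ^ w = (5 / 4) ^ T * (5 / 4) ^ (w - T) := by
      rw [← pow_add, Nat.add_sub_cancel' h]
    have h1 : (1 : ℝ) ≤ (5 / 4) ^ (w - T) := one_le_pow₀ (by norm_num)
    have h2 : (5 / 4 : ℝ) ^ T * (4 / 5) ^ T = 1 := by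
      rw [← mul_pow]
      norm_num
    rw [e, mul_right_comm, h2, one_mul]
    exact h1

theorem card_finset {α : Type*} {p : α → Prop} (s : Finset α) (h : ∀ x, x ∈ s ↔ p x) :
    Nat.card {x // p x} = s.card := Nat.subtype_card s h

private theorem SL_triv {n H : ℕ} (P : (Fin (n + 1) → ℤ) → Prop) :
    Nat.card {Q : Fin (n + 1) → ℤ // (∀ i, |Q i| ≤ (H : ℤ)) ∧ P Q} ≤ (2 * H + 1) ^ (n + 1) := by
  classical
  rw [card_finset ((Fintype.piFinset (fun _ : Fin (n + 1) => Icc (-(H : ℤ)) (H : ℤ))).filter fun Q => P Q)]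
  · refine (Finset.card_filter_le _ _).trans (le_of_eq ?_)
    rw [Fintype.card_piFinset, prod_const, card_univ, Fintype.card_fin, Int.card_Icc]
    congr 1
    omega
  · intro Q
    rw [mem_filter, Fintype.mem_piFinset]
    simp only [mem_Icc, abs_le]

/-- the bad pairs -/
def BadT (S : Finset ℕ) (U w T : ℕ) {m : ℕ} (q : Fin 2 → Fin 3 → ℤ) (F : Fin (m + 1) → ℤ) : Prop :=
  RT q F ≠ 0 ∧ (RT q F).natAbs.primeFactors.card ≤ w ∧ ∃ D : ℤ, Adm q F D ∧ nU S U q D < T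

/-- one pair of quadratic forms -/
theorem fibre {C0 : ℕ} (hR2 : ∀ a b : ℤ, b ≠ 0 → a ^ 2 - 4 * b ≠ 0 →
    Few (81 * b - 27 * a ^ 2) (54 * a ^ 3 - 243 * (a * b))
      (b.natAbs.primeFactors.card + (a ^ 2 - 4 * b).natAbs.primeFactors.card + C0))
    {n k : ℕ} (hn : Even n) (hk : 3 ≤ k) (q : Fin 2 → Fin 3 → ℤ) {H : ℕ} (hH : 1 ≤ H)
    (hqH : ∀ i j, |q i j| ≤ (H : ℤ)) {w t T : ℕ} (ht : 2 * w + C0 + 4 ≤ t)
    (S : Finset ℕ) {X U Y e : ℕ} (hS : ∀ p ∈ S, p.Prime ∧ 29 ≤ p ∧ p ≤ X) (hU : 1 ≤ U) (hY : 4 * U ≤ Y)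
    (hX : 3 * X ≤ Y * U) (he : 3 * X ≤ 2 ^ e) (hq : ∏ p ∈ S, p ≤ H) :
    (Nat.card {F : Fin (n + 4 + 1) → ℤ // (∀ i, |F i| ≤ (H : ℤ) ^ k) ∧
      (SolT q F ∧ RT q F ≠ 0 ∧ (RT q F).natAbs.primeFactors.card ≤ w)} : ℝ) ≤
      2 ^ (n + 1) * (21 * (H : ℝ) ^ k) ^ (n + 5) * (2 ^ (2 * (w + 1)) * ((primorial Y : ℝ) ^ e) ^ (t + 1) *
        (5 / 4) ^ w * (4 / 5) ^ T) +
      (Nat.card {F : Fin (n + 4 + 1) → ℤ // (∀ i, |F i| ≤ 10 * (H : ℤ) ^ k) ∧ BadT S U w T q F} : ℝ) := by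
  classical
  obtain ⟨B, hB⟩ : ∃ B : ℝ, B = 2 ^ (2 * (w + 1)) * ((primorial Y : ℝ) ^ e) ^ (t + 1) * (5 / 4) ^ w * (4 / 5) ^ T :=
    ⟨_, rfl⟩
  have hB0 : 0 ≤ B := by
    rw [hB]
    positivity
  have hH0 : (1 : ℝ) ≤ H := by exact_mod_cast hH
  have h2H : (0 : ℝ) < (2 * (H : ℝ) + 1) ^ (n + 1) := by positivity
  have h4H : (0 : ℝ) ≤ B * (4 * (H : ℝ)) ^ (n + 1) := by positivity
  have h1 : ∀ F : Fin (n + 4 + 1) → ℤ, (Nat.card {Q : Fin (n + 1) → ℤ // (∀ i, |Q i| ≤ (H : ℤ)) ∧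
      (SolT q (F + mulT q Q) ∧ RT q (F + mulT q Q) ≠ 0 ∧
        (RT q (F + mulT q Q)).natAbs.primeFactors.card ≤ w)} : ℝ) ≤
      B * (4 * (H : ℝ)) ^ (n + 1) + (2 * (H : ℝ) + 1) ^ (n + 1) * (if BadT S U w T q F then 1 else 0) := by
    intro F
    by_cases hF : RT q F ≠ 0 ∧ (RT q F).natAbs.primeFactors.card ≤ w
    · by_cases hbad : BadT S U w T q F
      · rw [if_pos hbad, mul_one]
        have h2 := SL_triv (n := n) (H := H) (fun Q => SolT q (F + mulT q Q) ∧ RT q (F + mulT q Q) ≠ 0 ∧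
          (RT q (F + mulT q Q)).natAbs.primeFactors.card ≤ w)
        have h3 : (Nat.card {Q : Fin (n + 1) → ℤ // (∀ i, |Q i| ≤ (H : ℤ)) ∧
            (SolT q (F + mulT q Q) ∧ RT q (F + mulT q Q) ≠ 0 ∧
            (RT q (F + mulT q Q)).natAbs.primeFactors.card ≤ w)} : ℝ) ≤ (2 * (H : ℝ) + 1) ^ (n + 1) := by
          exact_mod_cast h2
        linarith
      · rw [if_neg hbad, mul_zero, add_zero]
        have hT : ∀ D : ℤ, Adm q F D → T ≤ nU S U q D := by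
          intro D hD
          by_contra hc
          exact hbad ⟨hF.1, hF.2, D, hD, not_le.1 hc⟩
        have hk := one_fibre hn q F hF.1 hF.2
          (fun D hD hDR => few_twist hR2 q F hF.1 hF.2 ht D hD hDR) S hS hU hY hX he hq hT
        have e1 : Nat.card {Q : Fin (n + 1) → ℤ // (∀ i, |Q i| ≤ (H : ℤ)) ∧
            (SolT q (F + mulT q Q) ∧ RT q (F + mulT q Q) ≠ 0 ∧
              (RT q (F + mulT q Q)).natAbs.primeFactors.card ≤ w)} =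
            Nat.card {Q : Fin (n + 1) → ℤ // (∀ i, |Q i| ≤ (H : ℤ)) ∧ SolT q (F + mulT q Q)} := by
          refine Nat.card_congr (Equiv.subtypeEquivRight fun Q => ?_)
          rw [RT_add]
          exact ⟨fun h => ⟨h.1, h.2.1⟩, fun h => ⟨h.1, h.2, hF⟩⟩
        rw [e1]
        refine hk.trans ?_
        have h45 := SL_45 T w
        calc (2 : ℝ) ^ (2 * (w + 1)) * ((primorial Y : ℝ) ^ e) ^ (t + 1) * ((4 * (H : ℝ)) ^ (n + 1) *
              (4 / 5) ^ (T - w))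
            ≤ (2 : ℝ) ^ (2 * (w + 1)) * ((primorial Y : ℝ) ^ e) ^ (t + 1) * ((4 * (H : ℝ)) ^ (n + 1) *
              ((5 / 4) ^ w * (4 / 5) ^ T)) := by gcongr
          _ = B * (4 * (H : ℝ)) ^ (n + 1) := by
              rw [hB]
              ring
    · have e1 : Nat.card {Q : Fin (n + 1) → ℤ // (∀ i, |Q i| ≤ (H : ℤ)) ∧
          (SolT q (F + mulT q Q) ∧ RT q (F + mulT q Q) ≠ 0 ∧
            (RT q (F + mulT q Q)).natAbs.primeFactors.card ≤ w)} = 0 := by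
        have : IsEmpty {Q : Fin (n + 1) → ℤ // (∀ i, |Q i| ≤ (H : ℤ)) ∧
          (SolT q (F + mulT q Q) ∧ RT q (F + mulT q Q) ≠ 0 ∧
            (RT q (F + mulT q Q)).natAbs.primeFactors.card ≤ w)} := by
          refine ⟨fun Q => hF ?_⟩
          have := Q.2.2.2
          rw [RT_add] at this
          exact this
        exact Nat.card_of_isEmpty
      rw [e1]
      push_cast
      have h5 : (0 : ℝ) ≤ (2 * (H : ℝ) + 1) ^ (n + 1) * (if BadT S U w T q F then 1 else 0) := by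
        split_ifs <;> positivity
      linarith
  have h2 := average (n := n) hk q hH hqH (fun F => SolT q F ∧ RT q F ≠ 0 ∧ (RT q F).natAbs.primeFactors.card ≤ w)
  have h3 : ((Fintype.piFinset (fun _ : Fin (n + 4 + 1) => Icc (-(10 * (H : ℤ) ^ k)) (10 * (H : ℤ) ^ k))).card : ℝ) ≤
      (21 * (H : ℝ) ^ k) ^ (n + 5) := by
    rw [Fintype.card_piFinset, prod_const, card_univ, Fintype.card_fin, Int.card_Icc]
    have h4 : (10 * (H : ℤ) ^ k + 1 - -(10 * (H : ℤ) ^ k)).toNat = 20 * H ^ k + 1 := by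
      have : 10 * (H : ℤ) ^ k + 1 - -(10 * (H : ℤ) ^ k) = ((20 * H ^ k + 1 : ℕ) : ℤ) := by
        push_cast
        ring
      rw [this, Int.toNat_natCast]
    rw [h4]
    push_cast
    refine pow_le_pow_left₀ (by positivity) ?_ _
    have : (1 : ℝ) ≤ (H : ℝ) ^ k := one_le_pow₀ hH0
    linarith
  have h6 : (∑ F ∈ Fintype.piFinset (fun _ : Fin (n + 4 + 1) => Icc (-(10 * (H : ℤ) ^ k)) (10 * (H : ℤ) ^ k)),
      (if BadT S U w T q F then (1 : ℝ) else 0)) =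
      (Nat.card {F : Fin (n + 4 + 1) → ℤ // (∀ i, |F i| ≤ 10 * (H : ℤ) ^ k) ∧ BadT S U w T q F} : ℝ) := by
    rw [Finset.sum_boole, card_finset ((Fintype.piFinset (fun _ : Fin (n + 4 + 1) =>
      Icc (-(10 * (H : ℤ) ^ k)) (10 * (H : ℤ) ^ k))).filter fun F => BadT S U w T q F)]
    intro F
    rw [mem_filter, Fintype.mem_piFinset]
    simp only [mem_Icc, abs_le]
  obtain ⟨N, hN⟩ : ∃ N : ℝ, N = (Nat.card {F : Fin (n + 4 + 1) → ℤ // (∀ i, |F i| ≤ (H : ℤ) ^ k) ∧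
      (SolT q F ∧ RT q F ≠ 0 ∧ (RT q F).natAbs.primeFactors.card ≤ w)} : ℝ) := ⟨_, rfl⟩
  obtain ⟨N', hN'⟩ : ∃ N' : ℝ, N' = (Nat.card {F : Fin (n + 4 + 1) → ℤ // (∀ i, |F i| ≤ 10 * (H : ℤ) ^ k) ∧
      BadT S U w T q F} : ℝ) := ⟨_, rfl⟩
  rw [← hB, ← hN, ← hN']
  rw [← hN'] at h6
  have h4 : N * (2 * (H : ℝ) + 1) ^ (n + 1) ≤
      (21 * (H : ℝ) ^ k) ^ (n + 5) * (B * (4 * (H : ℝ)) ^ (n + 1)) + (2 * (H : ℝ) + 1) ^ (n + 1) * N' := by
    have h5 : N * (2 * (H : ℝ) + 1) ^ (n + 1) ≤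
      ∑ F ∈ Fintype.piFinset (fun _ : Fin (n + 4 + 1) => Icc (-(10 * (H : ℤ) ^ k)) (10 * (H : ℤ) ^ k)),
        (Nat.card {Q : Fin (n + 1) → ℤ // (∀ i, |Q i| ≤ (H : ℤ)) ∧
      (SolT q (F + mulT q Q) ∧ RT q (F + mulT q Q) ≠ 0 ∧
        (RT q (F + mulT q Q)).natAbs.primeFactors.card ≤ w)} : ℝ) := by
      rw [hN]
      exact_mod_cast h2
    refine h5.trans ((Finset.sum_le_sum fun F _ => h1 F).trans ?_)
    rw [Finset.sum_add_distrib, Finset.sum_const, nsmul_eq_mul, ← Finset.mul_sum, h6]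
    gcongr
  have h7 : (4 * (H : ℝ)) ^ (n + 1) ≤ 2 ^ (n + 1) * (2 * (H : ℝ) + 1) ^ (n + 1) := by
    rw [← mul_pow]
    exact pow_le_pow_left₀ (by positivity) (by linarith) _
  refine le_of_mul_le_mul_right (h4.trans ?_) h2H
  calc (21 * (H : ℝ) ^ k) ^ (n + 5) * (B * (4 * (H : ℝ)) ^ (n + 1)) + (2 * (H : ℝ) + 1) ^ (n + 1) * N'
      ≤ (21 * (H : ℝ) ^ k) ^ (n + 5) * (B * (2 ^ (n + 1) * (2 * (H : ℝ) + 1) ^ (n + 1))) +
        (2 * (H : ℝ) + 1) ^ (n + 1) * N' := by gcongr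
    _ = (2 ^ (n + 1) * (21 * (H : ℝ) ^ k) ^ (n + 5) * B + N') * (2 * (H : ℝ) + 1) ^ (n + 1) := by ring

/-- the numbers of pairs as a sum -/
theorem card_pairs {ι κ : Type} [Fintype ι] [DecidableEq ι] [Fintype κ] [DecidableEq κ] (a b : ℤ)
    (P : (ι → ℤ) → (κ → ℤ) → Prop) :
    Nat.card {z : (ι → ℤ) × (κ → ℤ) // (∀ i, |z.1 i| ≤ a) ∧ (∀ i, |z.2 i| ≤ b) ∧ P z.1 z.2} =
      ∑ q ∈ Fintype.piFinset (fun _ : ι => Icc (-a) a),
        Nat.card {F : κ → ℤ // (∀ i, |F i| ≤ b) ∧ P q F} := by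
  classical
  have h1 : ∀ q : ι → ℤ, Nat.card {F : κ → ℤ // (∀ i, |F i| ≤ b) ∧ P q F} =
      ((Fintype.piFinset (fun _ : κ => Icc (-b) b)).filter fun F => P q F).card := by
    intro q
    refine card_finset _ fun F => ?_
    rw [mem_filter, Fintype.mem_piFinset]
    simp only [mem_Icc, abs_le]
  simp only [h1]
  rw [← card_sigma]
  rw [card_finset (((Fintype.piFinset (fun _ : ι => Icc (-a) a)) ×ˢ
    (Fintype.piFinset (fun _ : κ => Icc (-b) b))).filter fun z => P z.1 z.2)]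
  · refine Finset.card_bij (fun z _ => (⟨z.1, z.2⟩ : (_ : ι → ℤ) × (κ → ℤ))) ?_ ?_ ?_
    · rintro ⟨q, F⟩ hz
      rw [mem_filter, mem_product] at hz
      rw [mem_sigma, mem_filter]
      exact ⟨hz.1.1, hz.1.2, hz.2⟩
    · rintro ⟨q, F⟩ _ ⟨q', F'⟩ _ h
      have h5 : q = q' := congrArg Sigma.fst h
      have h6 : F = F' := congrArg (fun x : (_ : ι → ℤ) × (κ → ℤ) => x.2) h
      rw [h5, h6]
    · rintro ⟨q, F⟩ hz
      rw [mem_sigma, mem_filter] at hz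
      refine ⟨(q, F), ?_, rfl⟩
      rw [mem_filter, mem_product]
      exact ⟨⟨hz.1, hz.2.1⟩, hz.2.2⟩
  · rintro ⟨q, F⟩
    rw [mem_filter, mem_product, Fintype.mem_piFinset, Fintype.mem_piFinset]
    simp only [mem_Icc, abs_le]
    exact ⟨fun h => ⟨h.1.1, h.1.2, h.2⟩, fun h => ⟨⟨h.1, h.2.1⟩, h.2.2⟩⟩

end HT
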