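import Pool.Agent.Lib.MP_10e784_agH.SK
import Pool.Agent.Lib.MP_10e784_agHT.DR
import Pool.Agent.Lib.MP_10e784_agHT.GA
import Pool.Agent.Lib.MP_10e784_agHT.OA
import Pool.Agent.Lib.MP_10e784_agHT.SJ
import Pool.Agent.Lib.MP_10e784_agHT.SL

/-!
# Hyperelliptic curves `y² = q₀ q₁ F`: the assembly
-/

set_option autoImplicit false

namespace HT

open Finset Polynomial MWS HY

private theorem SM_exp {w t e Y T : ℕ} {A : ℝ} (hAB : 2 * ((w : ℝ) + 1) * Real.log 2 + ((t : ℝ) + 1) * e * Y * Real.log 4 +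
      w * Real.log (5 / 4) + A ≤ T * Real.log (5 / 4)) :
    2 ^ (2 * (w + 1)) * ((primorial Y : ℝ) ^ e) ^ (t + 1) * (5 / 4) ^ w * (4 / 5) ^ T ≤ Real.exp (-A) := by
  have hP : (0 : ℝ) < primorial Y := by exact_mod_cast primorial_pos Y
  have hP1 : (primorial Y : ℝ) ≤ 4 ^ Y := by exact_mod_cast primorial_le_four_pow Y
  have h1 : ((primorial Y : ℝ) ^ e) ^ (t + 1) ≤ Real.exp (((t : ℝ) + 1) * e * Y * Real.log 4) := by
    have h2 : ((primorial Y : ℝ) ^ e) ^ (t + 1) ≤ (((4 : ℝ) ^ Y) ^ e) ^ (t + 1) := by gcongr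
    refine h2.trans (le_of_eq ?_)
    rw [← pow_mul, ← pow_mul, ← Real.exp_log (show (0 : ℝ) < 4 by norm_num), ← Real.exp_nat_mul]
    congr 1
    rw [Real.log_exp]
    push_cast
    ring
  have h3 : (2 : ℝ) ^ (2 * (w + 1)) = Real.exp (2 * ((w : ℝ) + 1) * Real.log 2) := by
    have e1 : 2 * ((w : ℝ) + 1) * Real.log 2 = ((2 * (w + 1) : ℕ) : ℝ) * Real.log 2 := by
      push_cast
      ring
    rw [e1, Real.exp_nat_mul, Real.exp_log (by norm_num)]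
  have h4 : (5 / 4 : ℝ) ^ w = Real.exp (w * Real.log (5 / 4)) := by
    rw [Real.exp_nat_mul, Real.exp_log (by norm_num)]
  have h5 : (4 / 5 : ℝ) ^ T = Real.exp (-(T * Real.log (5 / 4))) := by
    rw [Real.exp_neg, Real.exp_nat_mul, Real.exp_log (by norm_num), ← inv_pow]
    norm_num
  rw [h3, h4, h5]
  calc Real.exp (2 * ((w : ℝ) + 1) * Real.log 2) * ((primorial Y : ℝ) ^ e) ^ (t + 1) *
        Real.exp (w * Real.log (5 / 4)) * Real.exp (-(T * Real.log (5 / 4)))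
      ≤ Real.exp (2 * ((w : ℝ) + 1) * Real.log 2) * Real.exp (((t : ℝ) + 1) * e * Y * Real.log 4) *
        Real.exp (w * Real.log (5 / 4)) * Real.exp (-(T * Real.log (5 / 4))) := by gcongr
    _ = Real.exp (2 * ((w : ℝ) + 1) * Real.log 2 + ((t : ℝ) + 1) * e * Y * Real.log 4 +
        w * Real.log (5 / 4) + -(T * Real.log (5 / 4))) := by
        rw [Real.exp_add, Real.exp_add, Real.exp_add]
    _ ≤ Real.exp (-A) := Real.exp_le_exp.2 (by linarith)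

/-- the bracket of `bad_count` -/
private theorem SM_bracket {X T w z : ℕ} {γ s A L : ℝ} (hX : 1 ≤ X) (hz : 1 ≤ z) (_ : 0 ≤ γ) (hγ : γ ≤ 5) (hL : 0 ≤ L)
    (h1 : 6 * (w * Real.log z + 10 * T * Real.log X) + 10 * T + A ≤ γ / 5 * s)
    (h2 : ((w : ℝ) + 1) / z ≤ Real.exp (-A)) (h3 : w * Real.log 64 + 2 * Real.log (1 + L) + A ≤ T * Real.log 2) :
    (((z ^ w * X ^ (10 * T)) ^ 2 : ℕ) : ℝ) * (5 / 4) ^ T *
        Real.exp (-(γ / 5 * (s - Nat.log 2 ((z ^ w * X ^ (10 * T)) ^ 2)))) +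
      (5 / 4) ^ (10 * T) * Real.exp (-(γ / 5 * s)) + ((w : ℝ) + 1) / z +
      64 ^ w * (1 + L) ^ 2 * (1 / 2) ^ T ≤ 4 * Real.exp (-A) := by
  have hX0 : (0 : ℝ) < X := by exact_mod_cast hX
  have hz0 : (0 : ℝ) < z := by exact_mod_cast hz
  have hlX : 0 ≤ Real.log X := Real.log_natCast_nonneg X
  have hlz : 0 ≤ Real.log z := Real.log_natCast_nonneg z
  have hT0 : (0 : ℝ) ≤ T := Nat.cast_nonneg T
  have hw0 : (0 : ℝ) ≤ w := Nat.cast_nonneg w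
  have h54 : Real.log (5 / 4) ≤ 1 := by
    have := Real.log_le_sub_one_of_pos (show (0 : ℝ) < 5 / 4 by norm_num)
    linarith
  have h54' : 0 ≤ Real.log (5 / 4) := Real.log_nonneg (by norm_num)
  obtain ⟨M, hM⟩ : ∃ M : ℝ, M = w * Real.log z + 10 * T * Real.log X := ⟨_, rfl⟩
  have hM0 : 0 ≤ M := by
    rw [hM]
    positivity
  rw [← hM] at h1
  have hD0 : 1 ≤ (z ^ w * X ^ (10 * T)) ^ 2 := Nat.one_le_pow _ _ (Nat.mul_pos (Nat.pow_pos hz) (Nat.pow_pos hX))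
  have hD1 : (((z ^ w * X ^ (10 * T)) ^ 2 : ℕ) : ℝ) = Real.exp (2 * M) := by
    have e1 : Real.exp M = (z : ℝ) ^ w * (X : ℝ) ^ (10 * T) := by
      rw [hM, Real.exp_add, Real.exp_nat_mul, Real.exp_log hz0]
      congr 1
      have e2 : 10 * (T : ℝ) * Real.log X = ((10 * T : ℕ) : ℝ) * Real.log X := by push_cast; ring
      rw [e2, Real.exp_nat_mul, Real.exp_log hX0]
    have e3 : (2 : ℝ) * M = ((2 : ℕ) : ℝ) * M := by norm_num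
    rw [e3, Real.exp_nat_mul, e1]
    push_cast
    ring
  have hlog : (Nat.log 2 ((z ^ w * X ^ (10 * T)) ^ 2) : ℝ) ≤ 4 * M := by
    have e1 : ((2 ^ Nat.log 2 ((z ^ w * X ^ (10 * T)) ^ 2) : ℕ) : ℝ) ≤ (((z ^ w * X ^ (10 * T)) ^ 2 : ℕ) : ℝ) := by
      exact_mod_cast Nat.pow_log_le_self 2 (by omega)
    rw [hD1] at e1
    push_cast at e1
    have e2 := Real.log_le_log (by positivity) e1
    rw [Real.log_pow, Real.log_exp] at e2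
    have e3 := Real.log_two_gt_d9
    have e4 : (0 : ℝ) ≤ (Nat.log 2 ((z ^ w * X ^ (10 * T)) ^ 2) : ℝ) := Nat.cast_nonneg _
    nlinarith
  have hp : ∀ n : ℕ, (5 / 4 : ℝ) ^ n ≤ Real.exp n := by
    intro n
    rw [show (5 / 4 : ℝ) ^ n = Real.exp (n * Real.log (5 / 4)) by
      rw [Real.exp_nat_mul, Real.exp_log (by norm_num)]]
    refine Real.exp_le_exp.2 ?_
    have : (0 : ℝ) ≤ n := Nat.cast_nonneg n
    nlinarith
  have b1 : (((z ^ w * X ^ (10 * T)) ^ 2 : ℕ) : ℝ) * (5 / 4) ^ T *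
        Real.exp (-(γ / 5 * (s - Nat.log 2 ((z ^ w * X ^ (10 * T)) ^ 2)))) ≤ Real.exp (-A) := by
    rw [hD1]
    calc Real.exp (2 * M) * (5 / 4) ^ T * Real.exp (-(γ / 5 * (s - Nat.log 2 ((z ^ w * X ^ (10 * T)) ^ 2))))
        ≤ Real.exp (2 * M) * Real.exp T * Real.exp (-(γ / 5 * (s - Nat.log 2 ((z ^ w * X ^ (10 * T)) ^ 2)))) := by
          gcongr
          exact hp T
      _ = Real.exp (2 * M + T + -(γ / 5 * (s - Nat.log 2 ((z ^ w * X ^ (10 * T)) ^ 2)))) := by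
          rw [Real.exp_add, Real.exp_add]
      _ ≤ Real.exp (-A) := by
          refine Real.exp_le_exp.2 ?_
          have e1 : γ / 5 * (Nat.log 2 ((z ^ w * X ^ (10 * T)) ^ 2) : ℝ) ≤ 1 * (4 * M) := by
            refine mul_le_mul (by linarith) hlog (Nat.cast_nonneg _) zero_le_one
          have e2 : γ / 5 * (s - Nat.log 2 ((z ^ w * X ^ (10 * T)) ^ 2)) =
            γ / 5 * s - γ / 5 * (Nat.log 2 ((z ^ w * X ^ (10 * T)) ^ 2) : ℝ) := by ring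
          rw [e2]
          linarith
  have b2 : (5 / 4 : ℝ) ^ (10 * T) * Real.exp (-(γ / 5 * s)) ≤ Real.exp (-A) := by
    calc (5 / 4 : ℝ) ^ (10 * T) * Real.exp (-(γ / 5 * s)) ≤ Real.exp ((10 * T : ℕ) : ℝ) * Real.exp (-(γ / 5 * s)) := by
          gcongr
          exact hp (10 * T)
      _ = Real.exp (10 * (T : ℝ) + -(γ / 5 * s)) := by
          rw [← Real.exp_add]
          push_cast
          rfl
      _ ≤ Real.exp (-A) := Real.exp_le_exp.2 (by linarith)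
  have b4 : (64 : ℝ) ^ w * (1 + L) ^ 2 * (1 / 2) ^ T ≤ Real.exp (-A) := by
    have hL1 : (0 : ℝ) < 1 + L := by linarith
    have e1 : (64 : ℝ) ^ w = Real.exp (w * Real.log 64) := by
      rw [Real.exp_nat_mul, Real.exp_log (by norm_num)]
    have e2 : (1 + L) ^ 2 = Real.exp (2 * Real.log (1 + L)) := by
      have e3 : (2 : ℝ) * Real.log (1 + L) = ((2 : ℕ) : ℝ) * Real.log (1 + L) := by norm_num
      rw [e3, Real.exp_nat_mul, Real.exp_log hL1]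
    have e4 : (1 / 2 : ℝ) ^ T = Real.exp (-(T * Real.log 2)) := by
      rw [Real.exp_neg, Real.exp_nat_mul, Real.exp_log (by norm_num), one_div, inv_pow]
    rw [e1, e2, e4, ← Real.exp_add, ← Real.exp_add]
    exact Real.exp_le_exp.2 (by linarith)
  linarith

/-- small `H` -/
private theorem SM_small {m H k : ℕ} (hH : 1 ≤ H) (P : (Fin 2 × Fin 3 → ℤ) → (Fin (m + 1) → ℤ) → Prop) :
    (Nat.card {z : (Fin 2 × Fin 3 → ℤ) × (Fin (m + 1) → ℤ) // (∀ i, |z.1 i| ≤ (H : ℤ)) ∧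
      (∀ i, |z.2 i| ≤ (H : ℤ) ^ k) ∧ P z.1 z.2} : ℝ) ≤ 3 ^ (6 + (m + 1)) * (H : ℝ) ^ (6 + k * (m + 1)) := by
  classical
  rw [card_pairs (H : ℤ) ((H : ℤ) ^ k) P]
  have hH0 : (1 : ℝ) ≤ H := by exact_mod_cast hH
  have h1 : ∀ q : Fin 2 × Fin 3 → ℤ, Nat.card {F : Fin (m + 1) → ℤ // (∀ i, |F i| ≤ (H : ℤ) ^ k) ∧ P q F} ≤
      (2 * H ^ k + 1) ^ (m + 1) := by
    intro q
    rw [card_finset ((Fintype.piFinset (fun _ : Fin (m + 1) => Icc (-((H : ℤ) ^ k)) ((H : ℤ) ^ k))).filter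
      fun F => P q F)]
    · refine (Finset.card_filter_le _ _).trans (le_of_eq ?_)
      rw [Fintype.card_piFinset, prod_const, card_univ, Fintype.card_fin, Int.card_Icc]
      congr 1
      have : (H : ℤ) ^ k + 1 - -((H : ℤ) ^ k) = ((2 * H ^ k + 1 : ℕ) : ℤ) := by
        push_cast
        ring
      rw [this, Int.toNat_natCast]
    · intro F
      rw [mem_filter, Fintype.mem_piFinset]
      simp only [mem_Icc, abs_le]
  have h2 : (Fintype.piFinset (fun _ : Fin 2 × Fin 3 => Icc (-(H : ℤ)) (H : ℤ))).card = (2 * H + 1) ^ 6 := by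
    rw [Fintype.card_piFinset, prod_const, card_univ, Fintype.card_prod, Fintype.card_fin, Int.card_Icc]
    congr 1
    omega
  have h3 : ∑ q ∈ Fintype.piFinset (fun _ : Fin 2 × Fin 3 => Icc (-(H : ℤ)) (H : ℤ)),
      Nat.card {F : Fin (m + 1) → ℤ // (∀ i, |F i| ≤ (H : ℤ) ^ k) ∧ P q F} ≤
      (2 * H + 1) ^ 6 * (2 * H ^ k + 1) ^ (m + 1) := by
    refine (Finset.sum_le_card_nsmul _ _ _ fun q _ => h1 q).trans (le_of_eq ?_)
    rw [h2, nsmul_eq_mul]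
    push_cast
    ring
  have h4 : ((∑ q ∈ Fintype.piFinset (fun _ : Fin 2 × Fin 3 => Icc (-(H : ℤ)) (H : ℤ)),
      Nat.card {F : Fin (m + 1) → ℤ // (∀ i, |F i| ≤ (H : ℤ) ^ k) ∧ P q F} : ℕ) : ℝ) ≤
      (2 * (H : ℝ) + 1) ^ 6 * (2 * (H : ℝ) ^ k + 1) ^ (m + 1) := by exact_mod_cast h3
  refine h4.trans ?_
  have h5 : (1 : ℝ) ≤ (H : ℝ) ^ k := one_le_pow₀ hH0
  calc (2 * (H : ℝ) + 1) ^ 6 * (2 * (H : ℝ) ^ k + 1) ^ (m + 1)
      ≤ (3 * (H : ℝ)) ^ 6 * (3 * (H : ℝ) ^ k) ^ (m + 1) := by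
        gcongr
        · linarith
        · linarith
    _ = 3 ^ (6 + (m + 1)) * (H : ℝ) ^ (6 + k * (m + 1)) := by
        rw [mul_pow, mul_pow, ← pow_mul, pow_add, pow_add]
        ring

private theorem SM_split {ι κ : Type} [Fintype ι] [DecidableEq ι] [Fintype κ] [DecidableEq κ] (a b : ℤ)
    (P P₁ P₂ : (ι → ℤ) → (κ → ℤ) → Prop) (h : ∀ q F, P q F → P₁ q F ∨ P₂ q F) :
    Nat.card {z : (ι → ℤ) × (κ → ℤ) // (∀ i, |z.1 i| ≤ a) ∧ (∀ i, |z.2 i| ≤ b) ∧ P z.1 z.2} ≤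
      Nat.card {z : (ι → ℤ) × (κ → ℤ) // (∀ i, |z.1 i| ≤ a) ∧ (∀ i, |z.2 i| ≤ b) ∧ P₁ z.1 z.2} +
      Nat.card {z : (ι → ℤ) × (κ → ℤ) // (∀ i, |z.1 i| ≤ a) ∧ (∀ i, |z.2 i| ≤ b) ∧ P₂ z.1 z.2} := by
  classical
  have hBx : ∀ P : (ι → ℤ) → (κ → ℤ) → Prop,
      Nat.card {z : (ι → ℤ) × (κ → ℤ) // (∀ i, |z.1 i| ≤ a) ∧ (∀ i, |z.2 i| ≤ b) ∧ P z.1 z.2} =
      (((Fintype.piFinset (fun _ : ι => Icc (-a) a)) ×ˢ
        (Fintype.piFinset (fun _ : κ => Icc (-b) b))).filter fun z => P z.1 z.2).card := by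
    intro P
    refine card_finset _ ?_
    rintro ⟨q, F⟩
    rw [mem_filter, mem_product, Fintype.mem_piFinset, Fintype.mem_piFinset]
    simp only [mem_Icc, abs_le]
    exact ⟨fun h => ⟨h.1.1, h.1.2, h.2⟩, fun h => ⟨⟨h.1, h.2.1⟩, h.2.2⟩⟩
  rw [hBx P, hBx P₁, hBx P₂]
  refine (Finset.card_le_card ?_).trans (Finset.card_union_le _ _)
  intro z hz
  rw [mem_filter] at hz
  rw [mem_union, mem_filter, mem_filter]
  rcases h z.1 z.2 hz.2 with h' | h'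
  · exact Or.inl ⟨hz.1, h'⟩
  · exact Or.inr ⟨hz.1, h'⟩

/-- the sum over the pairs of quadratic forms -/
private theorem SM_main {C0 : ℕ} (hR2 : ∀ a b : ℤ, b ≠ 0 → a ^ 2 - 4 * b ≠ 0 →
    Few (81 * b - 27 * a ^ 2) (54 * a ^ 3 - 243 * (a * b))
      (b.natAbs.primeFactors.card + (a ^ 2 - 4 * b).natAbs.primeFactors.card + C0))
    {c : ℝ} (hc : 0 < c) {K₁ : ℕ} (hG : ∀ U : ℕ, K₁ ≤ U → ∀ p : ℕ, p.Prime → p % 4 = 3 → U ^ K₁ ≤ p →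
      (K₁ : ℝ) * Real.log p ≤ U → ∀ D : ZMod p, D ≠ 0 → c * (p : ℝ) ^ 6 / Real.log p ^ 3 ≤
      (Nat.card {v : Fin 2 × Fin 3 → ZMod p // gd p U D (fun i j => v (i, j))} : ℝ))
    {K : ℝ} (hK : 1 ≤ K) {X : ℕ} (hKX : (X : ℝ) / (K * Real.log X) ≤
      (((Icc 1 X).filter fun p : ℕ => p.Prime ∧ p % 4 = 3 ∧ (X : ℝ) / K < p).card : ℝ)) (hXc : 1 + c ≤ Real.log X)
    {n k : ℕ} (hn : Even n) (hk : 3 ≤ k) {C : ℝ} (hC : 1 ≤ C) (hbad : ∀ (S : Finset ℕ)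
      (X U H T w z : ℕ) (γ : ℝ), (∀ p ∈ S, p.Prime ∧ 29 ≤ p ∧ p ≤ X) → 0 ≤ γ →
      (∀ p ∈ S, ∀ D : ZMod p, D ≠ 0 → γ * (p : ℝ) ^ 6 ≤
        (Nat.card {v : Fin 2 × Fin 3 → ZMod p // gd p U D (fun i j => v (i, j))} : ℝ)) →
      1 ≤ H → 1 ≤ z → C * (X : ℝ) ^ (10 * T) ≤ H → ∏ p ∈ S, p ≤ H →
      (Nat.card {x : (Fin 2 × Fin 3 → ℤ) × (Fin (n + 4 + 1) → ℤ) // (∀ i, |x.1 i| ≤ (H : ℤ)) ∧
        (∀ i, |x.2 i| ≤ 10 * (H : ℤ) ^ k) ∧ RT (fun i j => x.1 (i, j)) x.2 ≠ 0 ∧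
        om (RT (fun i j => x.1 (i, j)) x.2) ≤ w ∧
        ∃ D : ℤ, Adm (fun i j => x.1 (i, j)) x.2 D ∧ nU S U (fun i j => x.1 (i, j)) D < T} : ℝ) ≤
        C * (H : ℝ) ^ (6 + k * (n + 4 + 1)) *
          ((((z ^ w * X ^ (10 * T)) ^ 2 : ℕ) : ℝ) * (5 / 4) ^ T *
              Real.exp (-(γ / 5 * ((S.card : ℝ) - Nat.log 2 ((z ^ w * X ^ (10 * T)) ^ 2)))) +
            (5 / 4) ^ (10 * T) * Real.exp (-(γ / 5 * (S.card : ℝ))) + ((w : ℝ) + 1) / z +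
            64 ^ w * (1 + Real.log H) ^ 2 * (1 / 2) ^ T))
    {H U t e Y w T z : ℕ} (hH : 1 ≤ H) (h4 : 4 ^ X ≤ H) (h29 : (29 : ℝ) ≤ X / K) (hU : 1 ≤ U)
    (hKU : K₁ ≤ U) (hUX : (U : ℝ) ^ K₁ ≤ X / K) (hlU : (K₁ : ℝ) * Real.log X ≤ U) (he : 3 * X ≤ 2 ^ e)
    (hY : 4 * U ≤ Y) (hXY : 3 * X ≤ Y * U) (ht : 2 * w + C0 + 4 ≤ t) {c₀ : ℝ} (hz : 1 ≤ z)
    (p1 : 2 * ((w : ℝ) + 1) * Real.log 2 + ((t : ℝ) + 1) * e * Y * Real.log 4 + w * Real.log (5 / 4) +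
      (Real.log H) ^ c₀ ≤ T * Real.log (5 / 4)) (p2 : C * (X : ℝ) ^ (10 * T) ≤ H)
    (p3 : 6 * (w * Real.log z + 10 * T * Real.log X) + 10 * T + (Real.log H) ^ c₀ ≤
      c / (5 * K) * X / (Real.log X) ^ 4)
    (p4 : ((w : ℝ) + 1) / z ≤ Real.exp (-(Real.log H) ^ c₀))
    (p5 : w * Real.log 64 + 2 * Real.log (1 + Real.log H) + (Real.log H) ^ c₀ ≤ T * Real.log 2) :
    (Nat.card {z : (Fin 2 × Fin 3 → ℤ) × (Fin (n + 4 + 1) → ℤ) // (∀ i, |z.1 i| ≤ (H : ℤ)) ∧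
      (∀ i, |z.2 i| ≤ (H : ℤ) ^ k) ∧ (SolT (fun i j => z.1 (i, j)) z.2 ∧ RT (fun i j => z.1 (i, j)) z.2 ≠ 0 ∧
        (RT (fun i j => z.1 (i, j)) z.2).natAbs.primeFactors.card ≤ w)} : ℝ) ≤
      (3 ^ 6 * 2 ^ (n + 1) * 21 ^ (n + 5) + 4 * C) * (H : ℝ) ^ (6 + k * (n + 5)) *
        Real.exp (-(Real.log H) ^ c₀) := by
  have hK0 : 0 < K := by linarith
  have hX29 : (29 : ℝ) ≤ X := h29.trans (div_le_self (Nat.cast_nonneg _) hK)
  have hX1 : 1 ≤ X := by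
    have : (1 : ℝ) ≤ X := by linarith
    exact_mod_cast this
  have hH0 : (1 : ℝ) ≤ H := by exact_mod_cast hH
  have hlX : 0 < Real.log X := Real.log_pos (by linarith)
  set S : Finset ℕ := (Icc 1 X).filter fun p : ℕ => p.Prime ∧ p % 4 = 3 ∧ (X : ℝ) / K < p with hS
  have hmem : ∀ p ∈ S, p.Prime ∧ p % 4 = 3 ∧ (X : ℝ) / K < p ∧ p ≤ X := by
    intro p hp
    rw [hS, mem_filter, mem_Icc] at hp
    exact ⟨hp.2.1, hp.2.2.1, hp.2.2.2, hp.1.2⟩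
  have hSp : ∀ p ∈ S, p.Prime := fun p hp => (hmem p hp).1
  have hS29 : ∀ p ∈ S, p.Prime ∧ 29 ≤ p ∧ p ≤ X := by
    intro p hp
    refine ⟨hSp p hp, ?_, (hmem p hp).2.2.2⟩
    have : (29 : ℝ) ≤ p := h29.trans (hmem p hp).2.2.1.le
    exact_mod_cast this
  have hq : ∏ p ∈ S, p ≤ H := by
    refine le_trans ?_ ((primorial_le_four_pow X).trans h4)
    unfold primorial
    refine Finset.prod_le_prod_of_subset_of_one_le' ?_ ?_
    · intro p hp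
      rw [mem_filter, mem_range]
      exact ⟨Nat.lt_succ_of_le (hmem p hp).2.2.2, hSp p hp⟩
    · intro p hp _
      rw [mem_filter] at hp
      exact hp.2.one_lt.le
  obtain ⟨γ, hγ⟩ : ∃ γ : ℝ, γ = c / (Real.log X) ^ 3 := ⟨_, rfl⟩
  have hγ0 : 0 ≤ γ := by
    rw [hγ]
    positivity
  have hγ5 : γ ≤ 5 := by
    rw [hγ, div_le_iff₀ (by positivity)]
    have h1 : Real.log X ≤ (Real.log X) ^ 3 := le_self_pow₀ (by linarith) (by norm_num)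
    linarith
  have hγ1 : ∀ p ∈ S, ∀ D : ZMod p, D ≠ 0 → γ * (p : ℝ) ^ 6 ≤
      (Nat.card {v : Fin 2 × Fin 3 → ZMod p // gd p U D (fun i j => v (i, j))} : ℝ) := by
    intro p hp D hD
    have hpX : (p : ℝ) ≤ X := by exact_mod_cast (hmem p hp).2.2.2
    have hp29 : (29 : ℝ) ≤ p := by exact_mod_cast (hS29 p hp).2.1
    have hlp : 0 < Real.log p := Real.log_pos (by linarith)
    have hlpX : Real.log p ≤ Real.log X := Real.log_le_log (by linarith) hpX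
    have hUp : U ^ K₁ ≤ p := by
      have : (U : ℝ) ^ K₁ ≤ p := hUX.trans (hmem p hp).2.2.1.le
      exact_mod_cast this
    have hKl : (K₁ : ℝ) * Real.log p ≤ U := le_trans (by gcongr) hlU
    refine le_trans ?_ (hG U hKU p (hSp p hp) (hmem p hp).2.1 hUp hKl D hD)
    rw [hγ, div_mul_eq_mul_div]
    gcongr
  have hγs : c / (5 * K) * X / (Real.log X) ^ 4 ≤ γ / 5 * (S.card : ℝ) := by
    have h5 : c / (5 * K) * X / (Real.log X) ^ 4 = γ / 5 * ((X : ℝ) / (K * Real.log X)) := by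
      rw [hγ]
      field_simp
    rw [h5]
    gcongr
  have hB := hbad S X U H T w z γ hS29 hγ0 hγ1 hH hz p2 hq
  have hbr := SM_bracket (s := (S.card : ℝ)) hX1 hz hγ0 hγ5 (Real.log_natCast_nonneg H) (p3.trans hγs) p4 p5
  obtain ⟨E, hE⟩ : ∃ E : ℝ, E = Real.exp (-(Real.log H) ^ c₀) := ⟨_, rfl⟩
  have hE0 : 0 ≤ E := by
    rw [hE]
    exact (Real.exp_pos _).le
  rw [← hE] at hbr ⊢
  have hB1 : (Nat.card {x : (Fin 2 × Fin 3 → ℤ) × (Fin (n + 4 + 1) → ℤ) // (∀ i, |x.1 i| ≤ (H : ℤ)) ∧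
        (∀ i, |x.2 i| ≤ 10 * (H : ℤ) ^ k) ∧ BadT S U w T (fun i j => x.1 (i, j)) x.2} : ℝ) ≤
      C * (H : ℝ) ^ (6 + k * (n + 5)) * (4 * E) := hB.trans (mul_le_mul_of_nonneg_left hbr (by positivity))
  have hA : 2 ^ (2 * (w + 1)) * ((primorial Y : ℝ) ^ e) ^ (t + 1) * (5 / 4) ^ w * (4 / 5) ^ T ≤ E := by
    rw [hE]
    exact SM_exp p1
  have hbd : ∀ q ∈ Fintype.piFinset (fun _ : Fin 2 × Fin 3 => Icc (-(H : ℤ)) (H : ℤ)),
      (Nat.card {F : Fin (n + 4 + 1) → ℤ // (∀ i, |F i| ≤ (H : ℤ) ^ k) ∧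
        (SolT (fun i j => q (i, j)) F ∧ RT (fun i j => q (i, j)) F ≠ 0 ∧
          (RT (fun i j => q (i, j)) F).natAbs.primeFactors.card ≤ w)} : ℝ) ≤
      2 ^ (n + 1) * (21 * (H : ℝ) ^ k) ^ (n + 5) * E +
      (Nat.card {F : Fin (n + 4 + 1) → ℤ // (∀ i, |F i| ≤ 10 * (H : ℤ) ^ k) ∧
        BadT S U w T (fun i j => q (i, j)) F} : ℝ) := by
    intro q hq'
    rw [Fintype.mem_piFinset] at hq'
    have hqH : ∀ (i : Fin 2) (j : Fin 3), |q (i, j)| ≤ (H : ℤ) := fun i j => abs_le.2 (mem_Icc.1 (hq' (i, j)))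
    refine (fibre (T := T) hR2 hn hk (fun i j => q (i, j)) hH hqH ht S hS29 hU hY hXY he hq).trans ?_
    gcongr
  rw [card_pairs (H : ℤ) ((H : ℤ) ^ k) fun q F => SolT (fun i j => q (i, j)) F ∧ RT (fun i j => q (i, j)) F ≠ 0 ∧
          (RT (fun i j => q (i, j)) F).natAbs.primeFactors.card ≤ w]
  rw [card_pairs (H : ℤ) (10 * (H : ℤ) ^ k) fun q F => BadT S U w T (fun i j => q (i, j)) F] at hB1
  push_cast at hB1 ⊢
  refine (Finset.sum_le_sum hbd).trans ?_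
  rw [Finset.sum_add_distrib, Finset.sum_const, nsmul_eq_mul]
  have h2 : ((Fintype.piFinset (fun _ : Fin 2 × Fin 3 => Icc (-(H : ℤ)) (H : ℤ))).card : ℝ) ≤ (3 * (H : ℝ)) ^ 6 := by
    rw [Fintype.card_piFinset, prod_const, card_univ, Fintype.card_prod, Fintype.card_fin, Fintype.card_fin,
      Int.card_Icc]
    have h3 : ((H : ℤ) + 1 - -(H : ℤ)).toNat = 2 * H + 1 := by omega
    rw [h3]
    push_cast
    refine pow_le_pow_left₀ (by positivity) ?_ 6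
    linarith
  calc ((Fintype.piFinset (fun _ : Fin 2 × Fin 3 => Icc (-(H : ℤ)) (H : ℤ))).card : ℝ) *
        (2 ^ (n + 1) * (21 * (H : ℝ) ^ k) ^ (n + 5) * E) +
        ∑ q ∈ Fintype.piFinset (fun _ : Fin 2 × Fin 3 => Icc (-(H : ℤ)) (H : ℤ)),
          (Nat.card {F : Fin (n + 4 + 1) → ℤ // (∀ i, |F i| ≤ 10 * (H : ℤ) ^ k) ∧
            BadT S U w T (fun i j => q (i, j)) F} : ℝ)
      ≤ (3 * (H : ℝ)) ^ 6 * (2 ^ (n + 1) * (21 * (H : ℝ) ^ k) ^ (n + 5) * E) +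
        C * (H : ℝ) ^ (6 + k * (n + 5)) * (4 * E) := by gcongr
    _ = (3 ^ 6 * 2 ^ (n + 1) * 21 ^ (n + 5) + 4 * C) * (H : ℝ) ^ (6 + k * (n + 5)) * E := by
        rw [mul_pow, mul_pow, ← pow_mul, pow_add]
        ring

/-- all but few curves `y² = q₀ q₁ F` have no rational points -/
theorem all_two (hR : FactR2) (hG : FactG2) : ∃ c : ℝ, 0 < c ∧ ∀ m k : ℕ, Even m → 4 ≤ m → m + 8 ≤ 2 * k →
    ∃ C : ℝ, ∀ H : ℕ, 1 ≤ H →
    (Nat.card {z : (Fin 2 × Fin 3 → ℤ) × (Fin (m + 1) → ℤ) // (∀ i, |z.1 i| ≤ (H : ℤ)) ∧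
      (∀ i, |z.2 i| ≤ (H : ℤ) ^ k) ∧ SolT (fun i j => z.1 (i, j)) z.2} : ℝ) ≤
      C * (H : ℝ) ^ (6 + k * (m + 1)) * Real.exp (-(Real.log H) ^ c) := by
  obtain ⟨C0, hR2⟩ := hR
  obtain ⟨cG, hcG, K₁, hG⟩ := hG
  obtain ⟨K, hK, x₀, hpr⟩ := primes34
  obtain ⟨c₀, hc₀, hc₁, hpar⟩ := par_T K₁
  refine ⟨c₀, hc₀, fun m k hm h4m hmk => ?_⟩
  obtain ⟨n, rfl⟩ : ∃ n, m = n + 4 := ⟨m - 4, by omega⟩
  have hn : Even n := by
    rcases hm with ⟨r, hr⟩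
    exact ⟨r - 2, by omega⟩
  have hk3 : 3 ≤ k := by omega
  obtain ⟨CO, hCO⟩ := factOT hc₀ hc₁ (n + 4) k (by omega)
  obtain ⟨CB, hCB, hbad⟩ := bad_count h4m hmk
  have hK0 : 0 < K := by linarith
  obtain ⟨H₀, hH₀⟩ := hpar K (cG / (5 * K)) CB C0 hK (by positivity) hCB (max x₀ (Real.exp (1 + cG)))
  have hlog0 : ∀ H : ℕ, 1 ≤ H → 0 ≤ Real.log (H : ℝ) := fun H hH => Real.log_nonneg (by exact_mod_cast hH)
  refine ⟨|CO| + (3 ^ 6 * 2 ^ (n + 1) * 21 ^ (n + 5) + 4 * CB) + 3 ^ (6 + (n + 5)) * Real.exp ((Real.log H₀) ^ c₀),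
    fun H hH => ?_⟩
  obtain ⟨N, hN⟩ : ∃ N : ℝ, N = (H : ℝ) ^ (6 + k * (n + 5)) := ⟨_, rfl⟩
  have hN' : (H : ℝ) ^ (6 + k * (n + 4 + 1)) = N := hN.symm
  obtain ⟨E, hE⟩ : ∃ E : ℝ, E = Real.exp (-(Real.log H) ^ c₀) := ⟨_, rfl⟩
  have hE0 : 0 < E := by
    rw [hE]
    exact Real.exp_pos _
  have hN0 : 0 ≤ N := by
    rw [hN]
    positivity
  rw [hN', ← hE]
  have hNE : 0 ≤ N * E := by positivity
  have h3E : 0 ≤ 3 ^ (6 + (n + 5)) * Real.exp ((Real.log H₀) ^ c₀) := by positivity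
  rcases lt_or_ge H H₀ with hlt | hge
  · have h1 := SM_small (k := k) hH (fun q (F : Fin (n + 4 + 1) → ℤ) => SolT (fun i j => q (i, j)) F)
    refine h1.trans ?_
    have h2 : (1 : ℝ) ≤ Real.exp ((Real.log H₀) ^ c₀) * E := by
      rw [hE, ← Real.exp_add]
      refine Real.one_le_exp ?_
      have : (Real.log H) ^ c₀ ≤ (Real.log H₀) ^ c₀ := by
        refine Real.rpow_le_rpow (hlog0 H hH) ?_ hc₀.le
        exact Real.log_le_log (by exact_mod_cast hH) (by exact_mod_cast hlt.le)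
      linarith
    rw [hN']
    have h3 : (0 : ℝ) ≤ 3 ^ (6 + (n + 5)) * N := by positivity
    have h4 : (0 : ℝ) ≤ (|CO| + (3 ^ 6 * 2 ^ (n + 1) * 21 ^ (n + 5) + 4 * CB)) * (N * E) := by
      have : 0 ≤ |CO| := abs_nonneg _
      positivity
    have h5 := mul_le_mul_of_nonneg_left h2 h3
    calc (3 : ℝ) ^ (6 + (n + 4 + 1)) * N = 3 ^ (6 + (n + 5)) * N * 1 := by ring
      _ ≤ 3 ^ (6 + (n + 5)) * N * (Real.exp ((Real.log H₀) ^ c₀) * E) := h5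
      _ ≤ (|CO| + (3 ^ 6 * 2 ^ (n + 1) * 21 ^ (n + 5) + 4 * CB)) * (N * E) +
          3 ^ (6 + (n + 5)) * N * (Real.exp ((Real.log H₀) ^ c₀) * E) := le_add_of_nonneg_left h4
      _ = (|CO| + (3 ^ 6 * 2 ^ (n + 1) * 21 ^ (n + 5) + 4 * CB) +
          3 ^ (6 + (n + 5)) * Real.exp ((Real.log H₀) ^ c₀)) * N * E := by ring
  · obtain ⟨X, U, t, e, Y, w, T, z, hx₀, h4X, h29, hU, hKU, hUX, hlU, he, hY, hXY, hw, ht, hz, p1, p2, p3, p4, p5⟩ :=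
      hH₀ H hge
    have hX0 : (0 : ℝ) < X := lt_of_lt_of_le (Real.exp_pos (1 + cG)) ((le_max_right _ _).trans hx₀)
    have hXc : 1 + cG ≤ Real.log X := by
      rw [Real.le_log_iff_exp_le hX0]
      exact (le_max_right _ _).trans hx₀
    have hmain := SM_main hR2 hcG hG hK (hpr X ((le_max_left _ _).trans hx₀)) hXc hn hk3 hCB hbad hH h4X h29 hU hKU hUX
      hlU he hY hXY ht hz p1 p2 p3 p4 p5
    have hfo := hCO H hH
    rw [hN', ← hE] at hfo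
    rw [← hN, ← hE] at hmain
    have hsplit : Nat.card {z : (Fin 2 × Fin 3 → ℤ) × (Fin (n + 4 + 1) → ℤ) // (∀ i, |z.1 i| ≤ (H : ℤ)) ∧
        (∀ i, |z.2 i| ≤ (H : ℤ) ^ k) ∧ SolT (fun i j => z.1 (i, j)) z.2} ≤
        Nat.card {z : (Fin 2 × Fin 3 → ℤ) × (Fin (n + 4 + 1) → ℤ) // (∀ i, |z.1 i| ≤ (H : ℤ)) ∧
          (∀ i, |z.2 i| ≤ (H : ℤ) ^ k) ∧ (RT (fun i j => z.1 (i, j)) z.2 = 0 ∨
            Real.log H ^ (3 * c₀) < ((RT (fun i j => z.1 (i, j)) z.2).natAbs.primeFactors.card : ℝ))} +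
        Nat.card {z : (Fin 2 × Fin 3 → ℤ) × (Fin (n + 4 + 1) → ℤ) // (∀ i, |z.1 i| ≤ (H : ℤ)) ∧
          (∀ i, |z.2 i| ≤ (H : ℤ) ^ k) ∧ (SolT (fun i j => z.1 (i, j)) z.2 ∧ RT (fun i j => z.1 (i, j)) z.2 ≠ 0 ∧
            (RT (fun i j => z.1 (i, j)) z.2).natAbs.primeFactors.card ≤ w)} := by
      refine SM_split (H : ℤ) ((H : ℤ) ^ k) (fun q F => SolT (fun i j => q (i, j)) F)
        (fun q F => RT (fun i j => q (i, j)) F = 0 ∨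
            Real.log H ^ (3 * c₀) < ((RT (fun i j => q (i, j)) F).natAbs.primeFactors.card : ℝ))
        (fun q F => SolT (fun i j => q (i, j)) F ∧ RT (fun i j => q (i, j)) F ≠ 0 ∧
            (RT (fun i j => q (i, j)) F).natAbs.primeFactors.card ≤ w) ?_
      intro q F hz
      by_cases hb : RT (fun i j => q (i, j)) F = 0 ∨
            Real.log H ^ (3 * c₀) < ((RT (fun i j => q (i, j)) F).natAbs.primeFactors.card : ℝ)
      · exact Or.inl hb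
      · right
        rw [not_or, not_lt] at hb
        refine ⟨hz, hb.1, ?_⟩
        exact_mod_cast hb.2.trans hw
    have hsp : (Nat.card {z : (Fin 2 × Fin 3 → ℤ) × (Fin (n + 4 + 1) → ℤ) // (∀ i, |z.1 i| ≤ (H : ℤ)) ∧
        (∀ i, |z.2 i| ≤ (H : ℤ) ^ k) ∧ SolT (fun i j => z.1 (i, j)) z.2} : ℝ) ≤
        (Nat.card {z : (Fin 2 × Fin 3 → ℤ) × (Fin (n + 4 + 1) → ℤ) // (∀ i, |z.1 i| ≤ (H : ℤ)) ∧
          (∀ i, |z.2 i| ≤ (H : ℤ) ^ k) ∧ (RT (fun i j => z.1 (i, j)) z.2 = 0 ∨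
            Real.log H ^ (3 * c₀) < ((RT (fun i j => z.1 (i, j)) z.2).natAbs.primeFactors.card : ℝ))} : ℝ) +
        (Nat.card {z : (Fin 2 × Fin 3 → ℤ) × (Fin (n + 4 + 1) → ℤ) // (∀ i, |z.1 i| ≤ (H : ℤ)) ∧
          (∀ i, |z.2 i| ≤ (H : ℤ) ^ k) ∧ (SolT (fun i j => z.1 (i, j)) z.2 ∧ RT (fun i j => z.1 (i, j)) z.2 ≠ 0 ∧
            (RT (fun i j => z.1 (i, j)) z.2).natAbs.primeFactors.card ≤ w)} : ℝ) := by
      exact_mod_cast hsplit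
    refine hsp.trans ((add_le_add hfo hmain).trans ?_)
    have h6 : CO * N * E ≤ |CO| * N * E := by
      gcongr
      exact le_abs_self _
    have h7 : (0 : ℝ) ≤ 3 ^ (6 + (n + 5)) * Real.exp ((Real.log H₀) ^ c₀) * (N * E) := by positivity
    calc CO * N * E + (3 ^ 6 * 2 ^ (n + 1) * 21 ^ (n + 5) + 4 * CB) * N * E
        ≤ |CO| * N * E + (3 ^ 6 * 2 ^ (n + 1) * 21 ^ (n + 5) + 4 * CB) * N * E +
          3 ^ (6 + (n + 5)) * Real.exp ((Real.log H₀) ^ c₀) * (N * E) := by linarith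
      _ = (|CO| + (3 ^ 6 * 2 ^ (n + 1) * 21 ^ (n + 5) + 4 * CB) +
          3 ^ (6 + (n + 5)) * Real.exp ((Real.log H₀) ^ c₀)) * N * E := by ring

end HT
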