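import Pool.Agent.Lib.MP_10e784_agH.KL
import Pool.Agent.Lib.MP_10e784_agHG.GK
import Pool.Agent.Lib.MP_10e784_agHR.Fin
import Pool.Agent.Lib.MP_10e784_agHT.PH
import Pool.Agent.Lib.MP_10e784_agHT.SM

/-!
# Hyperelliptic curves `y² = q₀ q₁ F`: stage 1
-/

set_option autoImplicit false

namespace HT

/-- for every even degree `m ≥ 4` and every `k` with `m + 8 ≤ 2 k`: all but `C H^(6 + k (m + 1)) exp (-(log H)^c)` of the
curves `y² = q₀ q₁ F` with `q₀, q₁` in the box `H` and `F` in the box `H^k` have no point -/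
theorem stage1 : ∃ c : ℝ, 0 < c ∧ ∀ m k : ℕ, Even m → 4 ≤ m → m + 8 ≤ 2 * k → ∃ C : ℝ, ∀ H : ℕ, 1 ≤ H →
    (Nat.card {z : (Fin 2 × Fin 3 → ℤ) × (Fin (m + 1) → ℤ) // (∀ i, |z.1 i| ≤ (H : ℤ)) ∧
      (∀ i, |z.2 i| ≤ (H : ℤ) ^ k) ∧ SolT (fun i j => z.1 (i, j)) z.2} : ℝ) ≤
      C * (H : ℝ) ^ (6 + k * (m + 1)) * Real.exp (-(Real.log H) ^ c) :=
  all_two HYR.factR2 (factG2 (HYG.factG HY.factK))

end HT
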