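import Pool.Agent.Lib.MP_10e784_agHT.Defs
import Pool.Agent.Lib.MP_10e784_agH.PA
import Pool.Agent.Lib.MP_10e784_agH.SA
import Pool.Agent.Lib.MP_10e784_agH.SB

/-!
# The density of the local condition

-/

set_option autoImplicit false

namespace HT

open HY

private theorem SC_e {p : ℕ} [Fact p.Prime] {n : ℕ} (hn : Even n) (q : Fin 2 → Fin 3 → ZMod p)
    (f : Fin (n + 4 + 1) → ZMod p) (d : Fin 2 → ZMod p) (hd : ∀ k, d k ≠ 0) (c : ZMod p × ZMod p) :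
    ∃ e : ZMod p, ∀ (Q : Fin (n + 1) → ZMod p) (t : ZMod p), t ≠ 0 →
      (∀ k, ∃ s, s ≠ 0 ∧ qe (q k) (t * c.1) (t * c.2) = d k * s ^ 2) →
      IsSquare (d 0 * d 1 * (fe f (t * c.1) (t * c.2) + qe (q 0) (t * c.1) (t * c.2) *
        qe (q 1) (t * c.1) (t * c.2) * fe Q (t * c.1) (t * c.2))) →
      IsSquare (∑ i, Q i * evv n c i + e) := by
  by_cases hS : ∀ k, ∃ s, s ≠ 0 ∧ qe (q k) c.1 c.2 = d k * s ^ 2
  · choose s hs0 hs using hS
    obtain ⟨m, hm⟩ := hn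
    have hδ : d 0 * d 1 ≠ 0 := mul_ne_zero (hd 0) (hd 1)
    have hσ : s 0 * s 1 ≠ 0 := mul_ne_zero (hs0 0) (hs0 1)
    refine ⟨fe f c.1 c.2 / (d 0 * d 1 * (s 0 * s 1) ^ 2), ?_⟩
    intro Q t ht _ hsq
    rw [← fe_evv]
    rw [fe_smul, fe_smul, qe_smul, qe_smul, hs 0, hs 1] at hsq
    obtain ⟨r, hr⟩ := hsq
    have hτ : t ^ (m + 2) * (d 0 * d 1) * (s 0 * s 1) ≠ 0 :=
      mul_ne_zero (mul_ne_zero (pow_ne_zero _ ht) hδ) hσ
    have h6 : t ^ (n + 4) = (t ^ (m + 2)) ^ 2 := by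
      rw [← pow_mul]
      congr 1
      omega
    have h7 : t ^ (n + 4) = t ^ 4 * t ^ n := by
      rw [← pow_add]
      congr 1
      omega
    refine ⟨r / (t ^ (m + 2) * (d 0 * d 1) * (s 0 * s 1)), ?_⟩
    rw [div_mul_div_comm, ← hr, eq_div_iff (mul_ne_zero hτ hτ)]
    have h8 : fe f c.1 c.2 / (d 0 * d 1 * (s 0 * s 1) ^ 2) *
        (d 0 * d 1 * (s 0 * s 1) ^ 2) = fe f c.1 c.2 :=
      div_mul_cancel₀ _ (mul_ne_zero hδ (pow_ne_zero 2 hσ))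
    calc (fe Q c.1 c.2 + fe f c.1 c.2 / (d 0 * d 1 * (s 0 * s 1) ^ 2)) *
        (t ^ (m + 2) * (d 0 * d 1) * (s 0 * s 1) *
          (t ^ (m + 2) * (d 0 * d 1) * (s 0 * s 1)))
        = (t ^ (m + 2)) ^ 2 * (d 0 * d 1) * ((d 0 * d 1) * (s 0 * s 1) ^ 2 *
          fe Q c.1 c.2 + fe f c.1 c.2 / (d 0 * d 1 * (s 0 * s 1) ^ 2) *
            (d 0 * d 1 * (s 0 * s 1) ^ 2)) := by ring
      _ = t ^ (n + 4) * (d 0 * d 1) * ((d 0 * d 1) * (s 0 * s 1) ^ 2 *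
          fe Q c.1 c.2 + fe f c.1 c.2) := by rw [h8, h6]
      _ = d 0 * d 1 * (t ^ (n + 4) * fe f c.1 c.2 + t ^ (n + 4) *
          ((d 0 * d 1) * (s 0 * s 1) ^ 2 * fe Q c.1 c.2)) := by ring
      _ = d 0 * d 1 * (t ^ (n + 4) * fe f c.1 c.2 + t ^ 4 * t ^ n *
          ((d 0 * d 1) * (s 0 * s 1) ^ 2 * fe Q c.1 c.2)) := by rw [← h7]
      _ = _ := by ring
  · refine ⟨0, ?_⟩
    intro Q t ht hk _
    exfalso
    apply hS
    intro k
    obtain ⟨s, hs0, hs⟩ := hk k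
    refine ⟨s / t, div_ne_zero hs0 ht, ?_⟩
    rw [qe_smul] at hs
    rw [div_pow, ← mul_div_assoc, ← hs, mul_comm, mul_div_assoc, div_self (pow_ne_zero 2 ht), mul_one]

private theorem SC_nz {p : ℕ} [Fact p.Prime] (hp : 29 ≤ p) : (3 : ZMod p) ≠ 0 := by
  intro h
  have h1 : ((3 : ℕ) : ZMod p) = 0 := by exact_mod_cast h
  rw [ZMod.natCast_eq_zero_iff] at h1
  have := Nat.le_of_dvd (by norm_num) h1
  omega

theorem loc_dens {p : ℕ} [Fact p.Prime] (hp : 29 ≤ p) {n : ℕ} (hn : Even n) (q : Fin 2 → Fin 3 → ZMod p)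
    (f : Fin (n + 4 + 1) → ZMod p) (d : Fin 2 → ZMod p) (hd : ∀ k, d k ≠ 0) (hi : dq (q 0) ≠ 0)
    (hr : rq (q 0) (q 1) ≠ 0) (ζ : Option (ZMod p × ZMod p)) :
    (Nat.card (LocT p n q f d ζ) : ℝ) ≤ 4 / 5 * (p : ℝ) ^ (n + 1) := by
  rcases ζ with _ | ⟨ξ, η⟩
  · have h0 : LocT p n q f d none = ∅ := by
      rw [Set.eq_empty_iff_forall_notMem]
      rintro Q ⟨x, z, _, _, ⟨η, hη⟩, _⟩
      exact absurd hη (by simp)
    have h1 : Nat.card (LocT p n q f d none) = 0 := by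
      rw [h0]
      exact Nat.card_of_isEmpty
    rw [h1, Nat.cast_zero]
    positivity
  · have h3 := SC_nz (p := p) hp
    have hD : d 0 * d 1 ≠ 0 := mul_ne_zero (hd 0) (hd 1)
    obtain ⟨A, hA⟩ : ∃ A : ZMod p, A = ξ + 3 * (d 0 * d 1) * bq (q 0) (q 1) := ⟨_, rfl⟩
    obtain ⟨B, hB⟩ : ∃ B : ZMod p, B = 9 * (d 0 * d 1) * dq (q 0) := ⟨_, rfl⟩
    have hB0 : B ≠ 0 := by
      rw [hB]
      have h9 : (9 : ZMod p) ≠ 0 := by
        have : (9 : ZMod p) = 3 * 3 := by norm_num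
        rw [this]
        exact mul_ne_zero h3 h3
      exact mul_ne_zero (mul_ne_zero h9 hD) hi
    obtain ⟨u, hu⟩ : ∃ u : Fin 3 → ZMod p, ∀ m, u m = A * q 0 m - B * q 1 m := ⟨_, fun _ => rfl⟩
    have hu0 : u ≠ 0 := by
      intro h0
      have e : ∀ m, B * q 1 m = A * q 0 m := by
        intro m
        have h1 := hu m
        rw [h0, Pi.zero_apply] at h1
        linear_combination h1
      apply hr
      have m1 : q 0 0 * q 1 2 - q 0 2 * q 1 0 = 0 := by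
        refine (mul_eq_zero.1 ?_).resolve_left hB0
        linear_combination (q 0 0) * e 2 - (q 0 2) * e 0
      have m2 : q 0 2 * q 1 1 - q 0 1 * q 1 2 = 0 := by
        refine (mul_eq_zero.1 ?_).resolve_left hB0
        linear_combination (q 0 2) * e 1 - (q 0 1) * e 2
      unfold rq
      rw [m1, m2]
      ring
    obtain ⟨c, hc0, hc⟩ := zeros2 u hu0
    obtain ⟨e₀, he₀⟩ := SC_e hn q f d hd (c 0)
    obtain ⟨e₁, he₁⟩ := SC_e hn q f d hd (c 1)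
    have hsub : LocT p n q f d (some (ξ, η)) ⊆
        {Q : Fin (n + 1) → ZMod p | IsSquare (∑ i, Q i * evv n (c 0) i + e₀) ∨
          IsSquare (∑ i, Q i * evv n (c 1) i + e₁)} := by
      rintro Q ⟨x, z, hxz, hk, ⟨η', hη⟩, hsq⟩
      have hξ : ξ = 9 * (d 0 * d 1) * dq (q 0) * qe (q 1) x z * (qe (q 0) x z)⁻¹ -
          3 * (d 0 * d 1) * bq (q 0) (q 1) := (Prod.mk.inj (Option.some.inj hη)).1
      have hqi : qe (q 0) x z ≠ 0 := by
        obtain ⟨s, hs0, hs⟩ := hk 0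
        rw [hs]
        exact mul_ne_zero (hd 0) (pow_ne_zero 2 hs0)
      have h1 : A * qe (q 0) x z = B * qe (q 1) x z := by
        rw [hA, hB, hξ, sub_add_cancel, mul_assoc, inv_mul_cancel₀ hqi, mul_one]
      have h2 : qe u x z = 0 := by
        have h4 : qe u x z = A * qe (q 0) x z - B * qe (q 1) x z := by
          unfold qe
          rw [hu, hu, hu]
          ring
        rw [h4, h1, sub_self]
      obtain ⟨a, t, ht, hx, hz⟩ := hc x z hxz h2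
      rw [hx, hz] at hk hsq
      fin_cases a
      · exact Or.inl (he₀ Q t ht hk hsq)
      · exact Or.inr (he₁ Q t ht hk hsq)
    have hcard := Nat.card_mono (Set.toFinite _) hsub
    have hd2 := dens2 hp (evv n (c 0)) (evv n (c 1)) (evv_ne n (c 0) (hc0 0))
      (evv_dich hn (c 0) (c 1) (hc0 0) (hc0 1)) e₀ e₁
    rw [Fintype.card_fin] at hd2
    refine le_trans ?_ hd2
    exact_mod_cast hcard

end HT
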